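import Mathlib
import Pool.Agent.Lib.MP_ae5b4e_an_LAT.NDSlope
import Pool.Agent.Lib.MP_ae5b4e_an_LAT.NDTwo

/-!
# MP_ae5b4e_an, flexes of the curve: definitions

`x` is a parameter of the complexified curve `γ` and a point near `γ` is given by the parameters
`x` and `x + y` of the two tangent lines through it.  The involution of the tangent line at `x`
takes it to the point of the tangent lines at `x` and `x - Yf (x, y)`.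
-/

noncomputable section

namespace Pool.Agent.MP_ae5b4e_an_FLEX

open Filter Topology
open Pool.Agent.MP_ae5b4e_an_ND (cc cf co Dx Dy Filt)

/-- The map of consecutive pairs. -/
def TY (Yf : ℂ × ℂ → ℂ) (p : ℂ × ℂ) : ℂ × ℂ := (p.1 - Yf p, Yf p)

/-- The inverse of `TY Yf` near the axis. -/
def TI (Yf : ℂ × ℂ → ℂ) (p : ℂ × ℂ) : ℂ × ℂ := (p.1 + p.2, -Yf (p.1 + p.2, -p.2))

/-- `Yf` is a kick near the point `(x₀, 0)` of the axis. -/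
structure Kick (Yf : ℂ × ℂ → ℂ) (x₀ : ℂ) : Prop where
  ana : AnalyticAt ℂ Yf (x₀, 0)
  zero : ∀ᶠ x in 𝓝 x₀, Yf (x, 0) = 0
  der : ∀ᶠ x in 𝓝 x₀, deriv (fun y => Yf (x, y)) 0 = 1
  rev : ∀ᶠ p in 𝓝 ((x₀, 0) : ℂ × ℂ), Yf (p.1, -Yf p) = -p.2

/-- The kick `Yf` has an analytic first integral near `(x₀, 0)`, which vanishes on the axis and has
a nonzero `y`-derivative. -/
def GoodY (Yf : ℂ × ℂ → ℂ) (x₀ : ℂ) : Prop :=
  Kick Yf x₀ ∧ ∃ S : ℂ × ℂ → ℂ, AnalyticAt ℂ S (x₀, 0) ∧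
    (∀ᶠ x in 𝓝 x₀, S (x, 0) = 0) ∧ deriv (fun y => S (x₀, y)) 0 ≠ 0 ∧
    ∀ᶠ p in 𝓝 ((x₀, 0) : ℂ × ℂ), S (TY Yf p) = S p

/-- An abstract map near the axis with an inverse and bounds. -/
structure BdT (T J : ℂ × ℂ → ℂ × ℂ) (R1 M rg : ℝ) : Prop where
  hM : 1 ≤ M
  hR : 0 < R1
  hrg : 0 < rg
  hT : ∀ p : ℂ × ℂ, ‖p.1‖ < R1 → ‖p.2‖ < rg → AnalyticAt ℂ T p ∧
    ‖(T p).2 - p.2‖ ≤ M * ‖p.2‖ ^ 2 ∧ ‖(T p).1 - (p.1 - p.2)‖ ≤ M * ‖p.2‖ ^ 2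
  hJ : ∀ p : ℂ × ℂ, ‖p.1‖ < R1 → ‖p.2‖ < rg → AnalyticAt ℂ J p ∧
    ‖(J p).2 - p.2‖ ≤ M * ‖p.2‖ ^ 2 ∧ ‖(J p).1 - (p.1 + p.2)‖ ≤ M * ‖p.2‖ ^ 2 ∧ T (J p) = p

/-- the iterates of `T`, of integer order -/
def TZ (T J : ℂ × ℂ → ℂ × ℂ) (k : ℤ) (p : ℂ × ℂ) : ℂ × ℂ :=
  if 0 ≤ k then T^[k.toNat] p else J^[(-k).toNat] p

/-- `S` is analytic near `(x, 0)` and invariant under `T` there, for all `x` of `ball 0 s` -/
def EE (T : ℂ × ℂ → ℂ × ℂ) (S : ℂ × ℂ → ℂ) (s : ℝ) : Prop :=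
  ∀ x ∈ Metric.ball (0 : ℂ) s, AnalyticAt ℂ S (x, 0) ∧ ∀ᶠ p in 𝓝 (x, (0 : ℂ)), S (T p) = S p

/-! ### slope coefficients -/

/-- The coefficient of `y ^ (m + j)` in `Yf ^ m`. -/
def Pc (Yf : ℂ × ℂ → ℂ) (m j : ℕ) : ℂ → ℂ := fun x => cf (fun y => Yf (x, y) ^ m) (m + j)

/-- The right hand side of the recursion for the slope coefficients. -/
def slopeRecY (P : ℕ → ℕ → ℂ → ℂ) (q : ℕ → ℂ → ℂ) (n : ℕ) : ℂ → ℂ := fun x =>
  -P 1 n x - ∑ j ∈ Finset.Ico 1 n, P 1 j x * q (n - j) x +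
    ∑ m ∈ Finset.Icc 2 n, ((-1) ^ m / (m.factorial : ℂ)) *
      ∑ j ∈ Finset.range (n + 1 - m), P m j x * cc (fun _ => 1) q m (n + 1 - m - j) x

/-- Successive approximations of the sequence of slope coefficients. -/
def slopeAppY (P : ℕ → ℕ → ℂ → ℂ) : ℕ → ℕ → ℂ → ℂ
  | 0 => fun _ _ => 0
  | n + 1 => Function.update (slopeAppY P n) (n + 1) (slopeRecY P (slopeAppY P n) (n + 1))

/-- The slope coefficients: universal differential polynomials in the coefficients `P m j`. -/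
def slopeY (P : ℕ → ℕ → ℂ → ℂ) (n : ℕ) : ℂ → ℂ := slopeAppY P n n

/-- The slope `dy/dx` of the level curves, as the sum of its series. -/
def sY (Yf : ℂ × ℂ → ℂ) (x y : ℂ) : ℂ := ∑' n, slopeY (Pc Yf) n x * y ^ n

/-- The invariance of the slope under the map. -/
def FIY (Yf : ℂ × ℂ → ℂ) (x y : ℂ) : Prop :=
  sY Yf (x - Yf (x, y)) (Yf (x, y)) * (1 - (Dx Yf (x, y) + sY Yf x y * Dy Yf (x, y))) =
    Dx Yf (x, y) + sY Yf x y * Dy Yf (x, y)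

/-! ### places -/

/-- The kick near a flex or a cusp `x = 0` of the curve: `Yf (x, y) = x A (x, y / x)`. -/
structure PlaceY (Yf A : ℂ × ℂ → ℂ) (δ : ℝ) : Prop where
  δ_pos : 0 < δ
  A_ana : ∀ x η : ℂ, ‖x‖ < δ → ‖η‖ < δ → AnalyticAt ℂ A (x, η)
  A_zero : ∀ x : ℂ, ‖x‖ < δ → A (x, 0) = 0
  A_der : ∀ x : ℂ, ‖x‖ < δ → deriv (fun η => A (x, η)) 0 = 1
  good : ∀ x : ℂ, x ≠ 0 → ‖x‖ < δ → GoodY Yf x
  eq : ∀ x : ℂ, x ≠ 0 → ‖x‖ < δ →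
    ∀ᶠ p in 𝓝 ((x, 0) : ℂ × ℂ), Yf p = p.1 * A (p.1, p.2 / p.1)

/-- The sum of the series in `η = y / x`. -/
def bs (b : ℕ → ℂ → ℂ) (w η : ℂ) : ℂ := ∑' n, b n w * η ^ n

/-- The invariance of the slope, in the coordinates `x = w`, `η = y / x`. -/
def FIA (A : ℂ × ℂ → ℂ) (b : ℕ → ℂ → ℂ) (w η : ℂ) : Prop :=
  bs b (w * (1 - A (w, η))) (A (w, η) / (1 - A (w, η))) *
    (1 - (A (w, η) + w * Dx A (w, η) + (bs b w η - η) * Dy A (w, η))) =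
    A (w, η) + w * Dx A (w, η) + (bs b w η - η) * Dy A (w, η)

/-- The slope coefficients at a place, with bounds. -/
structure SerY (Yf A : ℂ × ℂ → ℂ) (δ C : ℝ) (b : ℕ → ℂ → ℂ) : Prop where
  place : PlaceY Yf A δ
  C_pos : 0 < C
  b_diff : ∀ n, DifferentiableOn ℂ (b n) (Metric.ball 0 δ)
  b_zero : ∀ w, b 0 w = 0
  b_one : ∀ w, ‖w‖ < δ → b 1 w = -cf (fun η => A (w, η)) 2
  b_eq : ∀ n w, w ≠ 0 → ‖w‖ < δ → slopeY (Pc Yf) n w = b n w / w ^ n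
  b_bound : ∀ n w, ‖w‖ < δ → ‖b n w‖ ≤ C ^ n

/-! ### one variable -/

/-- The half plane `-μ < Re U` without the real segment `(-μ, 0]`. -/
def Hp (μ : ℝ) : Set ℂ := {U | -μ < U.re ∧ (U.im = 0 → 0 < U.re)}

/-- The uniformization of a type of singular points: `r` is the quotient of the two parameters,
`U = 1 / m0 (r - 1)` the coordinate on the tangent line, `M U = -U(1 / r)`. -/
structure UPlane (m0 : ℂ → ℂ) (μ ε e : ℝ) (r M : ℂ → ℂ) : Prop where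
  μ_pos : 0 < μ
  ε_pos : 0 < ε
  r_diff : DifferentiableOn ℂ r (Hp μ)
  r_ne : ∀ U ∈ Hp μ, r U ≠ 0
  M_diff : DifferentiableOn ℂ M (Hp μ)
  M_re : ∀ U ∈ Hp μ, μ < (M U).re
  M_inc : ∀ U : ℂ, μ < U.re → U.re + ε ≤ (M U).re
  zero_r : Tendsto (fun U => U * deriv r U / r U) (𝓝[Hp μ] 0) (𝓝 (-(e : ℂ)))
  zero_M : ∃ M0 : ℂ, μ < M0.re ∧ Tendsto M (𝓝[Hp μ] 0) (𝓝 M0)
  zero_M' : Tendsto (fun U => U * deriv M U) (𝓝[Hp μ] 0) (𝓝 0)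
  inf : ∃ R > 0, ∀ U : ℂ, R < ‖U‖ → DifferentiableAt ℂ r U ∧ DifferentiableAt ℂ M U ∧
    m0 (r U - 1) = U⁻¹ ∧ r (-(M U)) = (r U)⁻¹
  r_inf : Tendsto r (Bornology.cobounded ℂ) (𝓝 1)
  M_inf : Tendsto M (Bornology.cobounded ℂ) (Bornology.cobounded ℂ)

/-- a flex `w = x ^ 3` -/
def mFlex (η : ℂ) : ℂ := η * (3 + 2 * η) / (3 * (2 + η))

/-- a cusp `(x, w) = (t ^ 2, t ^ 3)` -/
def mCusp (η : ℂ) : ℂ := η * (3 + η) / 6

/-! ### geometry -/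

/-- `[γ s - γ t, γ' s]` -/
def brN (X Y : ℂ → ℂ) (t s : ℂ) : ℂ := (X s - X t) * deriv Y s - (Y s - Y t) * deriv X s

/-- `[γ' t, γ' s]` -/
def brD (X Y : ℂ → ℂ) (t s : ℂ) : ℂ := deriv X t * deriv Y s - deriv Y t * deriv X s

/-- `[γ', γ'']` -/
def Wr (X Y : ℂ → ℂ) (t : ℂ) : ℂ :=
  deriv X t * deriv (deriv Y) t - deriv Y t * deriv (deriv X) t

/-- `[γ'', γ''']` -/
def Wr2 (X Y : ℂ → ℂ) (t : ℂ) : ℂ :=
  deriv (deriv X) t * deriv (deriv (deriv Y)) t - deriv (deriv Y) t * deriv (deriv (deriv X)) t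

/-- `Yf` is the kick of the curve `(X, Y)` with the involutions `u ↦ K t - u` of the tangent lines,
where `u` is the coordinate of the point `γ t + γ' t / u`; the point of the tangent lines at `t`
and `s` has the coordinate `brD t s / brN t s`. -/
def IsKick (X Y K : ℂ → ℂ) (Yf : ℂ × ℂ → ℂ) (t₀ : ℂ) : Prop :=
  Kick Yf t₀ ∧ ∀ᶠ p in 𝓝 ((t₀, 0) : ℂ × ℂ),
    brD X Y p.1 (p.1 + p.2) * brN X Y p.1 (p.1 - Yf p) +
      brD X Y p.1 (p.1 - Yf p) * brN X Y p.1 (p.1 + p.2) =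
    K p.1 * brN X Y p.1 (p.1 + p.2) * brN X Y p.1 (p.1 - Yf p)

/-- regular points: everything is analytic and the curve has no flex or cusp -/
def RegG (X Y K : ℂ → ℂ) (t : ℂ) : Prop :=
  AnalyticAt ℂ X t ∧ AnalyticAt ℂ Y t ∧ AnalyticAt ℂ K t ∧ Wr X Y t ≠ 0

/-- good points of the curve -/
def GoodG (X Y K : ℂ → ℂ) (t : ℂ) : Prop :=
  RegG X Y K t ∧ ∃ Yf, IsKick X Y K Yf t ∧ GoodY Yf t

end Pool.Agent.MP_ae5b4e_an_FLEX
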