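import Pool.Agent.Lib.MP_ae5b4e_an_FLEX.Defs
import Pool.Agent.Lib.MP_ae5b4e_an_LAT.NDPropag

/-!
# MP_ae5b4e_an, flexes of the curve, module FS: division by `y` of the brackets
-/

noncomputable section

namespace Pool.Agent.MP_ae5b4e_an_FLEX

open Filter Topology Set Metric
open Pool.Agent.MP_ae5b4e_an_ND (cc cf co Dx Dy Filt)

namespace GeoM

/-- derivatives of a product with the variable -/
theorem deriv_mul_id {F G : ℂ → ℂ} (hG : AnalyticAt ℂ G 0) (h : ∀ᶠ y in 𝓝 (0 : ℂ), F y = y * G y) :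
    deriv F 0 = G 0 ∧ deriv (deriv F) 0 = 2 * deriv G 0 ∧
      deriv (deriv (deriv F)) 0 = 3 * deriv (deriv G) 0 := by
  have h0 : F =ᶠ[𝓝 0] fun y => y * G y := h
  have ha : ∀ᶠ y in 𝓝 (0 : ℂ), AnalyticAt ℂ G y := hG.eventually_analyticAt
  have h1 : deriv F =ᶠ[𝓝 0] fun y => G y + y * deriv G y := by
    refine h0.deriv.trans ?_
    filter_upwards [ha] with y hy
    have h2 := (hasDerivAt_id' y).fun_mul hy.differentiableAt.hasDerivAt
    rw [h2.deriv]
    ring
  have h2 : deriv (deriv F) =ᶠ[𝓝 0] fun y => 2 * deriv G y + y * deriv (deriv G) y := by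
    refine h1.deriv.trans ?_
    filter_upwards [ha] with y hy
    have h3 := hy.differentiableAt.hasDerivAt.fun_add
      ((hasDerivAt_id' y).fun_mul hy.deriv.differentiableAt.hasDerivAt)
    rw [h3.deriv]
    ring
  have h3 : deriv (deriv (deriv F)) =ᶠ[𝓝 0]
      fun y => 3 * deriv (deriv G) y + y * deriv (deriv (deriv G)) y := by
    refine h2.deriv.trans ?_
    filter_upwards [ha] with y hy
    have h4 := (hy.deriv.differentiableAt.hasDerivAt.const_mul 2).fun_add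
      ((hasDerivAt_id' y).fun_mul hy.deriv.deriv.differentiableAt.hasDerivAt)
    rw [h4.deriv]
    ring
  refine ⟨?_, ?_, ?_⟩
  · rw [h1.eq_of_nhds]
    ring
  · rw [h2.eq_of_nhds]
    ring
  · rw [h3.eq_of_nhds]
    ring

theorem hasDerivAt_shift {f : ℂ → ℂ} {t y : ℂ} (hf : AnalyticAt ℂ f (t + y)) :
    HasDerivAt (fun y => f (t + y)) (deriv f (t + y)) y :=
  HasDerivAt.comp_const_add t y hf.differentiableAt.hasDerivAt

theorem eventually_shift {f : ℂ → ℂ} {t : ℂ} (hf : AnalyticAt ℂ f t) :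
    ∀ᶠ y in 𝓝 (0 : ℂ), AnalyticAt ℂ f (t + y) := by
  have h1 : Tendsto (fun y : ℂ => t + y) (𝓝 0) (𝓝 t) := by
    have h2 : Continuous fun y : ℂ => t + y := by fun_prop
    have h3 := h2.tendsto 0
    rwa [add_zero] at h3
  exact h1.eventually hf.eventually_analyticAt

theorem deriv_Wr {X Y : ℂ → ℂ} {t : ℂ} (hX : AnalyticAt ℂ X t) (hY : AnalyticAt ℂ Y t) :
    deriv (Wr X Y) t = deriv X t * deriv (deriv (deriv Y)) t -
      deriv Y t * deriv (deriv (deriv X)) t := by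
  have h1 := (hX.deriv.differentiableAt.hasDerivAt.fun_mul
    hY.deriv.deriv.differentiableAt.hasDerivAt).fun_sub
    (hY.deriv.differentiableAt.hasDerivAt.fun_mul hX.deriv.deriv.differentiableAt.hasDerivAt)
  have h2 : deriv (Wr X Y) t = _ := h1.deriv
  rw [h2]
  ring

theorem derivs_D {X Y : ℂ → ℂ} {t : ℂ} (hX : AnalyticAt ℂ X t) (hY : AnalyticAt ℂ Y t) :
    deriv (fun y => brD X Y t (t + y)) 0 = Wr X Y t ∧
      deriv (deriv (fun y => brD X Y t (t + y))) 0 = deriv (Wr X Y) t := by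
  have h1 : deriv (fun y => brD X Y t (t + y)) =ᶠ[𝓝 0]
      fun y => deriv X t * deriv (deriv Y) (t + y) - deriv Y t * deriv (deriv X) (t + y) := by
    filter_upwards [eventually_shift hX, eventually_shift hY] with y hx hy
    exact (((hasDerivAt_shift hy.deriv).const_mul (deriv X t)).fun_sub
      ((hasDerivAt_shift hx.deriv).const_mul (deriv Y t))).deriv
  have h2 : deriv (deriv (fun y => brD X Y t (t + y))) 0 =
      deriv X t * deriv (deriv (deriv Y)) (t + 0) - deriv Y t * deriv (deriv (deriv X)) (t + 0) := by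
    rw [h1.deriv_eq]
    have hx : AnalyticAt ℂ X (t + 0) := by rwa [add_zero]
    have hy : AnalyticAt ℂ Y (t + 0) := by rwa [add_zero]
    exact (((hasDerivAt_shift hy.deriv.deriv).const_mul (deriv X t)).fun_sub
      ((hasDerivAt_shift hx.deriv.deriv).const_mul (deriv Y t))).deriv
  constructor
  · rw [h1.eq_of_nhds]
    simp [Wr]
  · rw [h2, deriv_Wr hX hY, add_zero]

theorem derivs_N {X Y : ℂ → ℂ} {t : ℂ} (hX : AnalyticAt ℂ X t) (hY : AnalyticAt ℂ Y t) :
    deriv (fun y => brN X Y t (t + y)) 0 = 0 ∧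
      deriv (deriv (fun y => brN X Y t (t + y))) 0 = Wr X Y t ∧
      deriv (deriv (deriv (fun y => brN X Y t (t + y)))) 0 = 2 * deriv (Wr X Y) t := by
  have hsx := eventually_shift hX
  have hsy := eventually_shift hY
  have h1 : deriv (fun y => brN X Y t (t + y)) =ᶠ[𝓝 0]
      fun y => (X (t + y) - X t) * deriv (deriv Y) (t + y) -
        (Y (t + y) - Y t) * deriv (deriv X) (t + y) := by
    filter_upwards [hsx, hsy] with y hx hy
    have h2 := (((hasDerivAt_shift hx).sub_const (X t)).fun_mul (hasDerivAt_shift hy.deriv)).fun_sub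
      (((hasDerivAt_shift hy).sub_const (Y t)).fun_mul (hasDerivAt_shift hx.deriv))
    have h3 : deriv (fun y => brN X Y t (t + y)) y = _ := h2.deriv
    rw [h3]
    ring
  have h2 : deriv (deriv (fun y => brN X Y t (t + y))) =ᶠ[𝓝 0]
      fun y => deriv X (t + y) * deriv (deriv Y) (t + y) +
        (X (t + y) - X t) * deriv (deriv (deriv Y)) (t + y) -
        (deriv Y (t + y) * deriv (deriv X) (t + y) +
        (Y (t + y) - Y t) * deriv (deriv (deriv X)) (t + y)) := by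
    refine h1.deriv.trans ?_
    filter_upwards [hsx, hsy] with y hx hy
    exact ((((hasDerivAt_shift hx).sub_const (X t)).fun_mul
      (hasDerivAt_shift hy.deriv.deriv)).fun_sub
      (((hasDerivAt_shift hy).sub_const (Y t)).fun_mul (hasDerivAt_shift hx.deriv.deriv))).deriv
  have hx : AnalyticAt ℂ X (t + 0) := by rwa [add_zero]
  have hy : AnalyticAt ℂ Y (t + 0) := by rwa [add_zero]
  refine ⟨?_, ?_, ?_⟩
  · rw [h1.eq_of_nhds]
    simp
  · rw [h2.eq_of_nhds]
    simp [Wr]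
  · rw [h2.deriv_eq]
    have h3 := (((hasDerivAt_shift hx.deriv).fun_mul (hasDerivAt_shift hy.deriv.deriv)).fun_add
      (((hasDerivAt_shift hx).sub_const (X t)).fun_mul
      (hasDerivAt_shift hy.deriv.deriv.deriv))).fun_sub
      (((hasDerivAt_shift hy.deriv).fun_mul (hasDerivAt_shift hx.deriv.deriv)).fun_add
      (((hasDerivAt_shift hy).sub_const (Y t)).fun_mul (hasDerivAt_shift hx.deriv.deriv.deriv)))
    rw [h3.deriv, deriv_Wr hX hY]
    simp only [add_zero, sub_self]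
    ring

end GeoM

open GeoM in
/-- division by `y` -/
theorem exists_ND {X Y : ℂ → ℂ} {t₀ : ℂ} (hX : AnalyticAt ℂ X t₀) (hY : AnalyticAt ℂ Y t₀) :
    ∃ N D : ℂ × ℂ → ℂ, AnalyticAt ℂ N (t₀, 0) ∧ AnalyticAt ℂ D (t₀, 0) ∧
      (∀ᶠ p in 𝓝 ((t₀, 0) : ℂ × ℂ), brN X Y p.1 (p.1 + p.2) = p.2 ^ 2 * N p ∧
        brD X Y p.1 (p.1 + p.2) = p.2 * D p) ∧
      (∀ᶠ t in 𝓝 t₀, N (t, 0) = Wr X Y t / 2 ∧ D (t, 0) = Wr X Y t ∧
        deriv (fun y => N (t, y)) 0 = deriv (Wr X Y) t / 3 ∧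
        deriv (fun y => D (t, y)) 0 = deriv (Wr X Y) t / 2) := by
  -- analyticity
  have hf : ∀ {f : ℂ → ℂ}, AnalyticAt ℂ f t₀ →
      AnalyticAt ℂ (fun p : ℂ × ℂ => f p.1) (t₀, 0) := by
    intro f hf
    exact hf.comp_of_eq analyticAt_fst rfl
  have hs : ∀ {f : ℂ → ℂ}, AnalyticAt ℂ f t₀ →
      AnalyticAt ℂ (fun p : ℂ × ℂ => f (p.1 + p.2)) (t₀, 0) := by
    intro f hf
    exact hf.comp_of_eq (analyticAt_fst.add analyticAt_snd) (by simp)
  have hD : AnalyticAt ℂ (fun p : ℂ × ℂ => brD X Y p.1 (p.1 + p.2)) (t₀, 0) :=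
    ((hf hX.deriv).mul (hs hY.deriv)).sub ((hf hY.deriv).mul (hs hX.deriv))
  have hN : AnalyticAt ℂ (fun p : ℂ × ℂ => brN X Y p.1 (p.1 + p.2)) (t₀, 0) :=
    (((hs hX).sub (hf hX)).mul (hs hY.deriv)).sub (((hs hY).sub (hf hY)).mul (hs hX.deriv))
  obtain ⟨D, hDa, hDe, hD0⟩ := Pool.Agent.MP_ae5b4e_an_ND.exists_div_y hD
    (Eventually.of_forall fun t => by simp [brD]; ring)
  obtain ⟨G, hGa, hGe, hG0⟩ := Pool.Agent.MP_ae5b4e_an_ND.exists_div_y hN
    (Eventually.of_forall fun t => by simp [brN])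
  have hXe := hX.eventually_analyticAt
  have hYe := hY.eventually_analyticAt
  obtain ⟨N, hNa, hNe, hN0⟩ := Pool.Agent.MP_ae5b4e_an_ND.exists_div_y hGa (by
    filter_upwards [hG0, hXe, hYe] with t h1 hx hy
    rw [h1]
    exact (derivs_N hx hy).1)
  refine ⟨N, D, hNa, hDa, ?_, ?_⟩
  · filter_upwards [hDe, hGe, hNe] with p h1 h2 h3
    refine ⟨?_, h1⟩
    rw [h2, h3]
    ring
  · have hline : ∀ {f : ℂ × ℂ → ℂ} {t : ℂ}, AnalyticAt ℂ f (t, 0) →
        AnalyticAt ℂ (fun y : ℂ => f (t, y)) 0 := by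
      intro f t hf
      exact hf.comp_of_eq (analyticAt_const.prod analyticAt_id) rfl
    have hDa' := hDa.eventually_analyticAt.curry_nhds
    have hGa' := hGa.eventually_analyticAt.curry_nhds
    have hNa' := hNa.eventually_analyticAt.curry_nhds
    filter_upwards [hXe, hYe, hD0, hG0, hN0, hDe.curry_nhds, hGe.curry_nhds, hNe.curry_nhds, hDa',
      hGa', hNa'] with t hx hy h1 h2 h3 h4 h5 h6 h7 h8 h9
    have d1 := derivs_D hx hy
    have d2 := derivs_N hx hy
    have e1 := deriv_mul_id (hline h7.self_of_nhds) h4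
    have e2 := deriv_mul_id (hline h8.self_of_nhds) h5
    have e3 := deriv_mul_id (hline h9.self_of_nhds) h6
    have k1 : 2 * N (t, 0) = Wr X Y t := by
      rw [← d2.2.1, ← e3.1, ← e2.2.1]
    have k2 : 3 * (2 * deriv (fun y => N (t, y)) 0) = 2 * deriv (Wr X Y) t := by
      rw [← d2.2.2, ← e3.2.1, ← e2.2.2]
    have k3 : D (t, 0) = Wr X Y t := by
      rw [← d1.1, ← e1.1]
    have k4 : 2 * deriv (fun y => D (t, y)) 0 = deriv (Wr X Y) t := by
      rw [← d1.2, ← e1.2.1]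
    refine ⟨?_, k3, ?_, ?_⟩
    · rw [← k1]
      ring
    · linear_combination k2 / 6
    · rw [← k4]
      ring

end Pool.Agent.MP_ae5b4e_an_FLEX
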