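import Pool.Agent.Lib.MP_ae5b4e_an_FLEX.Defs
import Pool.Agent.Lib.MP_ae5b4e_an_LAT.NDGeoX0

/-!
# MP_ae5b4e_an, project FLEX, module FR: the kick as an implicit function
-/

noncomputable section

namespace Pool.Agent.MP_ae5b4e_an_FLEX

open Filter Topology Set Metric
open Pool.Agent.MP_ae5b4e_an_ND (cc cf co Dx Dy Filt)
open Pool.Agent.MP_ae5b4e_an_GeoX (implicit_analytic2)

namespace FR

/-- the `y`-derivative on the axis -/
theorem hasDeriv_snd {f : ℂ × ℂ → ℂ} {t y : ℂ} (hf : AnalyticAt ℂ f (t, y)) :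
    HasDerivAt (fun y => f (t, y)) (fderiv ℂ f (t, y) (0, 1)) y := by
  have h1 : HasFDerivAt f (fderiv ℂ f (t, y)) (t, y) := hf.differentiableAt.hasFDerivAt
  have h2 : HasDerivAt (fun y : ℂ => ((t, y) : ℂ × ℂ)) (0, 1) y :=
    (hasDerivAt_const y t).prodMk (hasDerivAt_id y)
  exact h1.comp_hasDerivAt y h2

theorem deriv_snd {f : ℂ × ℂ → ℂ} {t y : ℂ} (hf : AnalyticAt ℂ f (t, y)) :
    deriv (fun y => f (t, y)) y = fderiv ℂ f (t, y) (0, 1) := (hasDeriv_snd hf).deriv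

theorem eventually_axis {P : ℂ × ℂ → Prop} {t₀ : ℂ} (h : ∀ᶠ p in 𝓝 ((t₀, 0) : ℂ × ℂ), P p) :
    ∀ᶠ t in 𝓝 t₀, P (t, 0) := by
  have hc : ContinuousAt (fun t : ℂ => ((t, 0) : ℂ × ℂ)) t₀ := by fun_prop
  exact hc.eventually h

theorem eventually_axis' {P : ℂ × ℂ → Prop} {t₀ : ℂ} (h : ∀ᶠ p in 𝓝 ((t₀, 0) : ℂ × ℂ), P p) :
    ∀ᶠ t in 𝓝 t₀, ∀ᶠ y in 𝓝 (0 : ℂ), P (t, y) := by
  filter_upwards [eventually_axis (eventually_eventually_nhds.2 h)] with t ht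
  have hc : ContinuousAt (fun y : ℂ => ((t, y) : ℂ × ℂ)) 0 := by fun_prop
  exact hc.eventually ht

end FR

/-- the kick as an implicit function -/
theorem exists_kick {m : ℂ × ℂ → ℂ} {k : ℂ → ℂ} {t₀ : ℂ} (hm : AnalyticAt ℂ m (t₀, 0))
    (hm0 : ∀ᶠ t in 𝓝 t₀, m (t, 0) = 0) (hm1 : deriv (fun y => m (t₀, y)) 0 ≠ 0)
    (hk : AnalyticAt ℂ k t₀) :
    ∃ A : ℂ × ℂ → ℂ, Kick A t₀ ∧
      (∀ᶠ p in 𝓝 ((t₀, 0) : ℂ × ℂ), m (p.1, -A p) * (k p.1 * m p - 1) = m p) ∧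
      ∃ ρ > 0, ∀ t y y' : ℂ, ‖t - t₀‖ < ρ → ‖y‖ < ρ → ‖y'‖ < ρ →
        m (t, -y') * (k t * m (t, y) - 1) = m (t, y) → y' = A (t, y) := by
  let F : (ℂ × ℂ) × ℂ → ℂ := fun q => m (q.1.1, -q.2) * (k q.1.1 * m q.1 - 1) - m q.1
  have hmt : m (t₀, 0) = 0 := hm0.self_of_nhds
  have hFa : AnalyticAt ℂ F (((t₀, 0) : ℂ × ℂ), (0 : ℂ)) := by
    have e1 : AnalyticAt ℂ (fun q : (ℂ × ℂ) × ℂ => m q.1) (((t₀, 0) : ℂ × ℂ), (0 : ℂ)) :=
      AnalyticAt.comp (g := m) (f := fun q : (ℂ × ℂ) × ℂ => q.1) hm analyticAt_fst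
    have e2 : AnalyticAt ℂ (fun q : (ℂ × ℂ) × ℂ => k q.1.1) (((t₀, 0) : ℂ × ℂ), (0 : ℂ)) :=
      AnalyticAt.comp (g := k) (f := fun q : (ℂ × ℂ) × ℂ => q.1.1) hk
        (analyticAt_fst.comp analyticAt_fst)
    have e3 : AnalyticAt ℂ (fun q : (ℂ × ℂ) × ℂ => m (q.1.1, -q.2))
        (((t₀, 0) : ℂ × ℂ), (0 : ℂ)) := by
      refine AnalyticAt.comp (g := m) (f := fun q : (ℂ × ℂ) × ℂ => (q.1.1, -q.2)) ?_
        ((analyticAt_fst.comp analyticAt_fst).prod analyticAt_snd.neg)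
      rw [neg_zero]
      exact hm
    exact (e3.mul ((e2.mul e1).sub analyticAt_const)).sub e1
  have hF0 : F (((t₀, 0) : ℂ × ℂ), (0 : ℂ)) = 0 := by
    change m (t₀, -0) * (k t₀ * m (t₀, 0) - 1) - m (t₀, 0) = 0
    rw [neg_zero, hmt]
    ring
  have hFd : HasDerivAt (fun z => F (((t₀, 0) : ℂ × ℂ), z)) (deriv (fun y => m (t₀, y)) 0) 0 := by
    have h1 : HasDerivAt (fun y => m (t₀, y)) (deriv (fun y => m (t₀, y)) 0) (-(0 : ℂ)) := by
      rw [neg_zero, FR.deriv_snd hm]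
      exact FR.hasDeriv_snd hm
    have h2 : HasDerivAt (fun z : ℂ => m (t₀, -z)) (deriv (fun y => m (t₀, y)) 0 * (-1)) 0 :=
      HasDerivAt.comp (h₂ := fun y => m (t₀, y)) (h := fun z : ℂ => -z) (0 : ℂ) h1
        (hasDerivAt_neg (0 : ℂ))
    have h3 := (h2.mul_const (k t₀ * m (t₀, 0) - 1)).sub_const (m (t₀, 0))
    rw [hmt] at h3
    change HasDerivAt (fun z => m (t₀, -z) * (k t₀ * m (t₀, 0) - 1) - m (t₀, 0)) _ 0
    rw [hmt]
    have h4 : deriv (fun y => m (t₀, y)) 0 * (-1) * (k t₀ * 0 - 1) =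
        deriv (fun y => m (t₀, y)) 0 := by ring
    rw [h4] at h3
    exact h3
  obtain ⟨A, hA, hA0, hiff⟩ := implicit_analytic2 hFa hF0 hm1 hFd
  have hAc : ContinuousAt A (t₀, 0) := hA.continuousAt
  -- the equation
  have heq : ∀ᶠ p in 𝓝 ((t₀, 0) : ℂ × ℂ), m (p.1, -A p) * (k p.1 * m p - 1) = m p := by
    have hc : Tendsto (fun p : ℂ × ℂ => (p, A p)) (𝓝 (t₀, 0)) (𝓝 ((t₀, 0), 0)) := by
      have h1 : Tendsto (fun p : ℂ × ℂ => (p, A p)) (𝓝 (t₀, 0)) (𝓝 ((t₀, 0), A (t₀, 0))) :=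
        (continuousAt_id (x := ((t₀, 0) : ℂ × ℂ))).prodMk hAc
      rwa [hA0] at h1
    filter_upwards [hc.eventually hiff] with p hp
    have := hp.2 rfl
    exact sub_eq_zero.1 this
  -- zero
  have hz : ∀ᶠ t in 𝓝 t₀, A (t, 0) = 0 := by
    have hc : ContinuousAt (fun t : ℂ => (((t, 0) : ℂ × ℂ), (0 : ℂ))) t₀ := by fun_prop
    filter_upwards [hc.eventually hiff, hm0] with t ht hmt'
    refine ht.1 ?_
    change m (t, -0) * (k t * m (t, 0) - 1) - m (t, 0) = 0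
    rw [neg_zero, hmt']
    ring
  -- the derivative of `m` near the axis
  have hmy : ∀ᶠ t in 𝓝 t₀, fderiv ℂ m (t, 0) (0, 1) ≠ 0 := by
    have hc : ContinuousAt (fun t : ℂ => fderiv ℂ m (t, 0) (0, 1)) t₀ := by
      have h1 : ContinuousAt (fderiv ℂ m) (t₀, 0) := hm.fderiv.continuousAt
      have h2 : ContinuousAt (fun t : ℂ => ((t, 0) : ℂ × ℂ)) t₀ := by fun_prop
      have h3 : ContinuousAt (fun t : ℂ => fderiv ℂ m (t, 0)) t₀ :=
        ContinuousAt.comp (g := fderiv ℂ m) (f := fun t : ℂ => ((t, 0) : ℂ × ℂ)) h1 h2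
      exact h3.clm_apply continuousAt_const
    refine hc.eventually_ne ?_
    rw [← FR.deriv_snd hm]
    exact hm1
  have hder : ∀ᶠ t in 𝓝 t₀, deriv (fun y => A (t, y)) 0 = 1 := by
    filter_upwards [hz, hm0, hmy, FR.eventually_axis hA.eventually_analyticAt,
      FR.eventually_axis hm.eventually_analyticAt, FR.eventually_axis' heq] with t h0 h1 h2 h3 h4 h5
    have dA := FR.hasDeriv_snd h3
    have dm := FR.hasDeriv_snd h4
    set a := fderiv ℂ A (t, 0) (0, 1)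
    set μ := fderiv ℂ m (t, 0) (0, 1)
    have dA' : HasDerivAt (fun y => -A (t, y)) (-a) 0 := dA.neg
    have dm' : HasDerivAt (fun y => m (t, y)) μ (-A (t, 0)) := by
      rw [h0, neg_zero]
      exact dm
    have dc : HasDerivAt (fun y => m (t, -A (t, y))) (μ * -a) 0 :=
      HasDerivAt.comp (h₂ := fun y => m (t, y)) (h := fun y => -A (t, y)) (0 : ℂ) dm' dA'
    have dk : HasDerivAt (fun y => k t * m (t, y) - 1) (k t * μ) 0 :=
      (dm.const_mul (k t)).sub_const 1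
    have dp := dc.mul dk
    have hu := dp.unique (dm.congr_of_eventuallyEq h5)
    rw [h0, neg_zero, h1] at hu
    rw [dA.deriv]
    have h6 : μ * (a - 1) = 0 := by linear_combination hu
    rcases mul_eq_zero.1 h6 with h | h
    · exact absurd h h2
    · exact sub_eq_zero.1 h
  have hrev : ∀ᶠ p in 𝓝 ((t₀, 0) : ℂ × ℂ), A (p.1, -A p) = -p.2 := by
    have hc : Tendsto (fun p : ℂ × ℂ => ((p.1, -A p), -p.2)) (𝓝 (t₀, 0)) (𝓝 ((t₀, 0), 0)) := by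
      have h1 : Tendsto (fun p : ℂ × ℂ => -A p) (𝓝 (t₀, 0)) (𝓝 0) := by
        have h0 : Tendsto (fun p : ℂ × ℂ => -A p) (𝓝 (t₀, 0)) (𝓝 (-A (t₀, 0))) := hAc.neg
        rwa [hA0, neg_zero] at h0
      have h2 : Tendsto (fun p : ℂ × ℂ => -p.2) (𝓝 (t₀, 0)) (𝓝 0) := by
        have : ContinuousAt (fun p : ℂ × ℂ => -p.2) (t₀, 0) := by fun_prop
        simpa using this.tendsto
      have h3 : Tendsto (fun p : ℂ × ℂ => p.1) (𝓝 (t₀, 0)) (𝓝 t₀) :=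
        (continuousAt_fst (p := ((t₀, 0) : ℂ × ℂ))).tendsto
      exact (h3.prodMk_nhds h1).prodMk_nhds h2
    filter_upwards [heq, hc.eventually hiff] with p h1 h2
    refine h2.1 ?_
    change m (p.1, -(-p.2)) * (k p.1 * m (p.1, -A p) - 1) - m (p.1, -A p) = 0
    rw [neg_neg]
    change m p * (k p.1 * m (p.1, -A p) - 1) - m (p.1, -A p) = 0
    linear_combination h1
  refine ⟨A, ⟨hA, hz, hder, hrev⟩, heq, ?_⟩
  obtain ⟨ρ, hρ, hρ'⟩ := Metric.eventually_nhds_iff.1 hiff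
  refine ⟨ρ, hρ, fun t y y' ht hy hy' he => ?_⟩
  have hd : dist (((t, y) : ℂ × ℂ), y') ((t₀, 0), 0) < ρ := by
    rw [Prod.dist_eq, Prod.dist_eq]
    refine max_lt (max_lt ?_ ?_) ?_
    · rw [dist_eq_norm]
      exact ht
    · rw [dist_zero_right]
      exact hy
    · rw [dist_zero_right]
      exact hy'
  refine ((hρ' hd).1 ?_).symm
  change m (t, -y') * (k t * m (t, y) - 1) - m (t, y) = 0
  rw [he, sub_self]

end Pool.Agent.MP_ae5b4e_an_FLEX
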