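import Mathlib
import Pool.Agent.Lib.MP_ae5b4e_an_FLEX.Defs
import Pool.Agent.Lib.MP_ae5b4e_an_FLEX.Ks
import Pool.Agent.Lib.MP_ae5b4e_an_FLEX.GeoM
import Pool.Agent.Lib.MP_ae5b4e_an_LAT.NDP

/-!
# MP_ae5b4e_an, flexes of the curve: the kick of the curve (module FT)

At a regular point of the curve the kick exists and is unique as a germ; on an open set of regular
points the germs are glued.
-/

noncomputable section

namespace Pool.Agent.MP_ae5b4e_an_FLEX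

open Filter Topology Set Metric
open Pool.Agent.MP_ae5b4e_an_ND (cc cf co Dx Dy Filt)

namespace GeoK

/-- `(x, 0)` is near `(x₀, 0)` if `x` is near `x₀`. -/
lemma tendsto_axis (x₀ : ℂ) : Tendsto (fun x : ℂ => ((x, 0) : ℂ × ℂ)) (𝓝 x₀) (𝓝 (x₀, 0)) := by
  have : Continuous (fun x : ℂ => ((x, 0) : ℂ × ℂ)) := by fun_prop
  exact this.tendsto x₀

lemma tendsto_vert (x : ℂ) : Tendsto (fun y : ℂ => ((x, y) : ℂ × ℂ)) (𝓝 0) (𝓝 (x, 0)) := by
  have : Continuous (fun y : ℂ => ((x, y) : ℂ × ℂ)) := by fun_prop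
  exact this.tendsto 0

/-- `(x, -Yf (x, y))` is near `(x₀, 0)`. -/
lemma tendsto_kick {Yf : ℂ × ℂ → ℂ} {x₀ : ℂ} (hc : ContinuousAt Yf (x₀, 0)) (h0 : Yf (x₀, 0) = 0) :
    Tendsto (fun p : ℂ × ℂ => ((p.1, -Yf p) : ℂ × ℂ)) (𝓝 (x₀, 0)) (𝓝 (x₀, 0)) := by
  have h1 : Tendsto (fun p : ℂ × ℂ => p.1) (𝓝 ((x₀, 0) : ℂ × ℂ)) (𝓝 x₀) :=
    continuous_fst.tendsto (x₀, (0:ℂ))
  have h2 : Tendsto (fun p : ℂ × ℂ => -Yf p) (𝓝 ((x₀, 0) : ℂ × ℂ)) (𝓝 0) := by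
    have h3 : Tendsto Yf (𝓝 ((x₀, 0) : ℂ × ℂ)) (𝓝 0) := by
      have := hc.tendsto
      rwa [h0] at this
    simpa using h3.neg
  rw [show 𝓝 ((x₀, 0) : ℂ × ℂ) = 𝓝 x₀ ×ˢ 𝓝 (0:ℂ) from nhds_prod_eq] at h1 h2 ⊢
  exact h1.prodMk h2

lemma Kick.zero_self {Yf : ℂ × ℂ → ℂ} {x₀ : ℂ} (h : Kick Yf x₀) : Yf (x₀, 0) = 0 :=
  h.zero.self_of_nhds

/-- being a kick is an open condition -/
lemma Kick.open {Yf : ℂ × ℂ → ℂ} {x₀ : ℂ} (h : Kick Yf x₀) : ∀ᶠ x in 𝓝 x₀, Kick Yf x := by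
  filter_upwards [(tendsto_axis x₀).eventually h.ana.eventually_analyticAt,
    h.zero.eventually_nhds, h.der.eventually_nhds,
    (tendsto_axis x₀).eventually h.rev.eventually_nhds] with x h1 h2 h3 h4
  exact ⟨h1, h2, h3, h4⟩

lemma Kick.congr {f g : ℂ × ℂ → ℂ} {x₀ : ℂ} (h : Kick f x₀)
    (e : g =ᶠ[𝓝 ((x₀, 0) : ℂ × ℂ)] f) : Kick g x₀ where
  ana := h.ana.congr e.symm
  zero := by
    filter_upwards [h.zero, (tendsto_axis x₀).eventually e] with x h1 h2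
    rw [h2, h1]
  der := by
    filter_upwards [h.der, (tendsto_axis x₀).eventually e.eventually_nhds] with x h1 h2
    rw [← h1]
    exact Filter.EventuallyEq.deriv_eq ((tendsto_vert x).eventually h2)
  rev := by
    filter_upwards [h.rev, e, (tendsto_kick h.ana.continuousAt (Kick.zero_self h)).eventually e]
      with p h1 h2 h3
    rw [h2, h3, h1]

end GeoK

open GeoK

/-- the kick relation is an open condition and depends on the germ only -/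
lemma IsKick.open {X Y K : ℂ → ℂ} {Yf : ℂ × ℂ → ℂ} {t₀ : ℂ} (h : IsKick X Y K Yf t₀) :
    ∀ᶠ t in 𝓝 t₀, IsKick X Y K Yf t := by
  filter_upwards [Kick.open h.1, (tendsto_axis t₀).eventually h.2.eventually_nhds] with t h1 h2
  exact ⟨h1, h2⟩

lemma IsKick.congr {X Y K : ℂ → ℂ} {f g : ℂ × ℂ → ℂ} {t₀ : ℂ} (h : IsKick X Y K f t₀)
    (e : g =ᶠ[𝓝 ((t₀, 0) : ℂ × ℂ)] f) : IsKick X Y K g t₀ := by
  refine ⟨Kick.congr h.1 e, ?_⟩
  filter_upwards [h.2, e] with p h1 h2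
  rw [h2]
  exact h1

/-- the data at a regular point: the function `m = y N / D` and the relation -/
lemma GeoK.key {X Y K : ℂ → ℂ} {t₀ : ℂ} (h : RegG X Y K t₀) :
    ∃ A : ℂ × ℂ → ℂ, IsKick X Y K A t₀ ∧
      ∀ Yf : ℂ × ℂ → ℂ, IsKick X Y K Yf t₀ → Yf =ᶠ[𝓝 ((t₀, 0) : ℂ × ℂ)] A := by
  obtain ⟨hX, hY, hK, hW⟩ := h
  obtain ⟨N, D, hN, hD, hND, haxis⟩ := exists_ND hX hY
  have hN0 : N (t₀, 0) = Wr X Y t₀ / 2 := haxis.self_of_nhds.1
  have hD0 : D (t₀, 0) = Wr X Y t₀ := haxis.self_of_nhds.2.1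
  have hDne : D (t₀, 0) ≠ 0 := by rw [hD0]; exact hW
  have hNne : N (t₀, 0) ≠ 0 := by rw [hN0]; exact div_ne_zero hW two_ne_zero
  set m : ℂ × ℂ → ℂ := fun p => p.2 * (N p / D p) with hm
  have hsnd : AnalyticAt ℂ (fun p : ℂ × ℂ => p.2) (t₀, 0) := analyticAt_snd
  have hma : AnalyticAt ℂ m (t₀, 0) := hsnd.mul (hN.div hD hDne)
  have hm0 : ∀ᶠ t in 𝓝 t₀, m (t, 0) = 0 := Eventually.of_forall fun t => by simp [hm]
  have hm1 : deriv (fun y => m (t₀, y)) 0 ≠ 0 := by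
    have h1 : AnalyticAt ℂ (fun y : ℂ => ((t₀, y) : ℂ × ℂ)) 0 :=
      analyticAt_const.prod analyticAt_id
    have h2 : AnalyticAt ℂ (fun y : ℂ => N (t₀, y) / D (t₀, y)) 0 :=
      AnalyticAt.comp (g := fun p => N p / D p) (f := fun y : ℂ => ((t₀, y) : ℂ × ℂ))
        (hN.div hD hDne) h1
    have h3 : HasDerivAt (fun y : ℂ => y * (N (t₀, y) / D (t₀, y)))
        (1 * (N (t₀, 0) / D (t₀, 0)) + 0 * deriv (fun y : ℂ => N (t₀, y) / D (t₀, y)) 0) 0 :=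
      (hasDerivAt_id (0:ℂ)).mul h2.differentiableAt.hasDerivAt
    have h4 : deriv (fun y => m (t₀, y)) 0 = N (t₀, 0) / D (t₀, 0) := by
      have := h3.deriv
      simp only [hm]
      rw [this]
      ring
    rw [h4]
    exact div_ne_zero hNne hDne
  obtain ⟨A, hA, hAr, ρ, hρ, hun⟩ := exists_kick hma hm0 hm1 hK
  have hDev : ∀ᶠ p in 𝓝 ((t₀, 0) : ℂ × ℂ), D p ≠ 0 := hD.continuousAt.eventually_ne hDne
  refine ⟨A, ⟨hA, ?_⟩, ?_⟩
  · have hk := tendsto_kick hA.ana.continuousAt (Kick.zero_self hA)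
    filter_upwards [hAr, hND, hk.eventually hND, hDev, hk.eventually hDev] with p h1 h2 h3 h4 h5
    obtain ⟨h2a, h2b⟩ := h2
    obtain ⟨h3a, h3b⟩ := h3
    simp only [← sub_eq_add_neg] at h3a h3b
    rw [h2a, h2b, h3a, h3b]
    simp only [hm] at h1
    set N1 := N p
    set D1 := D p
    set N2 := N (p.1, -A p)
    set D2 := D (p.1, -A p)
    field_simp at h1
    linear_combination (A p * p.2) * h1
  · intro Yf hY'
    have hk := tendsto_kick hY'.1.ana.continuousAt (Kick.zero_self hY'.1)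
    have hfst : ∀ᶠ p in 𝓝 ((t₀, 0) : ℂ × ℂ), ‖p.1 - t₀‖ < ρ := by
      have h1 : ContinuousAt (fun p : ℂ × ℂ => ‖p.1 - t₀‖) (t₀, 0) := by fun_prop
      refine h1.eventually_lt continuousAt_const ?_
      simpa using hρ
    have hsnd' : ∀ᶠ p in 𝓝 ((t₀, 0) : ℂ × ℂ), ‖p.2‖ < ρ := by
      have h1 : ContinuousAt (fun p : ℂ × ℂ => ‖p.2‖) (t₀, 0) := by fun_prop
      refine h1.eventually_lt continuousAt_const ?_
      simpa using hρ
    have hY0 : ∀ᶠ p in 𝓝 ((t₀, 0) : ℂ × ℂ), Yf (p.1, 0) = 0 := by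
      have h1 : Tendsto (fun p : ℂ × ℂ => p.1) (𝓝 ((t₀, 0) : ℂ × ℂ)) (𝓝 t₀) :=
        continuous_fst.tendsto (t₀, (0:ℂ))
      exact h1.eventually hY'.1.zero
    filter_upwards [hY'.2, hY'.1.rev, hY0, hND, hk.eventually hND, hDev, hk.eventually hDev, hfst,
      hsnd', hk.eventually hsnd'] with p h1 hrev h0 h2 h3 h4 h5 h6 h7 h8
    have hp : p = (p.1, p.2) := rfl
    have goal : m (p.1, -Yf p) * (K p.1 * m (p.1, p.2) - 1) = m (p.1, p.2) := by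
      obtain ⟨h2a, h2b⟩ := h2
      obtain ⟨h3a, h3b⟩ := h3
      simp only [← sub_eq_add_neg] at h3a h3b
      rw [h2a, h2b, h3a, h3b] at h1
      by_cases hy : p.2 = 0
      · have hYp : Yf p = 0 := by rw [hp, hy]; exact h0
        simp [hm, hy, hYp]
      · have hYp : Yf p ≠ 0 := by
          intro h9
          rw [h9, neg_zero, h0] at hrev
          exact hy (by simpa using hrev.symm)
        simp only [hm, ← hp]
        set N1 := N p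
        set D1 := D p
        set N2 := N (p.1, -Yf p)
        set D2 := D (p.1, -Yf p)
        field_simp
        have hne : Yf p * p.2 ≠ 0 := mul_ne_zero hYp hy
        apply mul_left_cancel₀ hne
        linear_combination h1
    have h9 := hun p.1 p.2 (Yf p) h6 h7 (by simpa using h8) goal
    rw [h9]

theorem exists_isKick {X Y K : ℂ → ℂ} {t₀ : ℂ} (h : RegG X Y K t₀) : ∃ Yf, IsKick X Y K Yf t₀ := by
  obtain ⟨A, hA, -⟩ := GeoK.key h
  exact ⟨A, hA⟩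

theorem isKick_unique {X Y K : ℂ → ℂ} {Yf Yf' : ℂ × ℂ → ℂ} {t₀ : ℂ} (h : RegG X Y K t₀)
    (h1 : IsKick X Y K Yf t₀) (h2 : IsKick X Y K Yf' t₀) : Yf =ᶠ[𝓝 ((t₀, 0) : ℂ × ℂ)] Yf' := by
  obtain ⟨A, -, hA⟩ := GeoK.key h
  exact (hA Yf h1).trans (hA Yf' h2).symm

theorem isKick_global {X Y K : ℂ → ℂ} {O : Set ℂ} (hO : IsOpen O) (h : ∀ t ∈ O, RegG X Y K t) :
    ∃ Yf, ∀ t ∈ O, IsKick X Y K Yf t := by
  classical
  have _ := hO
  have hex : ∀ t : ℂ, ∃ Yf, t ∈ O → IsKick X Y K Yf t := by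
    intro t
    by_cases ht : t ∈ O
    · obtain ⟨Yf, hYf⟩ := exists_isKick (h t ht)
      exact ⟨Yf, fun _ => hYf⟩
    · exact ⟨0, fun h => absurd h ht⟩
  choose G hG using hex
  obtain ⟨S, hS⟩ := Pool.Agent.MP_ae5b4e_an_ND.glue_germs O G
    (fun x hx => (hG x hx).1.ana) (by
      intro x hx
      filter_upwards [IsKick.open (hG x hx)] with x' h1 hx'
      exact isKick_unique (h x' hx') h1 (hG x' hx'))
  exact ⟨S, fun t ht => IsKick.congr (hG t ht) (hS t ht)⟩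

theorem goodG_of_isKick {X Y K : ℂ → ℂ} {Yf : ℂ × ℂ → ℂ} {t₀ : ℂ} (h : GoodG X Y K t₀)
    (h1 : IsKick X Y K Yf t₀) : GoodY Yf t₀ := by
  obtain ⟨hreg, Yf0, h0, -, S, hS, hS0, hS1, hinv⟩ := h
  have e := isKick_unique hreg h1 h0
  refine ⟨h1.1, S, hS, hS0, hS1, ?_⟩
  filter_upwards [e, hinv] with p h2 h3
  rw [← h3]
  simp only [TY, h2]

end Pool.Agent.MP_ae5b4e_an_FLEX
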