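import Mathlib
import Pool.Agent.Lib.MP_ae5b4e_an_FLEX.Defs
import Pool.Agent.Lib.MP_ae5b4e_an_LAT.NDPropag

/-!
# MP_ae5b4e_an, flexes: the function `F` near the curve

`F (γ t + λ γ' t) = F₀ + λ ^ 2 H (t, λ)` with `H (t₀, 0) ≠ 0`; the square root is a first integral.
-/

noncomputable section

namespace Pool.Agent.MP_ae5b4e_an_FLEX

open Filter Topology
open Pool.Agent.MP_ae5b4e_an_ND (exists_div_y Dx Dy Dx_analyticAt Dy_analyticAt)

namespace RealGood

theorem fderiv_pair (T : ℂ × ℂ → ℂ) (p : ℂ × ℂ) (u w : ℂ) :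
    fderiv ℂ T p (u, w) = u * Dx T p + w * Dy T p := by
  have : ((u, w) : ℂ × ℂ) = u • (1, 0) + w • (0, 1) := by simp
  rw [this, map_add, map_smul, map_smul]
  rfl

theorem hasDerivAt_line {T : ℂ × ℂ → ℂ} {a b u w l : ℂ}
    (hT : DifferentiableAt ℂ T (a + l * u, b + l * w)) :
    HasDerivAt (fun l : ℂ => T (a + l * u, b + l * w))
      (u * Dx T (a + l * u, b + l * w) + w * Dy T (a + l * u, b + l * w)) l := by
  have h1 : HasDerivAt (fun l : ℂ => ((a + l * u, b + l * w) : ℂ × ℂ)) (u, w) l := by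
    have e1 : HasDerivAt (fun l : ℂ => a + l * u) u l := by
      simpa using ((hasDerivAt_id l).mul_const u).const_add a
    have e2 : HasDerivAt (fun l : ℂ => b + l * w) w l := by
      simpa using ((hasDerivAt_id l).mul_const w).const_add b
    exact e1.prodMk e2
  have h2 := (hT.hasFDerivAt (x := (a + l * u, b + l * w))).comp_hasDerivAt l h1
  rw [fderiv_pair] at h2
  exact h2

theorem hasDerivAt_curve {T : ℂ × ℂ → ℂ} {X Y : ℂ → ℂ} {t : ℂ}
    (hT : DifferentiableAt ℂ T (X t, Y t)) (hX : DifferentiableAt ℂ X t)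
    (hY : DifferentiableAt ℂ Y t) :
    HasDerivAt (fun t : ℂ => T (X t, Y t))
      (deriv X t * Dx T (X t, Y t) + deriv Y t * Dy T (X t, Y t)) t := by
  have h1 : HasDerivAt (fun t : ℂ => ((X t, Y t) : ℂ × ℂ)) (deriv X t, deriv Y t) t :=
    hX.hasDerivAt.prodMk hY.hasDerivAt
  have h2 := (hT.hasFDerivAt (x := (X t, Y t))).comp_hasDerivAt t h1
  rw [fderiv_pair] at h2
  exact h2

/-- `F = F₀ + λ² H` along the tangent lines. -/
theorem exists_H {Fc : ℂ × ℂ → ℂ} {X Y : ℂ → ℂ} {t₀ F0 : ℂ}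
    (hF : AnalyticAt ℂ Fc (X t₀, Y t₀)) (hX : AnalyticAt ℂ X t₀) (hY : AnalyticAt ℂ Y t₀)
    (hγ : ∀ᶠ t in 𝓝 t₀, Fc (X t, Y t) = F0) (hF' : fderiv ℂ Fc (X t₀, Y t₀) ≠ 0)
    (hW : Wr X Y t₀ ≠ 0) :
    ∃ H : ℂ × ℂ → ℂ, AnalyticAt ℂ H (t₀, 0) ∧ H (t₀, 0) ≠ 0 ∧
      ∀ᶠ p in 𝓝 ((t₀, 0) : ℂ × ℂ),
        Fc (X p.1 + p.2 * deriv X p.1, Y p.1 + p.2 * deriv Y p.1) = F0 + p.2 ^ 2 * H p := by
  -- the function `G`
  set G : ℂ × ℂ → ℂ := fun p =>
    Fc (X p.1 + p.2 * deriv X p.1, Y p.1 + p.2 * deriv Y p.1) - F0 with hG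
  have hfst : ∀ {f : ℂ → ℂ}, AnalyticAt ℂ f t₀ → AnalyticAt ℂ (fun p : ℂ × ℂ => f p.1) (t₀, 0) :=
    fun {f} hf => AnalyticAt.fun_comp (g := f) (f := fun p : ℂ × ℂ => p.1) hf analyticAt_fst
  have hGa : AnalyticAt ℂ G (t₀, 0) := by
    have e1 : AnalyticAt ℂ (fun p : ℂ × ℂ => (X p.1 + p.2 * deriv X p.1,
        Y p.1 + p.2 * deriv Y p.1)) (t₀, 0) :=
      ((hfst hX).add (analyticAt_snd.mul (hfst hX.deriv))).prod
        ((hfst hY).add (analyticAt_snd.mul (hfst hY.deriv)))
    have e2 := AnalyticAt.fun_comp (g := Fc) (f := fun p : ℂ × ℂ => (X p.1 + p.2 * deriv X p.1,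
        Y p.1 + p.2 * deriv Y p.1)) (x := ((t₀, 0) : ℂ × ℂ)) (by simpa using hF) e1
    exact e2.sub analyticAt_const
  have hG0 : ∀ᶠ t in 𝓝 t₀, G (t, 0) = 0 := by
    filter_upwards [hγ] with t ht
    simp only [hG, zero_mul, add_zero]
    rw [ht, sub_self]
  obtain ⟨G1, hG1a, hG1, hG1'⟩ := exists_div_y hGa hG0
  -- analytic near
  have hFe : ∀ᶠ t in 𝓝 t₀, AnalyticAt ℂ Fc (X t, Y t) := by
    have hc : Tendsto (fun t : ℂ => ((X t, Y t) : ℂ × ℂ)) (𝓝 t₀) (𝓝 (X t₀, Y t₀)) :=
      (hX.continuousAt.prodMk hY.continuousAt).tendsto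
    exact hc.eventually hF.eventually_analyticAt
  -- the derivative of `F` along the curve
  have h1 : ∀ᶠ t in 𝓝 t₀, deriv X t * Dx Fc (X t, Y t) + deriv Y t * Dy Fc (X t, Y t) = 0 := by
    filter_upwards [hFe, hγ.eventually_nhds, hX.eventually_analyticAt, hY.eventually_analyticAt]
      with t e1 e2 e3 e4
    have e5 := hasDerivAt_curve e1.differentiableAt e3.differentiableAt e4.differentiableAt
    exact e5.unique ((hasDerivAt_const t F0).congr_of_eventuallyEq e2)
  have hG1z : ∀ᶠ t in 𝓝 t₀, G1 (t, 0) = 0 := by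
    filter_upwards [hG1', hFe, h1] with t e1 e2 e3
    rw [e1]
    have e4 := hasDerivAt_line (T := Fc) (a := X t) (b := Y t) (u := deriv X t) (w := deriv Y t)
      (l := 0) (by simpa using e2.differentiableAt)
    have e5 : HasDerivAt (fun y : ℂ => G (t, y)) (deriv X t * Dx Fc (X t, Y t) +
        deriv Y t * Dy Fc (X t, Y t)) 0 := by
      simp only [zero_mul, add_zero] at e4
      exact e4.sub_const F0
    rw [e5.deriv, e3]
  obtain ⟨H, hHa, hH, hH'⟩ := exists_div_y hG1a hG1z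
  have hGH : ∀ᶠ p in 𝓝 ((t₀, 0) : ℂ × ℂ), G p = p.2 ^ 2 * H p := by
    filter_upwards [hG1, hH] with p e1 e2
    rw [e1, e2]
    ring
  refine ⟨H, hHa, ?_, ?_⟩
  · intro hH0
    -- second derivative along the tangent line
    set x := X t₀ with hx
    set y := Y t₀ with hy
    set u := deriv X t₀ with hu
    set w := deriv Y t₀ with hw
    have hline : ∀ᶠ l : ℂ in 𝓝 0, AnalyticAt ℂ Fc (x + l * u, y + l * w) := by
      have hc : Tendsto (fun l : ℂ => ((x + l * u, y + l * w) : ℂ × ℂ)) (𝓝 0) (𝓝 (x, y)) := by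
        have : Continuous (fun l : ℂ => ((x + l * u, y + l * w) : ℂ × ℂ)) := by fun_prop
        exact this.tendsto' _ _ (by simp)
      exact hc.eventually hF.eventually_analyticAt
    have hslice : AnalyticAt ℂ (fun l : ℂ => H (t₀, l)) 0 := by
      have : AnalyticAt ℂ (fun l : ℂ => ((t₀, l) : ℂ × ℂ)) 0 := by fun_prop
      exact hHa.comp_of_eq this rfl
    have hG2 : ∀ᶠ l : ℂ in 𝓝 0, G (t₀, l) = l ^ 2 * H (t₀, l) := by
      have hc : Tendsto (fun l : ℂ => ((t₀, l) : ℂ × ℂ)) (𝓝 0) (𝓝 (t₀, 0)) := by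
        have : Continuous (fun l : ℂ => ((t₀, l) : ℂ × ℂ)) := by fun_prop
        exact this.tendsto 0
      exact hc.eventually hGH
    -- first derivative
    have d1 : ∀ᶠ l : ℂ in 𝓝 0, u * Dx Fc (x + l * u, y + l * w) + w * Dy Fc (x + l * u, y + l * w)
        = 2 * l * H (t₀, l) + l ^ 2 * deriv (fun l : ℂ => H (t₀, l)) l := by
      filter_upwards [hline, hG2.eventually_nhds, hslice.eventually_analyticAt] with l e1 e2 e3
      have e4 : HasDerivAt (fun l : ℂ => G (t₀, l)) (u * Dx Fc (x + l * u, y + l * w) +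
          w * Dy Fc (x + l * u, y + l * w)) l := by
        have := (hasDerivAt_line (T := Fc) (a := x) (b := y) (u := u) (w := w) (l := l)
          e1.differentiableAt).sub_const F0
        exact this
      have e5 : HasDerivAt (fun l : ℂ => l ^ 2 * H (t₀, l))
          (2 * l * H (t₀, l) + l ^ 2 * deriv (fun l : ℂ => H (t₀, l)) l) l := by
        have e6 := (hasDerivAt_pow 2 l).mul e3.differentiableAt.hasDerivAt
        refine e6.congr_deriv ?_
        simp
      exact e4.unique (e5.congr_of_eventuallyEq e2)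
    -- second derivative
    have hDx := Dx_analyticAt hF
    have hDy := Dy_analyticAt hF
    have a1 : HasDerivAt (fun l : ℂ => Dx Fc (x + l * u, y + l * w))
        (u * Dx (Dx Fc) (x, y) + w * Dy (Dx Fc) (x, y)) 0 := by
      have := hasDerivAt_line (T := Dx Fc) (a := x) (b := y) (u := u) (w := w)
        (l := 0) (by simpa using hDx.differentiableAt)
      simpa only [zero_mul, add_zero] using this
    have a2 : HasDerivAt (fun l : ℂ => Dy Fc (x + l * u, y + l * w))
        (u * Dx (Dy Fc) (x, y) + w * Dy (Dy Fc) (x, y)) 0 := by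
      have := hasDerivAt_line (T := Dy Fc) (a := x) (b := y) (u := u) (w := w)
        (l := 0) (by simpa using hDy.differentiableAt)
      simpa only [zero_mul, add_zero] using this
    have b1 : HasDerivAt (fun t : ℂ => Dx Fc (X t, Y t))
        (u * Dx (Dx Fc) (x, y) + w * Dy (Dx Fc) (x, y)) t₀ :=
      hasDerivAt_curve hDx.differentiableAt hX.differentiableAt hY.differentiableAt
    have b2 : HasDerivAt (fun t : ℂ => Dy Fc (X t, Y t))
        (u * Dx (Dy Fc) (x, y) + w * Dy (Dy Fc) (x, y)) t₀ :=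
      hasDerivAt_curve hDy.differentiableAt hX.differentiableAt hY.differentiableAt
    set A := u * Dx (Dx Fc) (x, y) + w * Dy (Dx Fc) (x, y) with hA
    set B := u * Dx (Dy Fc) (x, y) + w * Dy (Dy Fc) (x, y) with hB
    have c1 : u * A + w * B = 0 := by
      have e1 : HasDerivAt (fun l : ℂ => u * Dx Fc (x + l * u, y + l * w) +
          w * Dy Fc (x + l * u, y + l * w)) (u * A + w * B) 0 :=
        (a1.const_mul u).add (a2.const_mul w)
      have e2 : HasDerivAt (fun l : ℂ => 2 * l * H (t₀, l) +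
          l ^ 2 * deriv (fun l : ℂ => H (t₀, l)) l) 0 0 := by
        have f1 : HasDerivAt (fun l : ℂ => 2 * l) 2 0 := by
          simpa using (hasDerivAt_id (0:ℂ)).const_mul 2
        have f2 := f1.mul hslice.differentiableAt.hasDerivAt
        have f3 := (hasDerivAt_pow 2 (0:ℂ)).mul hslice.deriv.differentiableAt.hasDerivAt
        refine (f2.add f3).congr_deriv ?_
        rw [hH0]
        simp
      exact e1.unique (e2.congr_of_eventuallyEq d1)
    have c2 : deriv (deriv X) t₀ * Dx Fc (x, y) + u * A +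
        (deriv (deriv Y) t₀ * Dy Fc (x, y) + w * B) = 0 := by
      have e1 := (hX.deriv.differentiableAt.hasDerivAt.mul b1).add
        (hY.deriv.differentiableAt.hasDerivAt.mul b2)
      exact e1.unique ((hasDerivAt_const t₀ (0:ℂ)).congr_of_eventuallyEq h1)
    have c3 : u * Dx Fc (x, y) + w * Dy Fc (x, y) = 0 := h1.self_of_nhds
    have c4 : deriv (deriv X) t₀ * Dx Fc (x, y) + deriv (deriv Y) t₀ * Dy Fc (x, y) = 0 := by
      linear_combination c2 - c1
    have hW' : u * deriv (deriv Y) t₀ - w * deriv (deriv X) t₀ ≠ 0 := hW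
    have z1 : Dx Fc (x, y) = 0 := by
      have : (u * deriv (deriv Y) t₀ - w * deriv (deriv X) t₀) * Dx Fc (x, y) = 0 := by
        linear_combination deriv (deriv Y) t₀ * c3 - w * c4
      exact (mul_eq_zero.1 this).resolve_left hW'
    have z2 : Dy Fc (x, y) = 0 := by
      have : (u * deriv (deriv Y) t₀ - w * deriv (deriv X) t₀) * Dy Fc (x, y) = 0 := by
        linear_combination u * c4 - deriv (deriv X) t₀ * c3
      exact (mul_eq_zero.1 this).resolve_left hW'
    apply hF'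
    ext
    · show fderiv ℂ Fc (x, y) (1, 0) = 0
      exact z1
    · show fderiv ℂ Fc (x, y) (0, 1) = 0
      exact z2
  · filter_upwards [hGH] with p hp
    have : Fc (X p.1 + p.2 * deriv X p.1, Y p.1 + p.2 * deriv Y p.1) - F0 = p.2 ^ 2 * H p := hp
    rw [← this]
    ring

end RealGood

end Pool.Agent.MP_ae5b4e_an_FLEX
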