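import Mathlib
import Pool.Agent.Lib.MP_ae5b4e_an_FLEX.Defs
import Pool.Agent.Lib.MP_ae5b4e_an_LAT.NDPropag

/-!
# MP_ae5b4e_an, flexes: the first integral as a square root
-/

noncomputable section

namespace Pool.Agent.MP_ae5b4e_an_FLEX

open Filter Topology
open Pool.Agent.MP_ae5b4e_an_ND (exists_div_y Dx Dy Dx_analyticAt Dy_analyticAt)

namespace RealGood

/-- If `m² H(x, m)` is invariant then its square root is a first integral. -/
theorem goodY_of_sq {Yf : ℂ × ℂ → ℂ} {t₀ : ℂ} (hK : Kick Yf t₀) {m H : ℂ × ℂ → ℂ}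
    (hm : AnalyticAt ℂ m (t₀, 0)) (hm0 : ∀ᶠ t in 𝓝 t₀, m (t, 0) = 0)
    (hm1 : deriv (fun y => m (t₀, y)) 0 ≠ 0) (hH : AnalyticAt ℂ H (t₀, 0)) (hH0 : H (t₀, 0) ≠ 0)
    (hinv : ∀ᶠ p in 𝓝 ((t₀, 0) : ℂ × ℂ), m (TY Yf p) ^ 2 * H ((TY Yf p).1, m (TY Yf p)) =
      m p ^ 2 * H (p.1, m p)) : GoodY Yf t₀ := by
  have hm00 : m (t₀, 0) = 0 := hm0.self_of_nhds
  -- the square root
  set L : ℂ × ℂ → ℂ := fun p => H (p.1, m p) / H (t₀, 0) with hL
  have hLa : AnalyticAt ℂ L (t₀, 0) := by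
    have e1 : AnalyticAt ℂ (fun p : ℂ × ℂ => (p.1, m p)) (t₀, 0) := analyticAt_fst.prod hm
    have e2 := AnalyticAt.fun_comp (g := H) (f := fun p : ℂ × ℂ => (p.1, m p))
      (x := ((t₀, 0) : ℂ × ℂ)) (by simpa [hm00] using hH) e1
    exact e2.div analyticAt_const hH0
  have hL0 : L (t₀, 0) = 1 := by
    simp only [hL, hm00]
    exact div_self hH0
  set g : ℂ × ℂ → ℂ := fun p => Complex.exp (Complex.log (L p) / 2) with hg
  have hga : AnalyticAt ℂ g (t₀, 0) := by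
    have e1 : AnalyticAt ℂ (fun p => Complex.log (L p)) (t₀, 0) := by
      apply hLa.clog
      rw [hL0]
      exact Complex.one_mem_slitPlane
    exact (e1.div analyticAt_const two_ne_zero).cexp
  have hg0 : g (t₀, 0) = 1 := by
    simp only [hg, hL0, Complex.log_one, zero_div, Complex.exp_zero]
  have hg2 : ∀ᶠ p in 𝓝 ((t₀, 0) : ℂ × ℂ), g p ^ 2 = L p := by
    have e1 : ∀ᶠ p in 𝓝 ((t₀, 0) : ℂ × ℂ), L p ≠ 0 :=
      hLa.continuousAt.eventually_ne (by rw [hL0]; exact one_ne_zero)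
    filter_upwards [e1] with p hp
    simp only [hg]
    rw [← Complex.exp_nat_mul]
    push_cast
    rw [mul_div_cancel₀ _ (two_ne_zero), Complex.exp_log hp]
  set S : ℂ × ℂ → ℂ := fun p => m p * g p with hS
  have hSa : AnalyticAt ℂ S (t₀, 0) := hm.mul hga
  have hS0 : ∀ᶠ t in 𝓝 t₀, S (t, 0) = 0 := by
    filter_upwards [hm0] with t ht
    simp only [hS, ht, zero_mul]
  have hvert : AnalyticAt ℂ (fun y : ℂ => ((t₀, y) : ℂ × ℂ)) 0 := analyticAt_const.prod analyticAt_id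
  have hS1 : deriv (fun y => S (t₀, y)) 0 ≠ 0 := by
    have e1 : AnalyticAt ℂ (fun y : ℂ => m (t₀, y)) 0 :=
      AnalyticAt.comp (g := m) (f := fun y : ℂ => ((t₀, y) : ℂ × ℂ)) hm hvert
    have e2 : AnalyticAt ℂ (fun y : ℂ => g (t₀, y)) 0 :=
      AnalyticAt.comp (g := g) (f := fun y : ℂ => ((t₀, y) : ℂ × ℂ)) hga hvert
    have e3 := (e1.differentiableAt.hasDerivAt.mul e2.differentiableAt.hasDerivAt).deriv
    have e4 : deriv (fun y => S (t₀, y)) 0 = deriv (fun y => m (t₀, y)) 0 := by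
      simp only [hS]
      refine Eq.trans e3 ?_
      rw [hg0, hm00, zero_mul, add_zero, mul_one]
    rw [e4]
    exact hm1
  -- the map tends to `(t₀, 0)`
  have hY0 : Yf (t₀, 0) = 0 := hK.zero.self_of_nhds
  have hTY : Tendsto (TY Yf) (𝓝 ((t₀, 0) : ℂ × ℂ)) (𝓝 (t₀, 0)) := by
    have e1 : ContinuousAt (fun p : ℂ × ℂ => (p.1 - Yf p, Yf p)) (t₀, 0) :=
      (continuousAt_fst.sub hK.ana.continuousAt).prodMk hK.ana.continuousAt
    have e2 := e1.tendsto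
    rw [hY0] at e2
    have e3 : TY Yf = fun p : ℂ × ℂ => (p.1 - Yf p, Yf p) := rfl
    rw [e3]
    simpa using e2
  have hsq : ∀ᶠ p in 𝓝 ((t₀, 0) : ℂ × ℂ), S (TY Yf p) ^ 2 = S p ^ 2 := by
    filter_upwards [hinv, hg2, hTY.eventually hg2] with p h1 h2 h3
    simp only [hS, mul_pow]
    rw [h2, h3]
    simp only [hL]
    rw [← mul_div_assoc, ← mul_div_assoc, h1]
  -- the sign
  obtain ⟨S1, hS1a, hS1e, hS1'⟩ := exists_div_y hSa hS0
  obtain ⟨Y1, hY1a, hY1e, hY1'⟩ := exists_div_y hK.ana hK.zero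
  have hS10 : S1 (t₀, 0) ≠ 0 := by
    rw [hS1'.self_of_nhds]
    exact hS1
  have hY10 : Y1 (t₀, 0) = 1 := by
    rw [hY1'.self_of_nhds]
    exact hK.der.self_of_nhds
  have hsum : ∀ᶠ p in 𝓝 ((t₀, 0) : ℂ × ℂ), Y1 p * S1 (TY Yf p) + S1 p ≠ 0 := by
    have e1 : Tendsto (fun p => S1 (TY Yf p)) (𝓝 ((t₀, 0) : ℂ × ℂ)) (𝓝 (S1 (t₀, 0))) :=
      hS1a.continuousAt.tendsto.comp hTY
    have e2 := (hY1a.continuousAt.tendsto.mul e1).add hS1a.continuousAt.tendsto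
    apply e2.eventually_ne
    rw [hY10, one_mul, ← two_mul]
    exact mul_ne_zero two_ne_zero hS10
  refine ⟨hK, S, hSa, hS0, hS1, ?_⟩
  have hfst : Tendsto (fun p : ℂ × ℂ => p.1) (𝓝 ((t₀, 0) : ℂ × ℂ)) (𝓝 t₀) :=
    continuous_fst.tendsto (t₀, (0:ℂ))
  filter_upwards [hsq, hS1e, hTY.eventually hS1e, hY1e, hsum, hfst.eventually hS0,
    hfst.eventually hK.zero] with p h1 h2 h3 h4 h5 h6 h7
  have h8 : (TY Yf p).2 = Yf p := rfl
  rw [h8] at h3
  by_cases hp : p.2 = 0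
  · have hpe : p = (p.1, 0) := by rw [← hp]
    have e1 : TY Yf p = (p.1, 0) := by
      rw [hpe]
      simp only [TY]
      rw [h7, sub_zero]
    rw [e1, h6, hpe, h6]
  · rw [h2, h3, h4] at h1
    rw [h2, h3, h4]
    have e1 : p.2 ^ 2 * ((Y1 p * S1 (TY Yf p) - S1 p) * (Y1 p * S1 (TY Yf p) + S1 p)) = 0 := by
      linear_combination h1
    have e2 : Y1 p * S1 (TY Yf p) - S1 p = 0 := by
      rcases mul_eq_zero.1 e1 with h | h
      · exact absurd h (pow_ne_zero 2 hp)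
      · exact (mul_eq_zero.1 h).resolve_right h5
    linear_combination p.2 * e2

end RealGood

end Pool.Agent.MP_ae5b4e_an_FLEX
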