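import Mathlib
import Pool.Agent.Lib.MP_ae5b4e_an_FLEX.Defs
import Pool.Agent.Lib.MP_ae5b4e_an_FLEX.GeoM
import Pool.Agent.Lib.MP_ae5b4e_an_hopf.Plane
import Pool.Agent.Lib.MP_ae5b4e_an_LAT.NDGeoX0
import Pool.Agent.Lib.MP_ae5b4e_an_LAT.Cplx

/-!
# MP_ae5b4e_an, flexes: real and complex points near the curve
-/

noncomputable section

namespace Pool.Agent.MP_ae5b4e_an_FLEX

open Filter Topology Set
open Pool.Agent.MP_ae5b4e_an_ND (Dx Dy)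

namespace RealGood

/-- real derivatives of an analytic extension -/
theorem deriv_real {X : ℂ → ℂ} {x : ℝ → ℝ} {t₀ : ℝ} (hX : AnalyticAt ℂ X t₀)
    (hx : ∀ t, DifferentiableAt ℝ x t) (h : ∀ᶠ t : ℝ in 𝓝 t₀, X t = x t) :
    ∀ᶠ t : ℝ in 𝓝 t₀, deriv X t = ((deriv x t : ℝ) : ℂ) := by
  have h1 : ∀ᶠ t : ℝ in 𝓝 t₀, AnalyticAt ℂ X (t : ℂ) :=
    Complex.continuous_ofReal.continuousAt.eventually hX.eventually_analyticAt
  filter_upwards [h1, h.eventually_nhds] with t e1 e2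
  have e3 : HasDerivAt (fun s : ℝ => X s) (deriv X t) t :=
    e1.differentiableAt.hasDerivAt.comp_ofReal
  have e4 : HasDerivAt (fun s : ℝ => ((x s : ℝ) : ℂ)) ((deriv x t : ℝ) : ℂ) t :=
    (hx t).hasDerivAt.ofReal_comp
  exact e3.unique (e4.congr_of_eventuallyEq e2)

/-- the derivative of the extension -/
theorem fderiv_ne {F : ℝ × ℝ → ℝ} {Fc : ℂ × ℂ → ℂ} {a b : ℝ} (hF' : fderiv ℝ F (a, b) ≠ 0)
    (hFc : AnalyticAt ℂ Fc ((a : ℂ), (b : ℂ)))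
    (hr : ∀ᶠ q in 𝓝 (a, b), Fc ((q.1 : ℂ), (q.2 : ℂ)) = ((F q : ℝ) : ℂ)) :
    fderiv ℂ Fc ((a : ℂ), (b : ℂ)) ≠ 0 := by
  intro h0
  apply hF'
  have h1 : HasFDerivAt Fc (0 : ℂ × ℂ →L[ℂ] ℂ) ((a : ℂ), (b : ℂ)) := by
    rw [← h0]
    exact hFc.differentiableAt.hasFDerivAt
  have h2 : HasFDerivAt Fc ((0 : ℂ × ℂ →L[ℂ] ℂ).restrictScalars ℝ) ((a : ℂ), (b : ℂ)) :=
    h1.restrictScalars ℝ
  set ι : ℝ × ℝ →L[ℝ] ℂ × ℂ := Complex.ofRealCLM.prodMap Complex.ofRealCLM with hι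
  have h3 : HasFDerivAt (fun q : ℝ × ℝ => Fc (ι q)) (((0 : ℂ × ℂ →L[ℂ] ℂ).restrictScalars ℝ).comp ι)
      (a, b) := HasFDerivAt.comp (a, b) (by simpa [hι] using h2) ι.hasFDerivAt
  have h4 : HasFDerivAt (fun q : ℝ × ℝ => (Fc (ι q)).re)
      (Complex.reCLM.comp (((0 : ℂ × ℂ →L[ℂ] ℂ).restrictScalars ℝ).comp ι)) (a, b) :=
    HasFDerivAt.comp (a, b) Complex.reCLM.hasFDerivAt h3
  have h5 : F =ᶠ[𝓝 (a, b)] fun q : ℝ × ℝ => (Fc (ι q)).re := by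
    filter_upwards [hr] with q hq
    have : ι q = ((q.1 : ℂ), (q.2 : ℂ)) := rfl
    rw [this, hq, Complex.ofReal_re]
  have h6 := (h4.congr_of_eventuallyEq h5).fderiv
  rw [h6]
  ext <;> simp

section real
open Pool.Agent.MP_ae5b4e_an_hopf

theorem ddx_Γ (γ : ConvexCurve) (t s : ℝ) :
    ddx γ.Γ t s = -(deriv γ.x t * deriv γ.y s - deriv γ.y t * deriv γ.x s) := by
  unfold ddx det3
  rw [γ.deriv_Γ, γ.deriv_Γ]
  simp [ConvexCurve.Γ]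
  ring

/-- `F` is constant on the curve near `t₀`. -/
theorem F_const (γ : ConvexCurve) (U : ℝ → ℝ → ℝ) (t₀ : ℝ)
    (hlim : ∀ t, Tendsto (fun c => U c t) (𝓝[>] 0) atTop)
    {F : ℝ × ℝ → ℝ} (hF : AnalyticAt ℝ F (γ.x t₀, γ.y t₀)) {f : ℝ → ℝ} {r : ℝ} (hr : 0 < r)
    (hFl : ∀ c t : ℝ, 0 < c → c < r → |t - t₀| < r →
      F (γ.x t + deriv γ.x t / U c t, γ.y t + deriv γ.y t / U c t) = f c) :
    ∀ᶠ t : ℝ in 𝓝 t₀, F (γ.x t, γ.y t) = F (γ.x t₀, γ.y t₀) := by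
  have hcont : ∀ᶠ t : ℝ in 𝓝 t₀, ContinuousAt F (γ.x t, γ.y t) := by
    have h1 : Tendsto (fun t : ℝ => (γ.x t, γ.y t)) (𝓝 t₀) (𝓝 (γ.x t₀, γ.y t₀)) :=
      ((γ.smooth_x.continuous.continuousAt).prodMk (γ.smooth_y.continuous.continuousAt)).tendsto
    filter_upwards [h1.eventually hF.eventually_analyticAt] with t ht
    exact ht.continuousAt
  have hlimf : ∀ t : ℝ, |t - t₀| < r → ContinuousAt F (γ.x t, γ.y t) →
      Tendsto f (𝓝[>] 0) (𝓝 (F (γ.x t, γ.y t))) := by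
    intro t ht hc
    have h1 : Tendsto (fun c : ℝ => (γ.x t + deriv γ.x t / U c t, γ.y t + deriv γ.y t / U c t))
        (𝓝[>] 0) (𝓝 (γ.x t, γ.y t)) := by
      have e1 : Tendsto (fun c : ℝ => γ.x t + deriv γ.x t / U c t) (𝓝[>] 0) (𝓝 (γ.x t)) := by
        have := ((hlim t).const_div_atTop (deriv γ.x t)).const_add (γ.x t)
        simpa using this
      have e2 : Tendsto (fun c : ℝ => γ.y t + deriv γ.y t / U c t) (𝓝[>] 0) (𝓝 (γ.y t)) := by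
        have := ((hlim t).const_div_atTop (deriv γ.y t)).const_add (γ.y t)
        simpa using this
      exact e1.prodMk_nhds e2
    have h2 := hc.tendsto.comp h1
    refine h2.congr' ?_
    have h3 : ∀ᶠ c in 𝓝[>] (0:ℝ), c ∈ Ioo (0:ℝ) r := Ioo_mem_nhdsGT hr
    filter_upwards [h3] with c hc'
    exact hFl c t hc'.1 hc'.2 ht
  have hball : ∀ᶠ t : ℝ in 𝓝 t₀, |t - t₀| < r := by
    have := Metric.ball_mem_nhds t₀ hr
    filter_upwards [this] with t ht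
    simpa [Real.dist_eq] using ht
  have h0 := hlimf t₀ (by simpa using hr) hcont.self_of_nhds
  filter_upwards [hcont, hball] with t h1 h2
  exact tendsto_nhds_unique (hlimf t h2 h1) h0

/-- brackets at real points -/
theorem br_real (γ : ConvexCurve) {X Y : ℂ → ℂ} {t s : ℝ} (h1 : X t = γ.x t) (h2 : Y t = γ.y t)
    (h3 : deriv X t = ((deriv γ.x t : ℝ) : ℂ)) (h4 : deriv Y t = ((deriv γ.y t : ℝ) : ℂ))
    (h5 : X s = γ.x s) (h6 : Y s = γ.y s)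
    (h7 : deriv X s = ((deriv γ.x s : ℝ) : ℂ)) (h8 : deriv Y s = ((deriv γ.y s : ℝ) : ℂ)) :
    brN X Y t s = ((dd γ.Γ t s : ℝ) : ℂ) ∧ brD X Y t s = ((-ddx γ.Γ t s : ℝ) : ℂ) := by
  unfold brN brD
  rw [h1, h2, h3, h4, h5, h6, h7, h8, γ.dd_Γ, ddx_Γ]
  constructor
  · push_cast
    ring
  · push_cast
    ring

end real

end RealGood

end Pool.Agent.MP_ae5b4e_an_FLEX
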