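import Mathlib
import Pool.Agent.Lib.MP_ae5b4e_an_FLEX.Defs
import Pool.Agent.Lib.MP_ae5b4e_an_hopf.Plane

/-!
# MP_ae5b4e_an, flexes of the curve: the previous tangency
-/

set_option autoImplicit false

noncomputable section

namespace Pool.Agent.MP_ae5b4e_an_FLEX

open Filter Topology Set Metric
open Pool.Agent.MP_ae5b4e_an_ND (cc cf co Dx Dy Filt)

section real
open Pool.Agent.MP_ae5b4e_an_hopf

namespace RealStep

/-- the coordinate of the intersection of two near tangent lines -/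
lemma bounds (γ : ConvexCurve) : ∃ C : ℝ, 0 ≤ C ∧ ∀ t s : ℝ, t < s → s - t ≤ γ.T / 2 →
    2 / (s - t) - C ≤ -L1 γ.Γ t s ∧ -L1 γ.Γ t s ≤ 2 / (s - t) + C := by
  have hC := γ.isCurve
  have hT := γ.T_pos
  obtain ⟨C, hC0, hb⟩ := hC.nice_el.P1.bounded hT
  refine ⟨C, hC0, fun t s hts hst => ?_⟩
  have h1 : |t - s| = s - t := by rw [abs_sub_comm, abs_of_pos (by linarith)]
  have h2 := hC.L1_eq hts.ne (by rw [h1]; linarith)
  have h3 := abs_le.1 (hb (t, s) (by show |t - s| ≤ γ.T / 2; rw [h1]; exact hst))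
  have h4 : 2 / (t - s) = -(2 / (s - t)) := by
    rw [← neg_sub s t, div_neg]
  rw [h2, h4]
  constructor
  · linarith [h3.2]
  · linarith [h3.1]

/-- uniformity of the limit on an interval -/
lemma uniform {U : ℝ → ℝ → ℝ}
    (hcont : ContinuousOn (fun q : ℝ × ℝ => U q.1 q.2) (Ioo 0 1 ×ˢ univ))
    (hmono : ∀ c ∈ Ioo (0:ℝ) 1, ∀ c' ∈ Ioo (0:ℝ) 1, c < c' → ∀ t, U c' t < U c t)
    (hlim : ∀ t, Tendsto (fun c => U c t) (𝓝[>] 0) atTop) (a b B : ℝ) {ε : ℝ} (hε : 0 < ε)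
    (hε1 : ε ≤ 1) : ∃ c, 0 < c ∧ c < ε ∧ ∀ t ∈ Icc a b, B < U c t := by
  have hc1 : ∀ c ∈ Ioo (0:ℝ) 1, Continuous (U c) := by
    intro c hc
    have h1 : ContinuousOn (fun t : ℝ => (fun q : ℝ × ℝ => U q.1 q.2) (c, t)) univ :=
      hcont.comp (by fun_prop) (fun t _ => ⟨hc, mem_univ t⟩)
    exact continuousOn_univ.1 h1
  have hex : ∀ t, ∃ c, 0 < c ∧ c < ε ∧ B < U c t := by
    intro t
    have h1 := (hlim t).eventually_gt_atTop B
    have h2 : ∀ᶠ c in 𝓝[>] (0:ℝ), c ∈ Ioo (0:ℝ) ε := Ioo_mem_nhdsGT hε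
    obtain ⟨c, h3, h4⟩ := (h1.and h2).exists
    exact ⟨c, h4.1, h4.2, h3⟩
  choose f hf0 hfε hfB using hex
  obtain ⟨S, hS, hcov⟩ := (isCompact_Icc (a := a) (b := b)).elim_nhds_subcover
    (fun t => {s | B < U (f t) s}) (fun t _ =>
      ((hc1 (f t) ⟨hf0 t, (hfε t).trans_le hε1⟩).tendsto t).eventually (eventually_gt_nhds (hfB t)))
  have hmin : ∃ c, 0 < c ∧ c < ε ∧ ∀ t ∈ S, c ≤ f t := by
    clear hcov hS
    induction S using Finset.induction with
    | empty => exact ⟨ε / 2, by linarith, by linarith, by simp⟩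
    | insert t S _ ih =>
      obtain ⟨c, h1, h2, h3⟩ := ih
      refine ⟨min c (f t), lt_min h1 (hf0 t), (min_le_left _ _).trans_lt h2, fun s hs => ?_⟩
      rcases Finset.mem_insert.1 hs with rfl | hs
      · exact min_le_right _ _
      · exact (min_le_left _ _).trans (h3 s hs)
  obtain ⟨c, h1, h2, h3⟩ := hmin
  refine ⟨c, h1, h2, fun s hs => ?_⟩
  obtain ⟨t, ht, hts⟩ := mem_iUnion₂.1 (hcov hs)
  have h4 : B < U (f t) s := hts
  rcases (h3 t ht).eq_or_lt with h5 | h5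
  · rwa [h5]
  · exact h4.trans (hmono c ⟨h1, h2.trans_le hε1⟩ (f t) ⟨hf0 t, (hfε t).trans_le hε1⟩ h5 s)

end RealStep

theorem real_step (γ : ConvexCurve) (U : ℝ → ℝ → ℝ) (κ : ℝ → ℝ) (t₀ : ℝ)
    (hcont : ContinuousOn (fun q : ℝ × ℝ => U q.1 q.2) (Ioo 0 1 ×ˢ univ))
    (hsimple : ∀ c ∈ Ioo (0:ℝ) 1, ∀ t t', γ.pt t (U c t) = γ.pt t' (U c t') →
      ∃ n : ℤ, t' = t + n * γ.T)
    (hmono : ∀ c ∈ Ioo (0:ℝ) 1, ∀ c' ∈ Ioo (0:ℝ) 1, c < c' → ∀ t, U c' t < U c t)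
    (hlim : ∀ t, Tendsto (fun c => U c t) (𝓝[>] 0) atTop)
    (hproj : ∀ c ∈ Ioo (0:ℝ) 1, ∀ t u v, u ≠ v → γ.pt t u ∈ γ.leaf U c →
      γ.pt t v ∈ γ.leaf U c → u + v = κ t) {ε : ℝ} (hε : 0 < ε) :
    ∃ δ > 0, ∀ x y : ℝ, |x - t₀| < δ → 0 < y → y < δ → ∃ c y' : ℝ, 0 < c ∧ c < ε ∧ c < 1 ∧
      0 < y' ∧ y' < ε ∧ -L1 γ.Γ x (x + y) = U c x ∧ -L1 γ.Γ (x - y') x = U c (x - y') ∧
      -L1 γ.Γ x (x + y) - L1 γ.Γ x (x - y') = κ x := by
  have hCu := γ.isCurve
  have hT := γ.T_pos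
  obtain ⟨C, hC0, hb⟩ := RealStep.bounds γ
  -- continuity of the two sections
  have hc1 : ∀ c ∈ Ioo (0:ℝ) 1, Continuous (U c) := by
    intro c hc
    have h1 : ContinuousOn (fun t : ℝ => (fun q : ℝ × ℝ => U q.1 q.2) (c, t)) univ :=
      hcont.comp (by fun_prop) (fun t _ => ⟨hc, mem_univ t⟩)
    exact continuousOn_univ.1 h1
  have hc2 : ∀ t, ContinuousOn (fun c => U c t) (Ioo 0 1) := by
    intro t
    exact hcont.comp (f := fun c : ℝ => (c, t)) (by fun_prop) (fun c hc => ⟨hc, mem_univ t⟩)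
  -- the first step
  obtain ⟨e, he0, heε, heT, he1⟩ : ∃ e, 0 < e ∧ e < ε ∧ e < γ.T / 2 ∧ e < 1 := by
    refine ⟨min ε (min (γ.T / 2) 1) / 2, ?_, ?_, ?_, ?_⟩
    · have : 0 < min ε (min (γ.T / 2) 1) := lt_min hε (lt_min (by linarith) one_pos)
      linarith
    · have h1 := min_le_left ε (min (γ.T / 2) 1)
      have : 0 < min ε (min (γ.T / 2) 1) := lt_min hε (lt_min (by linarith) one_pos)
      linarith
    · have h1 := (min_le_right ε (min (γ.T / 2) 1)).trans (min_le_left _ _)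
      have : 0 < min ε (min (γ.T / 2) 1) := lt_min hε (lt_min (by linarith) one_pos)
      linarith
    · have h1 := (min_le_right ε (min (γ.T / 2) 1)).trans (min_le_right _ _)
      have : 0 < min ε (min (γ.T / 2) 1) := lt_min hε (lt_min (by linarith) one_pos)
      linarith
  obtain ⟨c2, hc20, hc2ε, hc2B⟩ := RealStep.uniform hcont hmono hlim (t₀ - 2) (t₀ + 2)
    (2 / e + C) (ε := min ε 1) (lt_min hε one_pos) (min_le_right _ _)
  have hc2m : c2 ∈ Ioo (0:ℝ) 1 := ⟨hc20, hc2ε.trans_le (min_le_right _ _)⟩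
  obtain ⟨B2, hB2⟩ : ∃ B2, ∀ x ∈ Icc (t₀ - 1) (t₀ + 1), U c2 x ≤ B2 := by
    obtain ⟨B2, h1⟩ := (isCompact_Icc (a := t₀ - 1) (b := t₀ + 1)).bddAbove_image
      (hc1 c2 hc2m).continuousOn
    exact ⟨B2, fun x hx => h1 ⟨x, hx, rfl⟩⟩
  have hpos : 0 < |B2| + C + 1 := by positivity
  refine ⟨min 1 (min (γ.T / 2) (2 / (|B2| + C + 1))), lt_min one_pos (lt_min (by linarith)
    (by positivity)), fun x y hx hy0 hy => ?_⟩
  have hx1 : |x - t₀| < 1 := hx.trans_le (min_le_left _ _)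
  have hyT : y < γ.T / 2 := hy.trans_le ((min_le_right _ _).trans (min_le_left _ _))
  have hyB : y < 2 / (|B2| + C + 1) := hy.trans_le ((min_le_right _ _).trans (min_le_right _ _))
  rw [abs_lt] at hx1
  -- the value of u at (x, x + y)
  obtain ⟨hu1, -⟩ := hb x (x + y) (by linarith) (by linarith)
  set u := -L1 γ.Γ x (x + y) with hu
  have hu2 : B2 < u := by
    have h1 : |B2| + C + 1 < 2 / y := by
      rw [lt_div_iff₀ hy0]
      rw [lt_div_iff₀ hpos] at hyB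
      linarith
    have h2 : x + y - x = y := by ring
    rw [h2] at hu1
    have h3 := le_abs_self B2
    linarith
  have hU2 : U c2 x < u := (hB2 x ⟨by linarith, by linarith⟩).trans_lt hu2
  -- the leaf
  obtain ⟨c, hc0, hcc2, hcu⟩ : ∃ c, 0 < c ∧ c < c2 ∧ U c x = u := by
    have h1 := (hlim x).eventually_gt_atTop u
    have h2 : ∀ᶠ c in 𝓝[>] (0:ℝ), c ∈ Ioo (0:ℝ) c2 := Ioo_mem_nhdsGT hc20
    obtain ⟨c3, h3, h4⟩ := (h1.and h2).exists
    have h5 : ContinuousOn (fun c => U c x) (Icc c3 c2) :=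
      (hc2 x).mono fun c hc => ⟨h4.1.trans_le hc.1, hc.2.trans_lt hc2m.2⟩
    obtain ⟨c, hc, hcu⟩ := intermediate_value_Icc' h4.2.le h5 ⟨hU2.le, h3.le⟩
    refine ⟨c, h4.1.trans_le hc.1, lt_of_le_of_ne hc.2 ?_, hcu⟩
    rintro rfl
    have : U c x = u := hcu
    linarith
  have hcm : c ∈ Ioo (0:ℝ) 1 := ⟨hc0, hcc2.trans hc2m.2⟩
  have hcε : c < ε := hcc2.trans (hc2ε.trans_le (min_le_left _ _))
  -- the previous tangency
  obtain ⟨y', hy'0, hy'e, hy'⟩ : ∃ y', 0 < y' ∧ y' ≤ e ∧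
      -L1 γ.Γ (x - y') x = U c (x - y') := by
    obtain ⟨M, hM⟩ : ∃ M, ∀ z ∈ Icc (x - e) x, U c z ≤ M := by
      obtain ⟨M, h1⟩ := (isCompact_Icc (a := x - e) (b := x)).bddAbove_image
        (hc1 c hcm).continuousOn
      exact ⟨M, fun z hz => h1 ⟨z, hz, rfl⟩⟩
    have hposM : 0 < |M| + C + 1 := by positivity
    set y1 := min e (2 / (|M| + C + 1)) with hy1
    have hy10 : 0 < y1 := lt_min he0 (by positivity)
    have hy1e : y1 ≤ e := min_le_left _ _
    have hcontφ : ContinuousOn (fun z => -L1 γ.Γ (x - z) x - U c (x - z)) (Icc y1 e) := by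
      intro z hz
      have hz0 : 0 < z := hy10.trans_le hz.1
      have hze : z ≤ e := hz.2
      have h1 : dd γ.Γ (x - z) x ≠ 0 :=
        (hCu.dd_pos_right (by linarith) (by linarith)).ne'
      have h2 : ContinuousAt (fun z => L1 γ.Γ (x - z) x) z := by
        have h3 : ContinuousAt (fun w => L1 γ.Γ w x) (x - z) :=
          (hCu.hasDerivAt_L1_left h1).continuousAt
        exact ContinuousAt.comp (f := fun z : ℝ => x - z) (g := fun w => L1 γ.Γ w x) h3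
          (by fun_prop)
      have h4 : Continuous fun z => U c (x - z) := (hc1 c hcm).comp (by fun_prop)
      exact (h2.neg.sub h4.continuousAt).continuousWithinAt
    have hend : -L1 γ.Γ (x - e) x - U c (x - e) ≤ 0 := by
      obtain ⟨-, h1⟩ := hb (x - e) x (by linarith) (by linarith)
      have h2 : x - (x - e) = e := by ring
      rw [h2] at h1
      have h3 := hc2B (x - e) ⟨by linarith, by linarith⟩
      have h4 := hmono c hcm c2 hc2m hcc2 (x - e)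
      linarith
    have hstart : 0 ≤ -L1 γ.Γ (x - y1) x - U c (x - y1) := by
      obtain ⟨h1, -⟩ := hb (x - y1) x (by linarith) (by linarith)
      have h2 : x - (x - y1) = y1 := by ring
      rw [h2] at h1
      have h3 := hM (x - y1) ⟨by linarith, by linarith⟩
      have h4 : |M| + C + 1 ≤ 2 / y1 := by
        rw [le_div_iff₀ hy10]
        have h5 : y1 ≤ 2 / (|M| + C + 1) := min_le_right _ _
        rw [le_div_iff₀ hposM] at h5
        linarith
      have h5 := le_abs_self M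
      linarith
    obtain ⟨y', h1, h2⟩ := intermediate_value_Icc' hy1e hcontφ ⟨hend, hstart⟩
    refine ⟨y', hy10.trans_le h1.1, h1.2, ?_⟩
    have h3 : -L1 γ.Γ (x - y') x - U c (x - y') = 0 := h2
    linarith
  refine ⟨c, y', hc0, hcε, hcm.2, hy'0, hy'e.trans_lt heε, hcu.symm, hy', ?_⟩
  have h1 := γ.feq_of_proj (U := U) (κ := κ) (c := c) (hsimple c hcm) (hproj c hcm)
    (t := x - y') (s := x) (by linarith) (by linarith) (by linarith)
  linarith

end real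

end Pool.Agent.MP_ae5b4e_an_FLEX
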