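import Mathlib
import Pool.Agent.Lib.MP_ae5b4e_an_FLEX.Defs
import Pool.Agent.Lib.MP_ae5b4e_an_FLEX.RealStep
import Pool.Agent.Lib.MP_ae5b4e_an_FLEX.GeoK
import Pool.Agent.Lib.MP_ae5b4e_an_FLEX.RealGoodA
import Pool.Agent.Lib.MP_ae5b4e_an_FLEX.RealGoodB
import Pool.Agent.Lib.MP_ae5b4e_an_FLEX.RealGoodC

/-!
# MP_ae5b4e_an, flexes: the kick of the curve has an analytic first integral near a real point
-/

set_option autoImplicit false

noncomputable section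

namespace Pool.Agent.MP_ae5b4e_an_FLEX

open Filter Topology Set Metric
open Pool.Agent.MP_ae5b4e_an_ND (cc cf co Dx Dy Filt)
open GeoK RealGood

section real
open Pool.Agent.MP_ae5b4e_an_hopf

theorem real_good (γ : ConvexCurve) (U : ℝ → ℝ → ℝ) (κ : ℝ → ℝ) (t₀ : ℝ)
    (hcont : ContinuousOn (fun q : ℝ × ℝ => U q.1 q.2) (Ioo 0 1 ×ˢ univ))
    (hsimple : ∀ c ∈ Ioo (0:ℝ) 1, ∀ t t', γ.pt t (U c t) = γ.pt t' (U c t') →
      ∃ n : ℤ, t' = t + n * γ.T)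
    (hmono : ∀ c ∈ Ioo (0:ℝ) 1, ∀ c' ∈ Ioo (0:ℝ) 1, c < c' → ∀ t, U c' t < U c t)
    (hlim : ∀ t, Tendsto (fun c => U c t) (𝓝[>] 0) atTop)
    (hproj : ∀ c ∈ Ioo (0:ℝ) 1, ∀ t u v, u ≠ v → γ.pt t u ∈ γ.leaf U c →
      γ.pt t v ∈ γ.leaf U c → u + v = κ t)
    {F : ℝ × ℝ → ℝ} (hF : AnalyticAt ℝ F (γ.x t₀, γ.y t₀)) (hF' : fderiv ℝ F (γ.x t₀, γ.y t₀) ≠ 0)
    {f : ℝ → ℝ} (hFl : ∀ᶠ q in 𝓝 ((0, t₀) : ℝ × ℝ), 0 < q.1 →
      F (γ.x q.2 + deriv γ.x q.2 / U q.1 q.2, γ.y q.2 + deriv γ.y q.2 / U q.1 q.2) = f q.1)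
    {X Y K : ℂ → ℂ} (hX : AnalyticAt ℂ X t₀) (hY : AnalyticAt ℂ Y t₀) (hK : AnalyticAt ℂ K t₀)
    (hXr : ∀ᶠ t : ℝ in 𝓝 t₀, X t = γ.x t) (hYr : ∀ᶠ t : ℝ in 𝓝 t₀, Y t = γ.y t)
    (hKr : ∀ᶠ t : ℝ in 𝓝 t₀, K t = κ t) : GoodG X Y K t₀ := by
  -- real derivatives
  have hX'r := deriv_real hX (fun t => (γ.hd_x t).differentiableAt) hXr
  have hY'r := deriv_real hY (fun t => (γ.hd_y t).differentiableAt) hYr
  have hX''r := deriv_real hX.deriv (fun t => (γ.hd_x' t).differentiableAt) hX'r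
  have hY''r := deriv_real hY.deriv (fun t => (γ.hd_y' t).differentiableAt) hY'r
  have hX0 : X t₀ = γ.x t₀ := hXr.self_of_nhds
  have hY0 : Y t₀ = γ.y t₀ := hYr.self_of_nhds
  have hW : Wr X Y t₀ ≠ 0 := by
    unfold Wr
    rw [hX'r.self_of_nhds, hY'r.self_of_nhds, hX''r.self_of_nhds, hY''r.self_of_nhds]
    have := (γ.curved t₀).ne'
    exact_mod_cast this
  have hreg : RegG X Y K t₀ := ⟨hX, hY, hK, hW⟩
  refine ⟨hreg, ?_⟩
  -- the function `F`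
  obtain ⟨Fc, hFca, hFcr⟩ := Pool.Agent.MP_ae5b4e_an_Cplx.exists_extension hF
  have hFc' := fderiv_ne hF' hFca hFcr
  obtain ⟨rF, hrF, hFl'⟩ : ∃ r > 0, ∀ c t : ℝ, 0 < c → c < r → |t - t₀| < r →
      F (γ.x t + deriv γ.x t / U c t, γ.y t + deriv γ.y t / U c t) = f c := by
    obtain ⟨r, hr, h⟩ := Metric.eventually_nhds_iff.1 hFl
    refine ⟨r, hr, fun c t h1 h2 h3 => ?_⟩
    have h4 : dist ((c, t) : ℝ × ℝ) (0, t₀) < r := by
      rw [Prod.dist_eq]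
      apply max_lt
      · simpa [Real.dist_eq, abs_of_pos h1] using h2
      · simpa [Real.dist_eq] using h3
    exact h h4 h1
  have hFconst := F_const γ U t₀ hlim hF hrF hFl'
  set F0 : ℂ := ((F (γ.x t₀, γ.y t₀) : ℝ) : ℂ) with hF0
  have hcurve : ∀ᶠ t in 𝓝 (t₀ : ℂ), Fc (X t, Y t) = F0 := by
    have e1 : AnalyticAt ℂ (fun t : ℂ => Fc (X t, Y t) - F0) t₀ := by
      have e2 : AnalyticAt ℂ (fun t : ℂ => (X t, Y t)) t₀ := hX.prod hY
      have e3 := AnalyticAt.fun_comp (g := Fc) (f := fun t : ℂ => (X t, Y t)) (x := (t₀ : ℂ))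
        (by rw [hX0, hY0]; exact hFca) e2
      exact e3.sub analyticAt_const
    have e4 : ∀ᶠ t : ℝ in 𝓝 t₀, (fun t : ℂ => Fc (X t, Y t) - F0) t = 0 := by
      have e5 : Tendsto (fun t : ℝ => (γ.x t, γ.y t)) (𝓝 t₀) (𝓝 (γ.x t₀, γ.y t₀)) :=
        ((γ.smooth_x.continuous.continuousAt).prodMk (γ.smooth_y.continuous.continuousAt)).tendsto
      filter_upwards [hXr, hYr, e5.eventually hFcr, hFconst] with t h1 h2 h3 h4
      show Fc (X t, Y t) - F0 = 0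
      rw [h1, h2, h3, h4, sub_self]
    filter_upwards [Pool.Agent.MP_ae5b4e_an_GeoX.real_zero e1 e4] with t ht
    exact sub_eq_zero.1 ht
  obtain ⟨H, hHa, hH0, hHe⟩ := exists_H (F0 := F0) (by rw [hX0, hY0]; exact hFca) hX hY hcurve
    (by rw [hX0, hY0]; exact hFc') hW
  -- the function `m`
  obtain ⟨N, D, hN, hD, hND, haxis⟩ := exists_ND hX hY
  have hN0 : N (t₀, 0) = Wr X Y t₀ / 2 := haxis.self_of_nhds.1
  have hD0 : D (t₀, 0) = Wr X Y t₀ := haxis.self_of_nhds.2.1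
  have hDne : D (t₀, 0) ≠ 0 := by rw [hD0]; exact hW
  have hNne : N (t₀, 0) ≠ 0 := by rw [hN0]; exact div_ne_zero hW two_ne_zero
  set m : ℂ × ℂ → ℂ := fun p => p.2 * (N p / D p) with hm
  have hsnd : AnalyticAt ℂ (fun p : ℂ × ℂ => p.2) ((t₀ : ℂ), 0) := analyticAt_snd
  have hma : AnalyticAt ℂ m (t₀, 0) := hsnd.mul (hN.div hD hDne)
  have hm0 : ∀ᶠ t in 𝓝 (t₀ : ℂ), m (t, 0) = 0 := Eventually.of_forall fun t => by simp [hm]
  have hm00 : m (t₀, 0) = 0 := hm0.self_of_nhds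
  have hm1 : deriv (fun y => m (t₀, y)) 0 ≠ 0 := by
    have h1 : AnalyticAt ℂ (fun y : ℂ => (((t₀ : ℂ), y) : ℂ × ℂ)) 0 :=
      analyticAt_const.prod analyticAt_id
    have h2 : AnalyticAt ℂ (fun y : ℂ => N (t₀, y) / D (t₀, y)) 0 :=
      AnalyticAt.comp (g := fun p => N p / D p) (f := fun y : ℂ => (((t₀ : ℂ), y) : ℂ × ℂ))
        (hN.div hD hDne) h1
    have h3 : HasDerivAt (fun y : ℂ => y * (N (t₀, y) / D (t₀, y)))
        (1 * (N (t₀, 0) / D (t₀, 0)) + 0 * deriv (fun y : ℂ => N (t₀, y) / D (t₀, y)) 0) 0 :=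
      (hasDerivAt_id (0:ℂ)).mul h2.differentiableAt.hasDerivAt
    have h4 : deriv (fun y => m (t₀, y)) 0 = N (t₀, 0) / D (t₀, 0) := by
      have := h3.deriv
      simp only [hm]
      rw [this]
      ring
    rw [h4]
    exact div_ne_zero hNne hDne
  obtain ⟨A, hA, hAr, ρ, hρ, hun⟩ := exists_kick hma hm0 hm1 hK
  have hDev : ∀ᶠ p in 𝓝 (((t₀ : ℂ), 0) : ℂ × ℂ), D p ≠ 0 := hD.continuousAt.eventually_ne hDne
  have hNev : ∀ᶠ p in 𝓝 (((t₀ : ℂ), 0) : ℂ × ℂ), N p ≠ 0 := hN.continuousAt.eventually_ne hNne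
  refine ⟨A, ⟨hA, ?_⟩, ?_⟩
  · have hk := tendsto_kick hA.ana.continuousAt (Kick.zero_self hA)
    filter_upwards [hAr, hND, hk.eventually hND, hDev, hk.eventually hDev] with p h1 h2 h3 h4 h5
    obtain ⟨h2a, h2b⟩ := h2
    obtain ⟨h3a, h3b⟩ := h3
    simp only [← sub_eq_add_neg] at h3a h3b
    rw [h2a, h2b, h3a, h3b]
    simp only [hm] at h1
    set N1 := N p
    set D1 := D p
    set N2 := N (p.1, -A p)
    set D2 := D (p.1, -A p)
    field_simp at h1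
    linear_combination (A p * p.2) * h1
  -- the point on the tangent line
  have hcpt : Tendsto (fun p : ℂ × ℂ => ((p.1, m p) : ℂ × ℂ)) (𝓝 (((t₀ : ℂ), 0) : ℂ × ℂ))
      (𝓝 ((t₀ : ℂ), 0)) := by
    have e1 : ContinuousAt (fun p : ℂ × ℂ => ((p.1, m p) : ℂ × ℂ)) ((t₀ : ℂ), 0) :=
      continuousAt_fst.prodMk hma.continuousAt
    have e2 := e1.tendsto
    simp only [hm00] at e2
    exact e2
  have hPt := hcpt.eventually hHe
  have hre : ∀ᶠ p : ℂ × ℂ in 𝓝 (((t₀ : ℂ), 0) : ℂ × ℂ),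
      Fc (((X p.1 + m p * deriv X p.1).re : ℝ), ((Y p.1 + m p * deriv Y p.1).re : ℝ)) =
      ((F ((X p.1 + m p * deriv X p.1).re, (Y p.1 + m p * deriv Y p.1).re) : ℝ) : ℂ) := by
    have e0 : ∀ {Z : ℂ → ℂ}, AnalyticAt ℂ Z t₀ →
        Tendsto (fun p : ℂ × ℂ => (Z p.1 + m p * deriv Z p.1).re) (𝓝 (((t₀ : ℂ), 0) : ℂ × ℂ))
        (𝓝 (Z t₀).re) := by
      intro Z hZ
      have e1 : ContinuousAt (fun p : ℂ × ℂ => Z p.1 + m p * deriv Z p.1) ((t₀ : ℂ), 0) := by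
        have f1 : ContinuousAt (fun p : ℂ × ℂ => Z p.1) ((t₀ : ℂ), 0) :=
          ContinuousAt.comp (f := fun p : ℂ × ℂ => p.1) (g := Z) hZ.continuousAt continuousAt_fst
        have f2 : ContinuousAt (fun p : ℂ × ℂ => deriv Z p.1) ((t₀ : ℂ), 0) :=
          ContinuousAt.comp (f := fun p : ℂ × ℂ => p.1) (g := deriv Z) hZ.deriv.continuousAt
            continuousAt_fst
        exact f1.add (hma.continuousAt.mul f2)
      have e2 := (Complex.continuous_re.continuousAt.comp e1).tendsto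
      have e3 : (Complex.re ∘ fun p : ℂ × ℂ => Z p.1 + m p * deriv Z p.1) ((t₀ : ℂ), 0) =
          (Z t₀).re := by
        simp only [Function.comp_apply, hm00, zero_mul, add_zero]
      rw [e3] at e2
      exact e2
    have e1 := (e0 hX).prodMk_nhds (e0 hY)
    rw [hX0, hY0, Complex.ofReal_re, Complex.ofReal_re] at e1
    exact e1.eventually hFcr
  -- a neighbourhood
  obtain ⟨r1, hr1, hP⟩ := Metric.eventually_nhds_iff.1
    (hND.and (hDev.and (hNev.and (hPt.and hre))))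
  obtain ⟨r2, hr2, hQ⟩ := Metric.eventually_nhds_iff.1
    (hXr.and (hYr.and (hX'r.and (hY'r.and hKr))))
  have hPc : ∀ x y : ℝ, |x - t₀| < r1 → |y| < r1 → dist (((x : ℂ), (y : ℂ)) : ℂ × ℂ)
      ((t₀ : ℂ), 0) < r1 := by
    intro x y h1 h2
    rw [Prod.dist_eq]
    apply max_lt
    · show dist (x : ℂ) (t₀ : ℂ) < r1
      rw [Complex.dist_eq, ← Complex.ofReal_sub, Complex.norm_real]
      exact h1
    · show dist (y : ℂ) 0 < r1
      rw [dist_zero_right, Complex.norm_real]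
      exact h2
  have hQc : ∀ x : ℝ, |x - t₀| < r2 → dist x t₀ < r2 := fun x h => by rwa [Real.dist_eq]
  -- the value of `m` at real points
  have mreal : ∀ x y : ℝ, |x - t₀| < r1 → |y| < r1 → |x - t₀| < r2 → |x + y - t₀| < r2 → y ≠ 0 →
      m ((x : ℂ), (y : ℂ)) ≠ 0 ∧
      (m ((x : ℂ), (y : ℂ)))⁻¹ = ((-L1 γ.Γ x (x + y) : ℝ) : ℂ) := by
    intro x y h1 h2 h3 h4 hy
    obtain ⟨p1, p2, p3, -, -⟩ := hP (hPc x y h1 h2)
    obtain ⟨q1, q2, q3, q4, -⟩ := hQ (hQc x h3)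
    obtain ⟨s1, s2, s3, s4, -⟩ := hQ (hQc (x + y) h4)
    obtain ⟨b1, b2⟩ := br_real γ q1 q2 q3 q4 s1 s2 s3 s4
    have hyc : (y : ℂ) ≠ 0 := by exact_mod_cast hy
    have hm' : m ((x : ℂ), (y : ℂ)) = (y : ℂ) * (N (x, y) / D (x, y)) := rfl
    have hp1 : brN X Y x (x + y) = (y : ℂ) ^ 2 * N (x, y) := p1.1
    have hp2 : brD X Y x (x + y) = (y : ℂ) * D (x, y) := p1.2
    rw [Complex.ofReal_add] at b1 b2
    rw [hp1] at b1
    rw [hp2] at b2
    have hp3 : N ((x : ℂ), (y : ℂ)) ≠ 0 := p3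
    have hp4 : D ((x : ℂ), (y : ℂ)) ≠ 0 := p2
    refine ⟨?_, ?_⟩
    · rw [hm']
      exact mul_ne_zero hyc (div_ne_zero hp3 hp4)
    · rw [hm']
      unfold L1
      rw [← neg_div, Complex.ofReal_div, ← b1, ← b2]
      field_simp
  -- the value of the first integral at real points
  have val : ∀ x y c : ℝ, |x - t₀| < r1 → |y| < r1 → |x - t₀| < r2 → |x + y - t₀| < r2 → y ≠ 0 →
      |x - t₀| < rF → 0 < c → c < rF → -L1 γ.Γ x (x + y) = U c x →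
      F0 + m ((x : ℂ), (y : ℂ)) ^ 2 * H ((x : ℂ), m ((x : ℂ), (y : ℂ))) = ((f c : ℝ) : ℂ) := by
    intro x y c h1 h2 h3 h4 hy h5 h6 h7 h8
    obtain ⟨-, -, -, p4, p5⟩ := hP (hPc x y h1 h2)
    obtain ⟨q1, q2, q3, q4, -⟩ := hQ (hQc x h3)
    obtain ⟨m1, m2⟩ := mreal x y h1 h2 h3 h4 hy
    rw [h8] at m2
    have m3 : m ((x : ℂ), (y : ℂ)) = (((U c x)⁻¹ : ℝ) : ℂ) := by
      rw [Complex.ofReal_inv, ← m2, inv_inv]
    have e1 : X x + m ((x : ℂ), (y : ℂ)) * deriv X x =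
        ((γ.x x + deriv γ.x x / U c x : ℝ) : ℂ) := by
      rw [m3, q1, q3]
      push_cast
      ring
    have e2 : Y x + m ((x : ℂ), (y : ℂ)) * deriv Y x =
        ((γ.y x + deriv γ.y x / U c x : ℝ) : ℂ) := by
      rw [m3, q2, q4]
      push_cast
      ring
    simp only at p4 p5
    rw [e1, e2] at p5
    rw [e1, e2] at p4
    rw [Complex.ofReal_re, Complex.ofReal_re] at p5
    rw [← p4, p5, hFl' c x h6 h7 h5]
  -- the invariance
  apply goodY_of_sq hA hma hm0 hm1 hHa hH0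
  have hY0' : A ((t₀ : ℂ), 0) = 0 := hA.zero.self_of_nhds
  set T : ℂ × ℂ → ℂ × ℂ := TY A with hT
  have hTa : AnalyticAt ℂ T ((t₀ : ℂ), 0) := (analyticAt_fst.sub hA.ana).prod hA.ana
  have hT0 : T ((t₀ : ℂ), 0) = ((t₀ : ℂ), 0) := by
    simp only [hT, TY, hY0', sub_zero]
  set G : ℂ × ℂ → ℂ := fun p => m p ^ 2 * H (p.1, m p) with hG
  have hGa : AnalyticAt ℂ G ((t₀ : ℂ), 0) := by
    have e1 : AnalyticAt ℂ (fun p : ℂ × ℂ => (p.1, m p)) ((t₀ : ℂ), 0) := analyticAt_fst.prod hma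
    have e2 := AnalyticAt.fun_comp (g := H) (f := fun p : ℂ × ℂ => (p.1, m p))
      (x := (((t₀ : ℂ), 0) : ℂ × ℂ)) (by simpa [hm00] using hHa) e1
    exact (hma.pow 2).mul e2
  set Δ : ℂ × ℂ → ℂ := fun p => G (T (p.1, -p.2)) - G (p.1, -p.2) with hΔ
  have hflip : AnalyticAt ℂ (fun p : ℂ × ℂ => ((p.1, -p.2) : ℂ × ℂ)) ((t₀ : ℂ), 0) :=
    analyticAt_fst.prod analyticAt_snd.neg
  have hΔa : AnalyticAt ℂ Δ ((t₀ : ℂ), 0) := by
    have e1 := AnalyticAt.fun_comp (g := G) (f := T) (x := (((t₀ : ℂ), 0) : ℂ × ℂ))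
      (by rw [hT0]; exact hGa) hTa
    have e2 := AnalyticAt.fun_comp (g := fun p => G (T p)) (f := fun p : ℂ × ℂ => ((p.1, -p.2) : ℂ × ℂ))
      (x := (((t₀ : ℂ), 0) : ℂ × ℂ)) (by simpa using e1) hflip
    have e3 := AnalyticAt.fun_comp (g := G) (f := fun p : ℂ × ℂ => ((p.1, -p.2) : ℂ × ℂ))
      (x := (((t₀ : ℂ), 0) : ℂ × ℂ)) (by simpa using hGa) hflip
    exact e2.sub e3
  -- the previous tangency
  set ε : ℝ := min (min (r1 / 2) (r2 / 3)) (min (rF / 2) ρ) with hε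
  have hε0 : 0 < ε := by
    simp only [hε, lt_min_iff]
    refine ⟨⟨by linarith, by linarith⟩, by linarith, hρ⟩
  have hε1 : ε ≤ r1 / 2 := (min_le_left _ _).trans (min_le_left _ _)
  have hε2 : ε ≤ r2 / 3 := (min_le_left _ _).trans (min_le_right _ _)
  have hε3 : ε ≤ rF / 2 := (min_le_right _ _).trans (min_le_left _ _)
  have hε4 : ε ≤ ρ := (min_le_right _ _).trans (min_le_right _ _)
  obtain ⟨δ, hδ, hstep⟩ := real_step γ U κ t₀ hcont hsimple hmono hlim hproj hε0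
  have hreal : ∀ x y : ℝ, |x - t₀| < min δ ε → 0 < y → y < min δ ε →
      G (T ((x : ℂ), (y : ℂ))) = G ((x : ℂ), (y : ℂ)) := by
    intro x y hx hy0 hy
    have hx1 : |x - t₀| < δ := hx.trans_le (min_le_left _ _)
    have hx2 : |x - t₀| < ε := hx.trans_le (min_le_right _ _)
    have hy1 : y < δ := hy.trans_le (min_le_left _ _)
    have hy2 : y < ε := hy.trans_le (min_le_right _ _)
    obtain ⟨c, y', hc0, hcε, hc1, hy'0, hy'ε, s1, s2, s3⟩ := hstep x y hx1 hy0 hy1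
    obtain ⟨a1, a2⟩ := abs_lt.1 hx2
    have b1 : |x - t₀| < r1 := hx2.trans_le (by linarith)
    have b2 : |x - t₀| < r2 := hx2.trans_le (by linarith)
    have b3 : |x - t₀| < rF := hx2.trans_le (by linarith)
    have b4 : |y| < r1 := by rw [abs_of_pos hy0]; linarith
    have b5 : |x + y - t₀| < r2 := by rw [abs_lt]; constructor <;> linarith
    have b6 : |-y'| < r1 := by rw [abs_neg, abs_of_pos hy'0]; linarith
    have b7 : |x + -y' - t₀| < r2 := by rw [abs_lt]; constructor <;> linarith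
    have b8 : |y'| < r1 := by rw [abs_of_pos hy'0]; linarith
    have b9 : |x - y' - t₀| < r1 := by rw [abs_lt]; constructor <;> linarith
    have b10 : |x - y' - t₀| < r2 := by rw [abs_lt]; constructor <;> linarith
    have b11 : |x - y' - t₀| < rF := by rw [abs_lt]; constructor <;> linarith
    have b12 : |x - y' + y' - t₀| < r2 := by rw [sub_add_cancel]; exact b2
    obtain ⟨m1, m2⟩ := mreal x y b1 b4 b2 b5 hy0.ne'
    obtain ⟨m3, m4⟩ := mreal x (-y') b1 b6 b2 b7 (by linarith)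
    rw [← sub_eq_add_neg] at m4
    obtain ⟨-, -, -, -, hk⟩ := hQ (hQc x b2)
    have hrel : m ((x : ℂ), -(y' : ℂ)) * (K x * m ((x : ℂ), (y : ℂ)) - 1) =
        m ((x : ℂ), (y : ℂ)) := by
      have e1 : (m ((x : ℂ), (y : ℂ)))⁻¹ + (m ((x : ℂ), ((-y' : ℝ) : ℂ)))⁻¹ = K x := by
        rw [m2, m4, hk, ← s3]
        push_cast
        ring
      rw [Complex.ofReal_neg] at e1 m3
      rw [← e1]
      field_simp
      ring
    have hy'A : (y' : ℂ) = A ((x : ℂ), (y : ℂ)) := by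
      apply hun x y y' ?_ ?_ ?_ hrel
      · rw [← Complex.ofReal_sub, Complex.norm_real]
        exact hx2.trans_le hε4
      · rw [Complex.norm_real, Real.norm_eq_abs, abs_of_pos hy0]
        linarith
      · rw [Complex.norm_real, Real.norm_eq_abs, abs_of_pos hy'0]
        linarith
    have hTe : T ((x : ℂ), (y : ℂ)) = (((x - y' : ℝ) : ℂ), (y' : ℂ)) := by
      simp only [hT, TY, ← hy'A]
      push_cast
      rfl
    have v1 := val x y c b1 b4 b2 b5 hy0.ne' b3 hc0 (by linarith) s1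
    have v2 := val (x - y') y' c b9 b8 b10 b12 hy'0.ne' b11 hc0 (by linarith)
      (by rw [sub_add_cancel]; exact s2)
    rw [hTe]
    simp only [hG]
    linear_combination v2 - v1
  have hΔ0 : ∀ᶠ p : ℝ × ℝ in 𝓝 (t₀, (0:ℝ)), p.2 < 0 → Δ ((p.1 : ℂ), (p.2 : ℂ)) = 0 := by
    rw [Metric.eventually_nhds_iff]
    refine ⟨min δ ε, lt_min hδ hε0, fun {p} hp hp2 => ?_⟩
    rw [Prod.dist_eq] at hp
    have h1 : |p.1 - t₀| < min δ ε := by
      have := (le_max_left _ _).trans_lt hp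
      rwa [Real.dist_eq] at this
    have h2 : -p.2 < min δ ε := by
      have := (le_max_right _ _).trans_lt hp
      rw [Real.dist_eq] at this
      simp only [sub_zero] at this
      rwa [abs_of_neg hp2] at this
    have h3 := hreal p.1 (-p.2) h1 (by linarith) h2
    simp only [hΔ]
    rw [Complex.ofReal_neg] at h3
    rw [h3, sub_self]
  have hΔz := Pool.Agent.MP_ae5b4e_an_GeoX.real_zero2 (a := t₀) (b := 0)
    (by simpa using hΔa) hΔ0
  have hflipT : Tendsto (fun p : ℂ × ℂ => ((p.1, -p.2) : ℂ × ℂ)) (𝓝 (((t₀ : ℂ), 0) : ℂ × ℂ))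
      (𝓝 ((t₀ : ℂ), ((0:ℝ) : ℂ))) := by
    have := hflip.continuousAt.tendsto
    simpa using this
  filter_upwards [hflipT.eventually hΔz] with p hp
  simp only [hΔ, neg_neg] at hp
  have := sub_eq_zero.1 hp
  simpa only [hG] using this

end real

end Pool.Agent.MP_ae5b4e_an_FLEX
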