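import Pool.Agent.Lib.MP_ae5b4e_an_FLEX.Orb
import Pool.Agent.Lib.SCV.Hartogs
import Pool.Agent.Lib.MP_ae5b4e_an_LAT.NDPc

/-!
# MP_ae5b4e_an, flexes of the curve: one step of the continuation (module FB)
-/

noncomputable section

namespace Pool.Agent.MP_ae5b4e_an_FLEX

open Filter Topology Set Metric
open Pool.Agent.MP_ae5b4e_an_ND (cc cf co Dx Dy Filt)
open Pool.Agent.MP_ae5b4e_an_ND (ev_eq_of_preconnected isPreconnected_axis key_ineq XX
  analyticAt_XX)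

namespace Step

theorem near_K {T : ℂ × ℂ → ℂ × ℂ} {S : ℂ × ℂ → ℂ} {s s' : ℝ} (hs : s' < s) (hE : EE T S s) :
    ∃ r0 > 0, ∀ x y : ℂ, ‖x‖ ≤ s' → ‖y‖ < r0 →
      AnalyticAt ℂ S (x, y) ∧ S (T (x, y)) = S (x, y) := by
  set V : Set (ℂ × ℂ) := {p | AnalyticAt ℂ S p} ∩ {p | ∀ᶠ q in 𝓝 p, S (T q) = S q} with hV
  have hVo : IsOpen V := by
    apply IsOpen.inter (isOpen_analyticAt ℂ S)
    rw [isOpen_iff_mem_nhds]
    intro p hp
    exact eventually_eventually_nhds.2 hp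
  have hsub : closedBall (0 : ℂ) s' ×ˢ ({0} : Set ℂ) ⊆ V := by
    rintro ⟨x, y⟩ ⟨hx, hy⟩
    have hy' : y = 0 := hy
    rw [hy']
    have hx' : x ∈ ball (0 : ℂ) s := by
      rw [mem_closedBall_zero_iff] at hx
      rw [mem_ball_zero_iff]
      exact lt_of_le_of_lt hx hs
    exact hE x hx'
  obtain ⟨u, v, hu, hv, hsu, hsv, huv⟩ :=
    generalized_tube_lemma (isCompact_closedBall (0 : ℂ) s') isCompact_singleton hVo hsub
  obtain ⟨r0, hr0, hr0v⟩ := Metric.isOpen_iff.1 hv 0 (hsv rfl)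
  refine ⟨r0, hr0, fun x y hx hy => ?_⟩
  have h1 : (x, y) ∈ V := huv ⟨hsu (by rwa [mem_closedBall_zero_iff]),
    hr0v (by rwa [mem_ball_zero_iff])⟩
  exact ⟨h1.1, h1.2.self_of_nhds⟩

/-- Positions after `k` steps, `k` close to `8 B Re eta / r ^ 2`. -/
theorem position {T J : ℂ × ℂ → ℂ × ℂ} {R1 M rg : ℝ} (hB : BdT T J R1 M rg) {B r s r0 : ℝ}
    (hB0 : 0 < B) (hB1 : B ≤ 1 / 1000) (hB2 : B * M * R1 ≤ 1 / 100000) (hs : 0 < s)
    (hsR : s * (1 + 100 * B) ≤ R1) (hr : 0 < r) (hrB : r ≤ B / 1000) (hr1 : 4 * R1 * r < rg)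
    (hr2 : 4 * R1 * r < r0) (q : ℂ × ℂ) (h1 : ‖q.1‖ < s * (1 + B)) (h2 : ‖q.2‖ < 2 * r) (k : ℤ)
    (hk : |8 * B * q.2.re / r ^ 2 - k| ≤ 1) :
    (|(k : ℝ)| * M * ‖XX B r q * q.2‖ ≤ 1 / 100 ∧ M * ‖XX B r q * q.2‖ ≤ 1 / 100 ∧
      2 * ‖XX B r q * q.2‖ < rg ∧ ‖XX B r q‖ + 2 * |(k : ℝ)| * ‖XX B r q * q.2‖ < R1) ∧
    ‖(TZ T J k (XX B r q, XX B r q * q.2)).1‖ ≤
      ‖q.1‖ * (1 - 4 / 5 * B * (‖q.2‖ / r) ^ 2 + B / 100) ∧
    ‖(TZ T J k (XX B r q, XX B r q * q.2)).2‖ < r0 := by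
  obtain ⟨ξ, η⟩ := q
  simp only at h1 h2 hk ⊢
  have hM := hB.hM
  have hR := hB.hR
  set ζ : ℂ := η / r with hζ
  have hrC : (r : ℂ) ≠ 0 := by exact_mod_cast hr.ne'
  have hηζ : η = r * ζ := by
    rw [hζ]
    field_simp
  have hζn : ‖ζ‖ = ‖η‖ / r := by
    rw [hζ, norm_div, Complex.norm_real, Real.norm_eq_abs, abs_of_pos hr]
  have hηn : ‖η‖ = r * ‖ζ‖ := by
    rw [hζn]
    field_simp
  have hζ2 : ‖ζ‖ ≤ 2 := by
    rw [hζn, div_le_iff₀ hr]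
    linarith
  have hζ0 := norm_nonneg ζ
  have hre : η.re = r * ζ.re := by
    rw [hηζ, Complex.re_ofReal_mul]
  have hk' : |8 * B * ζ.re / r - k| ≤ 1 := by
    have : 8 * B * η.re / r ^ 2 = 8 * B * ζ.re / r := by
      rw [hre]
      field_simp
    rwa [this] at hk
  have hreζ : |ζ.re| ≤ ‖ζ‖ := Complex.abs_re_le_norm ζ
  -- bound of `|k| ‖η‖`
  have hkη : |(k : ℝ)| * ‖η‖ ≤ 8 * B * ‖ζ‖ ^ 2 + 2 * r := by
    have e1 : |(k : ℝ)| ≤ 8 * B * |ζ.re| / r + 1 := by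
      have e2 := abs_sub_abs_le_abs_sub (k : ℝ) (8 * B * ζ.re / r)
      rw [abs_sub_comm] at e2
      have e3 : |8 * B * ζ.re / r| = 8 * B * |ζ.re| / r := by
        rw [abs_div, abs_mul, abs_of_pos hr, abs_of_pos (by positivity : (0 : ℝ) < 8 * B)]
      rw [e3] at e2
      linarith
    calc |(k : ℝ)| * ‖η‖ ≤ (8 * B * |ζ.re| / r + 1) * ‖η‖ :=
          mul_le_mul_of_nonneg_right e1 (norm_nonneg _)
      _ = 8 * B * |ζ.re| * ‖ζ‖ + ‖η‖ := by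
          rw [hηn]
          field_simp
      _ ≤ 8 * B * ‖ζ‖ ^ 2 + 2 * r := by
          have : 8 * B * |ζ.re| * ‖ζ‖ ≤ 8 * B * ‖ζ‖ * ‖ζ‖ := by
            apply mul_le_mul_of_nonneg_right _ hζ0
            apply mul_le_mul_of_nonneg_left hreζ (by positivity)
          have h3 : 8 * B * ‖ζ‖ * ‖ζ‖ = 8 * B * ‖ζ‖ ^ 2 := by ring
          linarith only [this, h3, h2]
  have hζsq : ‖ζ‖ ^ 2 ≤ 4 := by
    have := pow_le_pow_left₀ hζ0 hζ2 2
    linarith only [this]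
  have hkη2 : |(k : ℝ)| * ‖η‖ ≤ 33 * B := by
    have := mul_le_mul_of_nonneg_left hζsq (by positivity : 0 ≤ 8 * B)
    linarith only [this, hkη, hrB, hB0]
  have hkη0 : 0 ≤ |(k : ℝ)| * ‖η‖ := by positivity
  set X := XX B r (ξ, η) with hX
  have hXe : X = ξ * (1 + (B : ℂ) * ζ ^ 2) := rfl
  have h1B : ‖(1 : ℂ) + (B : ℂ) * ζ ^ 2‖ ≤ 1 + 4 * B := by
    have e := norm_add_le (1 : ℂ) ((B : ℂ) * ζ ^ 2)
    rw [norm_mul, norm_pow, Complex.norm_real, Real.norm_eq_abs, abs_of_pos hB0, norm_one] at e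
    have := mul_le_mul_of_nonneg_left hζsq hB0.le
    linarith only [this, e]
  have hXn : ‖X‖ = ‖ξ‖ * ‖(1 : ℂ) + (B : ℂ) * ζ ^ 2‖ := by rw [hXe, norm_mul]
  have hXn2 : ‖X‖ ≤ ‖ξ‖ * (1 + 4 * B) := by
    rw [hXn]
    exact mul_le_mul_of_nonneg_left h1B (norm_nonneg _)
  have hXs : ‖X‖ ≤ s * (1 + 6 * B) := by
    have e0 : ‖ξ‖ * (1 + 4 * B) ≤ s * (1 + B) * (1 + 4 * B) :=
      mul_le_mul_of_nonneg_right h1.le (by positivity)
    have e1 : (1 + B) * (1 + 4 * B) ≤ 1 + 6 * B := by nlinarith only [hB0, hB1]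
    have e2 : s * ((1 + B) * (1 + 4 * B)) ≤ s * (1 + 6 * B) := mul_le_mul_of_nonneg_left e1 hs.le
    rw [← mul_assoc] at e2
    linarith
  have hXR : ‖X‖ ≤ R1 := by
    have e : s * (1 + 6 * B) ≤ s * (1 + 100 * B) :=
      mul_le_mul_of_nonneg_left (by linarith) hs.le
    linarith
  have hX0 := norm_nonneg X
  have hYn : ‖X * η‖ = ‖X‖ * ‖η‖ := norm_mul _ _
  have hkY : |(k : ℝ)| * ‖X * η‖ = ‖X‖ * (|(k : ℝ)| * ‖η‖) := by rw [hYn]; ring
  have hc1 : |(k : ℝ)| * M * ‖X * η‖ ≤ 1 / 100 := by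
    have e : |(k : ℝ)| * M * ‖X * η‖ = M * ‖X‖ * (|(k : ℝ)| * ‖η‖) := by rw [hYn]; ring
    rw [e]
    calc M * ‖X‖ * (|(k : ℝ)| * ‖η‖) ≤ M * R1 * (33 * B) := by
          apply mul_le_mul _ hkη2 hkη0 (by positivity)
          exact mul_le_mul_of_nonneg_left hXR (by linarith)
      _ = 33 * (B * M * R1) := by ring
      _ ≤ 1 / 100 := by linarith
  have hMR : 0 < M * R1 := by positivity
  have hMRr : M * R1 * r ≤ 1 / 100000000 := by
    have e : M * R1 * r ≤ M * R1 * (B / 1000) := mul_le_mul_of_nonneg_left hrB hMR.le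
    have e2 : M * R1 * (B / 1000) = (B * M * R1) / 1000 := by ring
    linarith
  have hc2 : M * ‖X * η‖ ≤ 1 / 100 := by
    rw [hYn]
    have e : M * (‖X‖ * ‖η‖) ≤ M * (R1 * (2 * r)) := by
      apply mul_le_mul_of_nonneg_left _ (by linarith)
      exact mul_le_mul hXR h2.le (norm_nonneg _) hR.le
    have e2 : M * (R1 * (2 * r)) = 2 * (M * R1 * r) := by ring
    linarith
  have hYb : ‖X * η‖ ≤ R1 * (2 * r) := by
    rw [hYn]
    exact mul_le_mul hXR h2.le (norm_nonneg _) hR.le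
  have hc3 : 2 * ‖X * η‖ < rg := by linarith
  have hc4 : ‖X‖ + 2 * |(k : ℝ)| * ‖X * η‖ < R1 := by
    have e : 2 * |(k : ℝ)| * ‖X * η‖ = 2 * (‖X‖ * (|(k : ℝ)| * ‖η‖)) := by
      rw [← hkY]
      ring
    rw [e]
    have e2 : ‖X‖ * (|(k : ℝ)| * ‖η‖) ≤ ‖X‖ * (33 * B) := mul_le_mul_of_nonneg_left hkη2 hX0
    have e3 : ‖X‖ * (1 + 66 * B) ≤ s * (1 + 6 * B) * (1 + 66 * B) :=
      mul_le_mul_of_nonneg_right hXs (by positivity)
    have e5 : (1 + 6 * B) * (1 + 66 * B) < 1 + 100 * B := by nlinarith only [hB0, hB1]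
    have e4 : s * ((1 + 6 * B) * (1 + 66 * B)) < s * (1 + 100 * B) :=
      mul_lt_mul_of_pos_left e5 hs
    rw [← mul_assoc] at e4
    linarith
  obtain ⟨t1, t2, -⟩ := TZ_bound hB (X, X * η) k hc1 hc2 hc3 hc4
  simp only at t1 t2
  refine ⟨⟨hc1, hc2, hc3, hc4⟩, ?_, ?_⟩
  · -- position
    have e1 : ‖(TZ T J k (X, X * η)).1‖ ≤ ‖X - k * (X * η)‖ + 4 * |(k : ℝ)| ^ 2 * M * ‖X * η‖ ^ 2 := by
      have := norm_add_le ((TZ T J k (X, X * η)).1 - (X - k * (X * η))) (X - k * (X * η))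
      simp only [sub_add_cancel] at this
      linarith
    have e2 : X - k * (X * η) = X * (1 - k * η) := by ring
    have e3 : ‖(1 : ℂ) - k * η‖ ≤ ‖1 - 8 * (B : ℂ) * (ζ.re : ℂ) * ζ‖ + 2 * r := by
      have d1 : (1 : ℂ) - k * η = (1 - 8 * (B : ℂ) * (ζ.re : ℂ) * ζ) +
          ((8 * B * ζ.re / r - k : ℝ) : ℂ) * η := by
        push_cast
        rw [hηζ]
        field_simp
        ring
      rw [d1]
      have d2 := norm_add_le (1 - 8 * (B : ℂ) * (ζ.re : ℂ) * ζ)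
        (((8 * B * ζ.re / r - k : ℝ) : ℂ) * η)
      have d3 : ‖((8 * B * ζ.re / r - k : ℝ) : ℂ) * η‖ ≤ 1 * ‖η‖ := by
        rw [norm_mul, Complex.norm_real, Real.norm_eq_abs]
        exact mul_le_mul_of_nonneg_right hk' (norm_nonneg _)
      linarith
    have e4 : ‖X - k * (X * η)‖ ≤ ‖ξ‖ * (1 - 9 / 10 * B * ‖ζ‖ ^ 2 + 3 * r) := by
      rw [e2, norm_mul, hXn, mul_assoc]
      apply mul_le_mul_of_nonneg_left _ (norm_nonneg _)
      have d1 := key_ineq hB0 hB1 ζ hζ2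
      have d2 : ‖(1 : ℂ) + (B : ℂ) * ζ ^ 2‖ * ‖(1 : ℂ) - k * η‖ ≤
          ‖(1 : ℂ) + (B : ℂ) * ζ ^ 2‖ * (‖1 - 8 * (B : ℂ) * (ζ.re : ℂ) * ζ‖ + 2 * r) :=
        mul_le_mul_of_nonneg_left e3 (norm_nonneg _)
      have d3 : ‖(1 : ℂ) + (B : ℂ) * ζ ^ 2‖ * (2 * r) ≤ (1 + 4 * B) * (2 * r) :=
        mul_le_mul_of_nonneg_right h1B (by positivity)
      have d4 : (1 + 4 * B) * (2 * r) ≤ 3 * r := by nlinarith only [hB0, hB1, hr]
      rw [mul_add] at d2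
      linarith only [d1, d2, d3, d4]
    have e5 : 4 * |(k : ℝ)| ^ 2 * M * ‖X * η‖ ^ 2 ≤ ‖ξ‖ * (1 / 20 * B * ‖ζ‖ ^ 2 + r) := by
      have d1 : 4 * |(k : ℝ)| ^ 2 * M * ‖X * η‖ ^ 2 =
          4 * M * (‖X‖ * ‖X‖) * (|(k : ℝ)| * ‖η‖) ^ 2 := by
        rw [hYn]
        ring
      have d2 : ‖X‖ * ‖X‖ ≤ (‖ξ‖ * (1 + 4 * B)) * R1 :=
        mul_le_mul hXn2 hXR hX0 (by positivity)
      have d3 : (|(k : ℝ)| * ‖η‖) ^ 2 ≤ 512 * B ^ 2 * ‖ζ‖ ^ 2 + 8 * r ^ 2 := by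
        have c1 : (|(k : ℝ)| * ‖η‖) ^ 2 ≤ (8 * B * ‖ζ‖ ^ 2 + 2 * r) ^ 2 :=
          pow_le_pow_left₀ hkη0 hkη 2
        have c2 : (8 * B * ‖ζ‖ ^ 2 + 2 * r) ^ 2 ≤ 2 * (8 * B * ‖ζ‖ ^ 2) ^ 2 + 2 * (2 * r) ^ 2 := by
          have := sq_nonneg (8 * B * ‖ζ‖ ^ 2 - 2 * r)
          linarith only [this]
        have c3 : (8 * B * ‖ζ‖ ^ 2) ^ 2 ≤ 256 * B ^ 2 * ‖ζ‖ ^ 2 := by
          have : (‖ζ‖ ^ 2) ^ 2 ≤ 4 * ‖ζ‖ ^ 2 := by
            rw [sq (‖ζ‖ ^ 2)]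
            exact mul_le_mul_of_nonneg_right hζsq (sq_nonneg _)
          have hBB : 0 ≤ B ^ 2 := sq_nonneg B
          calc (8 * B * ‖ζ‖ ^ 2) ^ 2 = 64 * B ^ 2 * (‖ζ‖ ^ 2) ^ 2 := by ring
            _ ≤ 64 * B ^ 2 * (4 * ‖ζ‖ ^ 2) := mul_le_mul_of_nonneg_left this (by positivity)
            _ = _ := by ring
        linarith only [c1, c2, c3]
      rw [d1]
      calc 4 * M * (‖X‖ * ‖X‖) * (|(k : ℝ)| * ‖η‖) ^ 2
          ≤ 4 * M * ((‖ξ‖ * (1 + 4 * B)) * R1) * (512 * B ^ 2 * ‖ζ‖ ^ 2 + 8 * r ^ 2) := by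
            apply mul_le_mul _ d3 (sq_nonneg _) (by positivity)
            exact mul_le_mul_of_nonneg_left d2 (by positivity)
        _ = ‖ξ‖ * ((1 + 4 * B) * (2048 * (B * M * R1) * (B * ‖ζ‖ ^ 2) +
            32 * (M * R1 * r) * r)) := by ring
        _ ≤ ‖ξ‖ * (1 / 20 * B * ‖ζ‖ ^ 2 + r) := by
            apply mul_le_mul_of_nonneg_left _ (norm_nonneg _)
            have c0 : 0 ≤ B * ‖ζ‖ ^ 2 := by positivity
            have c1 : 2048 * (B * M * R1) * (B * ‖ζ‖ ^ 2) ≤ 1 / 40 * (B * ‖ζ‖ ^ 2) := by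
              apply mul_le_mul_of_nonneg_right _ c0
              linarith
            have c2 : 32 * (M * R1 * r) * r ≤ 1 / 2 * r := by
              apply mul_le_mul_of_nonneg_right _ hr.le
              linarith
            have c3 : 0 ≤ 2048 * (B * M * R1) * (B * ‖ζ‖ ^ 2) + 32 * (M * R1 * r) * r := by
              positivity
            have c4 : (1 + 4 * B) * (2048 * (B * M * R1) * (B * ‖ζ‖ ^ 2) +
                32 * (M * R1 * r) * r) ≤ 2 * (2048 * (B * M * R1) * (B * ‖ζ‖ ^ 2) +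
                32 * (M * R1 * r) * r) := by
              apply mul_le_mul_of_nonneg_right _ c3
              linarith
            linarith
    rw [← hζn]
    calc ‖(TZ T J k (X, X * η)).1‖ ≤ _ := e1
      _ ≤ ‖ξ‖ * (1 - 9 / 10 * B * ‖ζ‖ ^ 2 + 3 * r) + ‖ξ‖ * (1 / 20 * B * ‖ζ‖ ^ 2 + r) :=
          add_le_add e4 e5
      _ = ‖ξ‖ * (1 - 17 / 20 * B * ‖ζ‖ ^ 2 + 4 * r) := by ring
      _ ≤ ‖ξ‖ * (1 - 4 / 5 * B * ‖ζ‖ ^ 2 + B / 100) := by
          apply mul_le_mul_of_nonneg_left _ (norm_nonneg _)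
          have : 0 ≤ B * ‖ζ‖ ^ 2 := by positivity
          linarith
  · have e1 : ‖(TZ T J k (X, X * η)).2‖ ≤ ‖X * η‖ + 2 * |(k : ℝ)| * M * ‖X * η‖ ^ 2 := by
      have := norm_add_le ((TZ T J k (X, X * η)).2 - X * η) (X * η)
      simp only [sub_add_cancel] at this
      linarith
    have e2 : 2 * |(k : ℝ)| * M * ‖X * η‖ ^ 2 ≤ 1 / 50 * ‖X * η‖ := by
      have : 2 * |(k : ℝ)| * M * ‖X * η‖ ^ 2 = 2 * (|(k : ℝ)| * M * ‖X * η‖) * ‖X * η‖ := by ring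
      rw [this]
      apply mul_le_mul_of_nonneg_right _ (norm_nonneg _)
      linarith
    have hn := norm_nonneg (X * η)
    linarith only [e1, e2, hYb, hr2, hn]

/-- the function in the new coordinates -/
noncomputable def fext (T J : ℂ × ℂ → ℂ × ℂ) (S : ℂ × ℂ → ℂ) (B r : ℝ) (q : ℂ × ℂ) : ℂ :=
  S (TZ T J (round (8 * B * q.2.re / r ^ 2)) (XX B r q, XX B r q * q.2))

/-- `T` fixes the axis and is analytic there -/
theorem T_axis {T J : ℂ × ℂ → ℂ × ℂ} {R1 M rg : ℝ} (hB : BdT T J R1 M rg) {x : ℂ}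
    (hx : ‖x‖ < R1) : AnalyticAt ℂ T (x, 0) ∧ T (x, 0) = (x, 0) := by
  obtain ⟨h1, h2, h3⟩ := hB.hT (x, 0) hx (by simpa using hB.hrg)
  refine ⟨h1, ?_⟩
  simp only [norm_zero, ne_eq, OfNat.ofNat_ne_zero, not_false_eq_true, zero_pow, mul_zero,
    sub_zero, norm_le_zero_iff] at h2 h3
  have h4 : (T (x, 0)).1 = x := by
    rw [sub_eq_zero] at h3
    exact h3
  exact Prod.ext h4 h2

/-- invariance of the germs along the axis -/
theorem inv_axis {T J : ℂ × ℂ → ℂ × ℂ} {R1 M rg : ℝ} (hB : BdT T J R1 M rg) {S : ℂ × ℂ → ℂ}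
    {W : Set ℂ} (hW : IsPreconnected W) (hR : ∀ x ∈ W, ‖x‖ < R1)
    (hS : ∀ x ∈ W, AnalyticAt ℂ S (x, 0)) {x0 : ℂ} (hx0 : x0 ∈ W)
    (h0 : ∀ᶠ p in 𝓝 (x0, (0 : ℂ)), S (T p) = S p) :
    ∀ x ∈ W, ∀ᶠ p in 𝓝 (x, (0 : ℂ)), S (T p) = S p := by
  intro x hx
  have hV : IsPreconnected ((fun x : ℂ => (x, (0 : ℂ))) '' W) :=
    hW.image _ (by fun_prop)
  apply ev_eq_of_preconnected hV (f := fun p => S (T p)) (h := S) _ _
    (p0 := (x0, 0)) ⟨x0, hx0, rfl⟩ h0 (x, 0) ⟨x, hx, rfl⟩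
  · rintro _ ⟨z, hz, rfl⟩
    apply AnalyticAt.fun_comp (g := S) (f := T)
    · rw [(T_axis hB (hR z hz)).2]
      exact hS z hz
    · exact (T_axis hB (hR z hz)).1
  · rintro _ ⟨z, hz, rfl⟩
    exact hS z hz

end Step

open Step in
/-- One step of the continuation. -/
theorem step {T J : ℂ × ℂ → ℂ × ℂ} {R1 M rg : ℝ} (hB : BdT T J R1 M rg) {B s : ℝ} (hB0 : 0 < B)
    (hB1 : B ≤ 1 / 1000) (hB2 : B * M * R1 ≤ 1 / 100000) (hs : 0 < s)
    (hsR : s * (1 + 100 * B) ≤ R1) {S : ℂ × ℂ → ℂ} (hE : EE T S s) :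
    ∃ S' : ℂ × ℂ → ℂ, EE T S' (s * (1 + B / 4)) ∧ S' =ᶠ[𝓝 ((0 : ℂ), (0 : ℂ))] S := by
  have hR := hB.hR
  have hrg := hB.hrg
  set s' : ℝ := s * (1 - B / 8) with hs'
  have hs's : s' < s := by nlinarith
  have hs'0 : 0 < s' := mul_pos hs (by linarith)
  obtain ⟨r0, hr0, hK⟩ := near_K hs's hE
  obtain ⟨r, hr, hrB, hr1, hr2⟩ : ∃ r > 0, r ≤ B / 1000 ∧ 4 * R1 * r < rg ∧ 4 * R1 * r < r0 := by
    refine ⟨min (B / 1000) (min (rg / (8 * R1)) (r0 / (8 * R1))), by positivity,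
      min_le_left _ _, ?_, ?_⟩
    · have h1 : min (B / 1000) (min (rg / (8 * R1)) (r0 / (8 * R1))) ≤ rg / (8 * R1) :=
        (min_le_right _ _).trans (min_le_left _ _)
      have h2 := mul_le_mul_of_nonneg_left h1 (by positivity : 0 ≤ 4 * R1)
      have h3 : 4 * R1 * (rg / (8 * R1)) = rg / 2 := by
        field_simp
        ring
      linarith
    · have h1 : min (B / 1000) (min (rg / (8 * R1)) (r0 / (8 * R1))) ≤ r0 / (8 * R1) :=
        (min_le_right _ _).trans (min_le_right _ _)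
      have h2 := mul_le_mul_of_nonneg_left h1 (by positivity : 0 ≤ 4 * R1)
      have h3 : 4 * R1 * (r0 / (8 * R1)) = r0 / 2 := by
        field_simp
        ring
      linarith
  -- the domain
  set U : Set (ℂ × ℂ) := {q | ‖q.2‖ < 2 * r ∧ ‖q.1‖ < s * (1 + B) ∧
    ‖q.1‖ * (1 - 4 / 5 * B * (‖q.2‖ / r) ^ 2 + B / 100) < s'} with hU
  have hUo : IsOpen U := by
    have c1 : IsOpen {q : ℂ × ℂ | ‖q.2‖ < 2 * r} := isOpen_lt (by fun_prop) continuous_const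
    have c2 : IsOpen {q : ℂ × ℂ | ‖q.1‖ < s * (1 + B)} := isOpen_lt (by fun_prop) continuous_const
    have c3 : IsOpen {q : ℂ × ℂ | ‖q.1‖ * (1 - 4 / 5 * B * (‖q.2‖ / r) ^ 2 + B / 100) < s'} :=
      isOpen_lt (by fun_prop) continuous_const
    exact c1.inter (c2.inter c3)
  have hpos : ∀ q ∈ U, ∀ k : ℤ, |8 * B * q.2.re / r ^ 2 - k| ≤ 1 →
      (|(k : ℝ)| * M * ‖XX B r q * q.2‖ ≤ 1 / 100 ∧ M * ‖XX B r q * q.2‖ ≤ 1 / 100 ∧
      2 * ‖XX B r q * q.2‖ < rg ∧ ‖XX B r q‖ + 2 * |(k : ℝ)| * ‖XX B r q * q.2‖ < R1) ∧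
      ‖(TZ T J k (XX B r q, XX B r q * q.2)).1‖ ≤ s' ∧
      ‖(TZ T J k (XX B r q, XX B r q * q.2)).2‖ < r0 := by
    intro q hq k hk
    obtain ⟨h1, h2, h3⟩ := position hB hB0 hB1 hB2 hs hsR hr hrB hr1 hr2 q hq.2.1 hq.1 k hk
    exact ⟨h1, h2.trans hq.2.2.le, h3⟩
  have hjump : ∀ q ∈ U, ∀ k : ℤ, |8 * B * q.2.re / r ^ 2 - k| ≤ 1 →
      S (TZ T J (k + 1) (XX B r q, XX B r q * q.2)) =
        S (TZ T J k (XX B r q, XX B r q * q.2)) := by
    intro q hq k hk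
    obtain ⟨⟨h1, h2, h3, h4⟩, h5, h6⟩ := hpos q hq k hk
    rw [← T_TZ hB (XX B r q, XX B r q * q.2) k h1 h2 h3 h4]
    exact (hK _ _ h5 h6).2
  have hround : ∀ q ∈ U, ∀ k : ℤ, |8 * B * q.2.re / r ^ 2 - k| < 1 →
      fext T J S B r q = S (TZ T J k (XX B r q, XX B r q * q.2)) := by
    intro q hq k hk
    unfold fext
    set u := 8 * B * q.2.re / r ^ 2 with hu
    have h1 := abs_sub_round u
    have h2 : |(k : ℝ) - round u| < 2 := by
      have := abs_sub_abs_le_abs_sub (0 : ℝ) 0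
      calc |(k : ℝ) - round u| = |(u - round u) - (u - k)| := by ring_nf
        _ ≤ |u - round u| + |u - k| := abs_sub _ _
        _ < 2 := by linarith
    have h3 : |k - round u| < 2 := by exact_mod_cast h2
    rw [abs_lt] at h3
    rcases (by omega : round u = k ∨ round u = k + 1 ∨ round u + 1 = k) with h | h | h
    · rw [h]
    · rw [h]
      exact hjump q hq k hk.le
    · have h4 := hjump q hq (round u) (by linarith)
      rw [h] at h4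
      exact h4.symm
  have hfA : AnalyticOnNhd ℂ (fext T J S B r) U := by
    intro q hq
    set k := round (8 * B * q.2.re / r ^ 2) with hk
    have hk1 : |8 * B * q.2.re / r ^ 2 - k| ≤ 1 / 2 := abs_sub_round _
    obtain ⟨⟨h1, h2, h3, h4⟩, h5, h6⟩ := hpos q hq k (by linarith)
    have hT := (TZ_bound hB (XX B r q, XX B r q * q.2) k h1 h2 h3 h4).2.2
    have hin : AnalyticAt ℂ (fun q : ℂ × ℂ => (XX B r q, XX B r q * q.2)) q :=
      (analyticAt_XX B r q).prod ((analyticAt_XX B r q).mul analyticAt_snd)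
    have hc1 : AnalyticAt ℂ (fun q : ℂ × ℂ => TZ T J k (XX B r q, XX B r q * q.2)) q :=
      AnalyticAt.fun_comp (g := TZ T J k) (f := fun q : ℂ × ℂ => (XX B r q, XX B r q * q.2)) hT hin
    have hc2 : AnalyticAt ℂ (fun q : ℂ × ℂ => S (TZ T J k (XX B r q, XX B r q * q.2))) q :=
      AnalyticAt.fun_comp (g := S) (f := fun q : ℂ × ℂ => TZ T J k (XX B r q, XX B r q * q.2))
        (hK _ _ h5 h6).1 hc1
    apply hc2.congr
    have hcont : Continuous (fun q : ℂ × ℂ => |8 * B * q.2.re / r ^ 2 - k|) := by fun_prop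
    have hlt : ∀ᶠ q' in 𝓝 q, |8 * B * q'.2.re / r ^ 2 - k| < 1 :=
      (hcont.tendsto q).eventually_lt_const (by linarith)
    filter_upwards [hlt, hUo.mem_nhds hq] with q' h7 h8
    exact (hround q' h8 k h7).symm
  -- the Hartogs figure
  set s2 : ℝ := s' * (1 + B / 2) with hs2
  have hs2s : s * (1 + B / 4) ≤ s2 := by
    have : 1 + B / 4 ≤ (1 - B / 8) * (1 + B / 2) := by nlinarith
    calc s * (1 + B / 4) ≤ s * ((1 - B / 8) * (1 + B / 2)) :=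
          mul_le_mul_of_nonneg_left this hs.le
      _ = s2 := by rw [hs2, hs']; ring
  have hs2B : s2 ≤ s * (1 + B) := by
    have : s' * (1 + B / 2) ≤ s * (1 + B / 2) := mul_le_mul_of_nonneg_right hs's.le (by linarith)
    have h2 : s * (1 + B / 2) ≤ s * (1 + B) := mul_le_mul_of_nonneg_left (by linarith) hs.le
    linarith
  have hs20 : 0 < s2 := mul_pos hs'0 (by linarith)
  obtain ⟨G, hGA, hG0, -⟩ := SCV.hartogs_figure U hUo (fext T J S B r) hfA (ball 0 s2) isOpen_ball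
    (convex_ball _ _).isPreconnected 0 r hr (by
      rintro ⟨ξ, η⟩ ⟨hξ, hη⟩
      have h1 : ‖ξ‖ < s2 := by simpa using hξ
      have h2 : ‖η‖ = r := by simpa using hη
      refine ⟨?_, ?_, ?_⟩
      · simp only [h2]
        linarith
      · simp only
        linarith
      · simp only [h2, div_self hr.ne', one_pow, mul_one]
        have h3 : 0 < 1 - 4 / 5 * B + B / 100 := by linarith
        have h4 : ‖ξ‖ * (1 - 4 / 5 * B + B / 100) < s2 * (1 - 4 / 5 * B + B / 100) :=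
          mul_lt_mul_of_pos_right h1 h3
        have h5 : (1 + B / 2) * (1 - 4 / 5 * B + B / 100) ≤ 1 := by nlinarith
        have h6 : s' * ((1 + B / 2) * (1 - 4 / 5 * B + B / 100)) ≤ s' * 1 :=
          mul_le_mul_of_nonneg_left h5 hs'0.le
        rw [hs2] at h4
        linarith)
    0 (mem_ball_self hs20) (by
      intro w hw
      have h2 : ‖w‖ ≤ r := by simpa using hw
      refine ⟨?_, ?_, ?_⟩
      · simp only
        linarith
      · simp only [norm_zero]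
        positivity
      · simp only [norm_zero, zero_mul]
        exact hs'0)
  -- `G` and `S o XX` near the axis
  have hG1 : ∀ x ∈ ball (0 : ℂ) s, G =ᶠ[𝓝 (x, (0 : ℂ))] fun q => S (XX B r q, XX B r q * q.2) := by
    intro x hx
    apply ev_eq_of_preconnected (isPreconnected_axis s) _ _ (p0 := ((0 : ℂ), (0 : ℂ)))
      ⟨0, mem_ball_self hs, rfl⟩ _ (x, 0) ⟨x, hx, rfl⟩
    · rintro _ ⟨z, hz, rfl⟩
      apply hGA
      refine ⟨?_, mem_ball_self hr⟩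
      rw [mem_ball_zero_iff] at hz ⊢
      have : s ≤ s2 := by
        have h : s * 1 ≤ s * (1 + B / 4) := mul_le_mul_of_nonneg_left (by linarith) hs.le
        linarith
      simp only
      linarith
    · rintro _ ⟨z, hz, rfl⟩
      apply AnalyticAt.fun_comp (g := S) (f := fun q : ℂ × ℂ => (XX B r q, XX B r q * q.2))
      · have : (XX B r (z, 0), XX B r (z, 0) * ((z, (0 : ℂ)) : ℂ × ℂ).2) = (z, (0 : ℂ)) := by
          simp [XX]
        rw [this]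
        exact (hE z hz).1
      · exact (analyticAt_XX B r _).prod ((analyticAt_XX B r _).mul analyticAt_snd)
    · -- near the origin
      have h1 : ∀ᶠ q : ℂ × ℂ in 𝓝 ((0 : ℂ), (0 : ℂ)), ∀ w ∈ ball (0 : ℂ) r,
          (q.1, w) ∈ U ∧ G (q.1, w) = fext T J S B r (q.1, w) :=
        (continuous_fst.tendsto ((0 : ℂ), (0 : ℂ))).eventually hG0
      have h2 : ∀ᶠ q : ℂ × ℂ in 𝓝 ((0 : ℂ), (0 : ℂ)), q.2 ∈ ball (0 : ℂ) r :=
        continuous_snd.continuousAt.eventually (ball_mem_nhds _ hr)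
      have h3 : ∀ᶠ q : ℂ × ℂ in 𝓝 ((0 : ℂ), (0 : ℂ)), |8 * B * q.2.re / r ^ 2 - (0 : ℤ)| < 1 := by
        have hcont : Continuous (fun q : ℂ × ℂ => |8 * B * q.2.re / r ^ 2 - (0 : ℤ)|) := by
          fun_prop
        apply (hcont.tendsto ((0 : ℂ), (0 : ℂ))).eventually_lt_const
        simp
      filter_upwards [h1, h2, h3] with q hq1 hq2 hq3
      obtain ⟨hqU, hqG⟩ := hq1 q.2 hq2
      rw [hqG, hround q hqU 0 hq3, TZ_zero]
  -- the inverse coordinates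
  set JJ : ℂ × ℂ → ℂ × ℂ := fun p => (p.1 / (1 + (B : ℂ) * (p.2 / p.1 / r) ^ 2), p.2 / p.1) with hJ
  have hJA : ∀ x : ℂ, x ≠ 0 → AnalyticAt ℂ JJ (x, 0) := by
    intro x hx
    have h1 : AnalyticAt ℂ (fun p : ℂ × ℂ => p.2 / p.1) (x, 0) :=
      analyticAt_snd.div analyticAt_fst hx
    have h2 : AnalyticAt ℂ (fun p : ℂ × ℂ => (1 : ℂ) + (B : ℂ) * (p.2 / p.1 / r) ^ 2) (x, 0) := by
      apply analyticAt_const.add
      apply analyticAt_const.mul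
      apply AnalyticAt.pow
      have : AnalyticAt ℂ (fun p : ℂ × ℂ => p.2 / p.1 * (r : ℂ)⁻¹) (x, 0) :=
        h1.mul analyticAt_const
      simpa only [div_eq_mul_inv] using this
    exact (analyticAt_fst.div h2 (by simp)).prod h1
  have hJ0 : ∀ x : ℂ, JJ (x, 0) = (x, 0) := by
    intro x
    simp [hJ]
  have hGJ : ∀ x : ℂ, x ≠ 0 → ‖x‖ < s → (fun p => G (JJ p)) =ᶠ[𝓝 (x, (0 : ℂ))] S := by
    intro x hx hxs
    have h1 : Tendsto JJ (𝓝 (x, 0)) (𝓝 (x, 0)) := by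
      have := (hJA x hx).continuousAt.tendsto
      rwa [hJ0] at this
    have h2 := h1.eventually (hG1 x (by simpa using hxs))
    have h3 : ∀ᶠ p : ℂ × ℂ in 𝓝 (x, (0 : ℂ)), p.1 ≠ 0 :=
      (continuous_fst.tendsto (x, (0 : ℂ))).eventually_ne hx
    have h4 : ∀ᶠ p : ℂ × ℂ in 𝓝 (x, (0 : ℂ)), 1 + (B : ℂ) * (p.2 / p.1 / r) ^ 2 ≠ 0 := by
      have hc : ContinuousAt (fun p : ℂ × ℂ => 1 + (B : ℂ) * (p.2 / p.1 / r) ^ 2) (x, 0) := by
        have := (analyticAt_snd (𝕜 := ℂ) (E := ℂ) (F := ℂ) (p := (x, (0 : ℂ)))).div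
          analyticAt_fst hx
        have h5 := this.continuousAt
        fun_prop (disch := assumption)
      exact hc.tendsto.eventually_ne (by simp)
    filter_upwards [h2, h3, h4] with p hp2 hp3 hp4
    rw [hp2]
    have e1 : XX B r (JJ p) = p.1 := by
      simp only [XX, hJ]
      rw [div_mul_cancel₀ _ hp4]
    have e2 : XX B r (JJ p) * (JJ p).2 = p.2 := by
      rw [e1]
      simp only [hJ]
      rw [mul_div_cancel₀ _ hp3]
    rw [e2, e1]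
  -- the extension
  classical
  set S' : ℂ × ℂ → ℂ := fun p => if ‖p.1‖ < s / 2 then S p else G (JJ p) with hS'
  have hlow : ∀ x : ℂ, ‖x‖ < s / 2 → S' =ᶠ[𝓝 (x, (0 : ℂ))] S := by
    intro x hx
    have h1 : ∀ᶠ p : ℂ × ℂ in 𝓝 (x, (0 : ℂ)), ‖p.1‖ < s / 2 :=
      ((continuous_fst.norm).tendsto (x, (0 : ℂ))).eventually_lt_const hx
    filter_upwards [h1] with p hp
    simp only [hS', if_pos hp]
  have hhigh : ∀ x : ℂ, s / 2 ≤ ‖x‖ → S' =ᶠ[𝓝 (x, (0 : ℂ))] fun p => G (JJ p) := by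
    intro x hx
    rcases lt_or_eq_of_le hx with h | h
    · have h1 : ∀ᶠ p : ℂ × ℂ in 𝓝 (x, (0 : ℂ)), s / 2 < ‖p.1‖ :=
        ((continuous_fst.norm).tendsto (x, (0 : ℂ))).eventually_const_lt h
      filter_upwards [h1] with p hp
      simp only [hS', if_neg (not_lt.2 hp.le)]
    · have hx0 : x ≠ 0 := by
        rw [← norm_pos_iff, ← h]
        linarith
      filter_upwards [hGJ x hx0 (by linarith)] with p hp
      simp only [hS']
      split_ifs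
      · exact hp.symm
      · rfl
  have hS'A : ∀ x ∈ ball (0 : ℂ) (s * (1 + B / 4)), AnalyticAt ℂ S' (x, 0) := by
    intro x hx
    rw [mem_ball_zero_iff] at hx
    by_cases h : ‖x‖ < s / 2
    · have hxs : x ∈ ball (0 : ℂ) s := by
        rw [mem_ball_zero_iff]
        linarith
      exact (hE x hxs).1.congr (hlow x h).symm
    · push Not at h
      have hx0 : x ≠ 0 := by
        rw [← norm_pos_iff]
        linarith
      have h1 : AnalyticAt ℂ (fun p => G (JJ p)) (x, 0) := by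
        apply AnalyticAt.fun_comp (g := G) (f := JJ) _ (hJA x hx0)
        rw [hJ0]
        apply hGA
        refine ⟨?_, mem_ball_self hr⟩
        rw [mem_ball_zero_iff]
        simp only
        linarith
      exact h1.congr (hhigh x h).symm
  have hS'0 : S' =ᶠ[𝓝 ((0 : ℂ), (0 : ℂ))] S := hlow 0 (by rw [norm_zero]; linarith)
  refine ⟨S', ?_, hS'0⟩
  have hlt : s * (1 + B / 4) ≤ R1 := by
    have : s * (1 + B / 4) ≤ s * (1 + 100 * B) := mul_le_mul_of_nonneg_left (by linarith) hs.le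
    linarith
  have hinv0 : ∀ᶠ p in 𝓝 ((0 : ℂ), (0 : ℂ)), S' (T p) = S' p := by
    have h1 : Tendsto T (𝓝 ((0 : ℂ), (0 : ℂ))) (𝓝 ((0 : ℂ), (0 : ℂ))) := by
      have := (T_axis hB (x := 0) (by rw [norm_zero]; exact hR)).1.continuousAt.tendsto
      rwa [(T_axis hB (x := 0) (by rw [norm_zero]; exact hR)).2] at this
    filter_upwards [h1.eventually hS'0, hS'0, (hE 0 (mem_ball_self hs)).2] with p h2 h3 h4
    rw [h2, h3, h4]
  have hinv := inv_axis hB (W := ball (0 : ℂ) (s * (1 + B / 4)))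
    (convex_ball _ _).isPreconnected
    (fun x hx => lt_of_lt_of_le (by simpa using hx) hlt) hS'A (x0 := 0)
    (mem_ball_self (by positivity)) hinv0
  exact fun x hx => ⟨hS'A x hx, hinv x hx⟩

end Pool.Agent.MP_ae5b4e_an_FLEX
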