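import Mathlib
import Pool.Agent.Lib.MP_ae5b4e_an_FLEX.Step
import Pool.Agent.Lib.MP_ae5b4e_an_LAT.NDP
import Pool.Agent.Lib.MP_ae5b4e_an_LAT.NDTaylor

/-!
# MP_ae5b4e_an, flexes: continuation of the first integral over a disc (module FC)
-/

set_option autoImplicit false
noncomputable section
namespace Pool.Agent.MP_ae5b4e_an_FLEX
open Filter Topology Set Metric
open Pool.Agent.MP_ae5b4e_an_ND (cc cf co Dx Dy Filt)

namespace Disc

open Pool.Agent.MP_ae5b4e_an_ND (glue_germs P_unique taylor_rem)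

/-- continuation up to a smaller disc, centre `0` -/
theorem disc_aux {T J : ℂ × ℂ → ℂ × ℂ} {R1 M rg R' : ℝ} (hB : BdT T J R1 M rg) (hR' : 0 < R')
    (hR'1 : R' < R1) {S : ℂ × ℂ → ℂ} (hS : AnalyticAt ℂ S (0, 0))
    (hT : ∀ᶠ p in 𝓝 ((0 : ℂ), (0 : ℂ)), S (T p) = S p) :
    ∃ S' : ℂ × ℂ → ℂ, EE T S' R' ∧ S' =ᶠ[𝓝 ((0 : ℂ), (0 : ℂ))] S := by
  have hR10 : 0 < R1 := by linarith
  have hM11 := hB.hM
  -- the constant `B`
  obtain ⟨B, hB0, hB1, hB2, hB3⟩ : ∃ B > 0, B ≤ 1 / 1000 ∧ B * M * R1 ≤ 1 / 100000 ∧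
      R' * (1 + 100 * B) ≤ R1 := by
    have hMpos : 0 < M := by linarith
    refine ⟨min (1 / 1000) (min (1 / 100000 / (M * R1)) ((R1 - R') / (100 * R'))), ?_,
      min_le_left _ _, ?_, ?_⟩
    · have : 0 < R1 - R' := by linarith
      positivity
    · have h1 : min (1 / 1000) (min (1 / 100000 / (M * R1)) ((R1 - R') / (100 * R'))) ≤
          1 / 100000 / (M * R1) := (min_le_right _ _).trans (min_le_left _ _)
      have h2 := mul_le_mul_of_nonneg_right h1 (by positivity : 0 ≤ M * R1)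
      rw [div_mul_cancel₀ _ (by positivity)] at h2
      linarith
    · have h1 : min (1 / 1000) (min (1 / 100000 / (M * R1)) ((R1 - R') / (100 * R'))) ≤
          (R1 - R') / (100 * R') := (min_le_right _ _).trans (min_le_right _ _)
      have h2 := mul_le_mul_of_nonneg_right h1 (by positivity : 0 ≤ 100 * R')
      rw [div_mul_cancel₀ _ (by positivity)] at h2
      linarith
  -- start
  obtain ⟨s0, hs0, hE0⟩ : ∃ s0 > 0, EE T S s0 := by
    obtain ⟨ε, hε, hb⟩ := Metric.eventually_nhds_iff_ball.1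
      (hS.eventually_analyticAt.and (eventually_eventually_nhds.2 hT))
    refine ⟨ε, hε, fun x hx => ?_⟩
    apply hb
    have hx' : ‖x‖ < ε := by simpa using hx
    rw [mem_ball, Prod.dist_eq]
    simpa using hx'
  have hiter : ∀ n : ℕ, ∃ S' : ℂ × ℂ → ℂ, EE T S' (min R' (s0 * (1 + B / 4) ^ n)) ∧
      S' =ᶠ[𝓝 ((0 : ℂ), (0 : ℂ))] S := by
    intro n
    induction n with
    | zero =>
      refine ⟨S, fun x hx => hE0 x ?_, EventuallyEq.rfl⟩
      rw [pow_zero, mul_one] at hx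
      exact ball_subset_ball (min_le_right _ _) hx
    | succ n ih =>
      obtain ⟨Sn, hn1, hn2⟩ := ih
      set s := min R' (s0 * (1 + B / 4) ^ n) with hsdef
      have hs : 0 < s := lt_min hR' (by positivity)
      have hsR' : s ≤ R' := min_le_left _ _
      obtain ⟨S', h1, h2⟩ := step hB hB0 hB1 hB2 hs (by
        have : s * (1 + 100 * B) ≤ R' * (1 + 100 * B) :=
          mul_le_mul_of_nonneg_right hsR' (by positivity)
        linarith) hn1
      refine ⟨S', fun x hx => h1 x ?_, h2.trans hn2⟩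
      apply ball_subset_ball _ hx
      rcases min_choice R' (s0 * (1 + B / 4) ^ n) with h | h
      · rw [hsdef, h]
        refine (min_le_left _ _).trans ?_
        nlinarith
      · rw [hsdef, h]
        refine (min_le_right _ _).trans (le_of_eq ?_)
        rw [pow_succ]
        ring
  obtain ⟨n, hn⟩ : ∃ n : ℕ, R' / s0 < (1 + B / 4) ^ n :=
    pow_unbounded_of_one_lt _ (by linarith)
  obtain ⟨S', h1, h2⟩ := hiter n
  have hmin : min R' (s0 * (1 + B / 4) ^ n) = R' := by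
    apply min_eq_left
    rw [div_lt_iff₀ hs0] at hn
    linarith
  rw [hmin] at h1
  exact ⟨S', h1, h2⟩

theorem axis_fix {T J : ℂ × ℂ → ℂ × ℂ} {R1 M rg : ℝ} (hB : BdT T J R1 M rg) {x : ℂ}
    (hx : ‖x‖ < R1) : Tendsto T (𝓝 (x, (0 : ℂ))) (𝓝 (x, (0 : ℂ))) := by
  have h := hB.hT (x, 0) hx (by simpa using hB.hrg)
  have h1 : T (x, 0) = (x, 0) := by
    apply Prod.ext
    · have h2 := h.2.2
      simp only [norm_zero, ne_eq, OfNat.ofNat_ne_zero, not_false_eq_true, zero_pow, mul_zero,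
        sub_zero] at h2
      exact sub_eq_zero.1 (norm_le_zero_iff.1 h2)
    · have h2 := h.2.1
      simp only [norm_zero, ne_eq, OfNat.ofNat_ne_zero, not_false_eq_true, zero_pow, mul_zero,
        sub_zero] at h2
      exact norm_le_zero_iff.1 h2
  have h2 := h.1.continuousAt.tendsto
  rwa [h1] at h2

/-- continuation over the disc, centre `0` -/
theorem disc_zero {T J : ℂ × ℂ → ℂ × ℂ} {R : ℝ}
    (hB : ∀ R', 0 < R' → R' < R → ∃ R1 M rg, R' < R1 ∧ BdT T J R1 M rg)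
    {S : ℂ × ℂ → ℂ} (hS : AnalyticAt ℂ S (0, 0))
    (hT : ∀ᶠ p in 𝓝 ((0 : ℂ), (0 : ℂ)), S (T p) = S p) :
    ∃ S' : ℂ × ℂ → ℂ, EE T S' R ∧ S' =ᶠ[𝓝 ((0 : ℂ), (0 : ℂ))] S := by
  classical
  rcases le_or_gt R 0 with hR | hR
  · exact ⟨S, fun x hx => absurd (by simpa using hx : ‖x‖ < R)
      (not_lt.2 (hR.trans (norm_nonneg _))), EventuallyEq.rfl⟩
  have h1 : ∀ x : ℂ, ∃ S' : ℂ × ℂ → ℂ, ‖x‖ < R →
      EE T S' ((‖x‖ + R) / 2) ∧ S' =ᶠ[𝓝 ((0 : ℂ), (0 : ℂ))] S := by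
    intro x
    by_cases hx : ‖x‖ < R
    · obtain ⟨R1, M, rg, h0, hb⟩ := hB ((‖x‖ + R) / 2) (by positivity) (by linarith)
      obtain ⟨S', h2, h3⟩ := disc_aux (R' := (‖x‖ + R) / 2) hb (by positivity) h0 hS hT
      exact ⟨S', fun _ => ⟨h2, h3⟩⟩
    · exact ⟨S, fun h => absurd h hx⟩
  choose G hG using h1
  obtain ⟨S', hS'⟩ := glue_germs (ball 0 R) G
    (by
      intro x hx
      have hxR : ‖x‖ < R := by simpa using hx
      apply ((hG x hxR).1 x _).1
      rw [mem_ball_zero_iff]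
      linarith)
    (by
      intro x hx
      have hxR : ‖x‖ < R := by simpa using hx
      have h2 : ∀ᶠ x' in 𝓝 x, ‖x'‖ < (‖x‖ + R) / 2 :=
        (continuous_norm.tendsto x).eventually_lt_const (by linarith)
      filter_upwards [h2] with x' hx' hx'W
      have hx'R : ‖x'‖ < R := by simpa using hx'W
      set m := min ((‖x‖ + R) / 2) ((‖x'‖ + R) / 2) with hm
      have hm0 : 0 < m := lt_min (by positivity) (by positivity)
      apply P_unique (W := ball (0 : ℂ) m) (convex_ball _ _).isPreconnected _ _ (x1 := 0)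
        (mem_ball_self hm0) _ x' _
      · intro z hz
        exact ((hG x hxR).1 z (ball_subset_ball (min_le_left _ _) hz)).1
      · intro z hz
        exact ((hG x' hx'R).1 z (ball_subset_ball (min_le_right _ _) hz)).1
      · exact (hG x hxR).2.trans (hG x' hx'R).2.symm
      · rw [mem_ball_zero_iff]
        exact lt_min hx' (by linarith))
  refine ⟨S', fun x hx => ?_, ?_⟩
  · have hxR : ‖x‖ < R := by simpa using hx
    have h2 := (hG x hxR).1 x (by
      rw [mem_ball_zero_iff]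
      linarith)
    refine ⟨h2.1.congr (hS' x hx).symm, ?_⟩
    obtain ⟨R1, M, rg, h0, hb⟩ := hB ((‖x‖ + R) / 2) (by positivity) (by linarith)
    have hT2 := axis_fix hb (x := x) (by linarith)
    filter_upwards [hS' x hx, hT2.eventually (hS' x hx), h2.2] with p e1 e2 e3
    rw [e1, e2, e3]
  · have h0 : (0 : ℂ) ∈ ball (0 : ℂ) R := mem_ball_self hR
    exact (hS' 0 h0).trans (hG 0 (by simpa using hR)).2

/-- the properties of a kick at the points near the axis -/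
def Loc (Yf : ℂ × ℂ → ℂ) (M : ℝ) (x y : ℂ) : Prop :=
  AnalyticAt ℂ Yf (x, y) ∧ Yf (x, -Yf (x, y)) = -y ∧ ‖Yf (x, y) - y‖ ≤ M * ‖y‖ ^ 2

theorem Loc.mono {Yf : ℂ × ℂ → ℂ} {M M' : ℝ} {x y : ℂ} (h : Loc Yf M x y) (hM : M ≤ M') :
    Loc Yf M' x y :=
  ⟨h.1, h.2.1, h.2.2.trans (mul_le_mul_of_nonneg_right hM (sq_nonneg _))⟩

theorem local_kick {Yf : ℂ × ℂ → ℂ} {x₁ : ℂ} (hK : Kick Yf x₁) :
    ∃ ε > 0, ∃ M, 0 ≤ M ∧ ∀ x y : ℂ, ‖x - x₁‖ < ε → ‖y‖ < ε → Loc Yf M x y := by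
  have hY0 : Yf (x₁, 0) = 0 := hK.zero.self_of_nhds
  have hb1 : ∀ᶠ p in 𝓝 ((x₁, 0) : ℂ × ℂ), ‖Yf p‖ < 1 := by
    apply (continuous_norm.continuousAt.comp hK.ana.continuousAt).eventually_lt_const
    simp [hY0]
  obtain ⟨ε1, hε1, h1⟩ := Metric.eventually_nhds_iff_ball.1
    (hK.ana.eventually_analyticAt.and (hb1.and hK.rev))
  obtain ⟨ε2, hε2, h2⟩ := Metric.eventually_nhds_iff_ball.1 (hK.zero.and hK.der)
  set ε := min ε1 ε2 with hε
  have hε0 : 0 < ε := lt_min hε1 hε2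
  have hmem : ∀ x y : ℂ, ‖x - x₁‖ < ε → ‖y‖ < ε → (x, y) ∈ ball ((x₁, 0) : ℂ × ℂ) ε1 := by
    intro x y hx hy
    rw [mem_ball, Prod.dist_eq, max_lt_iff, dist_eq_norm, dist_eq_norm]
    simp only [sub_zero]
    exact ⟨hx.trans_le (min_le_left _ _), hy.trans_le (min_le_left _ _)⟩
  refine ⟨ε / 4, by positivity, 2 * 1 * (1 / (ε / 2)) ^ 2, by positivity, fun x y hx hy => ?_⟩
  have hxε : ‖x - x₁‖ < ε := by linarith
  have hyε : ‖y‖ < ε := by linarith
  have h3 := h1 _ (hmem x y hxε hyε)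
  refine ⟨h3.1, h3.2.2, ?_⟩
  have h4 := h2 x (by
    rw [mem_ball, dist_eq_norm]
    exact hxε.trans_le (min_le_right _ _))
  have hd : DifferentiableOn ℂ (fun y => Yf (x, y)) (ball 0 ε) := by
    intro z hz
    have hz' : ‖z‖ < ε := by simpa using hz
    have h5 := (h1 _ (hmem x z hxε hz')).1
    have h6 : AnalyticAt ℂ (fun y => Yf (x, y)) z := by
      apply AnalyticAt.fun_comp (g := Yf) (f := fun y => (x, y)) h5
      exact analyticAt_const.prod analyticAt_id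
    exact h6.differentiableAt.differentiableWithinAt
  have hbd : ∀ z ∈ sphere (0 : ℂ) (ε / 2), ‖(fun y => Yf (x, y)) z‖ ≤ 1 := by
    intro z hz
    have hz' : ‖z‖ = ε / 2 := by simpa using hz
    exact (h1 _ (hmem x z hxε (by linarith))).2.1.le
  have h5 := taylor_rem (f := fun y => Yf (x, y)) (c := 0) (a := ε / 2) (a' := ε) (M := 1)
    (by positivity) (by linarith) zero_le_one hd hbd 2 (t := y) (by linarith)
  rw [Finset.sum_range_succ, Finset.sum_range_one, iteratedDeriv_zero, iteratedDeriv_one] at h5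
  simp only [zero_add, pow_zero, Nat.factorial_zero, Nat.cast_one, div_one, one_mul, pow_one,
    Nat.factorial_one] at h5
  rw [h4.1, h4.2, zero_add, mul_one] at h5
  refine h5.trans (le_of_eq ?_)
  ring

theorem uniform_kick {Yf : ℂ × ℂ → ℂ} {R R2 : ℝ} (h2 : R2 < R)
    (hK : ∀ x ∈ ball (0 : ℂ) R, Kick Yf x) :
    ∃ ε > 0, ∃ M, 0 ≤ M ∧ ∀ x ∈ closedBall (0 : ℂ) R2, ∀ y : ℂ, ‖y‖ < ε → Loc Yf M x y := by
  refine (isCompact_closedBall (0 : ℂ) R2).induction_on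
    (p := fun s => ∃ ε > 0, ∃ M, 0 ≤ M ∧ ∀ x ∈ s, ∀ y : ℂ, ‖y‖ < ε → Loc Yf M x y) ?_ ?_ ?_ ?_
  · exact ⟨1, one_pos, 0, le_rfl, fun x hx => absurd hx (by simp)⟩
  · rintro s t hst ⟨ε, hε, M, hM, h⟩
    exact ⟨ε, hε, M, hM, fun x hx => h x (hst hx)⟩
  · rintro s t ⟨ε, hε, M, hM, h⟩ ⟨ε', hε', M', hM', h'⟩
    refine ⟨min ε ε', lt_min hε hε', max M M', le_max_of_le_left hM, fun x hx y hy => ?_⟩
    rcases hx with hx | hx
    · exact (h x hx y (hy.trans_le (min_le_left _ _))).mono (le_max_left _ _)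
    · exact (h' x hx y (hy.trans_le (min_le_right _ _))).mono (le_max_right _ _)
  · intro x hx
    obtain ⟨ε, hε, M, hM, h⟩ := local_kick (hK x (by
      rw [mem_ball_zero_iff]
      rw [mem_closedBall_zero_iff] at hx
      linarith))
    refine ⟨ball x ε, mem_nhdsWithin_of_mem_nhds (ball_mem_nhds x hε), ε, hε, M, hM,
      fun z hz y hy => h z y ?_ hy⟩
    rwa [mem_ball, dist_eq_norm] at hz

theorem bdT_of_kick {Yf : ℂ × ℂ → ℂ} {R R' : ℝ} (hR' : 0 < R') (hRR : R' < R)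
    (hK : ∀ x ∈ ball (0 : ℂ) R, Kick Yf x) :
    ∃ R1 M rg, R' < R1 ∧ BdT (TY Yf) (TI Yf) R1 M rg := by
  set R1 : ℝ := (R' + R) / 2 with hR1
  set R2 : ℝ := (R1 + R) / 2 with hR2
  have h1 : R' < R1 := by rw [hR1]; linarith
  have h2 : R1 < R2 := by rw [hR2, hR1]; linarith
  have h3 : R2 < R := by rw [hR2, hR1]; linarith
  obtain ⟨ε, hε, M, hM, h⟩ := uniform_kick h3 hK
  refine ⟨R1, max 1 M, min ε (R2 - R1), h1, ?_⟩
  have h' : ∀ x y : ℂ, ‖x‖ ≤ R2 → ‖y‖ < min ε (R2 - R1) → Loc Yf (max 1 M) x y := fun x y hx hy =>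
    (h x (mem_closedBall_zero_iff.2 hx) y (hy.trans_le (min_le_left _ _))).mono (le_max_right _ _)
  refine ⟨le_max_left _ _, by linarith, lt_min hε (by linarith), fun p hp1 hp2 => ?_,
    fun p hp1 hp2 => ?_⟩
  · obtain ⟨e1, -, e3⟩ := h' p.1 p.2 (by linarith) hp2
    have e1' : AnalyticAt ℂ Yf p := e1
    have e3' : ‖Yf p - p.2‖ ≤ max 1 M * ‖p.2‖ ^ 2 := e3
    refine ⟨?_, e3', ?_⟩
    · change AnalyticAt ℂ (fun p : ℂ × ℂ => (p.1 - Yf p, Yf p)) p
      exact (analyticAt_fst.sub e1').prod e1'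
    · change ‖p.1 - Yf p - (p.1 - p.2)‖ ≤ _
      have e4 : p.1 - Yf p - (p.1 - p.2) = -(Yf p - p.2) := by ring
      rw [e4, norm_neg]
      exact e3'
  · have hn : ‖p.1 + p.2‖ ≤ R2 := by
      have e1 := norm_add_le p.1 p.2
      have e2 := hp2.trans_le (min_le_right ε (R2 - R1))
      linarith
    obtain ⟨e1, e2, e3⟩ := h' (p.1 + p.2) (-p.2) hn (by rwa [norm_neg])
    refine ⟨?_, ?_, ?_, ?_⟩
    · change AnalyticAt ℂ (fun p : ℂ × ℂ => (p.1 + p.2, -Yf (p.1 + p.2, -p.2))) p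
      have e4 : AnalyticAt ℂ (fun p : ℂ × ℂ => Yf (p.1 + p.2, -p.2)) p := by
        apply AnalyticAt.fun_comp (g := Yf) (f := fun p : ℂ × ℂ => (p.1 + p.2, -p.2)) e1
        exact (analyticAt_fst.add analyticAt_snd).prod analyticAt_snd.neg
      exact (analyticAt_fst.add analyticAt_snd).prod e4.neg
    · change ‖-Yf (p.1 + p.2, -p.2) - p.2‖ ≤ _
      have e4 : -Yf (p.1 + p.2, -p.2) - p.2 = -(Yf (p.1 + p.2, -p.2) - -p.2) := by ring
      rw [e4, norm_neg]
      rw [norm_neg] at e3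
      exact e3
    · change ‖p.1 + p.2 - (p.1 + p.2)‖ ≤ _
      rw [sub_self, norm_zero]
      positivity
    · change (p.1 + p.2 - Yf (p.1 + p.2, -Yf (p.1 + p.2, -p.2)),
        Yf (p.1 + p.2, -Yf (p.1 + p.2, -p.2))) = p
      rw [e2, neg_neg, add_sub_cancel_right]

/-- translation of the kick -/
theorem kick_shift {Yf : ℂ × ℂ → ℂ} {x₀ x : ℂ} (h : Kick Yf (x₀ + x)) :
    Kick (fun p => Yf (x₀ + p.1, p.2)) x := by
  have hc1 : Tendsto (fun z : ℂ => x₀ + z) (𝓝 x) (𝓝 (x₀ + x)) := by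
    have : Continuous fun z : ℂ => x₀ + z := by fun_prop
    exact this.tendsto x
  have hc2 : Tendsto (fun p : ℂ × ℂ => (x₀ + p.1, p.2)) (𝓝 (x, 0)) (𝓝 (x₀ + x, (0 : ℂ))) := by
    have : Continuous (fun p : ℂ × ℂ => (x₀ + p.1, p.2)) := by fun_prop
    exact this.tendsto (x, 0)
  refine ⟨?_, hc1.eventually h.zero, hc1.eventually h.der, ?_⟩
  · apply AnalyticAt.fun_comp (g := Yf) (f := fun p : ℂ × ℂ => (x₀ + p.1, p.2)) h.ana
    exact (analyticAt_const.add analyticAt_fst).prod analyticAt_snd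
  · exact hc2.eventually h.rev

theorem TY_shift (Yf : ℂ × ℂ → ℂ) (x₀ : ℂ) (p : ℂ × ℂ) :
    (x₀ + (TY (fun p => Yf (x₀ + p.1, p.2)) p).1, (TY (fun p => Yf (x₀ + p.1, p.2)) p).2) =
      TY Yf (x₀ + p.1, p.2) := by
  unfold TY
  simp only
  congr 1
  ring

end Disc

open Disc in
theorem kick_disc {Yf : ℂ × ℂ → ℂ} {x₀ : ℂ} {R : ℝ} (hK : ∀ x ∈ ball x₀ R, Kick Yf x)
    {S : ℂ × ℂ → ℂ} (hS : AnalyticAt ℂ S (x₀, 0))
    (hT : ∀ᶠ p in 𝓝 ((x₀, 0) : ℂ × ℂ), S (TY Yf p) = S p) :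
    ∃ S' : ℂ × ℂ → ℂ, (∀ x ∈ ball x₀ R, AnalyticAt ℂ S' (x, 0) ∧
      ∀ᶠ p in 𝓝 ((x, 0) : ℂ × ℂ), S' (TY Yf p) = S' p) ∧ S' =ᶠ[𝓝 ((x₀, 0) : ℂ × ℂ)] S := by
  have hcont : ∀ z : ℂ, Tendsto (fun p : ℂ × ℂ => (x₀ + p.1, p.2)) (𝓝 (z, 0))
      (𝓝 (x₀ + z, (0 : ℂ))) := by
    intro z
    have : Continuous (fun p : ℂ × ℂ => (x₀ + p.1, p.2)) := by fun_prop
    exact this.tendsto (z, 0)
  have hcont' : ∀ x : ℂ, Tendsto (fun p : ℂ × ℂ => (p.1 - x₀, p.2)) (𝓝 (x, 0))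
      (𝓝 (x - x₀, (0 : ℂ))) := by
    intro x
    have : Continuous (fun p : ℂ × ℂ => (p.1 - x₀, p.2)) := by fun_prop
    exact this.tendsto (x, 0)
  obtain ⟨S1, h1, h2⟩ := disc_zero (R := R) (T := TY fun p => Yf (x₀ + p.1, p.2))
    (J := TI fun p => Yf (x₀ + p.1, p.2)) (S := fun p => S (x₀ + p.1, p.2))
    (by
      intro R' hR' hRR
      apply bdT_of_kick hR' hRR
      intro x hx
      apply kick_shift
      apply hK
      rw [mem_ball_zero_iff] at hx
      rw [mem_ball, dist_eq_norm, add_sub_cancel_left]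
      exact hx)
    (by
      apply AnalyticAt.fun_comp (g := S) (f := fun p : ℂ × ℂ => (x₀ + p.1, p.2))
      · simpa using hS
      · exact (analyticAt_const.add analyticAt_fst).prod analyticAt_snd)
    (by
      have h3 := hcont 0
      rw [add_zero] at h3
      filter_upwards [h3.eventually hT] with p hp
      have e := TY_shift Yf x₀ p
      rw [e, hp])
  refine ⟨fun p => S1 (p.1 - x₀, p.2), fun x hx => ?_, ?_⟩
  · have hx' : x - x₀ ∈ ball (0 : ℂ) R := by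
      rw [mem_ball_zero_iff, ← dist_eq_norm]
      exact hx
    obtain ⟨h3, h4⟩ := h1 (x - x₀) hx'
    refine ⟨?_, ?_⟩
    · apply AnalyticAt.fun_comp (g := S1) (f := fun p : ℂ × ℂ => (p.1 - x₀, p.2)) h3
      exact (analyticAt_fst.sub analyticAt_const).prod analyticAt_snd
    · filter_upwards [(hcont' x).eventually h4] with p hp
      rw [← hp]
      have e := TY_shift Yf x₀ (p.1 - x₀, p.2)
      simp only [add_sub_cancel] at e
      have e1 : (TY Yf p).1 - x₀ = (TY (fun p => Yf (x₀ + p.1, p.2)) (p.1 - x₀, p.2)).1 := by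
        have := congrArg Prod.fst e
        simp only at this
        rw [← this]
        ring
      have e2 : (TY Yf p).2 = (TY (fun p => Yf (x₀ + p.1, p.2)) (p.1 - x₀, p.2)).2 := by
        have := congrArg Prod.snd e
        simp only at this
        rw [← this]
      rw [e1, e2]
  · have h3 := hcont' x₀
    rw [sub_self] at h3
    filter_upwards [h3.eventually h2] with p hp
    rw [hp]
    simp

end Pool.Agent.MP_ae5b4e_an_FLEX
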