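import Mathlib
import Pool.Agent.Lib.MP_ae5b4e_an_FLEX.Defs
import Pool.Agent.Lib.MP_ae5b4e_an_FLEX.Disc
import Pool.Agent.Lib.MP_ae5b4e_an_LAT.NDPropag

/-!
# MP_ae5b4e_an, flexes: propagation of good first integrals of a kick
-/

set_option autoImplicit false

noncomputable section

namespace Pool.Agent.MP_ae5b4e_an_FLEX

open Filter Topology Set Metric
open Pool.Agent.MP_ae5b4e_an_ND (cc cf co Dx Dy Filt)

namespace FD

theorem tendsto_axis (x₀ : ℂ) :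
    Tendsto (fun x : ℂ => ((x, 0) : ℂ × ℂ)) (𝓝 x₀) (𝓝 ((x₀, 0) : ℂ × ℂ)) := by
  have : Continuous (fun x : ℂ => ((x, 0) : ℂ × ℂ)) := by fun_prop
  exact this.tendsto x₀

theorem tendsto_vert (x₀ : ℂ) :
    Tendsto (fun y : ℂ => ((x₀, y) : ℂ × ℂ)) (𝓝 0) (𝓝 ((x₀, 0) : ℂ × ℂ)) := by
  have : Continuous (fun y : ℂ => ((x₀, y) : ℂ × ℂ)) := by fun_prop
  exact this.tendsto 0

/-- the coefficient of the axis equation -/
def kap (Yf : ℂ × ℂ → ℂ) (x : ℂ) : ℂ := Dy (Dy Yf) (x, 0) / 2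

theorem kap_continuousAt {Yf : ℂ × ℂ → ℂ} {x₀ : ℂ} (h : AnalyticAt ℂ Yf (x₀, 0)) :
    ContinuousAt (kap Yf) x₀ := by
  have h1 := (Pool.Agent.MP_ae5b4e_an_ND.Dy_analyticAt
    (Pool.Agent.MP_ae5b4e_an_ND.Dy_analyticAt h)).continuousAt
  have h2 : ContinuousAt (fun x : ℂ => ((x, 0) : ℂ × ℂ)) x₀ := tendsto_axis x₀
  have h3 : ContinuousAt (fun x : ℂ => Dy (Dy Yf) (x, 0)) x₀ :=
    ContinuousAt.comp (g := Dy (Dy Yf)) (f := fun x : ℂ => ((x, 0) : ℂ × ℂ)) h1 h2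
  exact h3.div_const 2

/-- the coefficient of the axis equation in terms of `Yf / y` -/
theorem kap_eq {Yf Y1 : ℂ × ℂ → ℂ} {x₀ : ℂ} (hY1 : AnalyticAt ℂ Y1 (x₀, 0))
    (hY : ∀ᶠ p in 𝓝 ((x₀, 0) : ℂ × ℂ), Yf p = p.2 * Y1 p) :
    kap Yf x₀ = Dy Y1 (x₀, 0) := by
  have h1 : ∀ᶠ p in 𝓝 ((x₀, 0) : ℂ × ℂ), Dy Yf p = Y1 p + p.2 * Dy Y1 p := by
    filter_upwards [hY.eventually_nhds, hY1.eventually_analyticAt] with p hp hp1
    have e : Yf =ᶠ[𝓝 p] fun p => p.2 * Y1 p := hp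
    have h2 : HasFDerivAt (fun p : ℂ × ℂ => p.2 * Y1 p)
        (p.2 • fderiv ℂ Y1 p + Y1 p • (ContinuousLinearMap.snd ℂ ℂ ℂ)) p :=
      hasFDerivAt_snd.fun_mul hp1.differentiableAt.hasFDerivAt
    unfold Dy
    rw [e.fderiv_eq, h2.fderiv]
    simp
    ring
  have e : Dy Yf =ᶠ[𝓝 ((x₀, 0) : ℂ × ℂ)] fun p => Y1 p + p.2 * Dy Y1 p := h1
  have h3 : HasFDerivAt (fun p : ℂ × ℂ => p.2 * Dy Y1 p)
      ((((x₀, 0) : ℂ × ℂ)).2 • fderiv ℂ (Dy Y1) (x₀, 0) +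
        Dy Y1 (x₀, 0) • (ContinuousLinearMap.snd ℂ ℂ ℂ)) (x₀, 0) :=
    hasFDerivAt_snd.fun_mul
      (Pool.Agent.MP_ae5b4e_an_ND.Dy_analyticAt hY1).differentiableAt.hasFDerivAt
  have h4 := (hY1.differentiableAt.hasFDerivAt).fun_add h3
  have h5 : Dy (Dy Yf) (x₀, 0) = 2 * Dy Y1 (x₀, 0) := by
    have : Dy (Dy Yf) (x₀, 0) = fderiv ℂ (Dy Yf) (x₀, 0) (0, 1) := rfl
    rw [this, e.fderiv_eq, h4.fderiv]
    have h6 : fderiv ℂ Y1 (x₀, 0) (0, 1) = Dy Y1 (x₀, 0) := rfl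
    simp [h6]
    ring
  unfold kap
  rw [h5]
  ring

/-- the `y`-derivative on the axis of an invariant function solves `f' = kap f` -/
theorem deriv_axis {Yf : ℂ × ℂ → ℂ} {S : ℂ × ℂ → ℂ} {x₀ : ℂ} (hK : Kick Yf x₀)
    (hS : AnalyticAt ℂ S (x₀, 0)) (h0 : ∀ᶠ x in 𝓝 x₀, S (x, 0) = 0)
    (hT : ∀ᶠ p in 𝓝 ((x₀, 0) : ℂ × ℂ), S (TY Yf p) = S p) :
    HasDerivAt (fun x => deriv (fun y => S (x, y)) 0)
      (kap Yf x₀ * deriv (fun y => S (x₀, y)) 0) x₀ := by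
  obtain ⟨G, hG, hGS, hG0⟩ := Pool.Agent.MP_ae5b4e_an_ND.exists_div_y hS h0
  obtain ⟨Y1, hY1, hYS, hY0⟩ := Pool.Agent.MP_ae5b4e_an_ND.exists_div_y hK.ana hK.zero
  have hY11 : Y1 (x₀, 0) = 1 := by rw [hY0.self_of_nhds, hK.der.self_of_nhds]
  have hYf0 : Yf (x₀, 0) = 0 := hK.zero.self_of_nhds
  have hkap := kap_eq hY1 hYS
  set k := kap Yf x₀ with hk
  have hGd : HasFDerivAt G (fderiv ℂ G (x₀, 0)) (x₀, 0) := hG.differentiableAt.hasFDerivAt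
  set D := fderiv ℂ G (x₀, 0) with hD
  have hline : HasDerivAt (fun y : ℂ => ((x₀, y) : ℂ × ℂ)) (0, 1) 0 :=
    (hasDerivAt_const (0 : ℂ) x₀).prodMk (hasDerivAt_id (0 : ℂ))
  -- the curve `y ↦ T (x₀, y)`
  have hYl : HasDerivAt (fun y : ℂ => Yf (x₀, y)) 1 0 := by
    have h1 : HasFDerivAt Yf (fderiv ℂ Yf (x₀, 0)) ((fun y : ℂ => ((x₀, y) : ℂ × ℂ)) 0) :=
      hK.ana.differentiableAt.hasFDerivAt
    have h2 := h1.comp_hasDerivAt (0 : ℂ) hline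
    have h3 : deriv (fun y : ℂ => Yf (x₀, y)) 0 = 1 := hK.der.self_of_nhds
    have h4 : DifferentiableAt ℂ (fun y : ℂ => Yf (x₀, y)) 0 := h2.differentiableAt
    rw [← h3]
    exact h4.hasDerivAt
  have hcurve : HasDerivAt (fun y : ℂ => ((x₀ - Yf (x₀, y), Yf (x₀, y)) : ℂ × ℂ))
      (-1, 1) 0 := (hYl.const_sub x₀).prodMk hYl
  have hc0 : (fun y : ℂ => ((x₀ - Yf (x₀, y), Yf (x₀, y)) : ℂ × ℂ)) 0 = (x₀, 0) := by
    simp [hYf0]
  have hφ0 : HasDerivAt (fun y : ℂ => G (x₀ - Yf (x₀, y), Yf (x₀, y))) (D (-1, 1)) 0 := by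
    have h1 : HasFDerivAt G D ((fun y : ℂ =>
        ((x₀ - Yf (x₀, y), Yf (x₀, y)) : ℂ × ℂ)) 0) := by rw [hc0]; exact hGd
    exact h1.comp_hasDerivAt (0 : ℂ) hcurve
  have hY1l : HasDerivAt (fun y : ℂ => Y1 (x₀, y)) k 0 := by
    have h1 : HasFDerivAt Y1 (fderiv ℂ Y1 (x₀, 0)) ((fun y : ℂ => ((x₀, y) : ℂ × ℂ)) 0) :=
      hY1.differentiableAt.hasFDerivAt
    have h2 := h1.comp_hasDerivAt (0 : ℂ) hline
    have h3 : fderiv ℂ Y1 (x₀, 0) (0, 1) = k := hkap.symm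
    rw [h3] at h2
    exact h2
  have hφ : HasDerivAt (fun y : ℂ => Y1 (x₀, y) * G (x₀ - Yf (x₀, y), Yf (x₀, y)))
      (k * G (x₀, 0) + D (-1, 1)) 0 := by
    have h2 := hY1l.fun_mul hφ0
    refine h2.congr_deriv ?_
    rw [hY11, hYf0]
    simp
  have hψ : HasDerivAt (fun y : ℂ => G (x₀, y)) (D (0, 1)) 0 := by
    have h1 : HasFDerivAt G D ((fun y : ℂ => ((x₀, y) : ℂ × ℂ)) 0) := hGd
    exact h1.comp_hasDerivAt (0 : ℂ) hline
  -- the two functions agree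
  have hev : ∀ᶠ y in 𝓝 (0 : ℂ), Y1 (x₀, y) * G (x₀ - Yf (x₀, y), Yf (x₀, y)) = G (x₀, y) := by
    have e1 := tendsto_vert x₀
    have e2 : Tendsto (fun y : ℂ => ((x₀ - Yf (x₀, y), Yf (x₀, y)) : ℂ × ℂ)) (𝓝 0)
        (𝓝 (x₀, 0)) := by
      have := hcurve.continuousAt.tendsto
      have e0 : ((x₀ - Yf (x₀, 0), Yf (x₀, 0)) : ℂ × ℂ) = (x₀, 0) := by simp [hYf0]
      rwa [e0] at this
    filter_upwards [e1.eventually hT, e1.eventually hGS, e1.eventually hYS, e2.eventually hGS]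
      with y h1 h2 h3 h4
    by_cases hy : y = 0
    · rw [hy, hY11, hYf0]
      simp
    · have h5 : S (TY Yf (x₀, y)) = S (x₀ - Yf (x₀, y), Yf (x₀, y)) := rfl
      rw [h5, h2, h4] at h1
      have h6 : y * (Y1 (x₀, y) * G (x₀ - Yf (x₀, y), Yf (x₀, y))) = y * G (x₀, y) := by
        rw [← mul_assoc, ← h3]
        exact h1
      exact mul_left_cancel₀ hy h6
  have h1 : k * G (x₀, 0) + D (-1, 1) = D (0, 1) :=
    (hφ.congr_of_eventuallyEq (hev.mono fun y hy => hy.symm)).unique hψ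
  have h2 : D (1, 0) = k * G (x₀, 0) := by
    have h3 : ((-1 : ℂ), (1 : ℂ)) = (0, 1) - (1, 0) := by simp
    rw [h3, map_sub] at h1
    linear_combination -h1
  have hx : HasDerivAt (fun x : ℂ => ((x, 0) : ℂ × ℂ)) (1, 0) x₀ :=
    (hasDerivAt_id x₀).prodMk (hasDerivAt_const x₀ (0 : ℂ))
  have h4 : HasDerivAt (fun x : ℂ => G (x, 0)) (D (1, 0)) x₀ := by
    have h5 : HasFDerivAt G D ((fun x : ℂ => ((x, 0) : ℂ × ℂ)) x₀) := hGd
    exact h5.comp_hasDerivAt x₀ hx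
  rw [h2, hG0.self_of_nhds] at h4
  exact h4.congr_of_eventuallyEq (hG0.mono fun x hx => hx.symm)

/-- `Kick` is an open condition -/
theorem kick_eventually {Yf : ℂ × ℂ → ℂ} {x₀ : ℂ} (h : Kick Yf x₀) :
    ∀ᶠ x in 𝓝 x₀, Kick Yf x := by
  have hc := tendsto_axis x₀
  filter_upwards [hc.eventually h.ana.eventually_analyticAt, h.zero.eventually_nhds,
    h.der.eventually_nhds, hc.eventually h.rev.eventually_nhds] with x h1 h2 h3 h4
  exact ⟨h1, h2, h3, h4⟩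

/-- `GoodY` is an open condition. -/
theorem goodY_eventually {Yf : ℂ × ℂ → ℂ} {x₀ : ℂ} (h : GoodY Yf x₀) :
    ∀ᶠ x in 𝓝 x₀, GoodY Yf x := by
  obtain ⟨hK, S, hS, h0, hd, hT⟩ := h
  have hcont := tendsto_axis x₀
  have hSa := hcont.eventually hS.eventually_analyticAt
  have hTe := hcont.eventually hT.eventually_nhds
  -- the `y`-derivative is continuous
  have hder : ∀ᶠ x in 𝓝 x₀, deriv (fun y => S (x, y)) 0 ≠ 0 := by
    have hF : ContinuousAt (Dy S) (x₀, 0) :=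
      (Pool.Agent.MP_ae5b4e_an_ND.Dy_analyticAt hS).continuousAt
    have h3 : Dy S (x₀, 0) ≠ 0 := by
      rw [Pool.Agent.MP_ae5b4e_an_ND.Dy_eq_deriv hS.differentiableAt]
      exact hd
    have h4 : ∀ᶠ x in 𝓝 x₀, Dy S (x, 0) ≠ 0 := hcont.eventually (hF.eventually_ne h3)
    filter_upwards [h4, hSa] with x hx hxa
    rw [← Pool.Agent.MP_ae5b4e_an_ND.Dy_eq_deriv hxa.differentiableAt]
    exact hx
  filter_upwards [kick_eventually hK, hSa, h0.eventually_nhds, hder, hTe] with x h1 h2 h3 h4 h5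
  exact ⟨h1, S, h2, h3, h4, h5⟩

/-- the centred version -/
theorem goodY_disc {Yf : ℂ × ℂ → ℂ} {c : ℂ} {R : ℝ} (hK : ∀ x ∈ ball c R, Kick Yf x)
    (hc : GoodY Yf c) : ∀ x ∈ ball c R, GoodY Yf x := by
  intro x hx
  obtain ⟨-, S, hS, hS0, hSd, hST⟩ := hc
  have hR : 0 < R := dist_nonneg.trans_lt (mem_ball.1 hx)
  obtain ⟨S', h1, h2⟩ := kick_disc hK hS hST
  have hcb : c ∈ ball c R := mem_ball_self hR
  -- `S' (x, 0) = 0`
  have hax : ∀ z ∈ ball c R, AnalyticAt ℂ (fun x : ℂ => S' (x, 0)) z := by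
    intro z hz
    exact AnalyticAt.fun_comp (g := S') (f := fun x : ℂ => ((x, 0) : ℂ × ℂ)) (h1 z hz).1
      (analyticAt_id.prod analyticAt_const)
  have h0 : Set.EqOn (fun x : ℂ => S' (x, 0)) 0 (ball c R) := by
    apply AnalyticOnNhd.eqOn_zero_of_preconnected_of_eventuallyEq_zero
      (fun z hz => hax z hz) (convex_ball c R).isPreconnected hcb
    filter_upwards [(tendsto_axis c).eventually h2, hS0] with z e2 e3
    rw [e2, e3]
    rfl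
  have h0' : ∀ z ∈ ball c R, ∀ᶠ x in 𝓝 z, S' (x, 0) = 0 := by
    intro z hz
    filter_upwards [isOpen_ball.mem_nhds hz] with x hx
    exact h0 hx
  have hder : ∀ z ∈ ball c R, HasDerivAt (fun x => deriv (fun y => S' (x, y)) 0)
      (kap Yf z * deriv (fun y => S' (z, y)) 0) z :=
    fun z hz => deriv_axis (hK z hz) (h1 z hz).1 (h0' z hz) (h1 z hz).2
  have hdc : deriv (fun y => S' (c, y)) 0 ≠ 0 := by
    have e2 : (fun y => S' (c, y)) =ᶠ[𝓝 0] fun y => S (c, y) := (tendsto_vert c).eventually h2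
    rw [e2.deriv_eq]
    exact hSd
  have hκ : ContinuousOn (kap Yf) (ball c R) :=
    fun z hz => (kap_continuousAt (hK z hz).ana).continuousWithinAt
  exact ⟨hK x hx, S', (h1 x hx).1, h0' x hx,
    Pool.Agent.MP_ae5b4e_an_ND.ne_zero_of_ode hκ hder hcb hdc hx, (h1 x hx).2⟩

end FD

/-- **Propagation of good first integrals of a kick on connected open sets.** -/
theorem goodY_conn {Yf : ℂ × ℂ → ℂ} {O : Set ℂ} (hO : IsOpen O) (hOc : IsPreconnected O)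
    (hK : ∀ x ∈ O, Kick Yf x) {x₀ : ℂ} (hx₀ : x₀ ∈ O) (h : GoodY Yf x₀) :
    ∀ x ∈ O, GoodY Yf x := by
  have hsub : O ⊆ {x | GoodY Yf x} := by
    apply hOc.subset_of_closure_inter_subset
    · rw [isOpen_iff_mem_nhds]
      intro x hx
      exact FD.goodY_eventually hx
    · exact ⟨x₀, hx₀, h⟩
    · rintro x ⟨hxc, hxb⟩
      obtain ⟨ε, hε, hball⟩ := Metric.isOpen_iff.1 hO x hxb
      obtain ⟨y, hy, hyx⟩ := Metric.mem_closure_iff.1 hxc (ε / 2) (by positivity)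
      refine FD.goodY_disc (c := y) (R := ε / 2) (fun z hz => hK z (hball ?_)) hy x
        (mem_ball.2 hyx)
      rw [mem_ball] at hz ⊢
      have := dist_triangle z y x
      rw [dist_comm y x] at this
      linarith
  exact fun x hx => hsub hx

end Pool.Agent.MP_ae5b4e_an_FLEX
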