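import Pool.Agent.Lib.MP_ae5b4e_an_FLEX.GeoK
import Pool.Agent.Lib.MP_ae5b4e_an_FLEX.Prop

/-! Project FLEX (MP_ae5b4e_an), module FU: propagation of good points of the curve. -/

set_option autoImplicit false

noncomputable section

namespace Pool.Agent.MP_ae5b4e_an_FLEX

open Filter Topology Set Metric
open Pool.Agent.MP_ae5b4e_an_ND (cc cf co Dx Dy Filt)

theorem goodG_conn {X Y K : ℂ → ℂ} {O : Set ℂ} (hO : IsOpen O) (hOc : IsPreconnected O)
    (hr : ∀ t ∈ O, RegG X Y K t) {t₀ : ℂ} (ht₀ : t₀ ∈ O) (h : GoodG X Y K t₀) :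
    ∀ t ∈ O, GoodG X Y K t := by
  obtain ⟨Yf, hYf⟩ := isKick_global hO hr
  have h1 := goodG_of_isKick h (hYf t₀ ht₀)
  have h2 := goodY_conn hO hOc (fun t ht => (hYf t ht).1) ht₀ h1
  exact fun t ht => ⟨hr t ht, Yf, hYf t ht, h2 t ht⟩

namespace GeoProp

theorem punct_preconn (t : ℂ) {r : ℝ} (hr : 0 < r) : IsPreconnected (ball t r \ {t}) := by
  have h1 : IsPreconnected {z : ℂ | z.re < Real.log r} :=
    (convex_halfSpace_re_lt (Real.log r)).isPreconnected
  have h2 : (fun z : ℂ => t + Complex.exp z) '' {z : ℂ | z.re < Real.log r} = ball t r \ {t} := by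
    ext s
    constructor
    · rintro ⟨z, hz, rfl⟩
      refine ⟨?_, ?_⟩
      · rw [mem_ball, dist_eq_norm, add_sub_cancel_left, Complex.norm_exp]
        have : Real.exp z.re < Real.exp (Real.log r) := Real.exp_lt_exp.2 hz
        rwa [Real.exp_log hr] at this
      · intro h
        have h3 : t + Complex.exp z = t := h
        exact Complex.exp_ne_zero z (add_eq_left.1 h3)
    · rintro ⟨hs, hs'⟩
      have hne : s - t ≠ 0 := sub_ne_zero.2 hs'
      refine ⟨Complex.log (s - t), ?_, ?_⟩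
      · show (Complex.log (s - t)).re < Real.log r
        rw [Complex.log_re]
        rw [mem_ball, dist_eq_norm] at hs
        exact Real.log_lt_log (norm_pos_iff.2 hne) hs
      · show t + Complex.exp (Complex.log (s - t)) = s
        rw [Complex.exp_log hne]
        ring
  rw [← h2]
  exact h1.image _ (continuous_const.add Complex.continuous_exp).continuousOn

theorem wr_analytic {X Y : ℂ → ℂ} {t : ℂ} (hX : AnalyticAt ℂ X t) (hY : AnalyticAt ℂ Y t) :
    AnalyticAt ℂ (Wr X Y) t :=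
  (hX.deriv.mul hY.deriv.deriv).sub (hY.deriv.mul hX.deriv.deriv)

end GeoProp

theorem goodG_all {X Y K : ℂ → ℂ} {D : Set ℂ} (hD : IsOpen D) (hDc : IsPreconnected D)
    (hX : DifferentiableOn ℂ X D) (hY : DifferentiableOn ℂ Y D) (hK : DifferentiableOn ℂ K D)
    {t₀ : ℂ} (ht₀ : t₀ ∈ D) (h : GoodG X Y K t₀) :
    ∀ t ∈ D, ∀ᶠ s in 𝓝[≠] t, GoodG X Y K s := by
  have hXa : ∀ t ∈ D, AnalyticAt ℂ X t := fun t ht => hX.analyticAt (hD.mem_nhds ht)
  have hYa : ∀ t ∈ D, AnalyticAt ℂ Y t := fun t ht => hY.analyticAt (hD.mem_nhds ht)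
  have hKa : ∀ t ∈ D, AnalyticAt ℂ K t := fun t ht => hK.analyticAt (hD.mem_nhds ht)
  have hWa : AnalyticOnNhd ℂ (Wr X Y) D := fun t ht => GeoProp.wr_analytic (hXa t ht) (hYa t ht)
  have hW : ∀ t ∈ D, ∀ᶠ s in 𝓝[≠] t, Wr X Y s ≠ 0 := by
    intro t ht
    refine (hWa t ht).eventually_eq_zero_or_eventually_ne_zero.resolve_left fun h0 => ?_
    exact h.1.2.2.2 (hWa.eqOn_zero_of_preconnected_of_eventuallyEq_zero hDc ht h0 ht₀)
  have hreg : ∀ t ∈ D, Wr X Y t ≠ 0 → RegG X Y K t := fun t ht h0 =>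
    ⟨hXa t ht, hYa t ht, hKa t ht, h0⟩
  -- good points form an open set
  have hopen : ∀ t ∈ D, GoodG X Y K t → ∀ᶠ s in 𝓝 t, GoodG X Y K s := by
    intro t ht hg
    have h1 : ∀ᶠ s in 𝓝 t, s ∈ D ∧ Wr X Y s ≠ 0 := by
      filter_upwards [hD.mem_nhds ht, (hWa t ht).continuousAt.eventually_ne hg.1.2.2.2]
        with s hs1 hs2
      exact ⟨hs1, hs2⟩
    obtain ⟨r, hr, hball⟩ := Metric.eventually_nhds_iff_ball.1 h1
    filter_upwards [ball_mem_nhds t hr] with s hs
    exact goodG_conn isOpen_ball (convex_ball t r).isPreconnected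
      (fun u hu => hreg u (hball u hu).1 (hball u hu).2) (mem_ball_self hr) hg s hs
  let G : Set ℂ := {t | t ∈ D ∧ ∀ᶠ s in 𝓝[≠] t, GoodG X Y K s}
  have hGo : IsOpen G := by
    rw [isOpen_iff_mem_nhds]
    rintro t ⟨ht, hg⟩
    rw [eventually_nhdsWithin_iff] at hg
    obtain ⟨r, hr, hball⟩ := Metric.eventually_nhds_iff_ball.1 (hg.and (eventually_mem_set.2 (hD.mem_nhds ht)))
    filter_upwards [ball_mem_nhds t hr] with s hs
    refine ⟨(hball s hs).2, ?_⟩
    rcases eq_or_ne s t with rfl | hst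
    · exact eventually_nhdsWithin_iff.2 hg
    · exact (hopen s (hball s hs).2 ((hball s hs).1 hst)).filter_mono nhdsWithin_le_nhds
  have hne : (D ∩ G).Nonempty :=
    ⟨t₀, ht₀, ht₀, (hopen t₀ ht₀ h).filter_mono nhdsWithin_le_nhds⟩
  have hcl : closure G ∩ D ⊆ G := by
    rintro t ⟨hcl, ht⟩
    refine ⟨ht, ?_⟩
    have h1 := hW t ht
    rw [eventually_nhdsWithin_iff] at h1
    obtain ⟨r, hr, hball⟩ := Metric.eventually_nhds_iff_ball.1 (h1.and (eventually_mem_set.2 (hD.mem_nhds ht)))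
    obtain ⟨s, hs, hsG⟩ := (Metric.mem_closure_iff.1 hcl) r hr |>.imp fun s hs =>
      (⟨by rw [mem_ball, dist_comm]; exact hs.2, hs.1⟩ : s ∈ ball t r ∧ s ∈ G)
    have hO : IsOpen (ball t r \ {t}) := isOpen_ball.sdiff isClosed_singleton
    have hOr : ∀ u ∈ ball t r \ {t}, RegG X Y K u := fun u hu =>
      hreg u (hball u hu.1).2 ((hball u hu.1).1 hu.2)
    have hex : ∃ u ∈ ball t r \ {t}, GoodG X Y K u := by
      rcases eq_or_ne s t with rfl | hst
      · have h2 : ∀ᶠ u in 𝓝[≠] s, u ∈ ball s r \ {s} := by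
          rw [eventually_nhdsWithin_iff]
          filter_upwards [ball_mem_nhds s hr] with u hu hus
          exact ⟨hu, hus⟩
        obtain ⟨u, hu1, hu2⟩ := (h2.and hsG.2).exists
        exact ⟨u, hu1, hu2⟩
      · have h2 : ∀ᶠ u in 𝓝[≠] s, u ∈ ball t r \ {t} :=
          (hO.mem_nhds ⟨hs, hst⟩ : ball t r \ {t} ∈ 𝓝 s) |> fun h => nhdsWithin_le_nhds h
        obtain ⟨u, hu1, hu2⟩ := (h2.and hsG.2).exists
        exact ⟨u, hu1, hu2⟩
    obtain ⟨u, hu, hug⟩ := hex
    have hall := goodG_conn hO (GeoProp.punct_preconn t hr) hOr hu hug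
    rw [eventually_nhdsWithin_iff]
    filter_upwards [ball_mem_nhds t hr] with v hv hvt
    exact hall v ⟨hv, hvt⟩
  intro t ht
  exact (hDc.subset_of_closure_inter_subset hGo hne hcl ht).2

end Pool.Agent.MP_ae5b4e_an_FLEX
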