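import Mathlib
import Pool.Agent.Lib.MP_ae5b4e_an_FLEX.Defs

/-!
# MP_ae5b4e_an, flexes of the curve: extension to the plane and Liouville (module FM)
-/

noncomputable section

namespace Pool.Agent.MP_ae5b4e_an_FLEX

open Filter Topology Set Metric

namespace Ext

lemma isOpen_Hp (μ : ℝ) : IsOpen (Hp μ) := by
  have h : Hp μ = {U : ℂ | -μ < U.re} ∩ ({U : ℂ | U.im ≠ 0} ∪ {U : ℂ | 0 < U.re}) := by
    ext U
    simp only [Hp, mem_ofPred_eq, mem_inter_iff, mem_union]
    constructor
    · rintro ⟨h1, h2⟩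
      refine ⟨h1, ?_⟩
      by_cases h : U.im = 0
      · exact Or.inr (h2 h)
      · exact Or.inl h
    · rintro ⟨h1, h2⟩
      refine ⟨h1, fun h => ?_⟩
      rcases h2 with h2 | h2
      · exact absurd h h2
      · exact h2
  rw [h]
  refine (isOpen_lt continuous_const Complex.continuous_re).inter (IsOpen.union ?_ ?_)
  · exact isOpen_ne_fun Complex.continuous_im continuous_const
  · exact isOpen_lt continuous_const Complex.continuous_re

lemma mem_Hp_of_re {μ : ℝ} (hμ : 0 < μ) {U : ℂ} (h : 0 < U.re) : U ∈ Hp μ :=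
  ⟨by linarith, fun _ => h⟩

lemma mem_Hp_of_im {μ : ℝ} {U : ℂ} (h : -μ < U.re) (h2 : U.im ≠ 0) : U ∈ Hp μ :=
  ⟨h, fun h3 => absurd h3 h2⟩

lemma mem_or {μ : ℝ} (hμ : 0 < μ) {U : ℂ} (hU : U ≠ 0) : U ∈ Hp μ ∨ -U ∈ Hp μ := by
  by_cases h1 : -μ < U.re
  · by_cases h2 : U.im = 0
    · rcases lt_trichotomy U.re 0 with h3 | h3 | h3
      · right
        exact mem_Hp_of_re hμ (by simpa using h3)
      · exact absurd (Complex.ext h3 h2) hU
      · left
        exact mem_Hp_of_re hμ h3
    · left
      exact mem_Hp_of_im h1 h2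
  · right
    refine mem_Hp_of_re hμ ?_
    simp only [Complex.neg_re]
    linarith

/-- identity theorem on a convex open set for holomorphic functions which agree near a point -/
lemma eqOn_convex {f g : ℂ → ℂ} {s : Set ℂ} (hs : IsOpen s) (hc : Convex ℝ s)
    (hf : ∀ U ∈ s, DifferentiableAt ℂ f U) (hg : ∀ U ∈ s, DifferentiableAt ℂ g U)
    {U0 : ℂ} (h0 : U0 ∈ s) (h : f =ᶠ[𝓝 U0] g) : EqOn f g s := by
  have hf' : AnalyticOnNhd ℂ f s :=
    DifferentiableOn.analyticOnNhd (fun U hU => (hf U hU).differentiableWithinAt) hs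
  have hg' : AnalyticOnNhd ℂ g s :=
    DifferentiableOn.analyticOnNhd (fun U hU => (hg U hU).differentiableWithinAt) hs
  exact hf'.eqOn_of_preconnected_of_eventuallyEq hg' hc.isPreconnected h0 h

/-- the iteration -/
def psiN (d : ℂ) (r M psi : ℂ → ℂ) : ℕ → ℂ → ℂ
  | 0 => psi
  | n + 1 => fun U => d * (deriv r U / r U) + deriv M U * psiN d r M psi n (M U)

lemma step_diff {m0 : ℂ → ℂ} {μ ε e : ℝ} {r M : ℂ → ℂ} (h : UPlane m0 μ ε e r M) {d : ℂ}
    {f : ℂ → ℂ} {U : ℂ} (hU : U ∈ Hp μ) (hf : DifferentiableAt ℂ f (M U)) :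
    DifferentiableAt ℂ (fun U => d * (deriv r U / r U) + deriv M U * f (M U)) U := by
  have ho := isOpen_Hp μ
  have hn : Hp μ ∈ 𝓝 U := ho.mem_nhds hU
  have hr : DifferentiableAt ℂ r U := (h.r_diff U hU).differentiableAt hn
  have hM : DifferentiableAt ℂ M U := (h.M_diff U hU).differentiableAt hn
  have hr' : DifferentiableAt ℂ (deriv r) U :=
    ((h.r_diff.deriv ho) U hU).differentiableAt hn
  have hM' : DifferentiableAt ℂ (deriv M) U :=
    ((h.M_diff.deriv ho) U hU).differentiableAt hn
  have h1 : DifferentiableAt ℂ (fun U => deriv r U / r U) U := hr'.div hr (h.r_ne U hU)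
  have h2 : DifferentiableAt ℂ (fun U => f (M U)) U := hf.comp U hM
  exact (h1.const_mul d).add (hM'.mul h2)

end Ext

open Ext

/-- The entire function. -/
theorem ext_main {m0 : ℂ → ℂ} {μ ε e : ℝ} {r M : ℂ → ℂ} (h : UPlane m0 μ ε e r M) {d : ℂ}
    {R : ℝ} {psi : ℂ → ℂ} (hR : 0 < R) (hd : ∀ U : ℂ, R < ‖U‖ → DifferentiableAt ℂ psi U)
    (hodd : ∀ U : ℂ, R < ‖U‖ → psi (-U) = -psi U)
    (hE : ∀ U : ℂ, R < ‖U‖ → R < ‖M U‖ →
      psi U = d * (deriv r U / r U) + deriv M U * psi (M U))
    (hinf : Tendsto (fun U => U * psi U) (Bornology.cobounded ℂ) (𝓝 (-1))) :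
    d * e = 1 := by
  have hμ := h.μ_pos
  have hε := h.ε_pos
  -- the larger radius
  obtain ⟨R1, hR1, hRR1, hμR1⟩ : ∃ R1 : ℝ, 0 < R1 ∧ R ≤ R1 ∧ μ ≤ R1 :=
    ⟨max R μ, lt_max_of_lt_left hR, le_max_left _ _, le_max_right _ _⟩
  have nre : ∀ U : ℂ, R1 < U.re → R < ‖U‖ := fun U hU =>
    lt_of_le_of_lt hRR1 (lt_of_lt_of_le hU (Complex.re_le_norm U))
  -- step 1
  have hA : ∀ n : ℕ, (∀ U : ℂ, μ < U.re → R1 - n * ε < U.re →
      DifferentiableAt ℂ (psiN d r M psi n) U) ∧
      ∀ U : ℂ, R1 < U.re → psiN d r M psi n U = psi U := by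
    intro n
    induction n with
    | zero =>
      refine ⟨fun U _ hU => ?_, fun U _ => rfl⟩
      have hU' : R1 < U.re := by simpa using hU
      exact hd U (nre U hU')
    | succ n ih =>
      refine ⟨fun U h1 h2 => ?_, fun U hU => ?_⟩
      · have hinc := h.M_inc U h1
        have hf : DifferentiableAt ℂ (psiN d r M psi n) (M U) := by
          refine ih.1 (M U) (by linarith) ?_
          push_cast at h2
          linarith
        exact step_diff h (mem_Hp_of_re hμ (by linarith)) hf
      · have hinc := h.M_inc U (by linarith)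
        have hM1 : R1 < (M U).re := by linarith
        have := hE U (nre U hU) (nre (M U) hM1)
        rw [this]
        simp only [psiN]
        rw [ih.2 (M U) hM1]
  obtain ⟨N, hN⟩ : ∃ N : ℕ, R1 - N * ε ≤ μ := by
    obtain ⟨N, hN⟩ := exists_nat_ge ((R1 - μ) / ε)
    refine ⟨N, ?_⟩
    rw [div_le_iff₀ hε] at hN
    linarith
  obtain ⟨pm, hpmd, hpme⟩ : ∃ pm : ℂ → ℂ, (∀ U : ℂ, μ < U.re → DifferentiableAt ℂ pm U) ∧
      ∀ U : ℂ, R1 < U.re → pm U = psi U :=
    ⟨psiN d r M psi N, fun U hU => (hA N).1 U hU (by linarith), (hA N).2⟩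
  -- step 2
  obtain ⟨ph, hph⟩ : ∃ ph : ℂ → ℂ, ph = fun U => d * (deriv r U / r U) + deriv M U * pm (M U) :=
    ⟨_, rfl⟩
  have hphd : ∀ U ∈ Hp μ, DifferentiableAt ℂ ph U := by
    intro U hU
    rw [hph]
    exact step_diff h hU (hpmd _ (h.M_re U hU))
  have hphr : ∀ U : ℂ, R1 < U.re → ph U = psi U := by
    intro U hU
    have hinc := h.M_inc U (by linarith)
    have hM1 : R1 < (M U).re := by linarith
    rw [hE U (nre U hU) (nre (M U) hM1), hph]
    simp only
    rw [hpme (M U) hM1]
  -- step 3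
  have hCp : ∀ U : ℂ, -μ < U.re → R1 < U.im → ph U = psi U := by
    have key : EqOn ph psi ({U : ℂ | -μ < U.re} ∩ {U : ℂ | R1 < U.im}) := by
      refine eqOn_convex (U0 := ⟨R1 + 1, R1 + 1⟩) ?_ ?_ ?_ ?_ ?_ ?_
      · exact (isOpen_lt continuous_const Complex.continuous_re).inter
          (isOpen_lt continuous_const Complex.continuous_im)
      · exact (convex_halfSpace_re_gt _).inter (convex_halfSpace_im_gt _)
      · intro U hU
        exact hphd U (mem_Hp_of_im hU.1 (by have := hU.2; simp only [mem_ofPred_eq] at this; linarith))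
      · intro U hU
        refine hd U (lt_of_le_of_lt hRR1 (lt_of_lt_of_le hU.2 ?_))
        exact (le_abs_self _).trans (Complex.abs_im_le_norm U)
      · simp only [mem_inter_iff, mem_ofPred_eq]
        constructor <;> linarith
      · have ho : IsOpen {U : ℂ | R1 < U.re} := isOpen_lt continuous_const Complex.continuous_re
        filter_upwards [ho.mem_nhds (show (⟨R1 + 1, R1 + 1⟩ : ℂ) ∈ {U : ℂ | R1 < U.re} by
          simp only [mem_ofPred_eq]; linarith)] with U hU
        exact hphr U hU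
    exact fun U h1 h2 => key ⟨h1, h2⟩
  have hCm : ∀ U : ℂ, -μ < U.re → U.im < -R1 → ph U = psi U := by
    have key : EqOn ph psi ({U : ℂ | -μ < U.re} ∩ {U : ℂ | U.im < -R1}) := by
      refine eqOn_convex (U0 := ⟨R1 + 1, -R1 - 1⟩) ?_ ?_ ?_ ?_ ?_ ?_
      · exact (isOpen_lt continuous_const Complex.continuous_re).inter
          (isOpen_lt Complex.continuous_im continuous_const)
      · exact (convex_halfSpace_re_gt _).inter (convex_halfSpace_im_lt _)
      · intro U hU
        exact hphd U (mem_Hp_of_im hU.1 (by have := hU.2; simp only [mem_ofPred_eq] at this; linarith))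
      · intro U hU
        have h2 : U.im < -R1 := hU.2
        refine hd U (lt_of_le_of_lt hRR1 (lt_of_lt_of_le (by linarith : R1 < -U.im) ?_))
        exact (neg_le_abs _).trans (Complex.abs_im_le_norm U)
      · simp only [mem_inter_iff, mem_ofPred_eq]
        constructor <;> linarith
      · have ho : IsOpen {U : ℂ | R1 < U.re} := isOpen_lt continuous_const Complex.continuous_re
        filter_upwards [ho.mem_nhds (show (⟨R1 + 1, -R1 - 1⟩ : ℂ) ∈ {U : ℂ | R1 < U.re} by
          simp only [mem_ofPred_eq]; linarith)] with U hU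
        exact hphr U hU
    exact fun U h1 h2 => key ⟨h1, h2⟩
  -- step 4
  have hS : ∀ U : ℂ, |U.re| < μ → 0 < U.im → ph (-U) = -ph U := by
    have key : EqOn (fun U => ph (-U)) (fun U => -ph U)
        (({U : ℂ | -μ < U.re} ∩ {U : ℂ | U.re < μ}) ∩ {U : ℂ | 0 < U.im}) := by
      refine eqOn_convex (U0 := ⟨0, R1 + 1⟩) ?_ ?_ ?_ ?_ ?_ ?_
      · exact ((isOpen_lt continuous_const Complex.continuous_re).inter
          (isOpen_lt Complex.continuous_re continuous_const)).inter
          (isOpen_lt continuous_const Complex.continuous_im)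
      · exact ((convex_halfSpace_re_gt _).inter (convex_halfSpace_re_lt _)).inter
          (convex_halfSpace_im_gt _)
      · intro U hU
        have h1 : U.re < μ := hU.1.2
        have h2 : 0 < U.im := hU.2
        have h3 : -U ∈ Hp μ := mem_Hp_of_im (by simp only [Complex.neg_re]; linarith)
          (by simp only [Complex.neg_im]; linarith)
        exact (hphd _ h3).comp U differentiableAt_id.neg
      · intro U hU
        have h1 : -μ < U.re := hU.1.1
        have h2 : 0 < U.im := hU.2
        exact (hphd U (mem_Hp_of_im h1 h2.ne')).neg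
      · simp only [mem_inter_iff, mem_ofPred_eq]
        refine ⟨⟨by linarith, by linarith⟩, by linarith⟩
      · have ho : IsOpen (({U : ℂ | -μ < U.re} ∩ {U : ℂ | U.re < μ}) ∩ {U : ℂ | R1 < U.im}) :=
          ((isOpen_lt continuous_const Complex.continuous_re).inter
          (isOpen_lt Complex.continuous_re continuous_const)).inter
          (isOpen_lt continuous_const Complex.continuous_im)
        filter_upwards [ho.mem_nhds (show (⟨0, R1 + 1⟩ : ℂ) ∈ _ by
          simp only [mem_inter_iff, mem_ofPred_eq]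
          exact ⟨⟨by linarith, by linarith⟩, by linarith⟩)] with U hU
        have h1 : -μ < U.re := hU.1.1
        have h1' : U.re < μ := hU.1.2
        have h2 : R1 < U.im := hU.2
        have h3 : ph U = psi U := hCp U h1 h2
        have h4 : ph (-U) = psi (-U) := hCm (-U) (by simp only [Complex.neg_re]; linarith)
          (by simp only [Complex.neg_im]; linarith)
        rw [h3, h4]
        refine hodd U (lt_of_le_of_lt hRR1 (lt_of_lt_of_le h2 ?_))
        exact (le_abs_self _).trans (Complex.abs_im_le_norm U)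
    intro U h1 h2
    rw [abs_lt] at h1
    exact key ⟨⟨h1.1, h1.2⟩, h2⟩
  have hSS : ∀ U : ℂ, U ∈ Hp μ → -U ∈ Hp μ → ph (-U) = -ph U := by
    intro U h1 h2
    have hre : |U.re| < μ := by
      have a := h1.1
      have b := h2.1
      simp only [Complex.neg_re] at b
      rw [abs_lt]
      constructor <;> linarith
    have him : U.im ≠ 0 := by
      intro h0
      have a := h1.2 h0
      have b := h2.2 (by simp [h0])
      simp only [Complex.neg_re] at b
      linarith
    rcases lt_or_gt_of_ne him with h3 | h3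
    · have := hS (-U) (by simpa using hre) (by simpa using h3)
      rw [neg_neg] at this
      rw [this, neg_neg]
    · exact hS U hre h3
  -- step 5
  classical
  obtain ⟨P, hP⟩ : ∃ P : ℂ → ℂ, P = fun U => if U ∈ Hp μ then ph U else -ph (-U) := ⟨_, rfl⟩
  have hP1 : ∀ U ∈ Hp μ, P U = ph U := by
    intro U hU
    rw [hP]
    simp only
    rw [if_pos hU]
  have hP2 : ∀ U : ℂ, -U ∈ Hp μ → P U = -ph (-U) := by
    intro U hU
    by_cases h1 : U ∈ Hp μ
    · rw [hP1 U h1, hSS U h1 hU, neg_neg]
    · rw [hP]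
      simp only
      rw [if_neg h1]
  have ho := isOpen_Hp μ
  have hon : IsOpen {U : ℂ | -U ∈ Hp μ} := ho.preimage continuous_neg
  have hPd : ∀ U : ℂ, U ≠ 0 → DifferentiableAt ℂ P U := by
    intro U hU
    rcases mem_or hμ hU with h1 | h1
    · refine (hphd U h1).congr_of_eventuallyEq ?_
      filter_upwards [ho.mem_nhds h1] with V hV
      exact hP1 V hV
    · have h2 : DifferentiableAt ℂ (fun V => -ph (-V)) U :=
        ((hphd _ h1).comp U differentiableAt_id.neg).neg
      refine h2.congr_of_eventuallyEq ?_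
      filter_upwards [hon.mem_nhds h1] with V hV
      exact hP2 V hV
  -- the limit at zero
  have hlim1 : Tendsto (fun U => U * ph U) (𝓝[Hp μ] 0) (𝓝 (-(d * e))) := by
    obtain ⟨M0, hM0, hM0t⟩ := h.zero_M
    have a1 : Tendsto (fun U => d * (U * deriv r U / r U)) (𝓝[Hp μ] 0) (𝓝 (d * (-(e : ℂ)))) :=
      h.zero_r.const_mul d
    have a2 : Tendsto (fun U => pm (M U)) (𝓝[Hp μ] 0) (𝓝 (pm M0)) :=
      ((hpmd M0 hM0).continuousAt.tendsto).comp hM0t
    have a3 : Tendsto (fun U => (U * deriv M U) * pm (M U)) (𝓝[Hp μ] 0) (𝓝 (0 * pm M0)) :=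
      h.zero_M'.mul a2
    have a4 := a1.add a3
    have e1 : d * (-(e : ℂ)) + 0 * pm M0 = -(d * e) := by ring
    rw [e1] at a4
    refine a4.congr fun U => ?_
    rw [hph]
    simp only
    ring
  have hlim : Tendsto (fun U => U * P U) (𝓝[≠] 0) (𝓝 (-(d * e))) := by
    have hsub : 𝓝[≠] (0 : ℂ) ≤ 𝓝[Hp μ] 0 ⊔ 𝓝[{U : ℂ | -U ∈ Hp μ}] 0 := by
      rw [← nhdsWithin_union]
      refine nhdsWithin_mono _ fun U hU => ?_
      exact mem_or hμ hU
    refine Tendsto.mono_left ?_ hsub
    refine Tendsto.sup ?_ ?_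
    · refine hlim1.congr' ?_
      filter_upwards [self_mem_nhdsWithin] with U hU
      rw [hP1 U hU]
    · have a1 : Tendsto (fun U : ℂ => -U) (𝓝[{U : ℂ | -U ∈ Hp μ}] 0) (𝓝[Hp μ] 0) := by
        refine tendsto_nhdsWithin_iff.2 ⟨?_, ?_⟩
        · have : Tendsto (fun U : ℂ => -U) (𝓝 0) (𝓝 (-0)) := continuous_neg.tendsto 0
          rw [neg_zero] at this
          exact this.mono_left nhdsWithin_le_nhds
        · filter_upwards [self_mem_nhdsWithin] with U hU
          exact hU
      refine (hlim1.comp a1).congr' ?_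
      filter_upwards [self_mem_nhdsWithin] with U hU
      simp only [Function.comp]
      rw [hP2 U hU]
      ring
  -- the limit at infinity
  have hbig : ∀ U : ℂ, U ∈ Hp μ → 2 * R1 < ‖U‖ → ph U = psi U := by
    intro U hU hn
    by_cases h1 : R1 < U.re
    · exact hphr U h1
    by_cases h2 : R1 < U.im
    · exact hCp U hU.1 h2
    by_cases h3 : U.im < -R1
    · exact hCm U hU.1 h3
    exfalso
    have h4 := hU.1
    have h5 : |U.re| ≤ R1 := by rw [abs_le]; constructor <;> linarith
    have h6 : |U.im| ≤ R1 := by rw [abs_le]; constructor <;> linarith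
    have h7 := Complex.norm_le_abs_re_add_abs_im U
    linarith
  have hPbig : ∀ U : ℂ, 2 * R1 < ‖U‖ → P U = psi U := by
    intro U hn
    have hU0 : U ≠ 0 := by
      rintro rfl
      rw [norm_zero] at hn
      linarith
    rcases mem_or hμ hU0 with h1 | h1
    · rw [hP1 U h1, hbig U h1 hn]
    · rw [hP2 U h1, hbig (-U) h1 (by rwa [norm_neg]), hodd U (by linarith), neg_neg]
  have hPinf : Tendsto (fun U => U * P U) (Bornology.cobounded ℂ) (𝓝 (-1)) := by
    refine hinf.congr' ?_
    have : ∀ᶠ U : ℂ in Bornology.cobounded ℂ, 2 * R1 < ‖U‖ :=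
      tendsto_norm_cobounded_atTop.eventually_gt_atTop (2 * R1)
    filter_upwards [this] with U hU
    rw [hPbig U hU]
  -- step 6
  obtain ⟨g, hg⟩ : ∃ g : ℂ → ℂ, g = Function.update (fun U => U * P U) 0 (-(d * e)) := ⟨_, rfl⟩
  have hg0 : g 0 = -(d * e) := by rw [hg, Function.update_self]
  have hgne : ∀ U : ℂ, U ≠ 0 → g U = U * P U := by
    intro U hU
    rw [hg, Function.update_of_ne hU]
  have hgd1 : ∀ U : ℂ, U ≠ 0 → DifferentiableAt ℂ g U := by
    intro U hU
    have h1 : DifferentiableAt ℂ (fun U => U * P U) U := differentiableAt_id.mul (hPd U hU)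
    refine h1.congr_of_eventuallyEq ?_
    filter_upwards [isOpen_ne.mem_nhds hU] with V hV
    exact hgne V hV
  have hgc : ContinuousAt g 0 := by
    rw [hg]
    exact continuousAt_update_same.2 hlim
  have hgd : Differentiable ℂ g := by
    intro U
    by_cases hU : U = 0
    · rw [hU]
      refine (Complex.analyticAt_of_differentiable_on_punctured_nhds_of_continuousAt ?_
        hgc).differentiableAt
      filter_upwards [self_mem_nhdsWithin] with V hV
      exact hgd1 V hV
    · exact hgd1 U hU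
  have hginf : Tendsto g (cocompact ℂ) (𝓝 (-1)) := by
    rw [← Metric.cobounded_eq_cocompact]
    refine hPinf.congr' ?_
    have : ∀ᶠ U : ℂ in Bornology.cobounded ℂ, 0 < ‖U‖ :=
      tendsto_norm_cobounded_atTop.eventually_gt_atTop 0
    filter_upwards [this] with U hU
    exact (hgne U (norm_pos_iff.1 hU)).symm
  have hfin := hgd.apply_eq_of_tendsto_cocompact 0 hginf
  rw [hg0] at hfin
  exact neg_injective hfin

end Pool.Agent.MP_ae5b4e_an_FLEX
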