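import Mathlib

set_option autoImplicit false

/-!
# Two symmetries of a germ
-/

namespace Pool.Agent.MP_ae5b4e_an_FLEX

open Filter Topology Set Metric

namespace GermFL

theorem factor {f : ℂ → ℂ} (hf : AnalyticAt ℂ f 0) (h0 : f 0 = 0) :
    ∃ f1 : ℂ → ℂ, AnalyticAt ℂ f1 0 ∧ f1 0 = deriv f 0 ∧ (∀ z, f z = z * f1 z) ∧
      deriv f1 0 = deriv (deriv f) 0 / 2 := by
  obtain ⟨p, hp⟩ := hf
  have h1 : AnalyticAt ℂ (dslope f 0) 0 := ⟨_, hp.has_fpower_series_dslope_fslope⟩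
  have h2 : ∀ z, f z = z * dslope f 0 z := by
    intro z
    have h := sub_smul_dslope f 0 z
    simp only [h0, sub_zero, smul_eq_mul] at h
    exact h.symm
  generalize hf1 : dslope f 0 = f1 at h1 h2
  have h00 : f1 0 = deriv f 0 := by rw [← hf1, dslope_same]
  refine ⟨f1, h1, h00, h2, ?_⟩
  have h3 : deriv f =ᶠ[𝓝 0] fun z => f1 z + z * deriv f1 z := by
    filter_upwards [h1.eventually_analyticAt] with z hz
    have h4 : HasDerivAt (fun z => z * f1 z) (1 * f1 z + z * deriv f1 z) z :=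
      (hasDerivAt_id z).mul hz.differentiableAt.hasDerivAt
    have h5 : HasDerivAt f (1 * f1 z + z * deriv f1 z) z :=
      h4.congr_of_eventuallyEq (Eventually.of_forall h2)
    rw [h5.deriv, one_mul]
  have h6 : HasDerivAt (fun z => f1 z + z * deriv f1 z)
      (deriv f1 0 + (1 * deriv f1 0 + 0 * deriv (deriv f1) 0)) 0 :=
    h1.differentiableAt.hasDerivAt.add
      ((hasDerivAt_id (0:ℂ)).mul h1.deriv.differentiableAt.hasDerivAt)
  rw [h3.deriv_eq, h6.deriv]
  ring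

theorem parabolic {H u t : ℂ → ℂ} (hH : AnalyticAt ℂ H 0) (hu : AnalyticAt ℂ u 0)
    (ht : AnalyticAt ℂ t 0) (hu0 : u 0 = 1) (ht0 : t 0 = 1) {d : ℂ} (hd : d ≠ 0)
    (hu1 : deriv u 0 = 2 * d) (ht1 : deriv t 0 = d)
    (h : ∀ᶠ z in 𝓝[≠] (0:ℂ), u z * H (z * t z) = H z) : ∀ᶠ z in 𝓝 (0:ℂ), H z = 0 := by
  by_contra hcon
  obtain ⟨n, H1, hH1, hne, heq⟩ := (hH.exists_eventuallyEq_pow_smul_nonzero_iff).2 hcon
  simp only [sub_zero, smul_eq_mul] at heq
  have hτ : AnalyticAt ℂ (fun z => z * t z) 0 := analyticAt_id.mul ht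
  have hτ0 : (fun z => z * t z) 0 = 0 := by simp
  have hτc : Tendsto (fun z => z * t z) (𝓝 0) (𝓝 0) := by
    have := hτ.continuousAt.tendsto
    simpa using this
  have hL : AnalyticAt ℂ (fun z => u z * t z ^ n * H1 (z * t z)) 0 :=
    (hu.mul (ht.pow n)).mul (hH1.comp_of_eq hτ hτ0)
  have hev : ∀ᶠ z in 𝓝[≠] (0:ℂ), u z * t z ^ n * H1 (z * t z) = H1 z := by
    filter_upwards [h, (hτc.eventually heq).filter_mono nhdsWithin_le_nhds,
      heq.filter_mono nhdsWithin_le_nhds, self_mem_nhdsWithin] with z h1 h2 h3 hz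
    have hz' : z ^ n ≠ 0 := pow_ne_zero _ hz
    rw [h2, h3, mul_pow] at h1
    apply mul_left_cancel₀ hz'
    linear_combination h1
  have hev' : (fun z => u z * t z ^ n * H1 (z * t z)) =ᶠ[𝓝 0] H1 :=
    (hL.frequently_eq_iff_eventually_eq hH1).1 hev.frequently
  have hd1 := hev'.deriv_eq
  have hHd : HasDerivAt H1 (deriv H1 0) ((fun z => z * t z) 0) := by
    rw [hτ0]
    exact hH1.differentiableAt.hasDerivAt
  have hτd : HasDerivAt (fun z => z * t z) (1 * t 0 + 0 * deriv t 0) 0 :=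
    (hasDerivAt_id (0:ℂ)).mul ht.differentiableAt.hasDerivAt
  have hd2 : HasDerivAt (fun z => u z * t z ^ n * H1 (z * t z))
      ((deriv u 0 * t 0 ^ n + u 0 * ((n : ℂ) * t 0 ^ (n - 1) * deriv t 0)) * H1 (0 * t 0) +
        u 0 * t 0 ^ n * (deriv H1 0 * (1 * t 0 + 0 * deriv t 0))) 0 :=
    (hu.differentiableAt.hasDerivAt.mul (ht.differentiableAt.hasDerivAt.pow n)).mul
      (hHd.comp 0 hτd)
  rw [hd2.deriv, hu0, ht0, hu1, ht1] at hd1
  simp only [one_pow, mul_one, one_mul, zero_mul, add_zero] at hd1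
  have h7 : ((n : ℂ) + 2) * d * H1 0 = 0 := by linear_combination hd1
  have h8 : ((n : ℂ) + 2) ≠ 0 := by exact_mod_cast (by omega : n + 2 ≠ 0)
  exact mul_ne_zero (mul_ne_zero h8 hd) hne h7

end GermFL

open GermFL in
/-- the two symmetries of the form `g dη = d dη / (η - Q η)` -/
theorem germ_main {a Q : ℂ → ℂ} (ha : AnalyticAt ℂ a 0) (ha0 : a 0 = 0) (ha1 : deriv a 0 = 1)
    (ha2 : deriv (deriv a) 0 ≠ -2) (hinv : ∀ᶠ η in 𝓝 (0:ℂ), a (-(a η)) = -η)
    (hQ : AnalyticAt ℂ Q 0) (hQ0 : Q 0 = 0) (hQ1 : deriv Q 0 = -deriv (deriv a) 0 / 2)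
    (hFI : ∀ᶠ η in 𝓝 (0:ℂ), Q (a η / (1 - a η)) * (1 - (a η + (Q η - η) * deriv a η)) =
      a η + (Q η - η) * deriv a η)
    {g : ℂ → ℂ} (hg : g = fun η => (1 - deriv Q 0) / (η - Q η)) :
    ∀ᶠ η in 𝓝[≠] (0:ℂ), η - Q η ≠ 0 ∧
      g η = (1 - deriv Q 0) / (1 + η) - g (-η / (1 + η)) / (1 + η) ^ 2 ∧
      g η = -deriv a η * g (-(a η)) := by
  set d : ℂ := 1 - deriv Q 0 with hd
  have hdne : d ≠ 0 := by
    intro h
    apply ha2
    rw [hd, hQ1] at h
    linear_combination 2 * h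
  -- factorisations
  obtain ⟨a1, ha1a, ha10, ha1e, ha1d⟩ := factor ha ha0
  have hFan : AnalyticAt ℂ (fun η => η - Q η) 0 := analyticAt_id.sub hQ
  have hF0 : (fun η => η - Q η) 0 = 0 := by simp [hQ0]
  have hFd : deriv (fun η => η - Q η) 0 = d := by
    have h1 : HasDerivAt (fun η => η - Q η) (1 - deriv Q 0) 0 :=
      (hasDerivAt_id (0:ℂ)).sub hQ.differentiableAt.hasDerivAt
    rw [h1.deriv]
  obtain ⟨f, hfa, hf0, hfe, -⟩ := factor hFan hF0
  rw [hFd] at hf0
  -- nonvanishing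
  have hac : Tendsto a (𝓝 0) (𝓝 0) := by
    have := ha.continuousAt.tendsto
    rwa [ha0] at this
  have hne1 : ∀ᶠ η in 𝓝 (0:ℂ), 1 - a η ≠ 0 := by
    have h1 : ContinuousAt (fun η => 1 - a η) 0 := continuousAt_const.sub ha.continuousAt
    exact h1.eventually_ne (by simp [ha0])
  have hne2 : ∀ᶠ η in 𝓝 (0:ℂ), deriv a η ≠ 0 :=
    ha.deriv.continuousAt.eventually_ne (by rw [ha1]; exact one_ne_zero)
  have hne3 : ∀ᶠ η in 𝓝 (0:ℂ), 1 - (a η + (Q η - η) * deriv a η) ≠ 0 := by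
    have h1 : ContinuousAt (fun η => 1 - (a η + (Q η - η) * deriv a η)) 0 :=
      continuousAt_const.sub (ha.continuousAt.add
        ((hQ.continuousAt.sub continuousAt_id).mul ha.deriv.continuousAt))
    exact h1.eventually_ne (by simp [ha0, hQ0])
  have hne4 : ∀ᶠ η in 𝓝 (0:ℂ), f η ≠ 0 := hfa.continuousAt.eventually_ne (by rw [hf0]; exact hdne)
  have hne5 : ∀ᶠ η in 𝓝 (0:ℂ), a1 η ≠ 0 :=
    ha1a.continuousAt.eventually_ne (by rw [ha10, ha1]; exact one_ne_zero)
  have hne6 : ∀ᶠ η in 𝓝 (0:ℂ), 1 + η ≠ 0 := by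
    have h1 : ContinuousAt (fun η : ℂ => 1 + η) 0 := continuousAt_const.add continuousAt_id
    exact h1.eventually_ne (by simp)
  -- tau and s preserve the punctured neighbourhoods
  have hs : Tendsto (fun η => -(a η)) (𝓝[≠] 0) (𝓝[≠] 0) := by
    refine tendsto_nhdsWithin_iff.2 ⟨?_, ?_⟩
    · have h1 : Tendsto (fun η => -(a η)) (𝓝 0) (𝓝 (-0)) := hac.neg
      rw [neg_zero] at h1
      exact h1.mono_left nhdsWithin_le_nhds
    · filter_upwards [hne5.filter_mono nhdsWithin_le_nhds, self_mem_nhdsWithin] with η h1 h2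
      rw [mem_compl_iff, mem_singleton_iff, neg_eq_zero, ha1e]
      exact mul_ne_zero h2 h1
  have hτ : Tendsto (fun η => a η / (1 - a η)) (𝓝[≠] 0) (𝓝[≠] 0) := by
    refine tendsto_nhdsWithin_iff.2 ⟨?_, ?_⟩
    · have h1 : Tendsto (fun η => a η / (1 - a η)) (𝓝 0) (𝓝 (0 / (1 - 0))) :=
        hac.div (tendsto_const_nhds.sub hac) (by simp)
      rw [zero_div] at h1
      exact h1.mono_left nhdsWithin_le_nhds
    · filter_upwards [hne5.filter_mono nhdsWithin_le_nhds, self_mem_nhdsWithin,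
        hne1.filter_mono nhdsWithin_le_nhds] with η h1 h2 h3
      rw [mem_compl_iff, mem_singleton_iff, ha1e]
      rw [ha1e] at h3
      exact div_ne_zero (mul_ne_zero h2 h1) h3
  have hFne : ∀ᶠ η in 𝓝[≠] (0:ℂ), η - Q η ≠ 0 := by
    filter_upwards [hne4.filter_mono nhdsWithin_le_nhds, self_mem_nhdsWithin] with η h1 h2
    rw [hfe]
    exact mul_ne_zero h2 h1
  have hgv : ∀ η, g η = d / (η - Q η) := by intro η; rw [hg]
  -- E0
  have hE0 : ∀ᶠ η in 𝓝[≠] (0:ℂ), g η = -(d * deriv a η / (1 - a η)) +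
      deriv a η / (1 - a η) ^ 2 * g (a η / (1 - a η)) := by
    filter_upwards [hne1.filter_mono nhdsWithin_le_nhds, hne2.filter_mono nhdsWithin_le_nhds,
      hne3.filter_mono nhdsWithin_le_nhds, hFI.filter_mono nhdsWithin_le_nhds, hFne,
      hτ.eventually hFne] with η h1 h2 h3 h4 h5 h6
    rw [hgv, hgv]
    have h7 : (a η / (1 - a η) - Q (a η / (1 - a η))) *
        ((1 - a η) * (1 - (a η + (Q η - η) * deriv a η))) = (η - Q η) * deriv a η := by
      have h8 : a η / (1 - a η) * (1 - a η) = a η := div_mul_cancel₀ _ h1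
      linear_combination (1 - (a η + (Q η - η) * deriv a η)) * h8 - (1 - a η) * h4
    have h9 : a η / (1 - a η) - Q (a η / (1 - a η)) = (η - Q η) * deriv a η /
        ((1 - a η) * (1 - (a η + (Q η - η) * deriv a η))) := by
      rw [eq_div_iff (mul_ne_zero h1 h3)]
      exact h7
    rw [h9]
    field_simp
    ring
  -- the second form
  set g2 : ℂ → ℂ := fun η => d / (1 + η) - g (-η / (1 + η)) / (1 + η) ^ 2 with hg2
  have hI1 : ∀ᶠ η in 𝓝[≠] (0:ℂ), g η = -deriv a η * g2 (-(a η)) := by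
    filter_upwards [hE0, hne1.filter_mono nhdsWithin_le_nhds] with η h1 h2
    rw [h1, hg2]
    simp only [neg_neg]
    have h3 : (1:ℂ) + -(a η) = 1 - a η := by ring
    rw [h3]
    field_simp
    ring
  have hinvd : ∀ᶠ η in 𝓝 (0:ℂ), deriv a (-(a η)) * deriv a η = 1 := by
    have hsn : Tendsto (fun η => -(a η)) (𝓝 0) (𝓝 0) := by
      have h1 : Tendsto (fun η => -(a η)) (𝓝 0) (𝓝 (-0)) := hac.neg
      rwa [neg_zero] at h1
    filter_upwards [hinv.eventually_nhds, ha.eventually_analyticAt,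
      hsn.eventually ha.eventually_analyticAt] with η h1 h2 h3
    have h4 : HasDerivAt (fun η => a (-(a η))) (deriv a (-(a η)) * -deriv a η) η :=
      HasDerivAt.comp η h3.differentiableAt.hasDerivAt h2.differentiableAt.hasDerivAt.neg
    have h5 : HasDerivAt (fun η : ℂ => -η) (-1) η := (hasDerivAt_id η).neg
    have h6 := (h4.congr_of_eventuallyEq (Filter.EventuallyEq.symm h1)).unique h5
    linear_combination -h6
  have hI2 : ∀ᶠ η in 𝓝[≠] (0:ℂ), g2 η = -deriv a η * g (-(a η)) := by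
    filter_upwards [hs.eventually hI1, hinv.filter_mono nhdsWithin_le_nhds,
      hinvd.filter_mono nhdsWithin_le_nhds] with η h1 h2 h3
    rw [h2, neg_neg] at h1
    rw [h1]
    linear_combination (-(g2 η)) * h3
  have hI3 : ∀ᶠ η in 𝓝[≠] (0:ℂ), deriv a η / (1 - a η) ^ 2 * g2 (a η / (1 - a η)) =
      g2 η + d * deriv a η / (1 - a η) := by
    filter_upwards [hI2, hne1.filter_mono nhdsWithin_le_nhds] with η h1 h2
    have h3 : 1 + a η / (1 - a η) = 1 / (1 - a η) := by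
      field_simp
      ring
    have h4 : -(a η / (1 - a η)) / (1 / (1 - a η)) = -(a η) := by
      field_simp
    rw [h1]
    simp only [hg2]
    rw [h3, h4]
    field_simp
    ring
  have hh : ∀ᶠ η in 𝓝[≠] (0:ℂ), deriv a η / (1 - a η) ^ 2 *
      (g (a η / (1 - a η)) - g2 (a η / (1 - a η))) = g η - g2 η := by
    filter_upwards [hI3, hE0] with η h1 h2
    rw [mul_sub, h1, h2]
    ring
  -- analytic extension of `g - g2`
  have hρa : AnalyticAt ℂ (fun η : ℂ => -η / (1 + η)) 0 :=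
    analyticAt_id.neg.div (analyticAt_const.add analyticAt_id) (by simp)
  have hρ0 : (fun η : ℂ => -η / (1 + η)) 0 = 0 := by simp
  have hfρ : AnalyticAt ℂ (fun η : ℂ => f (-η / (1 + η))) 0 := by
    exact hfa.comp_of_eq hρa hρ0
  have hfρ0 : f (-0 / (1 + 0)) = d := by rw [neg_zero, zero_div]; exact hf0
  have hNa : AnalyticAt ℂ (fun η : ℂ => (1 + η) * f (-η / (1 + η)) - f η) 0 :=
    ((analyticAt_const.add analyticAt_id).mul hfρ).sub hfa
  have hN0 : (fun η : ℂ => (1 + η) * f (-η / (1 + η)) - f η) 0 = 0 := by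
    simp only
    rw [hfρ0, hf0]
    ring
  obtain ⟨N1, hN1a, -, hN1e, -⟩ := factor hNa hN0
  set H : ℂ → ℂ := fun η => d * N1 η / ((1 + η) * f η * f (-η / (1 + η))) - d / (1 + η) with hHdef
  have hHa : AnalyticAt ℂ H 0 := by
    refine AnalyticAt.sub (AnalyticAt.div (analyticAt_const.mul hN1a)
      (((analyticAt_const.add analyticAt_id).mul hfa).mul hfρ) ?_)
      (analyticAt_const.div (analyticAt_const.add analyticAt_id) (by simp))
    show (1 + (0:ℂ)) * f 0 * f (-0 / (1 + 0)) ≠ 0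
    rw [hfρ0, hf0]
    simp [hdne]
  have hρt : Tendsto (fun η : ℂ => -η / (1 + η)) (𝓝 0) (𝓝 0) := by
    have := hρa.continuousAt.tendsto
    simpa using this
  have hHe : ∀ᶠ η in 𝓝[≠] (0:ℂ), g η - g2 η = H η := by
    filter_upwards [hne4.filter_mono nhdsWithin_le_nhds, self_mem_nhdsWithin,
      hne6.filter_mono nhdsWithin_le_nhds,
      (hρt.eventually hne4).filter_mono nhdsWithin_le_nhds] with η h1 h2 h3 h4
    have h2' : η ≠ 0 := h2
    simp only [hg2, hHdef]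
    rw [hgv, hgv, hfe, hfe]
    have h5 : d * N1 η = d * (((1 + η) * f (-η / (1 + η)) - f η) / η) := by
      rw [hN1e]
      field_simp
    rw [h5]
    generalize f (-η / (1 + η)) = y at h4
    field_simp
    ring
  -- parabolic lemma
  have hua : AnalyticAt ℂ (fun η => deriv a η / (1 - a η) ^ 2) 0 :=
    ha.deriv.div ((analyticAt_const.sub ha).pow 2) (by simp [ha0])
  have hta : AnalyticAt ℂ (fun η => a1 η / (1 - a η)) 0 :=
    ha1a.div (analyticAt_const.sub ha) (by simp [ha0])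
  have hud : deriv (fun η => deriv a η / (1 - a η) ^ 2) 0 = 2 * d := by
    have h1 : HasDerivAt (fun η => (1 - a η) ^ 2) (((2:ℕ):ℂ) * (1 - a 0) ^ (2 - 1) * (0 - deriv a 0)) 0 :=
      ((hasDerivAt_const (0:ℂ) (1:ℂ)).sub ha.differentiableAt.hasDerivAt).pow 2
    have h2 := ha.deriv.differentiableAt.hasDerivAt.div h1 (by simp [ha0])
    have h3 := h2.deriv
    rw [show (fun η => deriv a η / (1 - a η) ^ 2) = (deriv a / fun η => (1 - a η) ^ 2) from rfl]
    rw [h3, ha0, ha1, hd, hQ1]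
    norm_num
    ring
  have htd : deriv (fun η => a1 η / (1 - a η)) 0 = d := by
    have h1 : HasDerivAt (fun η => 1 - a η) (0 - deriv a 0) 0 :=
      (hasDerivAt_const (0:ℂ) (1:ℂ)).sub ha.differentiableAt.hasDerivAt
    have h2 := ha1a.differentiableAt.hasDerivAt.div h1 (by simp [ha0])
    have h3 := h2.deriv
    rw [show (fun η => a1 η / (1 - a η)) = (a1 / fun η => 1 - a η) from rfl]
    rw [h3, ha0, ha1, ha1d, ha10, ha1, hd, hQ1]
    norm_num
    ring
  have hpar : ∀ᶠ z in 𝓝 (0:ℂ), H z = 0 := by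
    refine parabolic (d := d) hHa hua hta (by simp [ha0, ha1]) (by simp [ha0, ha10, ha1]) hdne
      hud htd ?_
    filter_upwards [hh, hHe, hτ.eventually hHe] with η h1 h2 h3
    have h4 : η * (a1 η / (1 - a η)) = a η / (1 - a η) := by
      rw [ha1e η]
      ring
    rw [h4, ← h3, h1, h2]
  filter_upwards [hFne, hI2, hHe, hpar.filter_mono nhdsWithin_le_nhds] with η h1 h2 h3 h4
  have h5 : g η = g2 η := by
    rw [h4] at h3
    exact sub_eq_zero.1 h3
  exact ⟨h1, h5, h5.trans h2⟩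

end Pool.Agent.MP_ae5b4e_an_FLEX
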