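import Pool.Agent.Lib.MP_ae5b4e_an_FLEX.GeoK
import Pool.Agent.Lib.MP_ae5b4e_an_LAT.NDPropag

set_option autoImplicit false

/-!
# The blow-up at a cusp
-/

noncomputable section

namespace Pool.Agent.MP_ae5b4e_an_FLEX

open Filter Topology Set Metric
open Pool.Agent.MP_ae5b4e_an_ND (cc cf co Dx Dy Filt)

namespace GeoCusp

/-! ### one variable -/

theorem div1 {f : ℂ → ℂ} (hf : AnalyticAt ℂ f 0) :
    ∃ g : ℂ → ℂ, AnalyticAt ℂ g 0 ∧ g 0 = deriv f 0 ∧ ∀ t, f t = f 0 + t * g t := by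
  refine ⟨dslope f 0, ?_, dslope_same f 0, fun t => ?_⟩
  · obtain ⟨p, hp⟩ := hf
    exact ⟨_, hp.has_fpower_series_dslope_fslope⟩
  · have h := sub_smul_dslope f 0 t
    rw [sub_zero, smul_eq_mul] at h
    rw [h]
    ring

theorem hasDerivAt_mul_id {g : ℂ → ℂ} {t : ℂ} (hg : DifferentiableAt ℂ g t) :
    HasDerivAt (fun z => z * g z) (g t + t * deriv g t) t := by
  have h := (hasDerivAt_id t).mul hg.hasDerivAt
  simp only [id, one_mul] at h
  exact h

/-- expansion of order three of a function with a vanishing derivative -/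
theorem exp3 {f : ℂ → ℂ} (hf : AnalyticAt ℂ f 0) (h0 : deriv f 0 = 0) :
    ∃ (c : ℂ) (g : ℂ → ℂ), AnalyticAt ℂ g 0 ∧ (∀ t, f t = f 0 + t ^ 2 * (c + t * g t)) ∧
      deriv (deriv f) 0 = 2 * c ∧ deriv (deriv (deriv f)) 0 = 6 * g 0 ∧
      ∀ᶠ t in 𝓝 (0:ℂ), deriv f t = t * (2 * c + t * (3 * g t + t * deriv g t)) := by
  obtain ⟨g1, hg1, hg10, hf1⟩ := div1 hf
  obtain ⟨g2, hg2, -, hf2⟩ := div1 hg1
  obtain ⟨g3, hg3, -, hf3⟩ := div1 hg2
  rw [h0] at hg10
  have hfe : ∀ t, f t = f 0 + t ^ 2 * (g2 0 + t * g3 t) := by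
    intro t
    rw [hf1 t, hf2 t, hf3 t, hg10]
    ring
  have hd3 : ∀ᶠ t in 𝓝 (0:ℂ), DifferentiableAt ℂ g3 t := by
    filter_upwards [hg3.eventually_analyticAt] with t ht using ht.differentiableAt
  have hder : ∀ᶠ t in 𝓝 (0:ℂ), deriv f t = t * (2 * g2 0 + t * (3 * g3 t + t * deriv g3 t)) := by
    filter_upwards [hd3] with t ht
    have h1 : f = fun t => f 0 + t ^ 2 * (g2 0 + t * g3 t) := funext hfe
    have h2 : HasDerivAt (fun t => f 0 + t ^ 2 * (g2 0 + t * g3 t))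
        (2 * t * (g2 0 + t * g3 t) + t ^ 2 * (g3 t + t * deriv g3 t)) t := by
      have h3 := ((hasDerivAt_pow 2 t).mul ((hasDerivAt_mul_id ht).const_add (g2 0))).const_add (f 0)
      have h4 : 2 * t * (g2 0 + t * g3 t) + t ^ 2 * (g3 t + t * deriv g3 t) =
          ((2 : ℕ) : ℂ) * t ^ (2 - 1) * (g2 0 + t * g3 t) + t ^ 2 * (g3 t + t * deriv g3 t) := by
        norm_num
      rw [h4]
      exact h3
    rw [h1, h2.deriv]
    ring
  set G : ℂ → ℂ := fun t => 3 * g3 t + t * deriv g3 t with hG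
  have hGa : AnalyticAt ℂ G 0 := (analyticAt_const.mul hg3).add (analyticAt_id.mul hg3.deriv)
  have hG0 : G 0 = 3 * g3 0 := by simp [hG]
  set H : ℂ → ℂ := fun t => 2 * g2 0 + t * G t with hH
  have hHa : AnalyticAt ℂ H 0 := analyticAt_const.add (analyticAt_id.mul hGa)
  have hfH : deriv f =ᶠ[𝓝 0] fun t => t * H t := hder
  have h2 : deriv (deriv f) =ᶠ[𝓝 0] fun t => H t + t * deriv H t := by
    have h3 := hfH.deriv
    have h4 : ∀ᶠ t in 𝓝 (0:ℂ), deriv (fun t => t * H t) t = H t + t * deriv H t := by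
      filter_upwards [hHa.eventually_analyticAt] with t ht
      exact (hasDerivAt_mul_id ht.differentiableAt).deriv
    filter_upwards [h3, h4] with t h5 h6
    rw [h5, h6]
  have hH0 : H 0 = 2 * g2 0 := by simp [hH]
  have hH1 : deriv H 0 = 3 * g3 0 := by
    have h3 := ((hasDerivAt_mul_id hGa.differentiableAt).const_add (2 * g2 0)).deriv
    rw [zero_mul, add_zero, hG0] at h3
    exact h3
  refine ⟨g2 0, g3, hg3, hfe, ?_, ?_, hder⟩
  · rw [h2.eq_of_nhds]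
    simp [hH0]
  · rw [h2.deriv_eq]
    have h5 : HasDerivAt (fun t => H t + t * deriv H t) (deriv H 0 + (deriv H 0 + 0 * deriv (deriv H) 0)) 0 :=
      hHa.differentiableAt.hasDerivAt.add (hasDerivAt_mul_id hHa.deriv.differentiableAt)
    rw [h5.deriv, hH1]
    ring

/-- `f (t (1 + y))` as a function of `y` -/
theorem hd {f : ℂ → ℂ} {t : ℂ} (hf : DifferentiableAt ℂ f t) :
    HasDerivAt (fun y => f (t * (1 + y))) (deriv f t * t) 0 := by
  have h1 : HasDerivAt (fun y : ℂ => t * (1 + y)) t 0 := by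
    have := ((hasDerivAt_id (0:ℂ)).const_add 1).const_mul t
    simpa using this
  have h2 : HasDerivAt f (deriv f t) (t * (1 + 0)) := by
    rw [add_zero, mul_one]
    exact hf.hasDerivAt
  exact h2.comp (0:ℂ) h1

theorem hd' {f : ℂ → ℂ} {t : ℂ} (hf : DifferentiableAt ℂ f t) (n : ℕ) :
    HasDerivAt (fun y => (1 + y) ^ n * f (t * (1 + y))) (n * f t + deriv f t * t) 0 := by
  have h1 : HasDerivAt (fun y : ℂ => (1 + y) ^ n) (n : ℂ) 0 := by
    have := ((hasDerivAt_id (0:ℂ)).const_add 1).fun_pow n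
    simpa using this
  have h2 := h1.mul (hd hf)
  simp only [add_zero, mul_one, one_pow, one_mul] at h2
  exact h2

/-! ### from the blown-up coordinate to the place -/

theorem place_of_mh {X Y K : ℂ → ℂ} (hK : AnalyticAt ℂ K 0)
    (hg : ∀ᶠ s in 𝓝[≠] (0:ℂ), GoodG X Y K s) {mh : ℂ × ℂ → ℂ} (hm : AnalyticAt ℂ mh (0, 0))
    (hm0 : ∀ t, mh (t, 0) = 0) (hm1 : deriv (fun y => mh (0, y)) 0 ≠ 0)
    (hF : ∀ᶠ p in 𝓝 ((0, 0) : ℂ × ℂ),
      brN X Y p.1 (p.1 + p.1 * p.2) = p.1 * mh p * brD X Y p.1 (p.1 + p.1 * p.2) ∧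
      (p.1 ≠ 0 → p.2 ≠ 0 → brD X Y p.1 (p.1 + p.1 * p.2) ≠ 0)) :
    ∃ Yf A δ, PlaceY Yf A δ ∧ AnalyticAt ℂ A (0, 0) ∧ A (0, 0) = 0 ∧
      ∀ᶠ p in 𝓝 ((0, 0) : ℂ × ℂ), mh (p.1, -A p) * (p.1 * K p.1 * mh p - 1) = mh p := by
  obtain ⟨A, hA, hAeq, ρ, hρ, huniq⟩ := exists_kick (k := fun t => t * K t) hm
    (Eventually.of_forall hm0) hm1 (analyticAt_id.mul hK)
  obtain ⟨δ1, hδ1, h1⟩ := Metric.eventually_nhds_iff_ball.1 hA.ana.eventually_analyticAt
  obtain ⟨δ2, hδ2, h2⟩ := Metric.eventually_nhds_iff_ball.1 hA.zero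
  obtain ⟨δ3, hδ3, h3⟩ := Metric.eventually_nhds_iff_ball.1 hA.der
  obtain ⟨δ4, hδ4, h4⟩ := Metric.eventually_nhds_iff_ball.1 hF
  rw [eventually_nhdsWithin_iff] at hg
  obtain ⟨δ5, hδ5, h5⟩ := Metric.eventually_nhds_iff_ball.1 hg
  set δ := min (min (min δ1 δ2) (min δ3 δ4)) (min δ5 ρ) with hδ
  have hδ0 : 0 < δ := by positivity
  have e1 : δ ≤ δ1 := ((min_le_left _ _).trans (min_le_left _ _)).trans (min_le_left _ _)
  have e2 : δ ≤ δ2 := ((min_le_left _ _).trans (min_le_left _ _)).trans (min_le_right _ _)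
  have e3 : δ ≤ δ3 := ((min_le_left _ _).trans (min_le_right _ _)).trans (min_le_left _ _)
  have e4 : δ ≤ δ4 := ((min_le_left _ _).trans (min_le_right _ _)).trans (min_le_right _ _)
  have e5 : δ ≤ δ5 := (min_le_right _ _).trans (min_le_left _ _)
  have e6 : δ ≤ ρ := (min_le_right _ _).trans (min_le_right _ _)
  have hball : ∀ {r : ℝ} {x η : ℂ}, ‖x‖ < r → ‖η‖ < r → (x, η) ∈ ball ((0, 0) : ℂ × ℂ) r := by
    intro r x η hx hη
    rw [mem_ball_iff_norm]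
    simpa [Prod.norm_def] using ⟨hx, hη⟩
  have hgood : ∀ x : ℂ, x ≠ 0 → ‖x‖ < δ → GoodG X Y K x := by
    intro x hx hxδ
    exact h5 x (by rw [mem_ball_zero_iff]; exact hxδ.trans_le e5) hx
  set O : Set ℂ := ball 0 δ \ {0} with hO
  have hOo : IsOpen O := isOpen_ball.sdiff isClosed_singleton
  obtain ⟨Yf, hYf⟩ := isKick_global (X := X) (Y := Y) (K := K) hOo (by
    rintro t ⟨ht, ht0⟩
    exact (hgood t ht0 (mem_ball_zero_iff.1 ht)).1)
  refine ⟨Yf, A, δ, ⟨hδ0, ?_, ?_, ?_, ?_, ?_⟩, hA.ana, ?_, hAeq⟩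
  · intro x η hx hη
    exact h1 _ (hball (hx.trans_le e1) (hη.trans_le e1))
  · intro x hx
    exact h2 x (mem_ball_zero_iff.2 (hx.trans_le e2))
  · intro x hx
    exact h3 x (mem_ball_zero_iff.2 (hx.trans_le e3))
  · intro x hx0 hx
    exact goodG_of_isKick (hgood x hx0 hx) (hYf x ⟨mem_ball_zero_iff.2 hx, hx0⟩)
  · intro x hx0 hx
    obtain ⟨hk, hrel⟩ := hYf x ⟨mem_ball_zero_iff.2 hx, hx0⟩
    obtain ⟨G, hG, hYG, hG1⟩ := MP_ae5b4e_an_ND.exists_div_y hk.ana hk.zero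
    have hG2 : G (x, 0) ≠ 0 := by
      have h6 := hG1.self_of_nhds
      rw [hk.der.self_of_nhds] at h6
      rw [h6]
      exact one_ne_zero
    have hc1 : ContinuousAt (fun p : ℂ × ℂ => p.1) (x, 0) := continuousAt_fst
    have hc2 : ContinuousAt (fun p : ℂ × ℂ => p.2 / p.1) (x, 0) :=
      continuousAt_snd.div continuousAt_fst hx0
    have hc3 : ContinuousAt (fun p : ℂ × ℂ => Yf p / p.1) (x, 0) :=
      hk.ana.continuousAt.div continuousAt_fst hx0
    have hY0 : Yf (x, 0) = 0 := hk.zero.self_of_nhds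
    have v1 : ∀ᶠ p in 𝓝 ((x, 0) : ℂ × ℂ), ‖p.1‖ < δ := by
      refine hc1.norm.eventually_lt_const ?_
      exact hx
    have v2 : ∀ᶠ p in 𝓝 ((x, 0) : ℂ × ℂ), ‖p.2 / p.1‖ < δ := by
      refine hc2.norm.eventually_lt_const ?_
      simpa using hδ0
    have v3 : ∀ᶠ p in 𝓝 ((x, 0) : ℂ × ℂ), ‖Yf p / p.1‖ < δ := by
      refine hc3.norm.eventually_lt_const ?_
      simpa [hY0] using hδ0
    have v4 : ∀ᶠ p in 𝓝 ((x, 0) : ℂ × ℂ), p.1 ≠ 0 := hc1.eventually_ne hx0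
    have v5 : ∀ᶠ p in 𝓝 ((x, 0) : ℂ × ℂ), G p ≠ 0 := hG.continuousAt.eventually_ne hG2
    have v6 : ∀ᶠ p in 𝓝 ((x, 0) : ℂ × ℂ), Yf (p.1, 0) = 0 := hc1.eventually hk.zero
    filter_upwards [v1, v2, v3, v4, v5, v6, hYG, hrel] with p w1 w2 w3 w4 w5 w6 w7 w8
    obtain ⟨t, y⟩ := p
    simp only at w1 w2 w3 w4 w5 w6 w7 w8 ⊢
    by_cases hy : y = 0
    · subst hy
      rw [w6, zero_div, h2 t (mem_ball_zero_iff.2 (w1.trans_le e2)), mul_zero]
    · have hY1 : Yf (t, y) ≠ 0 := by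
        rw [w7]
        exact mul_ne_zero hy w5
      set η := y / t with hη
      set η' := Yf (t, y) / t with hη'
      have hη0 : η ≠ 0 := div_ne_zero hy w4
      have hη'0 : η' ≠ 0 := div_ne_zero hY1 w4
      have q1 : t + y = t + t * η := by rw [hη]; field_simp
      have q2 : t - Yf (t, y) = t + t * (-η') := by rw [hη']; field_simp; ring
      have f1 := h4 (t, η) (hball (w1.trans_le e4) (w2.trans_le e4))
      have f2 := h4 (t, -η') (hball (w1.trans_le e4) (by rw [norm_neg]; exact w3.trans_le e4))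
      simp only at f1 f2
      rw [q1, q2, f1.1, f2.1] at w8
      have g1 := f1.2 w4 hη0
      have g2 := f2.2 w4 (neg_ne_zero.2 hη'0)
      set D := brD X Y t (t + t * η) with hD
      set D' := brD X Y t (t + t * -η') with hD'
      have key : mh (t, -η') * (t * K t * mh (t, η) - 1) = mh (t, η) := by
        have h6 : (D * D' * t) * (mh (t, -η') * (t * K t * mh (t, η) - 1)) =
            (D * D' * t) * mh (t, η) := by
          linear_combination (-1 : ℂ) * w8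
        exact mul_left_cancel₀ (mul_ne_zero (mul_ne_zero g1 g2) w4) h6
      have h7 := huniq t η η' (by rw [sub_zero]; exact w1.trans_le e6) (w2.trans_le e6)
        (w3.trans_le e6) key
      rw [← h7, hη']
      field_simp
  · exact h2 0 (mem_ball_self hδ2)

/-! ### the blown-up brackets -/

section

variable (a0 b0 : ℂ) (a b A B : ℂ → ℂ)

/-- `brD` without the factor `t ^ 3 (1 + η)` -/
def Psi (p : ℂ × ℂ) : ℂ :=
  2 * a0 * ((1 + p.2) * B (p.1 * (1 + p.2)) - B p.1) -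
    2 * b0 * ((1 + p.2) * A (p.1 * (1 + p.2)) - A p.1) +
    p.1 * (1 + p.2) * (A p.1 * B (p.1 * (1 + p.2)) - B p.1 * A (p.1 * (1 + p.2)))

/-- `brN` without the factor `t ^ 4 (1 + η)` -/
def Phi (p : ℂ × ℂ) : ℂ :=
  ((1 + p.2) ^ 2 - 1) * (1 + p.2) * (a0 * B (p.1 * (1 + p.2)) - b0 * A (p.1 * (1 + p.2))) +
    2 * (((1 + p.2) ^ 3 * a (p.1 * (1 + p.2)) - a p.1) * b0 -
      ((1 + p.2) ^ 3 * b (p.1 * (1 + p.2)) - b p.1) * a0) +
    p.1 * (1 + p.2) * (((1 + p.2) ^ 3 * a (p.1 * (1 + p.2)) - a p.1) * B (p.1 * (1 + p.2)) -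
      ((1 + p.2) ^ 3 * b (p.1 * (1 + p.2)) - b p.1) * A (p.1 * (1 + p.2)))

variable {a0 b0 a b A B}

theorem ana_fst {f : ℂ → ℂ} (hf : AnalyticAt ℂ f 0) :
    AnalyticAt ℂ (fun p : ℂ × ℂ => f p.1) (0, 0) :=
  hf.comp_of_eq analyticAt_fst rfl

theorem ana_mul {f : ℂ → ℂ} (hf : AnalyticAt ℂ f 0) :
    AnalyticAt ℂ (fun p : ℂ × ℂ => f (p.1 * (1 + p.2))) (0, 0) :=
  hf.comp_of_eq (analyticAt_fst.mul (analyticAt_const.add analyticAt_snd)) (by simp)

theorem Psi_ana (hA : AnalyticAt ℂ A 0) (hB : AnalyticAt ℂ B 0) :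
    AnalyticAt ℂ (Psi a0 b0 A B) (0, 0) := by
  have h1 := ana_fst hA
  have h2 := ana_fst hB
  have h3 := ana_mul hA
  have h4 := ana_mul hB
  have h5 : AnalyticAt ℂ (fun p : ℂ × ℂ => 1 + p.2) (0, 0) := analyticAt_const.add analyticAt_snd
  have h6 : AnalyticAt ℂ (fun p : ℂ × ℂ => p.1) (0, 0) := analyticAt_fst
  exact ((analyticAt_const.mul ((h5.mul h4).sub h2)).sub
    (analyticAt_const.mul ((h5.mul h3).sub h1))).add
    ((h6.mul h5).mul ((h1.mul h4).sub (h2.mul h3)))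

theorem Phi_ana (ha : AnalyticAt ℂ a 0) (hb : AnalyticAt ℂ b 0) (hA : AnalyticAt ℂ A 0)
    (hB : AnalyticAt ℂ B 0) : AnalyticAt ℂ (Phi a0 b0 a b A B) (0, 0) := by
  have h1 := ana_fst ha
  have h2 := ana_fst hb
  have h3 := ana_mul hA
  have h4 := ana_mul hB
  have h5 : AnalyticAt ℂ (fun p : ℂ × ℂ => 1 + p.2) (0, 0) := analyticAt_const.add analyticAt_snd
  have h6 : AnalyticAt ℂ (fun p : ℂ × ℂ => p.1) (0, 0) := analyticAt_fst
  have h7 := ana_mul ha
  have h8 := ana_mul hb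
  have h9 := ((h5.pow 3).mul h7).sub h1
  have h10 := ((h5.pow 3).mul h8).sub h2
  exact (((((h5.pow 2).sub analyticAt_const).mul h5).mul
    ((analyticAt_const.mul h4).sub (analyticAt_const.mul h3))).add
    (analyticAt_const.mul ((h9.mul analyticAt_const).sub (h10.mul analyticAt_const)))).add
    ((h6.mul h5).mul ((h9.mul h4).sub (h10.mul h3)))

theorem Psi_zero (t : ℂ) : Psi a0 b0 A B (t, 0) = 0 := by
  simp only [Psi, add_zero, mul_one]
  ring

theorem Phi_zero (t : ℂ) : Phi a0 b0 a b A B (t, 0) = 0 := by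
  simp only [Phi, add_zero, mul_one]
  ring

theorem Psi_at (η : ℂ) : Psi a0 b0 A B (0, η) = 2 * (a0 * B 0 - b0 * A 0) * η := by
  simp only [Psi, zero_mul]
  ring

theorem Phi_at (η : ℂ) (hA : A 0 = 3 * a 0) (hB : B 0 = 3 * b 0) :
    Phi a0 b0 a b A B (0, η) = (a0 * b 0 - b0 * a 0) * (η ^ 2 * (η + 3)) := by
  simp only [Phi, zero_mul, hA, hB]
  ring

theorem Phi_deriv {t : ℂ} (ha : DifferentiableAt ℂ a t) (hb : DifferentiableAt ℂ b t)
    (hAd : DifferentiableAt ℂ A t) (hBd : DifferentiableAt ℂ B t)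
    (hA : A t = 3 * a t + t * deriv a t) (hB : B t = 3 * b t + t * deriv b t) :
    deriv (fun y => Phi a0 b0 a b A B (t, y)) 0 = 0 := by
  have e0 : HasDerivAt (fun y : ℂ => 1 + y) 1 0 := (hasDerivAt_id (0:ℂ)).const_add 1
  have e1 := hd hAd
  have e2 := hd hBd
  have e3 := (hd' ha 3).sub_const (a t)
  have e4 := (hd' hb 3).sub_const (b t)
  have e5 : HasDerivAt (fun y : ℂ => (1 + y) ^ 2 - 1) 2 0 := by
    have h := (e0.fun_pow 2).sub_const 1
    simpa using h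
  have h1 := (e5.mul e0).mul ((e2.const_mul a0).sub (e1.const_mul b0))
  have h2 := ((e3.mul_const b0).sub (e4.mul_const a0)).const_mul 2
  have h3 := (e0.const_mul t).mul ((e3.mul e2).sub (e4.mul e1))
  have h4 := (h1.add h2).add h3
  refine (h4.congr_of_eventuallyEq (Eventually.of_forall fun y => ?_)).deriv.trans ?_
  · rfl
  · simp only [add_zero, mul_one, one_pow, sub_self, one_mul, zero_mul, Pi.mul_apply,
      Pi.sub_apply]
    rw [hA, hB]
    push_cast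
    ring

end

end GeoCusp

open GeoCusp in
theorem place_cusp {X Y K : ℂ → ℂ} (hX : AnalyticAt ℂ X 0) (hY : AnalyticAt ℂ Y 0)
    (hK : AnalyticAt ℂ K 0) (hX' : deriv X 0 = 0) (hY' : deriv Y 0 = 0) (hW : Wr2 X Y 0 ≠ 0)
    (hg : ∀ᶠ s in 𝓝[≠] (0:ℂ), GoodG X Y K s) :
    ∃ Yf A δ, PlaceY Yf A δ ∧ ∀ᶠ η in 𝓝 (0:ℂ), mCusp (-A (0, η)) = -mCusp η := by
  obtain ⟨a0, a, ha, hXe, hX2, hX3, hXd⟩ := exp3 hX hX'
  obtain ⟨b0, b, hb, hYe, hY2, hY3, hYd⟩ := exp3 hY hY'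
  have hω : a0 * b 0 - b0 * a 0 ≠ 0 := by
    intro h
    apply hW
    unfold Wr2
    rw [hX2, hX3, hY2, hY3]
    linear_combination 12 * h
  set A : ℂ → ℂ := fun t => 3 * a t + t * deriv a t with hA
  set B : ℂ → ℂ := fun t => 3 * b t + t * deriv b t with hB
  have hAa : AnalyticAt ℂ A 0 := (analyticAt_const.mul ha).add (analyticAt_id.mul ha.deriv)
  have hBa : AnalyticAt ℂ B 0 := (analyticAt_const.mul hb).add (analyticAt_id.mul hb.deriv)
  have hA0 : A 0 = 3 * a 0 := by simp [hA]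
  have hB0 : B 0 = 3 * b 0 := by simp [hB]
  obtain ⟨P1, hP1, hP1e, hP1z⟩ := MP_ae5b4e_an_ND.exists_div_y
    (Psi_ana (a0 := a0) (b0 := b0) hAa hBa) (Eventually.of_forall Psi_zero)
  obtain ⟨F1, hF1, hF1e, hF1z⟩ := MP_ae5b4e_an_ND.exists_div_y
    (Phi_ana (a0 := a0) (b0 := b0) ha hb hAa hBa) (Eventually.of_forall Phi_zero)
  have hF10 : ∀ᶠ t in 𝓝 (0:ℂ), F1 (t, 0) = 0 := by
    filter_upwards [hF1z, ha.eventually_analyticAt, hb.eventually_analyticAt,
      hAa.eventually_analyticAt, hBa.eventually_analyticAt] with t h1 h2 h3 h4 h5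
    rw [h1]
    exact Phi_deriv h2.differentiableAt h3.differentiableAt h4.differentiableAt
      h5.differentiableAt rfl rfl
  obtain ⟨F2, hF2, hF2e, -⟩ := MP_ae5b4e_an_ND.exists_div_y hF1 hF10
  -- the slice `t = 0`
  have hsl : Tendsto (fun η : ℂ => ((0:ℂ), η)) (𝓝 0) (𝓝 (0, 0)) :=
    (Continuous.prodMk_right (0:ℂ)).tendsto 0
  have hP10 : P1 (0, 0) = 6 * (a0 * b 0 - b0 * a 0) := by
    rw [hP1z.self_of_nhds]
    have h1 : (fun y => Psi a0 b0 A B (0, y)) = fun y => 2 * (a0 * B 0 - b0 * A 0) * y :=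
      funext fun η => Psi_at η
    rw [h1, hA0, hB0]
    have h2 := ((hasDerivAt_id (0:ℂ)).const_mul (2 * (a0 * (3 * b 0) - b0 * (3 * a 0)))).deriv
    simp only [id] at h2
    rw [h2]
    ring
  have hP10' : P1 (0, 0) ≠ 0 := by
    rw [hP10]
    exact mul_ne_zero (by norm_num) hω
  set mh : ℂ × ℂ → ℂ := fun p => p.2 * F2 p / P1 p with hmh
  have hmha : AnalyticAt ℂ mh (0, 0) := (analyticAt_snd.mul hF2).div hP1 hP10'
  have hmc : ∀ᶠ η in 𝓝 (0:ℂ), mh (0, η) = mCusp η := by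
    have h1 : (fun η => mh (0, η)) =ᶠ[𝓝[≠] 0] mCusp := by
      rw [EventuallyEq, eventually_nhdsWithin_iff]
      filter_upwards [hsl.eventually hP1e, hsl.eventually hF1e, hsl.eventually hF2e,
        hsl.eventually (hP1.continuousAt.eventually_ne hP10')] with η h1 h2 h3 h4 hη
      have hη0 : η ≠ 0 := hη
      rw [Psi_at, hA0, hB0] at h1
      rw [Phi_at η hA0 hB0, h3] at h2
      have h5 : P1 (0, η) = 6 * (a0 * b 0 - b0 * a 0) := by
        have : η * P1 (0, η) = η * (6 * (a0 * b 0 - b0 * a 0)) := by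
          rw [← h1]
          ring
        exact mul_left_cancel₀ hη0 this
      have h6 : F2 (0, η) = (a0 * b 0 - b0 * a 0) * (η + 3) := by
        have : η ^ 2 * F2 (0, η) = η ^ 2 * ((a0 * b 0 - b0 * a 0) * (η + 3)) := by
          linear_combination -h2
        exact mul_left_cancel₀ (pow_ne_zero 2 hη0) this
      simp only [hmh, mCusp]
      rw [h5, h6]
      field_simp
      ring
    have h2 : ContinuousAt (fun η => mh (0, η)) 0 :=
      ContinuousAt.comp (f := fun η : ℂ => ((0:ℂ), η)) (g := mh) hmha.continuousAt hsl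
    have h3 : ContinuousAt mCusp 0 := by
      unfold mCusp
      fun_prop
    exact (h2.eventuallyEq_nhds_iff_eventuallyEq_nhdsNE h3).1 h1
  have hm1 : deriv (fun y => mh (0, y)) 0 ≠ 0 := by
    have h1 : (fun y => mh (0, y)) =ᶠ[𝓝 0] mCusp := hmc
    rw [h1.deriv_eq]
    have h2 : HasDerivAt mCusp (1 / 2) 0 := by
      have h3 := (((hasDerivAt_id (0:ℂ)).mul ((hasDerivAt_id (0:ℂ)).const_add 3)).div_const 6)
      refine (h3.congr_of_eventuallyEq (Eventually.of_forall fun y => ?_)).congr_deriv ?_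
      · simp [mCusp]
      · simp
        norm_num
    rw [h2.deriv]
    norm_num
  -- the brackets
  have t1 : Tendsto (fun p : ℂ × ℂ => p.1) (𝓝 (0, 0)) (𝓝 0) := continuous_fst.tendsto _
  have t2 : Tendsto (fun p : ℂ × ℂ => p.1 * (1 + p.2)) (𝓝 (0, 0)) (𝓝 0) := by
    have : Continuous (fun p : ℂ × ℂ => p.1 * (1 + p.2)) := by fun_prop
    simpa using this.tendsto (0, 0)
  have t3 : Tendsto (fun p : ℂ × ℂ => 1 + p.2) (𝓝 (0, 0)) (𝓝 1) := by
    have : Continuous (fun p : ℂ × ℂ => 1 + p.2) := by fun_prop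
    simpa using this.tendsto (0, 0)
  have hF : ∀ᶠ p in 𝓝 ((0, 0) : ℂ × ℂ),
      brN X Y p.1 (p.1 + p.1 * p.2) = p.1 * mh p * brD X Y p.1 (p.1 + p.1 * p.2) ∧
      (p.1 ≠ 0 → p.2 ≠ 0 → brD X Y p.1 (p.1 + p.1 * p.2) ≠ 0) := by
    filter_upwards [t1.eventually hXd, t1.eventually hYd, t2.eventually hXd, t2.eventually hYd,
      t3.eventually_ne one_ne_zero, hP1e, hF1e, hF2e,
      hP1.continuousAt.eventually_ne hP10'] with p h1 h2 h3 h4 h5 h6 h7 h8 h9
    obtain ⟨t, η⟩ := p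
    simp only at h1 h2 h3 h4 h5 h6 h7 h8 h9 ⊢
    have e1 : brD X Y t (t * (1 + η)) = t ^ 3 * (1 + η) * Psi a0 b0 A B (t, η) := by
      unfold brD
      rw [h1, h2, h3, h4]
      simp only [Psi, hA, hB]
      ring
    have e2 : brN X Y t (t * (1 + η)) = t ^ 4 * (1 + η) * Phi a0 b0 a b A B (t, η) := by
      unfold brN
      rw [h3, h4, hXe t, hXe (t * (1 + η)), hYe t, hYe (t * (1 + η))]
      simp only [Phi, hA, hB]
      ring
    have e3 : t + t * η = t * (1 + η) := by ring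
    rw [e3, e1, e2, h6, h7, h8]
    refine ⟨?_, fun ht hη => ?_⟩
    · simp only [hmh]
      field_simp
    · exact mul_ne_zero (mul_ne_zero (pow_ne_zero 3 ht) h5) (mul_ne_zero hη h9)
  obtain ⟨Yf, A', δ, hpl, hA'a, hA'0, hrel⟩ := place_of_mh hK hg hmha
    (fun t => by simp [hmh]) hm1 hF
  refine ⟨Yf, A', δ, hpl, ?_⟩
  have hs1 : Tendsto (fun η : ℂ => -A' (0, η)) (𝓝 0) (𝓝 0) := by
    have h1 : ContinuousAt (fun η : ℂ => A' (0, η)) 0 :=
      ContinuousAt.comp (f := fun η : ℂ => ((0:ℂ), η)) (g := A') hA'a.continuousAt hsl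
    have h2 : Tendsto (fun η : ℂ => -A' (0, η)) (𝓝 0) (𝓝 (-A' (0, 0))) := h1.tendsto.neg
    rwa [hA'0, neg_zero] at h2
  filter_upwards [hsl.eventually hrel, hs1.eventually hmc, hmc] with η h1 h2 h3
  rw [h2, h3] at h1
  linear_combination -h1

end Pool.Agent.MP_ae5b4e_an_FLEX
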