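import Pool.Agent.Lib.MP_ae5b4e_an_FLEX.BridgeY

/-!
# Invariance of the slope on the polydisc at a place (problem `MP_ae5b4e_an`)
-/

set_option autoImplicit false
noncomputable section

namespace Pool.Agent.MP_ae5b4e_an_FLEX

open Filter Topology Set Metric
open Pool.Agent.MP_ae5b4e_an_ND (cc cf co Dx Dy Filt)

namespace FipY

open Pool.Agent.MP_ae5b4e_an_ND (Dx_analyticAt Dy_analyticAt)

/-- The derivative of a function of two variables along a pair of functions. -/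
theorem fderiv_lin (T : ℂ × ℂ → ℂ) (p : ℂ × ℂ) (u w : ℂ) :
    fderiv ℂ T p (u, w) = u * Dx T p + w * Dy T p := by
  have : ((u, w) : ℂ × ℂ) = u • (1, 0) + w • (0, 1) := by simp
  rw [this, map_add, map_smul, map_smul]
  rfl

/-- The partial derivatives of `(x, y) ↦ x A (x, y / x)`. -/
theorem partials {A : ℂ × ℂ → ℂ} {w η : ℂ} (hw : w ≠ 0) (hA : DifferentiableAt ℂ A (w, η)) :
    Dx (fun p : ℂ × ℂ => p.1 * A (p.1, p.2 / p.1)) (w, w * η) =
        A (w, η) + w * Dx A (w, η) - η * Dy A (w, η) ∧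
      Dy (fun p : ℂ × ℂ => p.1 * A (p.1, p.2 / p.1)) (w, w * η) = Dy A (w, η) := by
  have hη : w * η / w = η := by field_simp
  have h1 : HasFDerivAt (fun p : ℂ × ℂ => p.1) (ContinuousLinearMap.fst ℂ ℂ ℂ) (w, w * η) :=
    hasFDerivAt_fst
  have h2 : HasFDerivAt (fun p : ℂ × ℂ => p.2) (ContinuousLinearMap.snd ℂ ℂ ℂ) (w, w * η) :=
    hasFDerivAt_snd
  have hd1 : DifferentiableAt ℂ (fun p : ℂ × ℂ => p.2 / p.1) (w, w * η) := by
    simp only [div_eq_mul_inv]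
    exact h2.differentiableAt.mul (h1.differentiableAt.inv hw)
  have hdp : DifferentiableAt ℂ (fun p : ℂ × ℂ => ((p.1, p.2 / p.1) : ℂ × ℂ)) (w, w * η) :=
    h1.differentiableAt.prodMk hd1
  have hA' : DifferentiableAt ℂ A ((fun p : ℂ × ℂ => ((p.1, p.2 / p.1) : ℂ × ℂ)) (w, w * η)) := by
    simp only [hη]
    exact hA
  have hcomp : DifferentiableAt ℂ (fun p : ℂ × ℂ => A (p.1, p.2 / p.1)) (w, w * η) :=
    DifferentiableAt.comp (g := A) (f := fun p : ℂ × ℂ => ((p.1, p.2 / p.1) : ℂ × ℂ))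
      (w, w * η) hA' hdp
  have hg : DifferentiableAt ℂ (fun p : ℂ × ℂ => p.1 * A (p.1, p.2 / p.1)) (w, w * η) :=
    h1.differentiableAt.mul hcomp
  constructor
  · rw [Pool.Agent.MP_ae5b4e_an_ND.Dx_eq_deriv hg]
    have c1 : HasDerivAt (fun t : ℂ => ((t, w * η / t) : ℂ × ℂ)) (1, -(w * η) / w ^ 2) w := by
      have e1 : HasDerivAt (fun t : ℂ => w * η / t) (-(w * η) / w ^ 2) w := by
        have := (hasDerivAt_const w (w * η)).div (hasDerivAt_id w) hw
        refine this.congr_deriv ?_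
        simp
      exact (hasDerivAt_id w).prodMk e1
    have c2 : HasFDerivAt A (fderiv ℂ A (w, η))
        ((fun t : ℂ => ((t, w * η / t) : ℂ × ℂ)) w) := by
      simp only [hη]
      exact hA.hasFDerivAt
    have c3 := c2.comp_hasDerivAt w c1
    rw [fderiv_lin] at c3
    have c4 := (hasDerivAt_id w).mul c3
    have c5 : deriv (fun t : ℂ => t * A (t, w * η / t)) w = _ := c4.deriv
    rw [c5]
    simp only [Function.comp, id, hη]
    field_simp
    ring
  · rw [Pool.Agent.MP_ae5b4e_an_ND.Dy_eq_deriv hg]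
    have c1 : HasDerivAt (fun t : ℂ => ((w, t / w) : ℂ × ℂ)) (0, 1 / w) (w * η) :=
      (hasDerivAt_const _ w).prodMk ((hasDerivAt_id (w * η)).div_const w)
    have c2 : HasFDerivAt A (fderiv ℂ A (w, η))
        ((fun t : ℂ => ((w, t / w) : ℂ × ℂ)) (w * η)) := by
      simp only [hη]
      exact hA.hasFDerivAt
    have c3 := c2.comp_hasDerivAt (w * η) c1
    rw [fderiv_lin] at c3
    have c4 := c3.const_mul w
    have c5 : deriv (fun t : ℂ => w * A (w, t / w)) (w * η) = _ := c4.deriv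
    rw [c5]
    field_simp
    ring

/-- Local form of the invariance: `η` close to `0`, at a fixed `w ≠ 0`. -/
theorem local_FI {Yf A : ℂ × ℂ → ℂ} {δ C : ℝ} {b : ℕ → ℂ → ℂ} (hs : SerY Yf A δ C b)
    {w : ℂ} (hw : w ≠ 0) (hwδ : ‖w‖ < δ) : ∀ᶠ η in 𝓝 (0:ℂ), FIA A b w η := by
  have hp := hs.place
  obtain ⟨r, hr, C', hC', -, -, -, ρ, hρ, hid⟩ := goodY_slope (hp.good w hw hwδ)
  -- the point `(w, w η)` tends to `(w, 0)`
  have ht : Tendsto (fun η : ℂ => ((w, w * η) : ℂ × ℂ)) (𝓝 0) (𝓝 (w, 0)) := by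
    have : Continuous (fun η : ℂ => ((w, w * η) : ℂ × ℂ)) := by fun_prop
    exact this.tendsto' _ _ (by simp)
  have heq := ht.eventually (hp.eq w hw hwδ).eventually_nhds
  have hyt : Tendsto (fun η : ℂ => w * η) (𝓝 0) (𝓝 0) := by
    have : Continuous (fun η : ℂ => w * η) := by fun_prop
    exact this.tendsto' _ _ (by simp)
  have hyρ : ∀ᶠ η in 𝓝 (0:ℂ), ‖w * η‖ < ρ := by
    have h1 : ∀ᶠ y in 𝓝 (0:ℂ), ‖y‖ < ρ := by
      have := Metric.ball_mem_nhds (0:ℂ) hρ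
      filter_upwards [this] with y hy
      simpa using hy
    exact hyt.eventually h1
  have hηδ : ∀ᶠ η in 𝓝 (0:ℂ), ‖η‖ < δ := by
    filter_upwards [Metric.ball_mem_nhds (0:ℂ) hs.place.δ_pos] with y hy
    simpa using hy
  -- `A (w, η)` tends to `0`
  have hA0 : Tendsto (fun η : ℂ => A (w, η)) (𝓝 0) (𝓝 0) := by
    have h1 : ContinuousAt A (w, 0) :=
      (hp.A_ana w 0 hwδ (by simpa using hp.δ_pos)).continuousAt
    have h2 : Tendsto (fun η : ℂ => ((w, η) : ℂ × ℂ)) (𝓝 0) (𝓝 (w, 0)) := by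
      have : Continuous (fun η : ℂ => ((w, η) : ℂ × ℂ)) := by fun_prop
      exact this.tendsto' _ _ rfl
    have h3 := h1.tendsto.comp h2
    rw [hp.A_zero w hwδ] at h3
    exact h3
  have hw' : Tendsto (fun η : ℂ => w * (1 - A (w, η))) (𝓝 0) (𝓝 w) := by
    have h1 := (hA0.const_sub 1).const_mul w
    simpa using h1
  have hne := hw'.eventually (isOpen_ne.mem_nhds hw)
  have hlt : ∀ᶠ η in 𝓝 (0:ℂ), ‖w * (1 - A (w, η))‖ < δ :=
    hw'.eventually ((isOpen_lt continuous_norm continuous_const).mem_nhds hwδ)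
  filter_upwards [heq, hyρ, hηδ, hne, hlt] with η h1 h2 h3 h4 h5
  obtain ⟨-, -, -, -, -, hF⟩ := hid w (w * η) (by simpa using hρ) h2
  have hη : w * η / w = η := by field_simp
  have hY : Yf (w, w * η) = w * A (w, η) := by
    have := h1.self_of_nhds
    simp only [hη] at this
    exact this
  have hAd : DifferentiableAt ℂ A (w, η) := (hp.A_ana w η hwδ h3).differentiableAt
  obtain ⟨hDx, hDy⟩ := partials hw hAd
  have hfd : fderiv ℂ Yf (w, w * η) =
      fderiv ℂ (fun p : ℂ × ℂ => p.1 * A (p.1, p.2 / p.1)) (w, w * η) :=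
    Filter.EventuallyEq.fderiv_eq h1
  have hDx' : Dx Yf (w, w * η) = A (w, η) + w * Dx A (w, η) - η * Dy A (w, η) := by
    rw [← hDx]
    unfold Dx
    rw [hfd]
  have hDy' : Dy Yf (w, w * η) = Dy A (w, η) := by
    rw [← hDy]
    unfold Dy
    rw [hfd]
  have hs1 : sY Yf w (w * η) = bs b w η := by
    unfold sY bs
    apply tsum_congr
    intro n
    rw [hs.b_eq n w hw hwδ, mul_pow, div_mul_eq_mul_div, ← mul_assoc]
    field_simp
  have h1A : 1 - A (w, η) ≠ 0 := fun h0 => h4 (by rw [h0, mul_zero])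
  have hs2 : sY Yf (w - Yf (w, w * η)) (Yf (w, w * η)) =
      bs b (w * (1 - A (w, η))) (A (w, η) / (1 - A (w, η))) := by
    rw [hY]
    have e1 : w - w * A (w, η) = w * (1 - A (w, η)) := by ring
    rw [e1]
    unfold sY bs
    apply tsum_congr
    intro n
    rw [hs.b_eq n _ h4 h5, mul_pow, mul_pow, div_pow]
    field_simp
  unfold FIY at hF
  rw [hs1, hs2, hDx', hDy'] at hF
  unfold FIA
  have e2 : A (w, η) + w * Dx A (w, η) + (bs b w η - η) * Dy A (w, η) =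
      A (w, η) + w * Dx A (w, η) - η * Dy A (w, η) + bs b w η * Dy A (w, η) := by ring
  rw [e2]
  exact hF

/-- The sum `bs` composed with holomorphic functions. -/
theorem bs_comp_diff {Yf A : ℂ × ℂ → ℂ} {δ C : ℝ} {b : ℕ → ℂ → ℂ}
    (hs : SerY Yf A δ C b) {s : Set ℂ} (hso : IsOpen s) {F G : ℂ → ℂ}
    (hF : DifferentiableOn ℂ F s) (hG : DifferentiableOn ℂ G s) (hFδ : ∀ t ∈ s, ‖F t‖ < δ)
    (hGC : ∀ t ∈ s, ‖G t‖ ≤ 1 / (2 * C)) :
    DifferentiableOn ℂ (fun t => bs b (F t) (G t)) s := by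
  unfold bs
  refine Complex.differentiableOn_tsum_of_summable_norm (u := fun n : ℕ => (1 / 2 : ℝ) ^ n)
    summable_geometric_two (fun n => ?_) hso (fun n t ht => ?_)
  · have h1 : DifferentiableOn ℂ (fun t => b n (F t)) s :=
      (hs.b_diff n).comp hF (fun t ht => by simpa using hFδ t ht)
    exact h1.mul (hG.pow n)
  · rw [norm_mul, norm_pow]
    have hC := hs.C_pos
    have h1 := hs.b_bound n (F t) (hFδ t ht)
    have h2 : ‖G t‖ ^ n ≤ (1 / (2 * C)) ^ n := pow_le_pow_left₀ (norm_nonneg _) (hGC t ht) n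
    calc ‖b n (F t)‖ * ‖G t‖ ^ n ≤ C ^ n * (1 / (2 * C)) ^ n :=
          mul_le_mul h1 h2 (by positivity) (by positivity)
      _ = (1 / 2 : ℝ) ^ n := by
          rw [← mul_pow]; congr 1; field_simp

/-- A function analytic on the polydisc, composed with holomorphic functions. -/
theorem comp_diff {f : ℂ × ℂ → ℂ} {ρ : ℝ}
    (hf : ∀ x η : ℂ, ‖x‖ < ρ → ‖η‖ < ρ → AnalyticAt ℂ f (x, η)) {s : Set ℂ} {Wt Et : ℂ → ℂ}
    (hW : DifferentiableOn ℂ Wt s) (hE : DifferentiableOn ℂ Et s)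
    (hWρ : ∀ t ∈ s, ‖Wt t‖ < ρ) (hEρ : ∀ t ∈ s, ‖Et t‖ < ρ) :
    DifferentiableOn ℂ (fun t => f (Wt t, Et t)) s := by
  intro t ht
  have h1 : DifferentiableAt ℂ f (Wt t, Et t) :=
    (hf _ _ (hWρ t ht) (hEρ t ht)).differentiableAt
  have h2 : DifferentiableWithinAt ℂ (fun t => ((Wt t, Et t) : ℂ × ℂ)) s t :=
    (hW t ht).prodMk (hE t ht)
  exact h1.comp_differentiableWithinAt (f := fun t => ((Wt t, Et t) : ℂ × ℂ)) t h2

/-- Differentiability of the difference of the two sides of the invariance. -/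
theorem FIA_diff {Yf A : ℂ × ℂ → ℂ} {δ C ρ : ℝ} {b : ℕ → ℂ → ℂ}
    (hs : SerY Yf A δ C b) (hδ : 2 * ρ ≤ δ) (hρC : ρ ≤ 1 / (2 * C))
    (hA2 : ∀ x η : ℂ, ‖x‖ < ρ → ‖η‖ < ρ → ‖A (x, η)‖ ≤ 1 / 2)
    (hAC : ∀ x η : ℂ, ‖x‖ < ρ → ‖η‖ < ρ → ‖A (x, η)‖ ≤ 1 / (4 * C))
    {s : Set ℂ} (hso : IsOpen s) {Wt Et : ℂ → ℂ}
    (hW : DifferentiableOn ℂ Wt s) (hE : DifferentiableOn ℂ Et s)
    (hWρ : ∀ t ∈ s, ‖Wt t‖ < ρ) (hEρ : ∀ t ∈ s, ‖Et t‖ < ρ) :
    DifferentiableOn ℂ (fun t =>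
      bs b (Wt t * (1 - A (Wt t, Et t))) (A (Wt t, Et t) / (1 - A (Wt t, Et t))) *
        (1 - (A (Wt t, Et t) + Wt t * Dx A (Wt t, Et t) +
          (bs b (Wt t) (Et t) - Et t) * Dy A (Wt t, Et t))) -
      (A (Wt t, Et t) + Wt t * Dx A (Wt t, Et t) +
          (bs b (Wt t) (Et t) - Et t) * Dy A (Wt t, Et t))) s := by
  have hC := hs.C_pos
  have hp := hs.place
  have hana : ∀ x η : ℂ, ‖x‖ < ρ → ‖η‖ < ρ → AnalyticAt ℂ A (x, η) := by
    intro x η hx hη
    have h0 := norm_nonneg x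
    exact hp.A_ana x η (by linarith) (by linarith)
  have dA := comp_diff hana hW hE hWρ hEρ
  have dX := comp_diff (fun x η hx hη => Dx_analyticAt (hana x η hx hη)) hW hE hWρ hEρ
  have dY := comp_diff (fun x η hx hη => Dy_analyticAt (hana x η hx hη)) hW hE hWρ hEρ
  have d1A : DifferentiableOn ℂ (fun t => 1 - A (Wt t, Et t)) s :=
    (differentiableOn_const _).sub dA
  have hn1 : ∀ t ∈ s, 1 / 2 ≤ ‖1 - A (Wt t, Et t)‖ := by
    intro t ht
    have h1 := norm_sub_norm_le (1:ℂ) (A (Wt t, Et t))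
    rw [norm_one] at h1
    have h2 := hA2 _ _ (hWρ t ht) (hEρ t ht)
    linarith
  have hn2 : ∀ t ∈ s, ‖1 - A (Wt t, Et t)‖ ≤ 3 / 2 := by
    intro t ht
    have h1 := norm_sub_le (1:ℂ) (A (Wt t, Et t))
    rw [norm_one] at h1
    have h2 := hA2 _ _ (hWρ t ht) (hEρ t ht)
    linarith
  have hne : ∀ t ∈ s, 1 - A (Wt t, Et t) ≠ 0 := by
    intro t ht h0
    have := hn1 t ht
    rw [h0, norm_zero] at this
    norm_num at this
  have dq : DifferentiableOn ℂ (fun t => A (Wt t, Et t) / (1 - A (Wt t, Et t))) s :=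
    dA.div d1A hne
  have hlt : ∀ t ∈ s, ‖Wt t * (1 - A (Wt t, Et t))‖ < δ := by
    intro t ht
    rw [norm_mul]
    have h1 := hWρ t ht
    have h2 := hn2 t ht
    have h0 := norm_nonneg (Wt t)
    have h3 : ‖Wt t‖ * ‖1 - A (Wt t, Et t)‖ ≤ ‖Wt t‖ * (3 / 2) :=
      mul_le_mul_of_nonneg_left h2 h0
    linarith
  have hq : ∀ t ∈ s, ‖A (Wt t, Et t) / (1 - A (Wt t, Et t))‖ ≤ 1 / (2 * C) := by
    intro t ht
    have h1 := hn1 t ht
    have h2 := hAC _ _ (hWρ t ht) (hEρ t ht)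
    have h3 : 0 < ‖1 - A (Wt t, Et t)‖ := by linarith
    rw [norm_div, div_le_iff₀ h3]
    have h4 : 1 / (2 * C) * (1 / 2) ≤ 1 / (2 * C) * ‖1 - A (Wt t, Et t)‖ :=
      mul_le_mul_of_nonneg_left h1 (by positivity)
    have h5 : 1 / (2 * C) * (1 / 2) = 1 / (4 * C) := by
      field_simp; norm_num
    linarith
  have d2 := bs_comp_diff hs hso (hW.mul d1A) dq hlt hq
  have d3 := bs_comp_diff hs hso hW hE (fun t ht => by
    have h0 := norm_nonneg (Wt t)
    have h1 := hWρ t ht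
    linarith) (fun t ht => ((hEρ t ht).le.trans hρC))
  have dV : DifferentiableOn ℂ (fun t => A (Wt t, Et t) + Wt t * Dx A (Wt t, Et t) +
      (bs b (Wt t) (Et t) - Et t) * Dy A (Wt t, Et t)) s :=
    (dA.add (hW.mul dX)).add ((d3.sub hE).mul dY)
  exact (d2.mul ((differentiableOn_const _).sub dV)).sub dV

end FipY

/-- The invariance of the slope on a polydisc. -/
theorem serY_FI {Yf A : ℂ × ℂ → ℂ} {δ C : ℝ} {b : ℕ → ℂ → ℂ} (hs : SerY Yf A δ C b) :
    ∃ ρ > 0, ∀ w η, ‖w‖ < ρ → ‖η‖ < ρ → FIA A b w η := by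
  have hC := hs.C_pos
  have hp := hs.place
  have hδ := hp.δ_pos
  obtain ⟨ρ, hρ0, h2, hρC, hA2, hAC⟩ : ∃ ρ : ℝ, 0 < ρ ∧ 2 * ρ ≤ δ ∧ ρ ≤ 1 / (2 * C) ∧
      (∀ x η : ℂ, ‖x‖ < ρ → ‖η‖ < ρ → ‖A (x, η)‖ ≤ 1 / 2) ∧
      (∀ x η : ℂ, ‖x‖ < ρ → ‖η‖ < ρ → ‖A (x, η)‖ ≤ 1 / (4 * C)) := by
    have h1 : ContinuousAt A (0, 0) :=
      (hp.A_ana 0 0 (by simpa using hδ) (by simpa using hδ)).continuousAt
    have h3 : A (0, 0) = 0 := hp.A_zero 0 (by simpa using hδ)
    have hc : 0 < min (1 / 2) (1 / (4 * C)) := by positivity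
    obtain ⟨ε, hε, hb⟩ := Metric.continuousAt_iff.1 h1 _ hc
    have hb' : ∀ x η : ℂ, ‖x‖ < ε → ‖η‖ < ε → ‖A (x, η)‖ < min (1 / 2) (1 / (4 * C)) := by
      intro x η hx hη
      have h4 : dist ((x, η) : ℂ × ℂ) (0, 0) < ε := by
        rw [Prod.dist_eq]
        simpa using ⟨hx, hη⟩
      have h5 := hb h4
      rwa [h3, dist_zero_right] at h5
    refine ⟨min ε (min (δ / 2) (1 / (2 * C))), by positivity, ?_, ?_, ?_, ?_⟩
    · have := (min_le_right ε (min (δ / 2) (1 / (2 * C)))).trans (min_le_left _ _)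
      linarith
    · exact (min_le_right _ _).trans (min_le_right _ _)
    · intro x η hx hη
      exact (hb' x η (hx.trans_le (min_le_left _ _)) (hη.trans_le (min_le_left _ _))).le.trans
        (min_le_left _ _)
    · intro x η hx hη
      exact (hb' x η (hx.trans_le (min_le_left _ _)) (hη.trans_le (min_le_left _ _))).le.trans
        (min_le_right _ _)
  have hne : ∀ w η, w ≠ 0 → ‖w‖ < ρ → ‖η‖ < ρ → FIA A b w η := by
    intro w η hw hwρ hηρ
    have hwδ : ‖w‖ < δ := by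
      have := norm_nonneg w
      linarith
    have hd := FipY.FIA_diff hs h2 hρC hA2 hAC (Metric.isOpen_ball (x := (0:ℂ)) (ε := ρ))
      (Wt := fun _ => w) (Et := fun t => t) (differentiableOn_const _) differentiableOn_id
      (fun _ _ => hwρ) (fun t ht => by simpa using ht)
    have ha := hd.analyticOnNhd Metric.isOpen_ball
    have h0 : (0:ℂ) ∈ Metric.ball (0:ℂ) ρ := Metric.mem_ball_self hρ0
    have hev : (fun t => bs b (w * (1 - A (w, t))) (A (w, t) / (1 - A (w, t))) *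
        (1 - (A (w, t) + w * Dx A (w, t) + (bs b w t - t) * Dy A (w, t))) -
        (A (w, t) + w * Dx A (w, t) + (bs b w t - t) * Dy A (w, t))) =ᶠ[𝓝 0] 0 := by
      filter_upwards [FipY.local_FI hs hw hwδ] with t ht
      unfold FIA at ht
      show _ - _ = (0:ℂ)
      rw [ht, sub_self]
    have hz := ha.eqOn_zero_of_preconnected_of_eventuallyEq_zero
      (convex_ball (0:ℂ) ρ).isPreconnected h0 hev
    have := hz (show η ∈ Metric.ball (0:ℂ) ρ by simpa using hηρ)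
    unfold FIA
    exact sub_eq_zero.mp this
  refine ⟨ρ, hρ0, fun w η hwρ hηρ => ?_⟩
  rcases ne_or_eq w 0 with hw | hw
  · exact hne w η hw hwρ hηρ
  · subst hw
    have hd := FipY.FIA_diff hs h2 hρC hA2 hAC (Metric.isOpen_ball (x := (0:ℂ)) (ε := ρ))
      (Wt := fun t => t) (Et := fun _ => η) differentiableOn_id (differentiableOn_const _)
      (fun t ht => by simpa using ht) (fun _ _ => hηρ)
    have hc := (hd.differentiableAt (Metric.ball_mem_nhds (0:ℂ) hρ0)).continuousAt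
    have h1 : Tendsto (fun t => bs b (t * (1 - A (t, η))) (A (t, η) / (1 - A (t, η))) *
        (1 - (A (t, η) + t * Dx A (t, η) + (bs b t η - η) * Dy A (t, η))) -
        (A (t, η) + t * Dx A (t, η) + (bs b t η - η) * Dy A (t, η)))
        (𝓝[≠] 0) (𝓝 _) := hc.tendsto.mono_left nhdsWithin_le_nhds
    have h2 : Tendsto (fun t => bs b (t * (1 - A (t, η))) (A (t, η) / (1 - A (t, η))) *
        (1 - (A (t, η) + t * Dx A (t, η) + (bs b t η - η) * Dy A (t, η))) -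
        (A (t, η) + t * Dx A (t, η) + (bs b t η - η) * Dy A (t, η)))
        (𝓝[≠] 0) (𝓝 0) := by
      apply Tendsto.congr' _ tendsto_const_nhds
      have h3 : ∀ᶠ t in 𝓝[≠] (0:ℂ), t ≠ 0 := self_mem_nhdsWithin
      have h4 : ∀ᶠ t in 𝓝[≠] (0:ℂ), t ∈ Metric.ball (0:ℂ) ρ :=
        mem_nhdsWithin_of_mem_nhds (Metric.ball_mem_nhds (0:ℂ) hρ0)
      filter_upwards [h3, h4] with t h3 h4
      have := hne t η h3 (by simpa using h4) hηρ
      unfold FIA at this
      rw [this, sub_self]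
    have h3 := tendsto_nhds_unique h1 h2
    unfold FIA
    exact sub_eq_zero.mp h3

end Pool.Agent.MP_ae5b4e_an_FLEX
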