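import Pool.Agent.Lib.MP_ae5b4e_an_FLEX.BdY
import Pool.Agent.Lib.MP_ae5b4e_an_FLEX.FipY

/-!
# MP_ae5b4e_an, FLEX module FK (helper30): the functional equation at the flex
-/

noncomputable section

namespace Pool.Agent.MP_ae5b4e_an_FLEX

open Filter Topology Set Metric
open Pool.Agent.MP_ae5b4e_an_ND (cc cf co Dx Dy Filt)

namespace Zero

lemma pow_bound {c : ℕ → ℂ} {C : ℝ} (hC : 0 < C) (hc : ∀ n, ‖c n‖ ≤ C * C ^ n) (n : ℕ) {η : ℂ}
    (hη : ‖η‖ < 1 / (2 * C)) : ‖c n * η ^ n‖ ≤ C * (1 / 2) ^ n := by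
  rw [norm_mul, norm_pow]
  have h1 : C * ‖η‖ ≤ 1 / 2 := by
    have := mul_le_mul_of_nonneg_left hη.le hC.le
    refine this.trans (le_of_eq ?_)
    field_simp
  calc ‖c n‖ * ‖η‖ ^ n ≤ (C * C ^ n) * ‖η‖ ^ n :=
        mul_le_mul_of_nonneg_right (hc n) (by positivity)
    _ = C * (C * ‖η‖) ^ n := by rw [mul_pow]; ring
    _ ≤ C * (1 / 2) ^ n :=
        mul_le_mul_of_nonneg_left (pow_le_pow_left₀ (by positivity) h1 n) hC.le

lemma ser_diff {c : ℕ → ℂ} {C : ℝ} (hC : 0 < C) (hc : ∀ n, ‖c n‖ ≤ C * C ^ n) :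
    DifferentiableOn ℂ (fun η : ℂ => ∑' n, c n * η ^ n) (ball 0 (1 / (2 * C))) := by
  refine Complex.differentiableOn_tsum_of_summable_norm (u := fun n => C * (1 / 2 : ℝ) ^ n)
    ((summable_geometric_of_lt_one (by norm_num) (by norm_num)).mul_left C) ?_ isOpen_ball ?_
  · intro n
    exact (differentiable_id.pow n).const_mul (c n) |>.differentiableOn
  · intro n η hη
    exact pow_bound hC hc n (by simpa using hη)

lemma ser_summable {c : ℕ → ℂ} {C : ℝ} (hC : 0 < C) (hc : ∀ n, ‖c n‖ ≤ C * C ^ n) {η : ℂ}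
    (hη : ‖η‖ < 1 / (2 * C)) : Summable fun n => c n * η ^ n :=
  Summable.of_norm_bounded (g := fun n => C * (1 / 2 : ℝ) ^ n)
    ((summable_geometric_of_lt_one (by norm_num) (by norm_num)).mul_left C)
    fun n => pow_bound hC hc n hη

lemma ser_zero (c : ℕ → ℂ) : ∑' n, c n * (0 : ℂ) ^ n = c 0 := by
  rw [tsum_eq_single 0]
  · simp
  · intro n hn
    simp [hn]

end Zero

/-- the functional equation at the flex -/
theorem placeY_zero {Yf A : ℂ × ℂ → ℂ} {δ : ℝ} (hp : PlaceY Yf A δ) :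
    ∃ Q : ℂ → ℂ, AnalyticAt ℂ Q 0 ∧ Q 0 = 0 ∧
      deriv Q 0 = -deriv (deriv (fun η => A (0, η))) 0 / 2 ∧
      ∀ᶠ η in 𝓝 (0:ℂ), Q (A (0, η) / (1 - A (0, η))) *
        (1 - (A (0, η) + (Q η - η) * deriv (fun η => A (0, η)) η)) =
        A (0, η) + (Q η - η) * deriv (fun η => A (0, η)) η := by
  obtain ⟨δ', hδ', hle, C, b, hs⟩ := placeY_series hp
  obtain ⟨ρ, hρ, hFI⟩ := serY_FI hs
  have h00 : ‖(0 : ℂ)‖ < δ' := by simpa using hδ'
  obtain ⟨D, hD, hbD⟩ : ∃ D : ℝ, 0 < D ∧ ∀ n, ‖b n 0‖ ≤ D * D ^ n := by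
    refine ⟨max C 1, lt_max_of_lt_right one_pos, fun n => ?_⟩
    have h1 : (1 : ℝ) ≤ max C 1 := le_max_right _ _
    calc ‖b n 0‖ ≤ C ^ n := hs.b_bound n 0 h00
      _ ≤ (max C 1) ^ n := pow_le_pow_left₀ hs.C_pos.le (le_max_left _ _) n
      _ ≤ max C 1 * (max C 1) ^ n := le_mul_of_one_le_left (by positivity) h1
  have hbD' : ∀ n, ‖b (n + 1) 0‖ ≤ (D * (1 + D)) * (D * (1 + D)) ^ n := by
    intro n
    have h1 : D ≤ D * (1 + D) := le_mul_of_one_le_right hD.le (by linarith)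
    have h2 : D ^ n ≤ (D * (1 + D)) ^ n := pow_le_pow_left₀ hD.le h1 n
    calc ‖b (n + 1) 0‖ ≤ D * D ^ (n + 1) := hbD (n + 1)
      _ = (D * D) * D ^ n := by ring
      _ ≤ (D * (1 + D)) * (D * (1 + D)) ^ n :=
        mul_le_mul (by nlinarith) h2 (by positivity) (by positivity)
  have hD' : 0 < D * (1 + D) := by positivity
  have hQd := Zero.ser_diff (c := fun n => b n 0) hD hbD
  have hQd' := Zero.ser_diff (c := fun n => b (n + 1) 0) hD' hbD'
  have hb0 : b 0 0 = 0 := hs.b_zero 0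
  have hr : 0 < 1 / (2 * D) := by positivity
  have hr' : 0 < 1 / (2 * (D * (1 + D))) := by positivity
  refine ⟨fun η => bs b 0 η, ?_, ?_, ?_, ?_⟩
  · exact (hQd.analyticAt (ball_mem_nhds _ hr))
  · show bs b 0 0 = 0
    rw [bs, Zero.ser_zero (fun n => b n 0), hb0]
  · have he : (fun η => bs b 0 η) =ᶠ[𝓝 0] fun η => η * ∑' n, b (n + 1) 0 * η ^ n := by
      filter_upwards [ball_mem_nhds (0 : ℂ) hr] with η hη
      have hη' : ‖η‖ < 1 / (2 * D) := by simpa using hη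
      show ∑' n, b n 0 * η ^ n = _
      rw [(Zero.ser_summable (c := fun n => b n 0) hD hbD hη').tsum_eq_zero_add, hb0, zero_mul,
        zero_add, ← tsum_mul_left]
      refine tsum_congr fun n => ?_
      ring
    rw [he.deriv_eq]
    have h1 : DifferentiableAt ℂ (fun η : ℂ => ∑' n, b (n + 1) 0 * η ^ n) 0 :=
      hQd'.differentiableAt (ball_mem_nhds _ hr')
    have h2 := (hasDerivAt_id (0 : ℂ)).mul h1.hasDerivAt
    have h3 : deriv (fun η : ℂ => η * ∑' n, b (n + 1) 0 * η ^ n) 0 =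
        ∑' n, b (n + 1) 0 * (0 : ℂ) ^ n := by
      have h4 : HasDerivAt (fun η : ℂ => η * ∑' n, b (n + 1) 0 * η ^ n) _ 0 := h2
      have h5 := h4.deriv
      rw [h5]
      simp
    rw [h3, Zero.ser_zero (fun n => b (n + 1) 0)]
    show b 1 0 = _
    rw [hs.b_one 0 h00]
    simp only [cf, iteratedDeriv_succ, iteratedDeriv_zero]
    norm_num [Nat.factorial]
    ring
  · filter_upwards [ball_mem_nhds (0 : ℂ) hρ, ball_mem_nhds (0 : ℂ) hδ'] with η hη hη'
    have hη1 : ‖η‖ < ρ := by simpa using hη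
    have hη2 : ‖η‖ < δ := lt_of_lt_of_le (by simpa using hη') hle
    have h := hFI 0 η (by simpa using hρ) hη1
    have hA : AnalyticAt ℂ A (0, η) := hp.A_ana 0 η (by simpa using hp.δ_pos) hη2
    have hDy : Dy A (0, η) = deriv (fun η => A (0, η)) η := by
      have h1 : HasFDerivAt A (fderiv ℂ A (0, η)) (0, η) := hA.differentiableAt.hasFDerivAt
      have h2 : HasDerivAt (fun η : ℂ => ((0 : ℂ), η)) ((0 : ℂ), (1 : ℂ)) η :=
        (hasDerivAt_const η (0 : ℂ)).prodMk (hasDerivAt_id η)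
      exact (h1.comp_hasDerivAt η h2).deriv.symm
    unfold FIA at h
    rw [hDy] at h
    simpa using h

end Pool.Agent.MP_ae5b4e_an_FLEX
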