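import Mathlib
import Pool.Agent.Lib.MP_ae5b4e_an_FLEX.Defs
import Pool.Agent.Lib.MP_ae5b4e_an_LAT.NDCongr

/-!
# MP_ae5b4e_an, flexes of the curve: the recursion for the slope coefficients
-/

noncomputable section

namespace Pool.Agent.MP_ae5b4e_an_FLEX

open Filter Topology Set Metric
open Pool.Agent.MP_ae5b4e_an_ND (cc cf co Dx Dy Filt cc_congr cc_congr_on)

theorem slopeRecY_congr (P : ℕ → ℕ → ℂ → ℂ) (q q' : ℕ → ℂ → ℂ) (n : ℕ)
    (h : ∀ b < n, 1 ≤ b → q b = q' b) : slopeRecY P q n = slopeRecY P q' n := by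
  funext x
  unfold slopeRecY
  congr 1
  · congr 1
    apply Finset.sum_congr rfl
    intro j hj
    rw [Finset.mem_Ico] at hj
    rw [h (n - j) (by omega) (by omega)]
  · apply Finset.sum_congr rfl
    intro m hm
    rw [Finset.mem_Icc] at hm
    congr 1
    apply Finset.sum_congr rfl
    intro j hj
    rw [Finset.mem_range] at hj
    rw [cc_congr (fun _ => 1) q q' m (n + 1 - m - j) (fun b hb h1 => h b (by omega) h1)]

theorem slopeAppY_eq (P : ℕ → ℕ → ℂ → ℂ) (n k : ℕ) (h : k ≤ n) :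
    slopeAppY P n k = slopeY P k := by
  induction n with
  | zero =>
    have : k = 0 := by omega
    subst this; rfl
  | succ n ih =>
    rcases Nat.lt_or_ge n k with h1 | h1
    · have : k = n + 1 := by omega
      subst this; rfl
    · rw [← ih h1]
      show Function.update _ _ _ k = _
      rw [Function.update_of_ne (by omega)]

theorem slopeY_zero (P : ℕ → ℕ → ℂ → ℂ) : slopeY P 0 = fun _ => 0 := rfl

theorem slopeY_rec (P : ℕ → ℕ → ℂ → ℂ) (n : ℕ) (hn : 1 ≤ n) :
    slopeY P n = slopeRecY P (slopeY P) n := by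
  obtain ⟨k, rfl⟩ : ∃ k, n = k + 1 := ⟨n - 1, by omega⟩
  have : slopeY P (k + 1) = slopeRecY P (slopeAppY P k) (k + 1) := by
    show Function.update _ _ _ (k + 1) = _
    rw [Function.update_self]
  rw [this]
  apply slopeRecY_congr
  intro b hb _
  exact slopeAppY_eq P k b (by omega)

theorem slopeY_one (P : ℕ → ℕ → ℂ → ℂ) : slopeY P 1 = fun x => -P 1 1 x := by
  rw [slopeY_rec P 1 le_rfl]
  funext x
  unfold slopeRecY
  simp

theorem slopeRecY_congr_on {P P' : ℕ → ℕ → ℂ → ℂ} {q q' : ℕ → ℂ → ℂ} {U : Set ℂ} (hU : IsOpen U)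
    (hP : ∀ m j, Set.EqOn (P m j) (P' m j) U) (n : ℕ) (h : ∀ b < n, 1 ≤ b → Set.EqOn (q b) (q' b) U) :
    Set.EqOn (slopeRecY P q n) (slopeRecY P' q' n) U := by
  intro x hx
  unfold slopeRecY
  congr 1
  · congr 1
    · rw [hP 1 n hx]
    · apply Finset.sum_congr rfl
      intro j hj
      rw [Finset.mem_Ico] at hj
      rw [hP 1 j hx, h (n - j) (by omega) (by omega) hx]
  · apply Finset.sum_congr rfl
    intro m hm
    rw [Finset.mem_Icc] at hm
    congr 1
    apply Finset.sum_congr rfl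
    intro j hj
    rw [Finset.mem_range] at hj
    rw [hP m j hx, cc_congr_on hU (fun _ _ => rfl) m (n + 1 - m - j)
      (fun b hb h1 => h b (by omega) h1) hx]

theorem slopeY_unique_on {P : ℕ → ℕ → ℂ → ℂ} {q : ℕ → ℂ → ℂ} {U : Set ℂ} (hU : IsOpen U)
    (h : ∀ n, 1 ≤ n → Set.EqOn (q n) (slopeRecY P q n) U) (n : ℕ) (hn : 1 ≤ n) :
    Set.EqOn (q n) (slopeY P n) U := by
  induction n using Nat.strong_induction_on with
  | _ n ih =>
    intro x hx
    rw [h n hn hx, slopeY_rec P n hn]
    exact slopeRecY_congr_on hU (fun _ _ _ _ => rfl) n (fun b hb h1 => ih b hb h1) hx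

theorem slopeY_congr_on {P P' : ℕ → ℕ → ℂ → ℂ} {U : Set ℂ} (hU : IsOpen U)
    (hP : ∀ m j, Set.EqOn (P m j) (P' m j) U) (n : ℕ) : Set.EqOn (slopeY P n) (slopeY P' n) U := by
  induction n using Nat.strong_induction_on with
  | _ n ih =>
    rcases Nat.eq_zero_or_pos n with rfl | hn
    · intro x _; rfl
    · intro x hx
      rw [slopeY_rec P n hn, slopeY_rec P' n hn]
      exact slopeRecY_congr_on hU hP n (fun b hb _ => ih b hb) hx

theorem slopeY_mem {P : ℕ → ℕ → ℂ → ℂ} {W : ℕ → (ℂ → ℂ) → Prop} (h : Filt (fun _ => 1) W)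
    (hP : ∀ m j, 1 ≤ m → W j (P m j)) (n : ℕ) : W n (slopeY P n) := by
  induction n using Nat.strong_induction_on with
  | _ n ih =>
    rcases Nat.eq_zero_or_pos n with rfl | hn
    · exact h.zero 0
    rw [slopeY_rec P n hn]
    unfold slopeRecY
    apply h.add
    · have e : (fun x => -P 1 n x - ∑ j ∈ Finset.Ico 1 n, P 1 j x * slopeY P (n - j) x) =
        fun x => (-1) * P 1 n x + (-1) * ∑ j ∈ Finset.Ico 1 n, P 1 j x * slopeY P (n - j) x := by
        funext x; ring
      rw [e]
      apply h.add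
      · exact h.smul n _ _ (hP 1 n le_rfl)
      · apply h.smul
        apply h.sum
        intro j hj
        rw [Finset.mem_Ico] at hj
        exact Filt.cast (by omega) (h.mul j (n - j) _ _ (hP 1 j le_rfl) (ih (n - j) (by omega)))
    · apply h.sum
      intro m hm
      rw [Finset.mem_Icc] at hm
      apply h.smul
      apply h.sum
      intro j hj
      rw [Finset.mem_range] at hj
      have h1 := (h.cc_mem' (slopeY P) m (n + 1 - m - j)
        (fun b hb h1 => ih b (by omega))).2 (n - m - j) (by omega)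
      exact Filt.cast (by omega) (h.mul j _ _ _ (hP m j (by omega)) h1)

end Pool.Agent.MP_ae5b4e_an_FLEX
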