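import Pool.Agent.Lib.MP_ae5b4e_an_FLEX.Defs
import Pool.Agent.Lib.MP_ae5b4e_an_FLEX.SlopeY

/-!
# MP_ae5b4e_an, flexes of the curve: weights at a place
-/

noncomputable section

namespace Pool.Agent.MP_ae5b4e_an_FLEX

open Filter Topology Set Metric
open Pool.Agent.MP_ae5b4e_an_ND (cc cf co Dx Dy Filt)

namespace WtY

/-- the weight classes at a place -/
def W (δ : ℝ) (n : ℕ) (f : ℂ → ℂ) : Prop :=
  ∃ φ : ℂ → ℂ, DifferentiableOn ℂ φ (ball 0 δ) ∧ ∀ w, w ≠ 0 → ‖w‖ < δ → f w = φ w / w ^ n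

theorem mem_ball {δ : ℝ} {w : ℂ} (hw : ‖w‖ < δ) : w ∈ ball (0 : ℂ) δ := by
  rwa [Metric.mem_ball, dist_zero_right]

theorem filt (δ : ℝ) : Filt (fun _ => 1) (W δ) where
  zero n := ⟨fun _ => 0, differentiableOn_const 0, fun w _ _ => by simp⟩
  one := ⟨fun _ => 1, differentiableOn_const 1, fun w _ _ => by simp⟩
  add n f g hf hg := by
    obtain ⟨φ, a1, a2⟩ := hf
    obtain ⟨ψ, b1, b2⟩ := hg
    refine ⟨fun w => φ w + ψ w, a1.add b1, fun w w0 w1 => ?_⟩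
    show f w + g w = (φ w + ψ w) / w ^ n
    rw [a2 w w0 w1, b2 w w0 w1, add_div]
  smul n c f hf := by
    obtain ⟨φ, a1, a2⟩ := hf
    refine ⟨fun w => c * φ w, a1.const_mul c, fun w w0 w1 => ?_⟩
    show c * f w = c * φ w / w ^ n
    rw [a2 w w0 w1, mul_div_assoc]
  mul m n f g hf hg := by
    obtain ⟨φ, a1, a2⟩ := hf
    obtain ⟨ψ, b1, b2⟩ := hg
    refine ⟨fun w => φ w * ψ w, a1.mul b1, fun w w0 w1 => ?_⟩
    show f w * g w = φ w * ψ w / w ^ (m + n)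
    rw [a2 w w0 w1, b2 w w0 w1, pow_add, div_mul_div_comm]
  der n f hf := by
    obtain ⟨φ, a1, a2⟩ := hf
    refine ⟨fun w => w * deriv φ w - (n : ℂ) * φ w,
      (differentiableOn_id.mul (a1.deriv isOpen_ball)).sub (a1.const_mul _),
      fun w w0 w1 => ?_⟩
    have hm : ball (0 : ℂ) δ ∈ 𝓝 w := isOpen_ball.mem_nhds (mem_ball w1)
    have e1 : deriv f w = deriv (fun u => φ u / u ^ n) w := by
      apply Filter.EventuallyEq.deriv_eq
      have hm' : {u : ℂ | u ≠ 0} ∈ 𝓝 w := isOpen_ne.mem_nhds w0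
      filter_upwards [hm, hm'] with u hu hu'
      exact a2 u hu' (by rwa [Metric.mem_ball, dist_zero_right] at hu)
    have d1 : HasDerivAt (fun u => φ u / u ^ n)
        ((deriv φ w * w ^ n - φ w * ((n : ℂ) * w ^ (n - 1))) / (w ^ n) ^ 2) w :=
      (a1.differentiableAt hm).hasDerivAt.div (hasDerivAt_pow _ w) (pow_ne_zero _ w0)
    show 1 * deriv f w = (w * deriv φ w - (n : ℂ) * φ w) / w ^ (n + 1)
    rw [e1, d1.deriv, one_mul]
    have e2 : w * ((n : ℂ) * w ^ (n - 1)) = (n : ℂ) * w ^ n := by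
      rcases Nat.eq_zero_or_pos n with h0 | h0
      · rw [h0]; simp
      · obtain ⟨k, hk⟩ : ∃ k, n = k + 1 := ⟨n - 1, by omega⟩
        rw [hk, Nat.add_sub_cancel]; ring
    have hp1 : w ^ n ≠ 0 := pow_ne_zero _ w0
    rw [div_eq_div_iff (pow_ne_zero _ hp1) (pow_ne_zero _ w0)]
    linear_combination (-φ w * w ^ n) * e2

theorem iteratedDeriv_scale (c : ℂ) (f : ℂ → ℂ) (n : ℕ) :
    iteratedDeriv n (fun x => f (c * x)) = fun x => c ^ n * iteratedDeriv n f (c * x) := by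
  induction n with
  | zero => funext x; simp
  | succ n ih =>
    funext x
    rw [iteratedDeriv_succ, ih, deriv_const_mul_field]
    have h1 := deriv_comp_mul_left c (iteratedDeriv n f) x
    rw [h1, iteratedDeriv_succ, smul_eq_mul, pow_succ]
    ring

theorem cf_scale (c : ℂ) (f : ℂ → ℂ) (n : ℕ) : cf (fun x => f (c * x)) n = c ^ n * cf f n := by
  unfold cf
  rw [iteratedDeriv_scale]
  simp only [mul_zero]
  rw [mul_div_assoc]

theorem diff_cf {A : ℂ × ℂ → ℂ} {δ : ℝ} (hδ : 0 < δ)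
    (hA : ∀ x η : ℂ, ‖x‖ < δ → ‖η‖ < δ → AnalyticAt ℂ A (x, η)) (n : ℕ) :
    DifferentiableOn ℂ (fun w => cf (fun η => A (w, η)) n) (ball 0 δ) := by
  have hU : IsOpen {p : ℂ × ℂ | ‖p.1‖ < δ ∧ ‖p.2‖ < δ} := by
    apply IsOpen.and
    · exact isOpen_lt (by fun_prop) continuous_const
    · exact isOpen_lt (by fun_prop) continuous_const
  have h1 : AnalyticOnNhd ℂ A {p : ℂ × ℂ | ‖p.1‖ < δ ∧ ‖p.2‖ < δ} := by
    rintro ⟨x, η⟩ ⟨hx, hη⟩
    exact hA x η hx hη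
  refine (Pool.Agent.MP_ae5b4e_an_ND.co_differentiableOn hU h1 n).mono ?_
  intro w hw
  rw [Metric.mem_ball, dist_zero_right] at hw
  exact ⟨hw, by simpa using hδ⟩

theorem pc_eq {Yf A : ℂ × ℂ → ℂ} {δ : ℝ} (hp : PlaceY Yf A δ) (m j : ℕ) {w : ℂ} (w0 : w ≠ 0)
    (w1 : ‖w‖ < δ) : Pc Yf m j w = cf (fun η => A (w, η) ^ m) (m + j) / w ^ j := by
  unfold Pc
  have hc : Tendsto (fun y : ℂ => ((w, y) : ℂ × ℂ)) (𝓝 0) (𝓝 (w, 0)) := by
    have : Continuous (fun y : ℂ => ((w, y) : ℂ × ℂ)) := by fun_prop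
    exact this.tendsto 0
  have e1 : (fun y => Yf (w, y) ^ m) =ᶠ[𝓝 0] fun y => w ^ m * A (w, w⁻¹ * y) ^ m := by
    filter_upwards [hc.eventually (hp.eq w w0 w1)] with y hy
    rw [hy, mul_pow, div_eq_inv_mul]
  have e2 : cf (fun y => A (w, w⁻¹ * y) ^ m) (m + j) =
      w⁻¹ ^ (m + j) * cf (fun η => A (w, η) ^ m) (m + j) :=
    cf_scale w⁻¹ (fun η => A (w, η) ^ m) (m + j)
  rw [Pool.Agent.MP_ae5b4e_an_ND.cf_congr e1, Pool.Agent.MP_ae5b4e_an_ND.cf_const_mul, e2,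
    pow_add, inv_pow, inv_pow]
  have h1 : w ^ m ≠ 0 := pow_ne_zero _ w0
  have h2 : w ^ j ≠ 0 := pow_ne_zero _ w0
  field_simp

theorem mem_pc {Yf A : ℂ × ℂ → ℂ} {δ : ℝ} (hp : PlaceY Yf A δ) (m j : ℕ) :
    W δ j (Pc Yf m j) :=
  ⟨fun w => cf (fun η => A (w, η) ^ m) (m + j),
    diff_cf (A := fun p => A p ^ m) hp.δ_pos (fun x η hx hη => (hp.A_ana x η hx hη).pow m) (m + j),
    fun _ w0 w1 => pc_eq hp m j w0 w1⟩

end WtY

/-- weights at a place -/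
theorem slopeY_place {Yf A : ℂ × ℂ → ℂ} {δ : ℝ} (hp : PlaceY Yf A δ) :
    ∃ b : ℕ → ℂ → ℂ, (∀ n, DifferentiableOn ℂ (b n) (ball 0 δ)) ∧ (∀ w, b 0 w = 0) ∧
      (∀ w, ‖w‖ < δ → b 1 w = -cf (fun η => A (w, η)) 2) ∧
      (∀ n w, w ≠ 0 → ‖w‖ < δ → slopeY (Pc Yf) n w = b n w / w ^ n) := by
  have hW : ∀ n, ∃ φ : ℂ → ℂ, ((n = 0 → φ = fun _ => 0) ∧
      (n = 1 → φ = fun w => -cf (fun η => A (w, η)) 2)) ∧
      DifferentiableOn ℂ φ (ball 0 δ) ∧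
      (∀ w, w ≠ 0 → ‖w‖ < δ → slopeY (Pc Yf) n w = φ w / w ^ n) := by
    intro n
    rcases Nat.eq_zero_or_pos n with rfl | hn
    · exact ⟨fun _ => 0, ⟨fun _ => rfl, fun h => by omega⟩, differentiableOn_const 0,
        fun w _ _ => by rw [slopeY_zero]; simp⟩
    · rcases Nat.eq_or_lt_of_le (Nat.succ_le_of_lt hn) with h1 | h1
      · have hn1 : n = 1 := by omega
        subst hn1
        refine ⟨fun w => -cf (fun η => A (w, η)) 2, ⟨fun h => by omega, fun _ => rfl⟩,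
          (WtY.diff_cf hp.δ_pos hp.A_ana 2).neg, fun w w0 w1 => ?_⟩
        rw [slopeY_one]
        show -Pc Yf 1 1 w = _
        rw [WtY.pc_eq hp 1 1 w0 w1]
        simp only [pow_one, neg_div]
      · obtain ⟨φ, a1, a2⟩ := slopeY_mem (WtY.filt δ) (fun m j _ => WtY.mem_pc hp m j) n
        exact ⟨φ, ⟨fun h => by omega, fun h => by omega⟩, a1, a2⟩
  choose b hb using hW
  refine ⟨b, fun n => (hb n).2.1, fun w => ?_, fun w _ => ?_, fun n => (hb n).2.2⟩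
  · rw [(hb 0).1.1 rfl]
  · rw [(hb 1).1.2 rfl]

end Pool.Agent.MP_ae5b4e_an_FLEX
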