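import Pool.Agent.Lib.MP_ae5b4e_an_FLEX.BridgeY
import Pool.Agent.Lib.MP_ae5b4e_an_FLEX.WtY

/-!
# MP_ae5b4e_an, flexes of the curve: uniform bounds at a place

Local bounds near every point of the punctured disc and the maximum principle.
-/

noncomputable section

namespace Pool.Agent.MP_ae5b4e_an_FLEX

open Filter Topology Set Metric
open Pool.Agent.MP_ae5b4e_an_ND (cc cf co Dx Dy Filt)

namespace BdY

/-- a place restricts to a smaller disc -/
theorem mono {Yf A : ℂ × ℂ → ℂ} {δ δ' : ℝ} (hp : PlaceY Yf A δ) (h0 : 0 < δ') (h : δ' ≤ δ) :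
    PlaceY Yf A δ' where
  δ_pos := h0
  A_ana x η hx hη := hp.A_ana x η (hx.trans_le h) (hη.trans_le h)
  A_zero x hx := hp.A_zero x (hx.trans_le h)
  A_der x hx := hp.A_der x (hx.trans_le h)
  good x hx hx' := hp.good x hx (hx'.trans_le h)
  eq x hx hx' := hp.eq x hx (hx'.trans_le h)

end BdY

/-- local bounds and the maximum principle -/
theorem placeY_series {Yf A : ℂ × ℂ → ℂ} {δ : ℝ} (hp : PlaceY Yf A δ) :
    ∃ δ' > 0, δ' ≤ δ ∧ ∃ C b, SerY Yf A δ' C b := by
  have hδ := hp.δ_pos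
  obtain ⟨b, hbd, hb0, hb1, hbe⟩ := slopeY_place hp
  set δ' : ℝ := δ / 2 with hδ'
  have hδ'pos : 0 < δ' := by positivity
  have hδ'lt : δ' < δ := by rw [hδ']; linarith
  -- a uniform bound on the circle
  have hcpt : IsCompact (Metric.sphere (0 : ℂ) δ') := isCompact_sphere _ _
  have hunif : ∃ C : ℝ, 0 < C ∧ ∀ w ∈ Metric.sphere (0 : ℂ) δ', ∀ n,
      ‖slopeY (Pc Yf) n w‖ ≤ C ^ n := by
    refine hcpt.induction_on (p := fun s => ∃ C : ℝ, 0 < C ∧ ∀ w ∈ s, ∀ n,
      ‖slopeY (Pc Yf) n w‖ ≤ C ^ n) ?_ ?_ ?_ ?_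
    · exact ⟨1, one_pos, fun w hw => absurd hw (Set.notMem_empty w)⟩
    · rintro s t hst ⟨C, hC, h⟩
      exact ⟨C, hC, fun w hw => h w (hst hw)⟩
    · rintro s t ⟨C, hC, h⟩ ⟨D, hD, h'⟩
      refine ⟨max C D, lt_max_of_lt_left hC, ?_⟩
      rintro w (hw | hw) n
      · exact (h w hw n).trans (pow_le_pow_left₀ hC.le (le_max_left _ _) n)
      · exact (h' w hw n).trans (pow_le_pow_left₀ hD.le (le_max_right _ _) n)
    · intro w₁ hw₁
      have h1 : ‖w₁‖ = δ' := by simpa using hw₁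
      have h2 : w₁ ≠ 0 := by
        intro h0
        rw [h0, norm_zero] at h1
        linarith
      obtain ⟨ρ, hρ, C, hC0, -, -, hC, -⟩ := goodY_slope (hp.good w₁ h2 (h1 ▸ hδ'lt))
      refine ⟨Metric.ball w₁ ρ, mem_nhdsWithin_of_mem_nhds (Metric.ball_mem_nhds w₁ hρ),
        C, hC0, ?_⟩
      intro w hw n
      have hw' : ‖w - w₁‖ < ρ := by
        rw [← dist_eq_norm]; exact hw
      exact hC n w hw'
  obtain ⟨C, hC, hCb⟩ := hunif
  refine ⟨δ', hδ'pos, hδ'lt.le, C * δ', b, ?_⟩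
  refine ⟨BdY.mono hp hδ'pos hδ'lt.le, by positivity, ?_, hb0, ?_, ?_, ?_⟩
  · intro n
    exact (hbd n).mono (Metric.ball_subset_ball hδ'lt.le)
  · intro w hwn
    exact hb1 w (hwn.trans hδ'lt)
  · intro n w hw hwn
    exact hbe n w hw (hwn.trans hδ'lt)
  · intro n w hwn
    have hcl : closure (Metric.ball (0 : ℂ) δ') ⊆ Metric.ball 0 δ := by
      refine Metric.closure_ball_subset_closedBall.trans ?_
      exact Metric.closedBall_subset_ball hδ'lt
    have hdc : DiffContOnCl ℂ (b n) (Metric.ball 0 δ') :=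
      DifferentiableOn.diffContOnCl ((hbd n).mono hcl)
    refine Complex.norm_le_of_forall_mem_frontier_norm_le Metric.isBounded_ball hdc ?_
      (subset_closure (by simpa using hwn))
    intro z hz
    have hz' : z ∈ Metric.sphere (0 : ℂ) δ' := Metric.frontier_ball_subset_sphere hz
    have h1 : ‖z‖ = δ' := by simpa using hz'
    have h2 : z ≠ 0 := by
      intro h0
      rw [h0, norm_zero] at h1
      linarith
    have h3 := hbe n z h2 (h1 ▸ hδ'lt)
    have h4 := hCb z hz' n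
    have hzp : z ^ n ≠ 0 := pow_ne_zero _ h2
    have h5 : b n z = slopeY (Pc Yf) n z * z ^ n := by
      rw [h3]; field_simp
    rw [h5, norm_mul, norm_pow, h1, mul_pow]
    exact mul_le_mul_of_nonneg_right h4 (by positivity)

end Pool.Agent.MP_ae5b4e_an_FLEX
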