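import Pool.Agent.Lib.MP_ae5b4e_an_FLEX.TayY
import Pool.Agent.Lib.MP_ae5b4e_an_LAT.NDBridge

/-!
# From the analytic first integral to the slope series (problem `MP_ae5b4e_an`)
-/

set_option autoImplicit false
noncomputable section

namespace Pool.Agent.MP_ae5b4e_an_FLEX

open Filter Topology Set Metric
open Pool.Agent.MP_ae5b4e_an_ND (cc cf co Dx Dy Filt)

namespace BridgeY

open Pool.Agent.MP_ae5b4e_an_ND (qS Dx_analyticAt Dy_analyticAt Dy_eq_deriv Dx_eq_deriv exists_R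
  slice_analytic cf_zero co_differentiableOn)

/-- The quotient is analytic on the ball. -/
theorem qS_analytic {Yf : ℂ × ℂ → ℂ} {x₀ : ℂ} {S R : ℂ × ℂ → ℂ} {ρ : ℝ}
    (h : BrY Yf x₀ S R ρ) : AnalyticOnNhd ℂ (qS S) (ball ((x₀, 0) : ℂ × ℂ) ρ) := by
  intro p hp
  exact (Dx_analyticAt (h.hS p hp)).neg.div (Dy_analyticAt (h.hS p hp)) (h.hSy p hp)

theorem mem_ball_axis {x₀ : ℂ} {ρ : ℝ} (hρ : 0 < ρ) {x : ℂ} (hx : ‖x - x₀‖ < ρ) :
    ((x, 0) : ℂ × ℂ) ∈ ball ((x₀, 0) : ℂ × ℂ) ρ := by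
  rw [← ball_prod_same]
  exact ⟨by rw [Metric.mem_ball, dist_eq_norm]; exact hx, Metric.mem_ball_self hρ⟩

theorem qS_zero {Yf : ℂ × ℂ → ℂ} {x₀ : ℂ} {S R : ℂ × ℂ → ℂ} {ρ : ℝ}
    (h : BrY Yf x₀ S R ρ) {x : ℂ} (hx : ‖x - x₀‖ < ρ) : qS S (x, 0) = 0 := by
  unfold qS
  rw [Dx_eq_deriv (h.hS _ (mem_ball_axis h.ρ_pos hx)).differentiableAt]
  have e : (fun t => S (t, 0)) =ᶠ[𝓝 x] fun _ => 0 := by
    have : IsOpen {t : ℂ | ‖t - x₀‖ < ρ} := isOpen_lt (by fun_prop) (by fun_prop)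
    filter_upwards [this.mem_nhds hx] with t ht
    exact h.hS0 t ht
  rw [e.deriv_eq]
  simp

theorem tendsto_TY {Yf : ℂ × ℂ → ℂ} {x₀ : ℂ} (ha : ContinuousAt Yf (x₀, 0))
    (h0 : Yf (x₀, 0) = 0) : Tendsto (TY Yf) (𝓝 ((x₀, 0) : ℂ × ℂ)) (𝓝 (x₀, 0)) := by
  have h1 : ContinuousAt (TY Yf) (x₀, 0) := (continuousAt_fst.sub ha).prodMk ha
  have h2 := h1.tendsto
  have h3 : TY Yf (x₀, 0) = (x₀, 0) := by simp [TY, h0]
  rwa [h3] at h2

theorem fderiv_lin (T : ℂ × ℂ → ℂ) (p : ℂ × ℂ) (u w : ℂ) :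
    fderiv ℂ T p (u, w) = u * Dx T p + w * Dy T p := by
  have : ((u, w) : ℂ × ℂ) = u • (1, 0) + w • (0, 1) := by simp
  rw [this, map_add, map_smul, map_smul]
  rfl

/-- From `GoodY` to the data on a ball, together with the invariance of the leaves. -/
theorem exists_brY {Yf : ℂ × ℂ → ℂ} {x₀ : ℂ} (h : GoodY Yf x₀) :
    ∃ S R : ℂ × ℂ → ℂ, ∃ ρ, BrY Yf x₀ S R ρ ∧
      ∀ᶠ p in 𝓝 ((x₀, 0) : ℂ × ℂ),
        qS S (TY Yf p) * (1 - (Dx Yf p + qS S p * Dy Yf p)) =
          Dx Yf p + qS S p * Dy Yf p := by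
  obtain ⟨hK, S, hS, h0, hd, hT⟩ := h
  have h00 : S (x₀, 0) = 0 := h0.self_of_nhds
  have hY00 : Yf (x₀, 0) = 0 := hK.zero.self_of_nhds
  obtain ⟨R, hR, hRS⟩ := exists_R hS h00 hd
  have hfst : Tendsto (fun p : ℂ × ℂ => p.1) (𝓝 ((x₀, 0) : ℂ × ℂ)) (𝓝 x₀) :=
    continuous_fst.tendsto' _ _ rfl
  have e1 := hK.ana.eventually_analyticAt
  have e1z := hfst.eventually hK.zero
  have e1d := hfst.eventually hK.der
  have e2 := hS.eventually_analyticAt
  have e3 := hfst.eventually h0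
  have hDy0 : Dy S (x₀, 0) ≠ 0 := by
    rw [Dy_eq_deriv hS.differentiableAt]; exact hd
  have e4 : ∀ᶠ p in 𝓝 ((x₀, 0) : ℂ × ℂ), Dy S p ≠ 0 :=
    (Dy_analyticAt hS).continuousAt.eventually_ne hDy0
  have hTYc := tendsto_TY hK.ana.continuousAt hY00
  have hSc : Tendsto (fun p : ℂ × ℂ => ((p.1, S p) : ℂ × ℂ)) (𝓝 (x₀, 0)) (𝓝 (x₀, 0)) := by
    have h2 : ContinuousAt (fun p : ℂ × ℂ => ((p.1, S p) : ℂ × ℂ)) (x₀, 0) :=
      continuousAt_fst.prodMk hS.continuousAt
    have h3 := h2.tendsto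
    simp only [h00] at h3
    exact h3
  have e7 := hSc.eventually hR.eventually_analyticAt
  have e9 := hTYc.eventually hRS
  obtain ⟨ρ, hρ, hU⟩ := Metric.eventually_nhds_iff_ball.1
    (e1.and (e1z.and (e1d.and (e2.and (e3.and (e4.and (hT.and (e7.and (hRS.and e9)))))))))
  refine ⟨S, R, ρ, ⟨hρ, ?_, ?_, ?_, ?_, ?_, ?_, ?_, ?_, ?_⟩, ?_⟩
  · exact fun p hp => (hU p hp).1
  · intro x hx
    exact (hU _ (mem_ball_axis hρ hx)).2.1
  · intro x hx
    exact (hU _ (mem_ball_axis hρ hx)).2.2.1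
  · exact fun p hp => (hU p hp).2.2.2.1
  · intro x hx
    exact (hU _ (mem_ball_axis hρ hx)).2.2.2.2.1
  · exact fun p hp => (hU p hp).2.2.2.2.2.1
  · exact fun p hp => (hU p hp).2.2.2.2.2.2.2.1
  · exact fun p hp => (hU p hp).2.2.2.2.2.2.2.2.1
  · intro p hp
    have h1 := (hU p hp).2.2.2.2.2.2.2.2.2
    have h2 := (hU p hp).2.2.2.2.2.2.1
    rw [h2] at h1
    exact h1
  -- the invariance of the leaves
  have e10 := hTYc.eventually (e2.and e4)
  filter_upwards [e1, e2, e4, hT.eventually_nhds, e10] with p p1 p2 p4 p6 p7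
  obtain ⟨x, y⟩ := p
  -- derivative along the direction `(1, q)`
  set q := qS S (x, y) with hq
  set W := Dx Yf (x, y) + q * Dy Yf (x, y) with hW
  have c1 : HasDerivAt (fun t : ℂ => ((x + t, y + q * t) : ℂ × ℂ)) (1, q) 0 := by
    have h1 : HasDerivAt (fun t : ℂ => x + t) 1 0 := by
      simpa using (hasDerivAt_id (0 : ℂ)).const_add x
    have h2 : HasDerivAt (fun t : ℂ => y + q * t) q 0 := by
      simpa using ((hasDerivAt_id (0 : ℂ)).const_mul q).const_add y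
    exact h1.prodMk h2
  have c1c : Tendsto (fun t : ℂ => ((x + t, y + q * t) : ℂ × ℂ)) (𝓝 0) (𝓝 (x, y)) := by
    have := c1.continuousAt.tendsto
    simpa using this
  -- the right hand side
  have d1 : HasDerivAt (fun t : ℂ => S (x + t, y + q * t)) 0 0 := by
    have h1 : HasFDerivAt S (fderiv ℂ S (x, y)) ((fun t : ℂ => ((x + t, y + q * t) : ℂ × ℂ)) 0) := by
      simp only [add_zero, mul_zero]
      exact p2.differentiableAt.hasFDerivAt
    have h2 := h1.comp_hasDerivAt (0 : ℂ) c1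
    rw [fderiv_lin] at h2
    refine h2.congr_deriv ?_
    rw [hq]
    unfold qS
    field_simp
    ring
  -- the coordinate `y'`
  have c2 : HasDerivAt (fun t : ℂ => Yf (x + t, y + q * t)) W 0 := by
    have h1 : HasFDerivAt Yf (fderiv ℂ Yf (x, y))
        ((fun t : ℂ => ((x + t, y + q * t) : ℂ × ℂ)) 0) := by
      simp only [add_zero, mul_zero]
      exact p1.differentiableAt.hasFDerivAt
    have h2 := h1.comp_hasDerivAt (0 : ℂ) c1
    rw [fderiv_lin] at h2
    refine h2.congr_deriv ?_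
    rw [hW, one_mul]
  have c3 : HasDerivAt (fun t : ℂ => TY Yf (x + t, y + q * t)) (1 - W, W) 0 := by
    have h1 : HasDerivAt (fun t : ℂ => x + t) 1 0 := by
      simpa using (hasDerivAt_id (0 : ℂ)).const_add x
    exact (h1.sub c2).prodMk c2
  have d2 : HasDerivAt (fun t : ℂ => S (TY Yf (x + t, y + q * t)))
      ((1 - W) * Dx S (TY Yf (x, y)) + W * Dy S (TY Yf (x, y))) 0 := by
    have h1 : HasFDerivAt S (fderiv ℂ S (TY Yf (x, y)))
        ((fun t : ℂ => TY Yf (x + t, y + q * t)) 0) := by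
      simp only [add_zero, mul_zero]
      exact p7.1.differentiableAt.hasFDerivAt
    have h2 := h1.comp_hasDerivAt (0 : ℂ) c3
    rw [fderiv_lin] at h2
    exact h2
  have d3 : (fun t : ℂ => S (TY Yf (x + t, y + q * t))) =ᶠ[𝓝 0] fun t => S (x + t, y + q * t) :=
    c1c.eventually p6
  have d4 := (d2.congr_of_eventuallyEq d3.symm).unique d1
  have d5 : Dy S (TY Yf (x, y)) ≠ 0 := p7.2
  have d6 : qS S (TY Yf (x, y)) = -Dx S (TY Yf (x, y)) / Dy S (TY Yf (x, y)) := rfl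
  rw [d6]
  field_simp
  linear_combination (-1 : ℂ) * d4

end BridgeY

open Pool.Agent.MP_ae5b4e_an_ND (qS slice_analytic cf_zero co_differentiableOn) in
/-- **BRIDGE.** The Taylor coefficients of the slope of the level curves of the first integral are
`slopeY (Pc Yf)`; bounds and the invariance of the leaves. -/
theorem goodY_slope {Yf : ℂ × ℂ → ℂ} {x₀ : ℂ} (h : GoodY Yf x₀) :
    ∃ r > 0, ∃ C > 0, C * r < 1 ∧
      (∀ n, DifferentiableOn ℂ (slopeY (Pc Yf) n) (ball x₀ r)) ∧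
      (∀ n, ∀ x, ‖x - x₀‖ < r → ‖slopeY (Pc Yf) n x‖ ≤ C ^ n) ∧
      ∃ ρ > 0, ∀ x y, ‖x - x₀‖ < ρ → ‖y‖ < ρ →
        AnalyticAt ℂ Yf (x, y) ∧ ‖x - x₀‖ < r ∧ ‖y‖ < r ∧ ‖x - Yf (x, y) - x₀‖ < r ∧
          ‖Yf (x, y)‖ < r ∧ FIY Yf x y := by
  obtain ⟨S, R, ρ, hB, hFI⟩ := BridgeY.exists_brY h
  have hρ := hB.ρ_pos
  have hball : IsOpen (Metric.ball ((x₀, 0) : ℂ × ℂ) ρ) := Metric.isOpen_ball
  have hqa := BridgeY.qS_analytic hB
  have hcs : ∀ n, ∀ x : ℂ, ‖x - x₀‖ < ρ → co (qS S) n x = slopeY (Pc Yf) n x :=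
    fun n x hx => hB.co_eq_slopeY n hx
  -- a bound for the slope
  obtain ⟨M, hM1, hM⟩ : ∃ M : ℝ, 1 ≤ M ∧
      ∀ p ∈ Metric.closedBall ((x₀, 0) : ℂ × ℂ) (ρ / 2), ‖qS S p‖ ≤ M := by
    have hc : ContinuousOn (qS S) (Metric.closedBall ((x₀, 0) : ℂ × ℂ) (ρ / 2)) := fun p hp =>
      (hqa p (Metric.closedBall_subset_ball (by linarith) hp)).continuousAt.continuousWithinAt
    obtain ⟨M, hM⟩ := (isCompact_closedBall _ _).exists_bound_of_continuousOn hc
    exact ⟨max M 1, le_max_right _ _, fun p hp => (hM p hp).trans (le_max_left _ _)⟩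
  have hslice : ∀ x : ℂ, ‖x - x₀‖ < ρ → DifferentiableOn ℂ (fun y => qS S (x, y))
      (Metric.ball 0 ρ) := by
    intro x hx y hy
    have : AnalyticAt ℂ (qS S) (x, y) := hqa _ (by
      rw [← ball_prod_same]
      exact ⟨by rw [Metric.mem_ball, dist_eq_norm]; exact hx, hy⟩)
    exact (slice_analytic this).differentiableAt.differentiableWithinAt
  set C : ℝ := 2 * M / ρ with hC
  have hCpos : 0 < C := by positivity
  have hco : ∀ n, ∀ x : ℂ, ‖x - x₀‖ < ρ / 2 → ‖co (qS S) n x‖ ≤ C ^ n := by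
    intro n x hx
    rcases Nat.eq_zero_or_pos n with rfl | hn
    · have : co (qS S) 0 x = 0 := by
        unfold co
        rw [cf_zero]
        exact BridgeY.qS_zero hB (by linarith)
      rw [this]
      simp
    have hcl : DiffContOnCl ℂ (fun y => qS S (x, y)) (Metric.ball 0 (ρ / 2)) := by
      apply DifferentiableOn.diffContOnCl
      rw [closure_ball (0 : ℂ) (by positivity)]
      exact (hslice x (by linarith)).mono (Metric.closedBall_subset_ball (by linarith))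
    have h1 := Complex.norm_iteratedDeriv_le_of_forall_mem_sphere_norm_le n
      (show 0 < ρ / 2 by positivity) hcl (C := M) (by
        intro y hy
        apply hM
        rw [← closedBall_prod_same]
        exact ⟨by rw [Metric.mem_closedBall, dist_eq_norm]; exact hx.le,
          Metric.sphere_subset_closedBall hy⟩)
    have hf : (0 : ℝ) < n.factorial := by exact_mod_cast n.factorial_pos
    unfold co cf
    rw [norm_div, Complex.norm_natCast, div_le_iff₀ hf]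
    refine h1.trans ?_
    have h2 : M ≤ M ^ n := le_self_pow₀ hM1 (by omega)
    have h3 : M / (ρ / 2) ^ n ≤ C ^ n := by
      have : C ^ n = M ^ n / (ρ / 2) ^ n := by
        rw [← div_pow, hC]
        congr 1
        field_simp
      rw [this]
      gcongr
    calc (n.factorial : ℝ) * M / (ρ / 2) ^ n = n.factorial * (M / (ρ / 2) ^ n) := by ring
      _ ≤ n.factorial * C ^ n := by gcongr
      _ = C ^ n * n.factorial := by ring
  -- the radius
  obtain ⟨r, hr, hrρ, hCr⟩ : ∃ r > 0, r ≤ ρ / 2 ∧ C * r < 1 := by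
    refine ⟨min (ρ / 2) (1 / (2 * C)), by positivity, min_le_left _ _, ?_⟩
    calc C * min (ρ / 2) (1 / (2 * C)) ≤ C * (1 / (2 * C)) := by
          gcongr
          exact min_le_right _ _
      _ = 1 / 2 := by field_simp
      _ < 1 := by norm_num
  have hsum : ∀ x y : ℂ, ‖x - x₀‖ < r → ‖y‖ < r → sY Yf x y = qS S (x, y) := by
    intro x y hx hy
    have hz : y ∈ Metric.ball (0 : ℂ) ρ := by
      rw [Metric.mem_ball, dist_eq_norm, sub_zero]
      linarith
    have h1 := Complex.taylorSeries_eq_on_ball' hz (hslice x (by linarith))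
    rw [← h1]
    unfold sY
    apply tsum_congr
    intro n
    rw [← hcs n x (by linarith), sub_zero]
    unfold co cf
    ring
  refine ⟨r, hr, C, hCpos, hCr, ?_, ?_, ?_⟩
  · intro n
    have h1 : DifferentiableOn ℂ (co (qS S) n) (Metric.ball x₀ r) := by
      refine (co_differentiableOn hball hqa n).mono ?_
      intro x hx
      rw [Metric.mem_ball, dist_eq_norm] at hx
      exact BridgeY.mem_ball_axis hρ (by linarith)
    refine h1.congr ?_
    intro x hx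
    rw [Metric.mem_ball, dist_eq_norm] at hx
    exact (hcs n x (by linarith)).symm
  · intro n x hx
    rw [← hcs n x (by linarith)]
    exact hco n x (by linarith)
  · have hY00 : Yf (x₀, 0) = 0 := h.1.zero.self_of_nhds
    have hTYc := BridgeY.tendsto_TY h.1.ana.continuousAt hY00
    have e5 := h.1.ana.eventually_analyticAt
    have e6 := hTYc.eventually (Metric.ball_mem_nhds ((x₀, 0) : ℂ × ℂ) hr)
    have e7 := Metric.ball_mem_nhds ((x₀, 0) : ℂ × ℂ) hr
    obtain ⟨ρ', hρ', hU⟩ := Metric.eventually_nhds_iff_ball.1 (hFI.and (e5.and (e6.and e7)))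
    refine ⟨ρ', hρ', ?_⟩
    intro x y hx hy
    have hm : ((x, y) : ℂ × ℂ) ∈ Metric.ball ((x₀, 0) : ℂ × ℂ) ρ' := by
      rw [← ball_prod_same]
      exact ⟨by rw [Metric.mem_ball, dist_eq_norm]; exact hx,
        by rw [Metric.mem_ball, dist_eq_norm, sub_zero]; exact hy⟩
    obtain ⟨u1, u2, u3, u4⟩ := hU _ hm
    have u3' : ((x - Yf (x, y), Yf (x, y)) : ℂ × ℂ) ∈ Metric.ball ((x₀, 0) : ℂ × ℂ) r := u3
    rw [← ball_prod_same] at u3'
    have u4' : ((x, y) : ℂ × ℂ) ∈ Metric.ball ((x₀, 0) : ℂ × ℂ) r := u4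
    rw [← ball_prod_same] at u4'
    have v1 : ‖x - Yf (x, y) - x₀‖ < r := by
      have := u3'.1
      rwa [Metric.mem_ball, dist_eq_norm] at this
    have v2 : ‖Yf (x, y)‖ < r := by
      have := u3'.2
      rwa [Metric.mem_ball, dist_eq_norm, sub_zero] at this
    have v3 : ‖x - x₀‖ < r := by
      have := u4'.1
      rwa [Metric.mem_ball, dist_eq_norm] at this
    have v4 : ‖y‖ < r := by
      have := u4'.2
      rwa [Metric.mem_ball, dist_eq_norm, sub_zero] at this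
    refine ⟨u2, v3, v4, v1, v2, ?_⟩
    unfold FIY
    rw [hsum _ _ v1 v2, hsum _ _ v3 v4]
    exact u1

end Pool.Agent.MP_ae5b4e_an_FLEX
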