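import Pool.Agent.Lib.MP_ae5b4e_an_FLEX.GeoCusp

set_option autoImplicit false

/-!
# The blow-up at a flex
-/

noncomputable section

namespace Pool.Agent.MP_ae5b4e_an_FLEX

open Filter Topology Set Metric
open Pool.Agent.MP_ae5b4e_an_ND (cc cf co Dx Dy Filt)

namespace GeoFlex

/-- the derivative along a line through the origin -/
theorem deriv_line {f : ℂ × ℂ → ℂ} (hf : AnalyticAt ℂ f (0, 0)) (η : ℂ) :
    deriv (fun t => f (t, t * η)) 0 = deriv (fun t => f (t, 0)) 0 + η * deriv (fun y => f (0, y)) 0 := by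
  have h1 : HasFDerivAt f (fderiv ℂ f (0, 0)) (0, 0) := hf.differentiableAt.hasFDerivAt
  have key : ∀ a b : ℂ, HasDerivAt (fun t : ℂ => f (t * a, t * b)) (fderiv ℂ f (0, 0) (a, b)) 0 := by
    intro a b
    have h2 : HasDerivAt (fun t : ℂ => ((t * a, t * b) : ℂ × ℂ)) (a, b) 0 := by
      have h3 := ((hasDerivAt_id (0:ℂ)).mul_const a).prodMk ((hasDerivAt_id (0:ℂ)).mul_const b)
      simpa using h3
    have h4 : HasFDerivAt f (fderiv ℂ f (0, 0)) ((fun t : ℂ => ((t * a, t * b) : ℂ × ℂ)) 0) := by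
      simpa using h1
    exact h4.comp_hasDerivAt 0 h2
  have e1 := (key 1 η).deriv
  have e2 := (key 1 0).deriv
  have e3 := (key 0 1).deriv
  simp only [mul_one, mul_zero] at e1 e2 e3
  rw [e1, e2, e3]
  have h5 : ((1, η) : ℂ × ℂ) = (1, 0) + η • (0, 1) := by simp
  rw [h5, map_add, map_smul, smul_eq_mul]

/-- blow-up of a function which vanishes at the origin -/
theorem blow {f : ℂ × ℂ → ℂ} (hf : AnalyticAt ℂ f (0, 0)) (h0 : f (0, 0) = 0) :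
    ∃ g : ℂ × ℂ → ℂ, AnalyticAt ℂ g (0, 0) ∧
      (∀ᶠ p in 𝓝 ((0, 0) : ℂ × ℂ), f (p.1, p.1 * p.2) = p.1 * g p) ∧
      ∀ᶠ η in 𝓝 (0:ℂ), g (0, η) =
        deriv (fun t => f (t, 0)) 0 + η * deriv (fun y => f (0, y)) 0 := by
  have h1 : AnalyticAt ℂ (fun q : ℂ × ℂ => f (q.2, q.2 * q.1)) (0, 0) :=
    hf.comp_of_eq (analyticAt_snd.prod (analyticAt_snd.mul analyticAt_fst)) (by simp)
  obtain ⟨G, hG, hGe, hG0⟩ := Pool.Agent.MP_ae5b4e_an_ND.exists_div_y h1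
    (Eventually.of_forall fun x => by simp [h0])
  have hsw : Tendsto (fun p : ℂ × ℂ => ((p.2, p.1) : ℂ × ℂ)) (𝓝 (0, 0)) (𝓝 (0, 0)) := by
    have : Continuous (fun p : ℂ × ℂ => ((p.2, p.1) : ℂ × ℂ)) := by fun_prop
    exact this.tendsto (0, 0)
  refine ⟨fun p => G (p.2, p.1), hG.comp_of_eq (analyticAt_snd.prod analyticAt_fst) rfl, ?_, ?_⟩
  · filter_upwards [hsw.eventually hGe] with p hp
    exact hp
  · filter_upwards [hG0] with η hη
    rw [hη]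
    exact deriv_line hf η

end GeoFlex

open GeoFlex in
theorem place_flex {X Y K : ℂ → ℂ} (hX : AnalyticAt ℂ X 0) (hY : AnalyticAt ℂ Y 0)
    (hK : AnalyticAt ℂ K 0) (hW : Wr X Y 0 = 0) (hW' : deriv (Wr X Y) 0 ≠ 0)
    (hg : ∀ᶠ s in 𝓝[≠] (0:ℂ), GoodG X Y K s) :
    ∃ Yf A δ, PlaceY Yf A δ ∧ ∀ᶠ η in 𝓝 (0:ℂ), mFlex (-A (0, η)) = -mFlex η := by
  obtain ⟨N, D, hN, hD, hND, hax⟩ := exists_ND hX hY
  set w := deriv (Wr X Y) 0 with hw
  have hN0 : N (0, 0) = 0 := by rw [hax.self_of_nhds.1, hW, zero_div]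
  have hD0 : D (0, 0) = 0 := by rw [hax.self_of_nhds.2.1, hW]
  have hNy : deriv (fun y => N (0, y)) 0 = w / 3 := hax.self_of_nhds.2.2.1
  have hDy : deriv (fun y => D (0, y)) 0 = w / 2 := hax.self_of_nhds.2.2.2
  have hNt : deriv (fun t => N (t, 0)) 0 = w / 2 := by
    have h1 : (fun t => N (t, 0)) =ᶠ[𝓝 0] fun t => Wr X Y t / 2 := by
      filter_upwards [hax] with t ht using ht.1
    rw [h1.deriv_eq, deriv_div_const]
  have hDt : deriv (fun t => D (t, 0)) 0 = w := by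
    have h1 : (fun t => D (t, 0)) =ᶠ[𝓝 0] fun t => Wr X Y t := by
      filter_upwards [hax] with t ht using ht.2.1
    rw [h1.deriv_eq]
  obtain ⟨N1, hN1, hN1e, hN1z⟩ := blow hN hN0
  obtain ⟨D1, hD1, hD1e, hD1z⟩ := blow hD hD0
  rw [hNt, hNy] at hN1z
  rw [hDt, hDy] at hD1z
  have hD10 : D1 (0, 0) ≠ 0 := by
    rw [hD1z.self_of_nhds]
    simpa using hW'
  have hsl : Tendsto (fun η : ℂ => ((0:ℂ), η)) (𝓝 0) (𝓝 (0, 0)) :=
    (Continuous.prodMk_right (0:ℂ)).tendsto 0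
  set mh : ℂ × ℂ → ℂ := fun p => p.2 * N1 p / D1 p with hmh
  have hmha : AnalyticAt ℂ mh (0, 0) := (analyticAt_snd.mul hN1).div hD1 hD10
  have h2ne : ∀ᶠ η in 𝓝 (0:ℂ), 2 + η ≠ 0 := by
    have hc : ContinuousAt (fun η : ℂ => 2 + η) 0 := by fun_prop
    exact hc.eventually_ne (by norm_num)
  have hmc : ∀ᶠ η in 𝓝 (0:ℂ), mh (0, η) = mFlex η := by
    filter_upwards [hN1z, hD1z, h2ne] with η h1 h2 h3
    simp only [hmh, mFlex]
    rw [h1, h2]
    have h4 : w + η * (w / 2) = w * (2 + η) / 2 := by ring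
    have h5 : w / 2 + η * (w / 3) = w * (3 + 2 * η) / 6 := by ring
    rw [h4, h5]
    field_simp
    ring
  have hm1 : deriv (fun y => mh (0, y)) 0 ≠ 0 := by
    have h1 : (fun y => mh (0, y)) =ᶠ[𝓝 0] mFlex := hmc
    rw [h1.deriv_eq]
    have h2 : HasDerivAt mFlex (1 / 2) 0 := by
      have h3 := ((hasDerivAt_id (0:ℂ)).mul
        (((hasDerivAt_id (0:ℂ)).const_mul 2).const_add 3)).div
        (((hasDerivAt_id (0:ℂ)).const_add 2).const_mul 3) (by norm_num)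
      refine (h3.congr_of_eventuallyEq (Eventually.of_forall fun y => ?_)).congr_deriv ?_
      · simp [mFlex]
      · simp
        norm_num
    rw [h2.deriv]
    norm_num
  have tb : Tendsto (fun p : ℂ × ℂ => ((p.1, p.1 * p.2) : ℂ × ℂ)) (𝓝 (0, 0)) (𝓝 (0, 0)) := by
    have : Continuous (fun p : ℂ × ℂ => ((p.1, p.1 * p.2) : ℂ × ℂ)) := by fun_prop
    simpa using this.tendsto (0, 0)
  have hF : ∀ᶠ p in 𝓝 ((0, 0) : ℂ × ℂ),
      brN X Y p.1 (p.1 + p.1 * p.2) = p.1 * mh p * brD X Y p.1 (p.1 + p.1 * p.2) ∧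
      (p.1 ≠ 0 → p.2 ≠ 0 → brD X Y p.1 (p.1 + p.1 * p.2) ≠ 0) := by
    filter_upwards [tb.eventually hND, hN1e, hD1e, hD1.continuousAt.eventually_ne hD10] with
      p h1 h2 h3 h4
    obtain ⟨t, η⟩ := p
    simp only at h1 h2 h3 h4 ⊢
    rw [h1.1, h1.2, h2, h3]
    refine ⟨?_, fun ht hη => ?_⟩
    · simp only [hmh]
      field_simp
    · exact mul_ne_zero (mul_ne_zero ht hη) (mul_ne_zero ht h4)
  obtain ⟨Yf, A', δ, hpl, hA'a, hA'0, hrel⟩ := GeoCusp.place_of_mh hK hg hmha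
    (fun t => by simp [hmh]) hm1 hF
  refine ⟨Yf, A', δ, hpl, ?_⟩
  have hs1 : Tendsto (fun η : ℂ => -A' (0, η)) (𝓝 0) (𝓝 0) := by
    have h1 : ContinuousAt (fun η : ℂ => A' (0, η)) 0 :=
      ContinuousAt.comp (f := fun η : ℂ => ((0:ℂ), η)) (g := A') hA'a.continuousAt hsl
    have h2 : Tendsto (fun η : ℂ => -A' (0, η)) (𝓝 0) (𝓝 (-A' (0, 0))) := h1.tendsto.neg
    rwa [hA'0, neg_zero] at h2
  filter_upwards [hsl.eventually hrel, hs1.eventually hmc, hmc] with η h1 h2 h3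
  rw [h2, h3] at h1
  linear_combination -h1

end Pool.Agent.MP_ae5b4e_an_FLEX
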