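import Pool.Agent.Lib.MP_ae5b4e_an_FLEX.Defs
import Mathlib

/-!
# MP_ae5b4e_an, flexes of the curve: the uniformization at a cusp
-/

set_option autoImplicit false

noncomputable section

namespace Pool.Agent.MP_ae5b4e_an_FLEX

open Filter Topology Set Metric
open Pool.Agent.MP_ae5b4e_an_ND (cc cf co Dx Dy Filt)

namespace UCusp

/-- the radicand -/
def zz (U : ℂ) : ℂ := 1 + 8 / (3 * U)

/-- the square root -/
def s (U : ℂ) : ℂ := zz U ^ (((2 : ℕ) : ℂ)⁻¹)

/-- the quotient of the parameters -/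
def r (U : ℂ) : ℂ := (3 * s U - 1) / 2

/-- the correction term, in `t = 1 / s` -/
def g (t : ℂ) : ℂ := t * (3 - t) / (3 * (1 + t))

/-- the map of the tangent line -/
def M (U : ℂ) : ℂ := U + 3 + g (s U)⁻¹

theorem s_sq (U : ℂ) : s U ^ 2 = zz U := Complex.cpow_nat_inv_pow _ two_ne_zero

theorem re_half {z : ℂ} (hz : z ∈ Complex.slitPlane) : 0 < (z ^ (((2 : ℕ) : ℂ)⁻¹)).re := by
  have h0 := Complex.slitPlane_ne_zero hz
  rw [Complex.cpow_def_of_ne_zero h0, Complex.exp_re]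
  refine mul_pos (Real.exp_pos _) (Real.cos_pos_of_mem_Ioo ?_)
  have h1 : (Complex.log z * (((2 : ℕ) : ℂ)⁻¹)).im = z.arg / 2 := by
    have h2 : (((2 : ℕ) : ℂ)⁻¹) = (((1 / 2 : ℝ)) : ℂ) := by push_cast; ring
    rw [h2, Complex.im_mul_ofReal, Complex.log_im]
    ring
  rw [h1]
  have h3 := Complex.mem_slitPlane_iff_arg.1 hz
  have h4 := Complex.neg_pi_lt_arg z
  have h5 := Complex.arg_le_pi z
  have h6 : z.arg < Real.pi := lt_of_le_of_ne h5 h3.1
  constructor <;> linarith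

theorem sq_slit {w : ℂ} (hw : 0 < w.re) : w ^ 2 ∈ Complex.slitPlane := by
  rw [Complex.mem_slitPlane_iff]
  by_cases h : w.im = 0
  · left
    have : (w ^ 2).re = w.re ^ 2 - w.im ^ 2 := by
      rw [pow_two, Complex.mul_re]; ring
    rw [this, h, zero_pow two_ne_zero, sub_zero]
    positivity
  · right
    have : (w ^ 2).im = 2 * w.re * w.im := by
      rw [pow_two, Complex.mul_im]; ring
    rw [this]
    exact mul_ne_zero (by positivity) h

theorem half_sq {w : ℂ} (hw : 0 < w.re) : (w ^ 2) ^ (((2 : ℕ) : ℂ)⁻¹) = w := by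
  have h1 := re_half (sq_slit hw)
  have h2 : ((w ^ 2) ^ (((2 : ℕ) : ℂ)⁻¹)) ^ 2 = w ^ 2 := Complex.cpow_nat_inv_pow _ two_ne_zero
  rcases sq_eq_sq_iff_eq_or_eq_neg.1 h2 with h | h
  · exact h
  · rw [h, Complex.neg_re] at h1
    linarith

/-- good points -/
structure Gd (U : ℂ) : Prop where
  ne : U ≠ 0
  slit : zz U ∈ Complex.slitPlane

theorem Gd.re {U : ℂ} (h : Gd U) : 0 < (s U).re := re_half h.slit

theorem Gd.s_ne {U : ℂ} (h : Gd U) : s U ≠ 0 := by
  intro h0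
  have := h.re
  rw [h0] at this
  simp at this

theorem Gd.s1 {U : ℂ} (h : Gd U) : s U - 1 ≠ 0 := by
  intro h0
  have h1 : s U = 1 := by linear_combination h0
  have h2 := s_sq U
  rw [h1, zz] at h2
  have h3 : 8 / (3 * U) = 0 := by linear_combination -h2
  have h4 := h.ne
  simp at h3
  exact h4 h3

theorem Gd.s1' {U : ℂ} (h : Gd U) : s U + 1 ≠ 0 := by
  intro h0
  have h1 := congrArg Complex.re h0
  have h2 := h.re
  simp at h1
  linarith

theorem Gd.eq {U : ℂ} (h : Gd U) : U = 8 / (3 * ((s U - 1) * (s U + 1))) := by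
  have h1 := s_sq U
  have h2 := h.ne
  have h3 := h.s1
  have h4 := h.s1'
  rw [zz] at h1
  field_simp at h1 ⊢
  linear_combination h1

theorem M_alg {w : ℂ} (h1 : w ≠ 0) (h3 : w - 1 ≠ 0) (h4 : w + 1 ≠ 0) :
    8 / (3 * ((w - 1) * (w + 1))) + 3 + g w⁻¹ = (3 * w - 1) ^ 2 / (3 * w * (w - 1)) := by
  have h5 : (1 + w⁻¹) ≠ 0 := by
    intro h0
    apply h4
    field_simp at h0
    linear_combination h0
  have h6 : g w⁻¹ = (3 * w - 1) / (3 * w * (w + 1)) := by
    rw [g, div_eq_div_iff (mul_ne_zero (by norm_num) h5)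
      (mul_ne_zero (mul_ne_zero (by norm_num) h1) h4)]
    field_simp
  rw [h6]
  field_simp
  ring

theorem Gd.M_eq {U : ℂ} (h : Gd U) :
    M U = (3 * s U - 1) ^ 2 / (3 * s U * (s U - 1)) := by
  rw [← M_alg h.s_ne h.s1 h.s1', ← h.eq, M]

theorem Gd.s_diff {U : ℂ} (h : Gd U) : DifferentiableAt ℂ s U := by
  have h1 : DifferentiableAt ℂ zz U := by
    unfold zz
    refine (differentiableAt_const _).add ((differentiableAt_const _).div
      ((differentiableAt_const _).mul differentiableAt_id) ?_)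
    exact mul_ne_zero (by norm_num) h.ne
  exact h1.cpow_const h.slit

theorem Gd.s_deriv {U : ℂ} (h : Gd U) : deriv s U = -4 / (3 * U ^ 2 * s U) := by
  have h1 : deriv (fun U => s U ^ 2) U = 2 * s U * deriv s U := by
    rw [deriv_fun_pow h.s_diff]
    simp
  have h2 : HasDerivAt (fun U : ℂ => s U ^ 2) (-8 / (3 * U ^ 2)) U := by
    have h3 : (fun U : ℂ => s U ^ 2) = fun U => 1 + (8 / 3) * U⁻¹ := by
      funext V
      rw [s_sq, zz]
      by_cases hV : V = 0
      · rw [hV]; simp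
      · field_simp
    rw [h3]
    have h4 := ((hasDerivAt_inv h.ne).const_mul (8 / 3 : ℂ)).const_add 1
    refine h4.congr_deriv ?_
    have := h.ne
    field_simp
  rw [h2.deriv] at h1
  have h5 := h.s_ne
  have h6 := h.ne
  field_simp at h1 ⊢
  linear_combination -h1 / 2

theorem gd_of_mem {U : ℂ} (h : U ∈ Hp (4 / 3)) : Gd U := by
  have h0 : U ≠ 0 := by
    rintro rfl
    have := h.2 rfl
    simp at this
  refine ⟨h0, ?_⟩
  rw [Complex.mem_slitPlane_iff]
  by_cases hi : U.im = 0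
  · left
    have h1 := h.2 hi
    have h2 : U = (U.re : ℂ) := by
      apply Complex.ext
      · simp
      · simp [hi]
    rw [zz, h2]
    have h3 : (1 + 8 / (3 * (U.re : ℂ)) : ℂ) = ((1 + 8 / (3 * U.re) : ℝ) : ℂ) := by push_cast; ring
    rw [h3, Complex.ofReal_re]
    positivity
  · right
    have h3 : (zz U).im = -(8 / 3) * U.im / Complex.normSq U := by
      have h4 : zz U = 1 + ((8 / 3 : ℝ) : ℂ) * U⁻¹ := by
        rw [zz]; push_cast; field_simp
      rw [h4, Complex.add_im, Complex.im_ofReal_mul, Complex.inv_im, Complex.one_im]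
      ring
    rw [h3]
    have h5 : Complex.normSq U ≠ 0 := fun h => h0 (Complex.normSq_eq_zero.1 h)
    exact div_ne_zero (mul_ne_zero (by norm_num) hi) h5

theorem norm_s {U : ℂ} (h0 : U ≠ 0) (h : -(4 / 3) < U.re) : 1 < ‖s U‖ := by
  have h1 : ‖s U‖ ^ 2 = ‖zz U‖ := by rw [← norm_pow, s_sq]
  have h2 : 1 < ‖zz U‖ := by
    have h3 : zz U = (3 * U + 8) / (3 * U) := by
      rw [zz]; field_simp
    rw [h3, norm_div, one_lt_div (by
      rw [norm_pos_iff]
      exact mul_ne_zero (by norm_num) h0)]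
    rw [← abs_of_nonneg (norm_nonneg (3 * U)), ← abs_of_nonneg (norm_nonneg (3 * U + 8)),
      ← sq_lt_sq, ← Complex.normSq_eq_norm_sq, ← Complex.normSq_eq_norm_sq,
      Complex.normSq_apply, Complex.normSq_apply]
    simp
    nlinarith
  rw [← h1] at h2
  by_contra hc
  push Not at hc
  have : ‖s U‖ ^ 2 ≤ 1 := pow_le_one₀ (norm_nonneg _) hc
  linarith

theorem Gd.inv_re {U : ℂ} (h : Gd U) : 0 < ((s U)⁻¹).re := by
  rw [Complex.inv_re]
  exact div_pos h.re (Complex.normSq_pos.2 h.s_ne)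

theorem norm_inv {U : ℂ} (h0 : U ≠ 0) (h : -(4 / 3) < U.re) : ‖(s U)⁻¹‖ < 1 := by
  rw [_root_.norm_inv]
  exact inv_lt_one_of_one_lt₀ (norm_s h0 h)

theorem M_re {U : ℂ} (h : U ∈ Hp (4 / 3)) : 4 / 3 < (M U).re := by
  have hg := gd_of_mem h
  have hs := norm_inv hg.ne h.1
  have h1 : 0 < (1 - (s U)⁻¹).re := by
    have h2 : ((s U)⁻¹).re ≤ ‖(s U)⁻¹‖ := Complex.re_le_norm _
    rw [Complex.sub_re, Complex.one_re]
    linarith
  have h3 : (1 - (s U)⁻¹) ≠ 0 := by
    intro h0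
    rw [h0] at h1
    simp at h1
  have h4 : 0 < ((1 - (s U)⁻¹)⁻¹).re := by
    rw [Complex.inv_re]
    exact div_pos h1 (Complex.normSq_pos.2 h3)
  have key : M U = ((4 / 3 : ℝ) : ℂ) + ((4 / 3 : ℝ) : ℂ) * (1 - (s U)⁻¹)⁻¹ +
      ((1 / 3 : ℝ) : ℂ) * (1 - (s U)⁻¹) := by
    rw [hg.M_eq]
    have h5 := hg.s_ne
    have h6 := hg.s1
    have h7 : (1 - (s U)⁻¹)⁻¹ = s U / (s U - 1) := by
      rw [eq_div_iff h6, inv_mul_eq_iff_eq_mul₀ h3]
      field_simp
    rw [h7]
    push_cast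
    field_simp
    ring
  rw [key, Complex.add_re, Complex.add_re, Complex.re_ofReal_mul, Complex.re_ofReal_mul,
    Complex.ofReal_re]
  linarith

theorem norm_g {t : ℂ} (h1 : ‖t‖ < 1) (h2 : 0 < t.re) : ‖g t‖ ≤ 4 / 3 := by
  have h3 : 1 ≤ ‖1 + t‖ := by
    refine le_trans ?_ (Complex.re_le_norm _)
    rw [Complex.add_re, Complex.one_re]
    linarith
  have h4 : ‖3 - t‖ ≤ 4 := by
    refine (norm_sub_le _ _).trans ?_
    have : ‖(3 : ℂ)‖ = 3 := by simp
    linarith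
  rw [g, norm_div, norm_mul, norm_mul]
  have h5 : ‖(3 : ℂ)‖ = 3 := by simp
  rw [h5, div_le_div_iff₀ (by positivity) (by norm_num)]
  have h6 : ‖t‖ * ‖3 - t‖ ≤ 1 * 4 :=
    mul_le_mul h1.le h4 (norm_nonneg _) zero_le_one
  nlinarith

theorem mem_of_re {U : ℂ} (h : 4 / 3 < U.re) : U ∈ Hp (4 / 3) :=
  ⟨by linarith, fun _ => by linarith⟩

theorem M_inc {U : ℂ} (h : 4 / 3 < U.re) : U.re + 1 ≤ (M U).re := by
  have hg := gd_of_mem (mem_of_re h)
  have h1 := norm_g (norm_inv hg.ne (by linarith)) hg.inv_re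
  have h2 := Complex.abs_re_le_norm (g (s U)⁻¹)
  have h3 := neg_abs_le (g (s U)⁻¹).re
  rw [M, Complex.add_re, Complex.add_re]
  have h4 : (3 : ℂ).re = 3 := rfl
  rw [h4]
  linarith

theorem Gd.t1 {U : ℂ} (h : Gd U) : 1 + (s U)⁻¹ ≠ 0 := by
  intro h0
  have h1 := congrArg Complex.re h0
  rw [Complex.add_re, Complex.one_re, Complex.zero_re] at h1
  have := h.inv_re
  linarith

/-- the derivative of `g` -/
def g' (t : ℂ) : ℂ := (3 + t) * (1 - t) / (3 * (1 + t) ^ 2)

theorem g_deriv {t : ℂ} (h : 1 + t ≠ 0) : HasDerivAt g (g' t) t := by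
  have h1 : HasDerivAt (fun t : ℂ => t * (3 - t)) (1 * (3 - t) + t * (-1)) t :=
    (hasDerivAt_id t).mul ((hasDerivAt_id t).const_sub 3)
  have h2 : HasDerivAt (fun t : ℂ => 3 * (1 + t)) (3 * 1) t :=
    ((hasDerivAt_id t).const_add 1).const_mul 3
  refine (h1.div h2 (mul_ne_zero (by norm_num) h)).congr_deriv ?_
  rw [g']
  field_simp
  ring

theorem Gd.r_diff {U : ℂ} (h : Gd U) : DifferentiableAt ℂ r U := by
  unfold r
  exact ((h.s_diff.const_mul 3).sub_const 1).div_const 2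

theorem Gd.r_deriv {U : ℂ} (h : Gd U) : deriv r U = 3 * deriv s U / 2 := by
  have h1 : HasDerivAt r (3 * deriv s U / 2) U :=
    ((h.s_diff.hasDerivAt.const_mul 3).sub_const 1).div_const 2
  exact h1.deriv

theorem Gd.M_deriv {U : ℂ} (h : Gd U) :
    HasDerivAt M (1 + g' (s U)⁻¹ * (-deriv s U / s U ^ 2)) U := by
  have h1 : HasDerivAt (fun U => (s U)⁻¹) (-deriv s U / s U ^ 2) U :=
    h.s_diff.hasDerivAt.inv h.s_ne
  have h2 : HasDerivAt (g ∘ fun U => (s U)⁻¹) (g' (s U)⁻¹ * (-deriv s U / s U ^ 2)) U :=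
    HasDerivAt.comp U (g_deriv h.t1) h1
  exact ((hasDerivAt_id U).add_const 3).add h2

theorem Gd.r_log {U : ℂ} (h : Gd U) (hr : 3 * s U - 1 ≠ 0) :
    U * deriv r U / r U = -(3 / 2) * (1 - (s U)⁻¹ ^ 2) / (3 - (s U)⁻¹) := by
  have h1 := h.ne
  have h2 := h.s_ne
  have h3 := h.s1
  have h4 := h.s1'
  have h5 : 3 - (s U)⁻¹ ≠ 0 := by
    intro h0
    apply hr
    field_simp at h0
    linear_combination h0
  have h6 : 3 * U * ((s U - 1) * (s U + 1)) = 8 := by
    have h7 := s_sq U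
    rw [zz] at h7
    field_simp at h7
    linear_combination h7
  rw [h.r_deriv, h.s_deriv, r]
  have h8 : 3 - (s U)⁻¹ = (3 * s U - 1) / s U := by field_simp
  have h9 : 1 - (s U)⁻¹ ^ 2 = ((s U - 1) * (s U + 1)) / s U ^ 2 := by
    field_simp
    ring
  rw [h8, h9]
  field_simp
  linear_combination h6

theorem Gd.M_log {U : ℂ} (h : Gd U) :
    U * deriv M U = U + g' (s U)⁻¹ * (((s U)⁻¹ - (s U)⁻¹ ^ 3) / 2) := by
  have h1 := h.ne
  have h2 := h.s_ne
  have h6 : 3 * U * (s U ^ 2 - 1) = 8 := by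
    have h7 := s_sq U
    rw [zz] at h7
    field_simp at h7
    linear_combination h7
  rw [h.M_deriv.deriv, h.s_deriv, mul_add, mul_one, mul_left_comm]
  congr 2
  field_simp
  linear_combination -h6

theorem tend_inv : Tendsto (fun U => (s U)⁻¹) (𝓝[≠] 0) (𝓝 0) := by
  have h1 : Tendsto (fun U : ℂ => 3 * U / (3 * U + 8)) (𝓝[≠] 0) (𝓝 0) := by
    have h2 : ContinuousAt (fun U : ℂ => 3 * U / (3 * U + 8)) 0 := by
      refine ContinuousAt.div (by fun_prop) (by fun_prop) ?_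
      norm_num
    have h3 := h2.tendsto
    simp only [mul_zero, zero_div] at h3
    exact h3.mono_left nhdsWithin_le_nhds
  have h2 : Tendsto (fun U => ‖(s U)⁻¹‖ ^ 2) (𝓝[≠] 0) (𝓝 0) := by
    refine (tendsto_zero_iff_norm_tendsto_zero.1 h1).congr' ?_
    filter_upwards [self_mem_nhdsWithin] with U hU
    have hU' : U ≠ 0 := hU
    rw [← norm_pow, inv_pow, s_sq, zz]
    congr 1
    have h4 : (1 : ℂ) + 8 / (3 * U) = (3 * U + 8) / (3 * U) := by field_simp
    rw [h4, inv_div]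
  rw [tendsto_zero_iff_norm_tendsto_zero]
  have h3 := (Real.continuous_sqrt.tendsto 0).comp h2
  rw [Real.sqrt_zero] at h3
  refine h3.congr fun U => ?_
  exact Real.sqrt_sq (norm_nonneg _)

theorem Hp_le : 𝓝[Hp (4 / 3)] (0 : ℂ) ≤ 𝓝[≠] 0 := by
  refine nhdsWithin_mono _ fun U hU => ?_
  exact (gd_of_mem hU).ne

theorem r3 {U : ℂ} (h : U ∈ Hp (4 / 3)) : 3 * s U - 1 ≠ 0 := by
  intro h0
  have h1 := norm_s (gd_of_mem h).ne h.1
  have h2 : s U = 1 / 3 := by linear_combination h0 / 3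
  rw [h2] at h1
  norm_num at h1

theorem big {U : ℂ} (h : 3 < ‖U‖) : Gd U ∧ 1 / 3 < (s U).re := by
  have h0 : U ≠ 0 := by
    rintro rfl
    simp at h
    linarith
  have h1 : ‖8 / (3 * U)‖ < 8 / 9 := by
    rw [norm_div, norm_mul]
    have h2 : ‖(8 : ℂ)‖ = 8 := by simp
    have h3 : ‖(3 : ℂ)‖ = 3 := by simp
    rw [h2, h3, div_lt_div_iff₀ (by positivity) (by norm_num)]
    linarith
  have h2 : 1 / 9 < (zz U).re := by
    have h3 := Complex.abs_re_le_norm (8 / (3 * U))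
    have h4 := neg_abs_le (8 / (3 * U)).re
    rw [zz, Complex.add_re, Complex.one_re]
    linarith
  have h3 : Gd U := ⟨h0, Complex.mem_slitPlane_iff.2 (Or.inl (by linarith))⟩
  refine ⟨h3, ?_⟩
  have h4 : (zz U).re ≤ (s U).re ^ 2 := by
    rw [← s_sq, pow_two, Complex.mul_re]
    nlinarith [mul_self_nonneg (s U).im]
  have h5 := h3.re
  by_contra hc
  push Not at hc
  nlinarith

theorem r_inv {U : ℂ} (h : 3 < ‖U‖) : r (-(M U)) = (r U)⁻¹ := by
  obtain ⟨hg, h1⟩ := big h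
  have h2 := hg.s_ne
  have h3 := hg.s1
  have h4 : 0 < (3 * s U - 1).re := by
    have h5 : (3 * s U - 1).re = 3 * (s U).re - 1 := by simp
    rw [h5]
    linarith
  have h5 : 3 * s U - 1 ≠ 0 := by
    intro h0
    rw [h0] at h4
    simp at h4
  have h6 : zz (-(M U)) = ((s U + 1) / (3 * s U - 1)) ^ 2 := by
    rw [zz, hg.M_eq]
    field_simp
    ring
  have h7 : 0 < ((s U + 1) / (3 * s U - 1)).re := by
    have h8 : (s U + 1) / (3 * s U - 1) =
        ((1 / 3 : ℝ) : ℂ) + ((4 / 3 : ℝ) : ℂ) * (3 * s U - 1)⁻¹ := by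
      rw [div_eq_iff h5, add_mul, mul_assoc, inv_mul_cancel₀ h5]
      push_cast
      ring
    rw [h8, Complex.add_re, Complex.re_ofReal_mul, Complex.inv_re, Complex.ofReal_re]
    have h9 := div_pos h4 (Complex.normSq_pos.2 h5)
    linarith
  have h8 : s (-(M U)) = (s U + 1) / (3 * s U - 1) := by
    rw [s, h6, half_sq h7]
  rw [r, h8, r]
  field_simp
  ring

theorem tend_s : Tendsto s (Bornology.cobounded ℂ) (𝓝 1) := by
  have h1 : Tendsto zz (Bornology.cobounded ℂ) (𝓝 1) := by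
    have h2 : Tendsto (fun U : ℂ => 1 + (8 / 3) * U⁻¹) (Bornology.cobounded ℂ)
        (𝓝 (1 + (8 / 3) * 0)) :=
      (tendsto_inv₀_cobounded.const_mul _).const_add _
    rw [mul_zero, add_zero] at h2
    refine h2.congr fun U => ?_
    rw [zz]
    by_cases hU : U = 0
    · rw [hU]; simp
    · field_simp
  have h2 : ContinuousAt (fun z : ℂ => z ^ (((2 : ℕ) : ℂ)⁻¹)) 1 :=
    continuousAt_cpow_const (Complex.mem_slitPlane_iff.2 (Or.inl (by simp)))
  have h3 := h2.tendsto.comp h1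
  simp only [Complex.one_cpow] at h3
  exact h3

end UCusp

open UCusp in
theorem uplane_cusp : ∃ r M : ℂ → ℂ, UPlane mCusp (4 / 3) 1 (1 / 2) r M := by
  refine ⟨UCusp.r, UCusp.M, ?_⟩
  have hne : ∀ U ∈ Hp (4 / 3), UCusp.r U ≠ 0 := by
    intro U hU h0
    refine r3 hU ?_
    rw [UCusp.r, div_eq_zero_iff] at h0
    rcases h0 with h0 | h0
    · exact h0
    · norm_num at h0
  refine
    { μ_pos := by norm_num
      ε_pos := one_pos
      r_diff := fun U hU => (gd_of_mem hU).r_diff.differentiableWithinAt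
      r_ne := hne
      M_diff := fun U hU => (gd_of_mem hU).M_deriv.differentiableAt.differentiableWithinAt
      M_re := fun U hU => UCusp.M_re hU
      M_inc := fun U hU => UCusp.M_inc hU
      zero_r := ?_
      zero_M := ?_
      zero_M' := ?_
      inf := ?_
      r_inf := ?_
      M_inf := ?_ }
  · have h1 : ContinuousAt (fun t : ℂ => -(3 / 2) * (1 - t ^ 2) / (3 - t)) 0 := by
      refine ContinuousAt.div (by fun_prop) (by fun_prop) ?_
      norm_num
    have h2 := h1.tendsto.comp (tend_inv.mono_left Hp_le)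
    have h3 : (-(3 / 2) * (1 - (0 : ℂ) ^ 2) / (3 - 0)) = -(((1 / 2 : ℝ)) : ℂ) := by
      push_cast
      norm_num
    rw [h3] at h2
    refine h2.congr' ?_
    filter_upwards [self_mem_nhdsWithin] with U hU
    exact ((gd_of_mem hU).r_log (r3 hU)).symm
  · refine ⟨3, by norm_num, ?_⟩
    have h1 : ContinuousAt g 0 := (g_deriv (by simp)).continuousAt
    have h2 := h1.tendsto.comp (tend_inv.mono_left Hp_le)
    have h3 : Tendsto (fun U : ℂ => U + 3) (𝓝[Hp (4 / 3)] 0) (𝓝 (0 + 3)) :=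
      (tendsto_id.mono_left nhdsWithin_le_nhds).add_const 3
    have h4 := h3.add h2
    have h5 : g 0 = 0 := by simp [g]
    rw [h5, zero_add, add_zero] at h4
    exact h4
  · have h1 : ContinuousAt (fun t : ℂ => g' t * ((t - t ^ 3) / 2)) 0 := by
      unfold g'
      refine ContinuousAt.mul (ContinuousAt.div (by fun_prop) (by fun_prop) ?_) (by fun_prop)
      norm_num
    have h2 := h1.tendsto.comp (tend_inv.mono_left Hp_le)
    have h3 : Tendsto (fun U : ℂ => U) (𝓝[Hp (4 / 3)] 0) (𝓝 0) :=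
      tendsto_id.mono_left nhdsWithin_le_nhds
    have h4 := h3.add h2
    have h5 : (0 : ℂ) + g' 0 * ((0 - 0 ^ 3) / 2) = 0 := by simp
    rw [h5] at h4
    refine h4.congr' ?_
    filter_upwards [self_mem_nhdsWithin] with U hU
    exact (gd_of_mem hU).M_log.symm
  · refine ⟨3, by norm_num, fun U hU => ?_⟩
    obtain ⟨hg, -⟩ := big hU
    refine ⟨hg.r_diff, hg.M_deriv.differentiableAt, ?_, r_inv hU⟩
    have h1 := s_sq U
    have h2 := hg.ne
    rw [zz] at h1
    rw [mCusp, UCusp.r]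
    field_simp at h1 ⊢
    linear_combination 3 * h1
  · have h1 := ((tend_s.const_mul 3).sub_const 1).div_const 2
    have h2 : ((3 : ℂ) * 1 - 1) / 2 = 1 := by norm_num
    rw [h2] at h1
    exact h1
  · have h1 : Tendsto (fun U => (s U)⁻¹) (Bornology.cobounded ℂ) (𝓝 1) := by
      have := tend_s.inv₀ one_ne_zero
      rwa [inv_one] at this
    have h2 : ContinuousAt g 1 := (g_deriv (by norm_num)).continuousAt
    have h3 := (h2.tendsto.comp h1).const_add 3
    rw [← tendsto_norm_atTop_iff_cobounded]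
    have h4 := (tendsto_norm_cobounded_atTop (E := ℂ)).atTop_add h3.norm.neg
    refine tendsto_atTop_mono (fun U => ?_) h4
    change ‖U‖ + -‖3 + g (s U)⁻¹‖ ≤ ‖M U‖
    have h5 : ‖U‖ ≤ ‖M U‖ + ‖3 + g (s U)⁻¹‖ := by
      have h6 : U = M U - (3 + g (s U)⁻¹) := by rw [M]; ring
      conv_lhs => rw [h6]
      exact norm_sub_le _ _
    linarith

end Pool.Agent.MP_ae5b4e_an_FLEX
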