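import Pool.Agent.Lib.MP_ae5b4e_an_FLEX.Defs
import Mathlib

/-!
# MP_ae5b4e_an, flexes of the curve: the uniformization at a flex
-/

set_option autoImplicit false

noncomputable section

namespace Pool.Agent.MP_ae5b4e_an_FLEX

open Filter Topology Set Metric
open Pool.Agent.MP_ae5b4e_an_ND (cc cf co Dx Dy Filt)

namespace UFlex

/-- the radicand -/
def zz (U : ℂ) : ℂ := (3 * U + 1) / (3 * (U + 3))

/-- the square root -/
def s (U : ℂ) : ℂ := zz U ^ (((2 : ℕ) : ℂ)⁻¹)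

/-- the quotient of the parameters -/
def r (U : ℂ) : ℂ := 2 / (3 * s U - 1)

/-- the correction term -/
def g (t : ℂ) : ℂ := (3 * t - 1) / (3 * t * (t + 1))

/-- the map of the tangent line -/
def M (U : ℂ) : ℂ := U + 3 - g (s U)

theorem s_sq (U : ℂ) : s U ^ 2 = zz U := Complex.cpow_nat_inv_pow _ two_ne_zero

theorem re_half {z : ℂ} (hz : z ∈ Complex.slitPlane) : 0 < (z ^ (((2 : ℕ) : ℂ)⁻¹)).re := by
  have h0 := Complex.slitPlane_ne_zero hz
  rw [Complex.cpow_def_of_ne_zero h0, Complex.exp_re]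
  refine mul_pos (Real.exp_pos _) (Real.cos_pos_of_mem_Ioo ?_)
  have h1 : (Complex.log z * (((2 : ℕ) : ℂ)⁻¹)).im = z.arg / 2 := by
    have h2 : (((2 : ℕ) : ℂ)⁻¹) = (((1 / 2 : ℝ)) : ℂ) := by push_cast; ring
    rw [h2, Complex.im_mul_ofReal, Complex.log_im]
    ring
  rw [h1]
  have h3 := Complex.mem_slitPlane_iff_arg.1 hz
  have h4 := Complex.neg_pi_lt_arg z
  have h5 := Complex.arg_le_pi z
  have h6 : z.arg < Real.pi := lt_of_le_of_ne h5 h3.1
  constructor <;> linarith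

theorem sq_slit {w : ℂ} (hw : 0 < w.re) : w ^ 2 ∈ Complex.slitPlane := by
  rw [Complex.mem_slitPlane_iff]
  by_cases h : w.im = 0
  · left
    have : (w ^ 2).re = w.re ^ 2 - w.im ^ 2 := by
      rw [pow_two, Complex.mul_re]; ring
    rw [this, h, zero_pow two_ne_zero, sub_zero]
    positivity
  · right
    have : (w ^ 2).im = 2 * w.re * w.im := by
      rw [pow_two, Complex.mul_im]; ring
    rw [this]
    exact mul_ne_zero (by positivity) h

theorem half_sq {w : ℂ} (hw : 0 < w.re) : (w ^ 2) ^ (((2 : ℕ) : ℂ)⁻¹) = w := by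
  have h1 := re_half (sq_slit hw)
  have h2 : ((w ^ 2) ^ (((2 : ℕ) : ℂ)⁻¹)) ^ 2 = w ^ 2 := Complex.cpow_nat_inv_pow _ two_ne_zero
  rcases sq_eq_sq_iff_eq_or_eq_neg.1 h2 with h | h
  · exact h
  · rw [h, Complex.neg_re] at h1
    linarith

/-- good points -/
structure Gd (U : ℂ) : Prop where
  ne : U ≠ 0
  ne3 : U + 3 ≠ 0
  slit : zz U ∈ Complex.slitPlane

theorem Gd.re {U : ℂ} (h : Gd U) : 0 < (s U).re := re_half h.slit

theorem Gd.s_ne {U : ℂ} (h : Gd U) : s U ≠ 0 := by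
  intro h0
  have := h.re
  rw [h0] at this
  simp at this

theorem Gd.rel {U : ℂ} (h : Gd U) : 3 * (U + 3) * s U ^ 2 = 3 * U + 1 := by
  rw [s_sq, zz]
  have := h.ne3
  field_simp

theorem Gd.s1 {U : ℂ} (h : Gd U) : 1 - s U ≠ 0 := by
  intro h0
  have h1 : s U = 1 := by linear_combination -h0
  have h2 := h.rel
  rw [h1] at h2
  have h3 : (8 : ℂ) = 0 := by linear_combination h2
  norm_num at h3

theorem Gd.s1' {U : ℂ} (h : Gd U) : s U + 1 ≠ 0 := by
  intro h0
  have h1 := congrArg Complex.re h0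
  have h2 := h.re
  simp at h1
  linarith

theorem Gd.s3' {U : ℂ} (h : Gd U) : 3 * s U + 1 ≠ 0 := by
  intro h0
  have h1 := congrArg Complex.re h0
  have h2 := h.re
  simp at h1
  linarith

theorem Gd.s3 {U : ℂ} (h : Gd U) : 3 * s U - 1 ≠ 0 := by
  intro h0
  have h1 : s U = 1 / 3 := by linear_combination h0 / 3
  have h2 := h.rel
  rw [h1] at h2
  exact h.ne (by linear_combination (-3 / 8 : ℂ) * h2)

theorem Gd.eq3 {U : ℂ} (h : Gd U) : U + 3 = 8 / (3 * ((1 - s U) * (s U + 1))) := by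
  have h1 := h.rel
  have h3 := h.s1
  have h4 := h.s1'
  rw [eq_div_iff (mul_ne_zero (by norm_num) (mul_ne_zero h3 h4))]
  linear_combination -h1

theorem Gd.eq {U : ℂ} (h : Gd U) :
    U = (3 * s U - 1) * (3 * s U + 1) / (3 * ((1 - s U) * (s U + 1))) := by
  have h1 := h.rel
  have h3 := h.s1
  have h4 := h.s1'
  rw [eq_div_iff (mul_ne_zero (by norm_num) (mul_ne_zero h3 h4))]
  linear_combination -h1

theorem Gd.M_eq {U : ℂ} (h : Gd U) :
    M U = (3 * s U + 1) / (3 * s U * (1 - s U)) := by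
  have h1 := h.s_ne
  have h3 := h.s1
  have h4 := h.s1'
  rw [M, h.eq3, g]
  field_simp
  ring

theorem Gd.s_diff {U : ℂ} (h : Gd U) : DifferentiableAt ℂ s U := by
  have h1 : DifferentiableAt ℂ zz U := by
    unfold zz
    refine (((differentiableAt_const _).mul differentiableAt_id).add_const _).div
      ((differentiableAt_const _).mul (differentiableAt_id.add_const _)) ?_
    exact mul_ne_zero (by norm_num) h.ne3
  exact h1.cpow_const h.slit

theorem Gd.s_deriv {U : ℂ} (h : Gd U) : deriv s U = 4 / (3 * (U + 3) ^ 2 * s U) := by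
  have h1 : deriv (fun U => s U ^ 2) U = 2 * s U * deriv s U := by
    rw [deriv_fun_pow h.s_diff]
    simp
  have h2 : HasDerivAt (fun U : ℂ => s U ^ 2) (8 / (3 * (U + 3) ^ 2)) U := by
    have h3 : (fun U : ℂ => s U ^ 2) = fun U => (3 * U + 1) / (3 * (U + 3)) := by
      funext V
      rw [s_sq, zz]
    rw [h3]
    have h5 : HasDerivAt (fun U : ℂ => 3 * U + 1) (3 * 1) U :=
      ((hasDerivAt_id U).const_mul 3).add_const 1
    have h6 : HasDerivAt (fun U : ℂ => 3 * (U + 3)) (3 * 1) U :=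
      ((hasDerivAt_id U).add_const 3).const_mul 3
    have h7 := h.ne3
    refine (h5.div h6 (mul_ne_zero (by norm_num) h7)).congr_deriv ?_
    field_simp
    ring
  rw [h2.deriv] at h1
  have h5 := h.s_ne
  have h6 := h.ne3
  field_simp at h1 ⊢
  linear_combination -h1 / 2

theorem gd_of_mem {U : ℂ} (h : U ∈ Hp 1) : Gd U := by
  have h0 : U ≠ 0 := by
    rintro rfl
    have := h.2 rfl
    simp at this
  have h00 : U + 3 ≠ 0 := by
    intro h1
    have h2 := congrArg Complex.re h1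
    have h3 := h.1
    simp at h2
    linarith
  refine ⟨h0, h00, ?_⟩
  rw [Complex.mem_slitPlane_iff]
  by_cases hi : U.im = 0
  · left
    have h1 := h.2 hi
    have h2 : U = (U.re : ℂ) := by
      apply Complex.ext
      · simp
      · simp [hi]
    rw [zz, h2]
    have h3 : ((3 * (U.re : ℂ) + 1) / (3 * ((U.re : ℂ) + 3)) : ℂ) =
        (((3 * U.re + 1) / (3 * (U.re + 3)) : ℝ) : ℂ) := by push_cast; ring
    rw [h3, Complex.ofReal_re]
    positivity
  · right
    have h3 : (zz U).im = (8 / 3) * U.im / Complex.normSq (U + 3) := by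
      have h4 : zz U = 1 - ((8 / 3 : ℝ) : ℂ) * (U + 3)⁻¹ := by
        rw [zz]; push_cast; field_simp; ring
      rw [h4, Complex.sub_im, Complex.im_ofReal_mul, Complex.inv_im, Complex.one_im,
        Complex.add_im]
      simp
      ring
    rw [h3]
    have h5 : Complex.normSq (U + 3) ≠ 0 := fun h => h00 (Complex.normSq_eq_zero.1 h)
    exact div_ne_zero (mul_ne_zero (by norm_num) hi) h5

/-- the real inequality of the flex -/
theorem lemK {x ρ : ℝ} (hx : 0 < x) (h1 : x ^ 2 ≤ ρ) (h2 : (3 * ρ + 1) ^ 2 < 4 + 12 * x ^ 2) :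
    3 * ρ ^ 2 - (1 + 3 * x) * ρ + x * (2 * x - 1) < 0 := by
  have hx1 : x < 1 := by
    by_contra hc
    push Not at hc
    have h3 : (3 * x ^ 2 + 1) ^ 2 ≤ (3 * ρ + 1) ^ 2 :=
      pow_le_pow_left₀ (by positivity) (by linarith) 2
    nlinarith [mul_nonneg (sub_nonneg.2 hc) (sub_nonneg.2 hc), sq_nonneg (x ^ 2 - 1),
      mul_self_nonneg (x - 1), mul_nonneg (sub_nonneg.2 hc) hx.le]
  obtain ⟨b, hb0, hb⟩ : ∃ b : ℝ, 0 ≤ b ∧ b ^ 2 = 4 + 12 * x ^ 2 :=
    ⟨√(4 + 12 * x ^ 2), Real.sqrt_nonneg _, Real.sq_sqrt (by positivity)⟩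
  have hb2 : b ≤ 2 + 2 * x := by
    refine (pow_le_pow_iff_left₀ hb0 (by linarith) two_ne_zero).1 ?_
    rw [hb]
    nlinarith
  obtain ⟨u, hu⟩ : ∃ u : ℝ, u = 3 * ρ + 1 := ⟨_, rfl⟩
  have hub : u < b := by
    rw [← hu, ← hb] at h2
    exact lt_of_pow_lt_pow_left₀ 2 hb0 h2
  have hau : 1 + 3 * x ^ 2 ≤ u := by rw [hu]; linarith
  have hρ : ρ = (u - 1) / 3 := by rw [hu]; ring
  have hf : 3 * (3 * ρ ^ 2 - (1 + 3 * x) * ρ + x * (2 * x - 1)) =
      u ^ 2 - 3 * (1 + x) * u + 2 + 6 * x ^ 2 := by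
    rw [hρ]; ring
  have hfa : (1 + 3 * x ^ 2) ^ 2 - 3 * (1 + x) * (1 + 3 * x ^ 2) + 2 + 6 * x ^ 2 < 0 := by
    have : (1 + 3 * x ^ 2) ^ 2 - 3 * (1 + x) * (1 + 3 * x ^ 2) + 2 + 6 * x ^ 2 =
        -(3 * x * (1 - x) * (3 * x ^ 2 + 1)) := by ring
    rw [this]
    have : 0 < 3 * x * (1 - x) * (3 * x ^ 2 + 1) := by
      have := sub_pos.2 hx1
      positivity
    linarith
  have hfb : b ^ 2 - 3 * (1 + x) * b + 2 + 6 * x ^ 2 ≤ 0 := by
    have : b ^ 2 - 3 * (1 + x) * b + 2 + 6 * x ^ 2 = 3 / 2 * (b * (b - (2 + 2 * x))) := by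
      linear_combination (-1 / 2 : ℝ) * hb
    rw [this]
    have := mul_nonneg hb0 (sub_nonneg.2 hb2)
    nlinarith
  have key : (b - (1 + 3 * x ^ 2)) * (u ^ 2 - 3 * (1 + x) * u + 2 + 6 * x ^ 2) =
      (b - u) * ((1 + 3 * x ^ 2) ^ 2 - 3 * (1 + x) * (1 + 3 * x ^ 2) + 2 + 6 * x ^ 2) +
      (u - (1 + 3 * x ^ 2)) * (b ^ 2 - 3 * (1 + x) * b + 2 + 6 * x ^ 2) -
      (b - (1 + 3 * x ^ 2)) * ((u - (1 + 3 * x ^ 2)) * (b - u)) := by
    ring
  have hpos : 0 < b - (1 + 3 * x ^ 2) := by linarith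
  have h3 : (b - (1 + 3 * x ^ 2)) * (u ^ 2 - 3 * (1 + x) * u + 2 + 6 * x ^ 2) < 0 := by
    rw [key]
    have h4 := mul_neg_of_pos_of_neg (sub_pos.2 hub) hfa
    have h5 := mul_nonpos_of_nonneg_of_nonpos (sub_nonneg.2 hau) hfb
    have h6 := mul_nonneg hpos.le (mul_nonneg (sub_nonneg.2 hau) (sub_pos.2 hub).le)
    linarith
  have h4 := neg_of_mul_neg_left h3
  have h5 : u ^ 2 - 3 * (1 + x) * u + 2 + 6 * x ^ 2 < 0 := by
    by_contra hc
    push Not at hc
    have := mul_nonneg hpos.le hc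
    linarith
  linarith

theorem M_re {U : ℂ} (h : U ∈ Hp 1) : 1 < (M U).re := by
  have hg := gd_of_mem h
  have h1 := hg.re
  have h2 := hg.s_ne
  have h3 := hg.s1
  have h4 := hg.s1'
  obtain ⟨v, hv⟩ : ∃ v, v = s U := ⟨_, rfl⟩
  rw [← hv] at h1 h2 h3 h4
  have hM := hg.M_eq
  have hU := hg.eq3
  rw [← hv] at hM hU
  -- the condition on v
  have hA : Complex.normSq (3 * v ^ 2 - 1) < 4 := by
    have e1 : Complex.normSq (U - 1) < Complex.normSq (U + 3) := by
      rw [Complex.normSq_apply, Complex.normSq_apply]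
      have := h.1
      simp
      nlinarith
    have e2 : U - 1 = (U + 3) * ((3 * v ^ 2 - 1) / 2) := by
      have e3 : U - 1 = (U + 3) - 4 := by ring
      rw [e3, hU]
      field_simp
      ring
    rw [e2, Complex.normSq_mul, Complex.normSq_div] at e1
    have e4 : 0 < Complex.normSq (U + 3) := Complex.normSq_pos.2 hg.ne3
    have e5 : Complex.normSq 2 = 4 := by
      rw [Complex.normSq_apply]; norm_num
    rw [e5] at e1
    by_contra hc
    push Not at hc
    have e6 : 1 ≤ Complex.normSq (3 * v ^ 2 - 1) / 4 := by linarith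
    have e7 := mul_le_mul_of_nonneg_left e6 e4.le
    linarith
  have hB : (3 * (v.re ^ 2 + v.im ^ 2) + 1) ^ 2 < 4 + 12 * v.re ^ 2 := by
    have e1 : Complex.normSq (3 * v ^ 2 - 1) =
        (3 * (v.re ^ 2 + v.im ^ 2) + 1) ^ 2 - 12 * v.re ^ 2 := by
      rw [Complex.normSq_apply]
      simp [pow_two]
      ring
    rw [e1] at hA
    linarith
  have hq := lemK h1 (by nlinarith [sq_nonneg v.im] : v.re ^ 2 ≤ v.re ^ 2 + v.im ^ 2) hB
  have hC : Complex.normSq ((3 * v - 1) ^ 2) < Complex.normSq (3 * v ^ 2 - 6 * v - 1) := by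
    have e1 : Complex.normSq (3 * v ^ 2 - 6 * v - 1) - Complex.normSq ((3 * v - 1) ^ 2) =
        -24 * (3 * (v.re ^ 2 + v.im ^ 2) ^ 2 - (1 + 3 * v.re) * (v.re ^ 2 + v.im ^ 2) +
          v.re * (2 * v.re - 1)) := by
      rw [Complex.normSq_apply, Complex.normSq_apply]
      simp [pow_two]
      ring
    linarith
  have hD : Complex.normSq (M U - 3) < Complex.normSq (M U + 1) := by
    have e1 : M U - 3 = (3 * v - 1) ^ 2 / (3 * v * (1 - v)) := by
      rw [hM]
      field_simp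
      ring
    have e2 : M U + 1 = -(3 * v ^ 2 - 6 * v - 1) / (3 * v * (1 - v)) := by
      rw [hM]
      field_simp
      ring
    rw [e1, e2, Complex.normSq_div, Complex.normSq_div, Complex.normSq_neg]
    exact div_lt_div_of_pos_right hC
      (Complex.normSq_pos.2 (mul_ne_zero (mul_ne_zero (by norm_num) h2) h3))
  rw [Complex.normSq_apply, Complex.normSq_apply] at hD
  simp at hD
  nlinarith

theorem norm_g {t : ℂ} (h1 : 1 / 3 ≤ ‖t‖) (h2 : 0 < t.re) : ‖g t‖ ≤ 2 := by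
  have h3 : 1 ≤ ‖t + 1‖ := by
    refine le_trans ?_ (Complex.re_le_norm _)
    rw [Complex.add_re, Complex.one_re]
    linarith
  have h4 : ‖3 * t - 1‖ ≤ 3 * ‖t‖ + 1 := by
    refine (norm_sub_le _ _).trans ?_
    rw [norm_mul]
    have : ‖(3 : ℂ)‖ = 3 := by simp
    rw [this, norm_one]
  rw [g, norm_div, norm_mul, norm_mul]
  have h5 : ‖(3 : ℂ)‖ = 3 := by simp
  rw [h5, div_le_iff₀ (by positivity)]
  have h6 : 3 * ‖t‖ ≤ 3 * ‖t‖ * ‖t + 1‖ := le_mul_of_one_le_right (by positivity) h3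
  linarith

theorem mem_of_re {U : ℂ} (h : 1 < U.re) : U ∈ Hp 1 :=
  ⟨by linarith, fun _ => by linarith⟩

theorem norm_s {U : ℂ} (h0 : U + 3 ≠ 0) (h : 1 < U.re) : 1 / 3 ≤ ‖s U‖ := by
  have h1 : ‖s U‖ ^ 2 = ‖zz U‖ := by rw [← norm_pow, s_sq]
  have h2 : 1 / 9 ≤ ‖zz U‖ := by
    rw [zz, norm_div, le_div_iff₀ (by
      rw [norm_pos_iff]
      exact mul_ne_zero (by norm_num) h0)]
    have h5 : ‖(3 : ℂ)‖ = 3 := by simp
    rw [norm_mul, h5]
    have h6 : ‖U + 3‖ ≤ ‖3 * U + 1‖ := by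
      rw [← abs_of_nonneg (norm_nonneg (U + 3)), ← abs_of_nonneg (norm_nonneg (3 * U + 1)),
        ← sq_le_sq, ← Complex.normSq_eq_norm_sq, ← Complex.normSq_eq_norm_sq,
        Complex.normSq_apply, Complex.normSq_apply]
      simp
      nlinarith [sq_nonneg U.im]
    have h7 := norm_nonneg (U + 3)
    linarith
  rw [← h1] at h2
  by_contra hc
  push Not at hc
  have h3 := norm_nonneg (s U)
  nlinarith

theorem M_inc {U : ℂ} (h : 1 < U.re) : U.re + 1 ≤ (M U).re := by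
  have hg := gd_of_mem (mem_of_re h)
  have h1 := norm_g (norm_s hg.ne3 h) hg.re
  have h2 := Complex.re_le_norm (g (s U))
  rw [M, Complex.sub_re, Complex.add_re]
  have h4 : (3 : ℂ).re = 3 := rfl
  rw [h4]
  linarith

/-- the derivative of `g` -/
def g' (t : ℂ) : ℂ := (3 * t + 1) * (1 - t) / (3 * t ^ 2 * (t + 1) ^ 2)

theorem g_deriv {t : ℂ} (h0 : t ≠ 0) (h : t + 1 ≠ 0) : HasDerivAt g (g' t) t := by
  have h1 : HasDerivAt (fun t : ℂ => 3 * t - 1) (3 * 1) t :=
    ((hasDerivAt_id t).const_mul 3).sub_const 1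
  have h2 : HasDerivAt (fun t : ℂ => 3 * t * (t + 1)) (3 * 1 * (t + 1) + 3 * t * 1) t :=
    ((hasDerivAt_id t).const_mul 3).mul ((hasDerivAt_id t).add_const 1)
  refine (h1.div h2 (mul_ne_zero (mul_ne_zero (by norm_num) h0) h)).congr_deriv ?_
  rw [g']
  field_simp
  ring

theorem Gd.r_hasDeriv {U : ℂ} (h : Gd U) :
    HasDerivAt r (-(2 * (3 * deriv s U)) / (3 * s U - 1) ^ 2) U := by
  have h1 : HasDerivAt (fun U => 3 * s U - 1) (3 * deriv s U) U :=
    (h.s_diff.hasDerivAt.const_mul 3).sub_const 1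
  have h2 := (hasDerivAt_const U (2 : ℂ)).div h1 h.s3
  refine h2.congr_deriv ?_
  ring

theorem Gd.r_diff {U : ℂ} (h : Gd U) : DifferentiableAt ℂ r U := h.r_hasDeriv.differentiableAt

theorem Gd.M_deriv {U : ℂ} (h : Gd U) :
    HasDerivAt M (1 - g' (s U) * deriv s U) U := by
  have h2 : HasDerivAt (g ∘ s) (g' (s U) * deriv s U) U :=
    HasDerivAt.comp U (g_deriv h.s_ne h.s1') h.s_diff.hasDerivAt
  exact ((hasDerivAt_id U).add_const 3).sub h2

theorem Gd.r_log {U : ℂ} (h : Gd U) :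
    U * deriv r U / r U = -3 * (3 * s U + 1) * (1 - s U ^ 2) / (16 * s U) := by
  have h2 := h.s_ne
  have h3 := h.s1
  have h4 := h.s1'
  have h5 := h.s3
  have h6 := h.ne3
  have h7 := h.eq3
  have h8 := h.eq
  rw [h.r_hasDeriv.deriv, h.s_deriv, r, h7]
  obtain ⟨v, hv⟩ : ∃ v, v = s U := ⟨_, rfl⟩
  rw [← hv] at h2 h3 h4 h5 h8 ⊢
  rw [h8]
  field_simp
  ring

theorem tend_s0 : Tendsto s (𝓝[≠] 0) (𝓝 (1 / 3)) := by
  have h1 : ContinuousAt zz 0 := by
    unfold zz
    refine ContinuousAt.div (by fun_prop) (by fun_prop) ?_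
    norm_num
  have h2 : zz 0 = (1 / 3) ^ 2 := by rw [zz]; norm_num
  have h3 : ContinuousAt (fun z : ℂ => z ^ (((2 : ℕ) : ℂ)⁻¹)) ((1 / 3) ^ 2) :=
    continuousAt_cpow_const (sq_slit (by norm_num))
  have h4 : Tendsto zz (𝓝[≠] 0) (𝓝 ((1 / 3) ^ 2)) := by
    rw [← h2]
    exact h1.tendsto.mono_left nhdsWithin_le_nhds
  have h5 := h3.tendsto.comp h4
  have h6 : (((1 / 3 : ℂ) ^ 2) ^ (((2 : ℕ) : ℂ)⁻¹)) = 1 / 3 := half_sq (by norm_num)
  simp only [h6] at h5
  exact h5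

theorem Hp_le : 𝓝[Hp 1] (0 : ℂ) ≤ 𝓝[≠] 0 := by
  refine nhdsWithin_mono _ fun U hU => ?_
  exact (gd_of_mem hU).ne

theorem big {U : ℂ} (h : 9 < ‖U‖) : Gd U ∧ 1 / 3 < (s U).re := by
  have h0 : U ≠ 0 := by
    rintro rfl
    simp at h
    linarith
  have h6 : 6 < ‖U + 3‖ := by
    have h3 : ‖(3 : ℂ)‖ = 3 := by simp
    have h4 : ‖U‖ ≤ ‖U + 3‖ + ‖(3 : ℂ)‖ := by
      have h5 : U = (U + 3) - 3 := by ring
      conv_lhs => rw [h5]
      exact norm_sub_le _ _
    linarith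
  have h7 : U + 3 ≠ 0 := by
    intro h8
    rw [h8] at h6
    simp at h6
    linarith
  have h1 : ‖8 / (3 * (U + 3))‖ < 8 / 9 := by
    rw [norm_div, norm_mul]
    have h2 : ‖(8 : ℂ)‖ = 8 := by simp
    have h3 : ‖(3 : ℂ)‖ = 3 := by simp
    rw [h2, h3, div_lt_div_iff₀ (by positivity) (by norm_num)]
    linarith
  have h2 : 1 / 9 < (zz U).re := by
    have h3 := Complex.re_le_norm (8 / (3 * (U + 3)))
    have h4 : zz U = 1 - 8 / (3 * (U + 3)) := by
      rw [zz]
      field_simp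
      ring
    rw [h4, Complex.sub_re, Complex.one_re]
    linarith
  have h3 : Gd U := ⟨h0, h7, Complex.mem_slitPlane_iff.2 (Or.inl (by linarith))⟩
  refine ⟨h3, ?_⟩
  have h4 : (zz U).re ≤ (s U).re ^ 2 := by
    rw [← s_sq, pow_two, Complex.mul_re]
    nlinarith [mul_self_nonneg (s U).im]
  have h5 := h3.re
  by_contra hc
  push Not at hc
  nlinarith

theorem r_inv {U : ℂ} (h : 9 < ‖U‖) : r (-(M U)) = (r U)⁻¹ := by
  obtain ⟨hg, h1⟩ := big h
  have h2 := hg.s_ne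
  have h3 := hg.s1
  have h4 : 0 < (3 * s U - 1).re := by
    have h5 : (3 * s U - 1).re = 3 * (s U).re - 1 := by simp
    rw [h5]
    linarith
  have h5 := hg.s3
  have h6 : zz (-(M U)) = ((s U + 1) / (3 * s U - 1)) ^ 2 := by
    have e1 : 3 * (-(M U)) + 1 = -(s U + 1) ^ 2 / (s U * (1 - s U)) := by
      rw [hg.M_eq]
      field_simp
      ring
    have e2 : 3 * (-(M U) + 3) = -(3 * s U - 1) ^ 2 / (s U * (1 - s U)) := by
      rw [hg.M_eq]
      field_simp
      ring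
    rw [zz, e1, e2]
    field_simp
  have h7 : 0 < ((s U + 1) / (3 * s U - 1)).re := by
    have h8 : (s U + 1) / (3 * s U - 1) =
        ((1 / 3 : ℝ) : ℂ) + ((4 / 3 : ℝ) : ℂ) * (3 * s U - 1)⁻¹ := by
      rw [div_eq_iff h5, add_mul, mul_assoc, inv_mul_cancel₀ h5]
      push_cast
      ring
    rw [h8, Complex.add_re, Complex.re_ofReal_mul, Complex.inv_re, Complex.ofReal_re]
    have h9 := div_pos h4 (Complex.normSq_pos.2 h5)
    linarith
  have h8 : s (-(M U)) = (s U + 1) / (3 * s U - 1) := by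
    rw [s, h6, half_sq h7]
  have h9 : 3 * ((s U + 1) / (3 * s U - 1)) - 1 = 4 / (3 * s U - 1) := by
    field_simp
    ring
  rw [r, h8, h9, r]
  field_simp
  norm_num

theorem tend_s : Tendsto s (Bornology.cobounded ℂ) (𝓝 1) := by
  have h1 : Tendsto zz (Bornology.cobounded ℂ) (𝓝 1) := by
    have h0 : Tendsto (fun U : ℂ => U + 3) (Bornology.cobounded ℂ) (Bornology.cobounded ℂ) := by
      rw [← tendsto_norm_atTop_iff_cobounded]
      have h4 := (tendsto_norm_cobounded_atTop (E := ℂ)).atTop_add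
        (tendsto_const_nhds (x := -(3 : ℝ)) (f := Bornology.cobounded ℂ))
      refine tendsto_atTop_mono (fun U => ?_) h4
      have h5 : ‖U‖ ≤ ‖U + 3‖ + ‖(3 : ℂ)‖ := by
        have h6 : U = (U + 3) - 3 := by ring
        conv_lhs => rw [h6]
        exact norm_sub_le _ _
      have h7 : ‖(3 : ℂ)‖ = 3 := by simp
      linarith
    have h2 : Tendsto (fun U : ℂ => 1 - (8 / 3) * (U + 3)⁻¹) (Bornology.cobounded ℂ)
        (𝓝 (1 - (8 / 3) * 0)) :=
      ((tendsto_inv₀_cobounded.comp h0).const_mul _).const_sub _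
    rw [mul_zero, sub_zero] at h2
    refine h2.congr' ?_
    filter_upwards [h0.eventually_ne_cobounded 0] with U hU
    rw [zz]
    field_simp
    ring
  have h2 : ContinuousAt (fun z : ℂ => z ^ (((2 : ℕ) : ℂ)⁻¹)) 1 :=
    continuousAt_cpow_const (Complex.mem_slitPlane_iff.2 (Or.inl (by simp)))
  have h3 := h2.tendsto.comp h1
  simp only [Complex.one_cpow] at h3
  exact h3

end UFlex

open UFlex in
theorem uplane_flex : ∃ r M : ℂ → ℂ, UPlane mFlex 1 1 1 r M := by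
  refine ⟨UFlex.r, UFlex.M, ?_⟩
  have hne : ∀ U, Gd U → UFlex.r U ≠ 0 := by
    intro U hU
    rw [UFlex.r]
    exact div_ne_zero two_ne_zero hU.s3
  refine
    { μ_pos := one_pos
      ε_pos := one_pos
      r_diff := fun U hU => (gd_of_mem hU).r_diff.differentiableWithinAt
      r_ne := fun U hU => hne U (gd_of_mem hU)
      M_diff := fun U hU => (gd_of_mem hU).M_deriv.differentiableAt.differentiableWithinAt
      M_re := fun U hU => UFlex.M_re hU
      M_inc := fun U hU => UFlex.M_inc hU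
      zero_r := ?_
      zero_M := ?_
      zero_M' := ?_
      inf := ?_
      r_inf := ?_
      M_inf := ?_ }
  · have h1 : ContinuousAt (fun t : ℂ => -3 * (3 * t + 1) * (1 - t ^ 2) / (16 * t)) (1 / 3) := by
      refine ContinuousAt.div (by fun_prop) (by fun_prop) ?_
      norm_num
    have h2 := h1.tendsto.comp (tend_s0.mono_left Hp_le)
    have h3 : (-3 * (3 * (1 / 3 : ℂ) + 1) * (1 - (1 / 3) ^ 2) / (16 * (1 / 3))) =
        -(((1 : ℝ)) : ℂ) := by
      push_cast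
      norm_num
    rw [h3] at h2
    refine h2.congr' ?_
    filter_upwards [self_mem_nhdsWithin] with U hU
    exact ((gd_of_mem hU).r_log).symm
  · refine ⟨3, by norm_num, ?_⟩
    have h1 : ContinuousAt g (1 / 3) :=
      (g_deriv (by norm_num) (by norm_num)).continuousAt
    have h2 := h1.tendsto.comp (tend_s0.mono_left Hp_le)
    have h3 : Tendsto (fun U : ℂ => U + 3) (𝓝[Hp 1] 0) (𝓝 (0 + 3)) :=
      (tendsto_id.mono_left nhdsWithin_le_nhds).add_const 3
    have h4 := h3.sub h2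
    have h5 : g (1 / 3) = 0 := by simp [g]
    rw [h5, zero_add, sub_zero] at h4
    exact h4
  · have h1 : ContinuousAt (fun p : ℂ × ℂ => p.1 * (1 - g' p.2 * (4 / (3 * (p.1 + 3) ^ 2 * p.2))))
        (0, 1 / 3) := by
      unfold g'
      refine ContinuousAt.mul (by fun_prop) (ContinuousAt.sub (by fun_prop)
        (ContinuousAt.mul (ContinuousAt.div (by fun_prop) (by fun_prop) ?_)
          (ContinuousAt.div (by fun_prop) (by fun_prop) ?_)))
      · norm_num
      · norm_num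
    have h3 : Tendsto (fun U : ℂ => (U, s U)) (𝓝[Hp 1] 0) (𝓝 ((0 : ℂ), (1 / 3 : ℂ))) :=
      (tendsto_id.mono_left nhdsWithin_le_nhds).prodMk_nhds (tend_s0.mono_left Hp_le)
    have h2 := h1.tendsto.comp h3
    simp only [zero_mul] at h2
    refine h2.congr' ?_
    filter_upwards [self_mem_nhdsWithin] with U hU
    have hg := gd_of_mem hU
    simp only [Function.comp_apply]
    rw [hg.M_deriv.deriv, hg.s_deriv]
  · refine ⟨9, by norm_num, fun U hU => ?_⟩
    obtain ⟨hg, -⟩ := big hU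
    refine ⟨hg.r_diff, hg.M_deriv.differentiableAt, ?_, r_inv hU⟩
    have h2 := hg.s_ne
    have h3 := hg.s1
    have h4 := hg.s1'
    have h5 := hg.s3
    have h5' := hg.s3'
    have e1 : UFlex.r U - 1 = 3 * (1 - s U) / (3 * s U - 1) := by
      rw [UFlex.r]
      field_simp
      ring
    have e2 : 3 + 2 * (3 * (1 - s U) / (3 * s U - 1)) = 3 * (s U + 1) / (3 * s U - 1) := by
      field_simp
      ring
    have e3 : 2 + 3 * (1 - s U) / (3 * s U - 1) = (3 * s U + 1) / (3 * s U - 1) := by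
      field_simp
      ring
    rw [mFlex, e1, e2, e3]
    conv_rhs => rw [hg.eq]
    field_simp
  · have h1 : Tendsto (fun U => 3 * s U - 1) (Bornology.cobounded ℂ) (𝓝 (3 * 1 - 1)) :=
      (tend_s.const_mul 3).sub_const 1
    have h2 := (tendsto_const_nhds (x := (2 : ℂ)) (f := Bornology.cobounded ℂ)).div h1
      (by norm_num)
    have h3 : (2 : ℂ) / (3 * 1 - 1) = 1 := by norm_num
    rw [h3] at h2
    exact h2
  · have h2 : ContinuousAt g 1 := (g_deriv one_ne_zero (by norm_num)).continuousAt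
    have h3 := (h2.tendsto.comp tend_s).const_sub 3
    rw [← tendsto_norm_atTop_iff_cobounded]
    have h4 := (tendsto_norm_cobounded_atTop (E := ℂ)).atTop_add h3.norm.neg
    refine tendsto_atTop_mono (fun U => ?_) h4
    change ‖U‖ + -‖3 - g (s U)‖ ≤ ‖M U‖
    have h5 : ‖U‖ ≤ ‖M U‖ + ‖3 - g (s U)‖ := by
      have h6 : U = M U - (3 - g (s U)) := by rw [M]; ring
      conv_lhs => rw [h6]
      exact norm_sub_le _ _
    linarith

end Pool.Agent.MP_ae5b4e_an_FLEX
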