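import Pool.Agent.Lib.MP_ae5b4e_an_FLEX.Zero
import Pool.Agent.Lib.MP_ae5b4e_an_FLEX.One
import Pool.Agent.Lib.MP_ae5b4e_an_FLEX.UFlex
import Pool.Agent.Lib.MP_ae5b4e_an_FLEX.UCusp

/-!
# MP_ae5b4e_an, project FLEX, module FQ: no flex, no cusp

At a flex (resp. cusp) the map `a η = A (0, η)` satisfies `m0 (-a) = -m0`, which gives
`a'' 0 = 2 / 3` (resp. `4 / 3`); this contradicts `(1 + a'' 0 / 2) e = 1`.
-/

set_option autoImplicit false

noncomputable section

namespace Pool.Agent.MP_ae5b4e_an_FLEX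

open Filter Topology Set Metric
open Pool.Agent.MP_ae5b4e_an_ND (cc cf co Dx Dy Filt)

namespace OneFin

/-- Second derivative of a function which satisfies a polynomial equation near the origin. -/
theorem second_flex {a : ℂ → ℂ} (ha : AnalyticAt ℂ a 0) (ha0 : a 0 = 0) (ha1 : deriv a 0 = 1)
    (h : ∀ᶠ η in 𝓝 (0:ℂ), a η * (3 - 2 * a η) * (2 + η) = η * (3 + 2 * η) * (2 - a η)) :
    deriv (deriv a) 0 = 2 / 3 := by
  have hd : ∀ᶠ η in 𝓝 (0:ℂ), HasDerivAt a (deriv a η) η :=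
    ha.eventually_analyticAt.mono fun η hη => hη.differentiableAt.hasDerivAt
  have h1 : (fun η => a η * (3 - 2 * a η) * (2 + η) - η * (3 + 2 * η) * (2 - a η)) =ᶠ[𝓝 (0:ℂ)]
      fun _ => (0:ℂ) := by
    filter_upwards [h] with η hη
    rw [hη, sub_self]
  have h2 := h1.deriv
  have h3 : (fun η => (deriv a η * (3 - 2 * a η) + a η * (-(2 * deriv a η))) * (2 + η) +
      a η * (3 - 2 * a η) - ((3 + 2 * η + η * 2) * (2 - a η) + η * (3 + 2 * η) * (-deriv a η)))
      =ᶠ[𝓝 (0:ℂ)] fun _ => (0:ℂ) := by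
    filter_upwards [h2, hd] with η h2η hη
    have e1 : HasDerivAt (fun η => a η * (3 - 2 * a η) * (2 + η) - η * (3 + 2 * η) * (2 - a η))
        ((deriv a η * (3 - 2 * a η) + a η * (-(2 * deriv a η))) * (2 + η) +
          a η * (3 - 2 * a η) * 1 - ((1 * (3 + 2 * η) + η * (2 * 1)) * (2 - a η) +
            η * (3 + 2 * η) * (-deriv a η))) η :=
      ((hη.mul ((hη.const_mul 2).const_sub 3)).mul ((hasDerivAt_id η).const_add 2)).sub
        (((hasDerivAt_id η).mul (((hasDerivAt_id η).const_mul 2).const_add 3)).mul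
          (hη.const_sub 2))
    rw [e1.deriv, deriv_const] at h2η
    rw [← h2η]
    ring
  have hd2 : HasDerivAt (deriv a) (deriv (deriv a) 0) 0 :=
    ha.deriv.differentiableAt.hasDerivAt
  have hd1 : HasDerivAt a (deriv a 0) 0 := ha.differentiableAt.hasDerivAt
  have e2 := (((hd2.mul ((hd1.const_mul 2).const_sub 3)).add
    (hd1.mul ((hd2.const_mul 2).neg))).mul ((hasDerivAt_id (0:ℂ)).const_add 2)).add
      (hd1.mul ((hd1.const_mul 2).const_sub 3))
  have e3 := (((((hasDerivAt_id (0:ℂ)).const_mul 2).const_add 3).add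
    ((hasDerivAt_id (0:ℂ)).mul_const 2)).mul (hd1.const_sub 2)).add
      (((hasDerivAt_id (0:ℂ)).mul (((hasDerivAt_id (0:ℂ)).const_mul 2).const_add 3)).mul hd2.neg)
  have e4 := e2.sub e3
  have e5 := h3.deriv_eq
  have e6 := e4.deriv
  have e7 : deriv (fun η => (deriv a η * (3 - 2 * a η) + a η * (-(2 * deriv a η))) * (2 + η) +
      a η * (3 - 2 * a η) - ((3 + 2 * η + η * 2) * (2 - a η) + η * (3 + 2 * η) * (-deriv a η))) 0
      = _ := e6
  rw [e7, deriv_const] at e5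
  simp only [Pi.mul_apply, Pi.add_apply, Pi.neg_apply, id_eq, ha0, ha1] at e5
  linear_combination (1 / 6 : ℂ) * e5

theorem second_cusp {a : ℂ → ℂ} (ha : AnalyticAt ℂ a 0) (ha0 : a 0 = 0) (ha1 : deriv a 0 = 1)
    (h : ∀ᶠ η in 𝓝 (0:ℂ), a η * (3 - a η) = η * (3 + η)) :
    deriv (deriv a) 0 = 4 / 3 := by
  have hd : ∀ᶠ η in 𝓝 (0:ℂ), HasDerivAt a (deriv a η) η :=
    ha.eventually_analyticAt.mono fun η hη => hη.differentiableAt.hasDerivAt
  have h1 : (fun η => a η * (3 - a η) - η * (3 + η)) =ᶠ[𝓝 (0:ℂ)] fun _ => (0:ℂ) := by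
    filter_upwards [h] with η hη
    rw [hη, sub_self]
  have h2 := h1.deriv
  have h3 : (fun η => deriv a η * (3 - a η) + a η * (-deriv a η) - (3 + η + η))
      =ᶠ[𝓝 (0:ℂ)] fun _ => (0:ℂ) := by
    filter_upwards [h2, hd] with η h2η hη
    have e1 : HasDerivAt (fun η => a η * (3 - a η) - η * (3 + η))
        (deriv a η * (3 - a η) + a η * (-deriv a η) - (1 * (3 + η) + η * 1)) η :=
      (hη.mul (hη.const_sub 3)).sub ((hasDerivAt_id η).mul ((hasDerivAt_id η).const_add 3))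
    rw [e1.deriv, deriv_const] at h2η
    rw [← h2η]
    ring
  have hd2 : HasDerivAt (deriv a) (deriv (deriv a) 0) 0 :=
    ha.deriv.differentiableAt.hasDerivAt
  have hd1 : HasDerivAt a (deriv a 0) 0 := ha.differentiableAt.hasDerivAt
  have e4 := ((hd2.mul (hd1.const_sub 3)).add (hd1.mul hd2.neg)).sub
    (((hasDerivAt_id (0:ℂ)).const_add 3).add (hasDerivAt_id (0:ℂ)))
  have e5 := h3.deriv_eq
  have e7 : deriv (fun η => deriv a η * (3 - a η) + a η * (-deriv a η) - (3 + η + η)) 0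
      = _ := e4.deriv
  rw [e7, deriv_const] at e5
  simp only [Pi.neg_apply, ha0, ha1] at e5
  linear_combination (1 / 3 : ℂ) * e5

end OneFin

open OneFin

theorem no_flex_place {Yf A : ℂ × ℂ → ℂ} {δ : ℝ} (hp : PlaceY Yf A δ)
    (hA : ∀ᶠ η in 𝓝 (0:ℂ), mFlex (-A (0, η)) = -mFlex η) : False := by
  have hana : AnalyticAt ℂ (fun η => A (0, η)) 0 := by
    have h1 : AnalyticAt ℂ A ((0:ℂ), (0:ℂ)) :=
      hp.A_ana 0 0 (by simpa using hp.δ_pos) (by simpa using hp.δ_pos)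
    exact h1.comp_of_eq (AnalyticAt.prod analyticAt_const analyticAt_id) rfl
  have h0 : A (0, 0) = 0 := hp.A_zero 0 (by simpa using hp.δ_pos)
  have h1 : deriv (fun η => A (0, η)) 0 = 1 := hp.A_der 0 (by simpa using hp.δ_pos)
  have hcont : Tendsto (fun η => A (0, η)) (𝓝 0) (𝓝 0) := by
    have := hana.continuousAt.tendsto
    simpa [h0] using this
  have h2 : deriv (deriv fun η => A (0, η)) 0 = 2 / 3 := by
    apply second_flex hana h0 h1
    have n1 : ∀ᶠ η in 𝓝 (0:ℂ), 2 - A (0, η) ≠ 0 := by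
      have : Tendsto (fun η => 2 - A (0, η)) (𝓝 (0:ℂ)) (𝓝 (2 - 0)) := tendsto_const_nhds.sub hcont
      exact this.eventually_ne (by norm_num)
    have n2 : ∀ᶠ η in 𝓝 (0:ℂ), 2 + η ≠ 0 := by
      have : Tendsto (fun η : ℂ => 2 + η) (𝓝 (0:ℂ)) (𝓝 (2 + 0)) :=
        tendsto_const_nhds.add tendsto_id
      exact this.eventually_ne (by norm_num)
    filter_upwards [hA, n1, n2] with η hη hn1 hn2
    have hn1' : 2 + -A (0, η) ≠ 0 := by
      rw [← sub_eq_add_neg]; exact hn1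
    simp only [mFlex] at hη
    field_simp at hη
    linear_combination (-1 : ℂ) * hη
  obtain ⟨Q, hQ, hQ0, hQ1, hFI⟩ := placeY_zero hp
  obtain ⟨r, M, hU⟩ := uplane_flex
  have hm : AnalyticAt ℂ mFlex 0 := by
    have : AnalyticAt ℂ (fun η : ℂ => η * (3 + 2 * η) / (3 * (2 + η))) 0 := by
      apply AnalyticAt.div
      · fun_prop
      · fun_prop
      · norm_num
    exact this
  have hm0 : mFlex 0 = 0 := by simp [mFlex]
  have hm1 : deriv mFlex 0 ≠ 0 := by
    have e : HasDerivAt (fun η : ℂ => η * (3 + 2 * η) / (3 * (2 + η)))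
        (((1 * (3 + 2 * 0) + 0 * (2 * 1)) * (3 * (2 + 0)) - 0 * (3 + 2 * 0) * (3 * 1)) /
          (3 * (2 + 0)) ^ 2) (0:ℂ) :=
      ((hasDerivAt_id (0:ℂ)).mul (((hasDerivAt_id (0:ℂ)).const_mul 2).const_add 3)).div
        (((hasDerivAt_id (0:ℂ)).const_add 2).const_mul 3) (by norm_num)
    have e' : deriv mFlex 0 = _ := e.deriv
    rw [e']
    norm_num
  have key := one_of_uplane hU hm hm0 hm1 hana h0 h1 (by rw [h2]; norm_num) hA hQ hQ0 hQ1 hFI
  rw [h2] at key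
  norm_num at key

theorem no_cusp_place {Yf A : ℂ × ℂ → ℂ} {δ : ℝ} (hp : PlaceY Yf A δ)
    (hA : ∀ᶠ η in 𝓝 (0:ℂ), mCusp (-A (0, η)) = -mCusp η) : False := by
  have hana : AnalyticAt ℂ (fun η => A (0, η)) 0 := by
    have h1 : AnalyticAt ℂ A ((0:ℂ), (0:ℂ)) :=
      hp.A_ana 0 0 (by simpa using hp.δ_pos) (by simpa using hp.δ_pos)
    exact h1.comp_of_eq (AnalyticAt.prod analyticAt_const analyticAt_id) rfl
  have h0 : A (0, 0) = 0 := hp.A_zero 0 (by simpa using hp.δ_pos)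
  have h1 : deriv (fun η => A (0, η)) 0 = 1 := hp.A_der 0 (by simpa using hp.δ_pos)
  have h2 : deriv (deriv fun η => A (0, η)) 0 = 4 / 3 := by
    apply second_cusp hana h0 h1
    filter_upwards [hA] with η hη
    simp only [mCusp] at hη
    linear_combination (-6 : ℂ) * hη
  obtain ⟨Q, hQ, hQ0, hQ1, hFI⟩ := placeY_zero hp
  obtain ⟨r, M, hU⟩ := uplane_cusp
  have hm : AnalyticAt ℂ mCusp 0 := by
    have : AnalyticAt ℂ (fun η : ℂ => η * (3 + η) / 6) 0 := by fun_prop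
    exact this
  have hm0 : mCusp 0 = 0 := by simp [mCusp]
  have hm1 : deriv mCusp 0 ≠ 0 := by
    have e : HasDerivAt (fun η : ℂ => η * (3 + η) / 6) ((1 * (3 + 0) + 0 * 1) / 6) (0:ℂ) :=
      ((hasDerivAt_id (0:ℂ)).mul ((hasDerivAt_id (0:ℂ)).const_add 3)).div_const 6
    have e' : deriv mCusp 0 = _ := e.deriv
    rw [e']
    norm_num
  have key := one_of_uplane hU hm hm0 hm1 hana h0 h1 (by rw [h2]; norm_num) hA hQ hQ0 hQ1 hFI
  rw [h2] at key
  norm_num at key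

end Pool.Agent.MP_ae5b4e_an_FLEX
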