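import Pool.Agent.Lib.MP_ae5b4e_an_FLEX.Defs

/-!
# MP_ae5b4e_an, flexes: translation of the parameter
-/

namespace Pool.Agent.MP_ae5b4e_an_FLEX

open Filter Topology Set Metric
open Pool.Agent.MP_ae5b4e_an_ND (cc cf co Dx Dy Filt)

namespace Shift

theorem deriv_shift (X : ℂ → ℂ) (t₁ : ℂ) :
    deriv (fun t => X (t₁ + t)) = fun t => deriv X (t₁ + t) :=
  funext fun t => deriv_comp_const_add X t₁ t

theorem brN_shift (X Y : ℂ → ℂ) (t₁ t s : ℂ) :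
    brN (fun t => X (t₁ + t)) (fun t => Y (t₁ + t)) t s = brN X Y (t₁ + t) (t₁ + s) := by
  unfold brN
  rw [deriv_shift, deriv_shift]

theorem brD_shift (X Y : ℂ → ℂ) (t₁ t s : ℂ) :
    brD (fun t => X (t₁ + t)) (fun t => Y (t₁ + t)) t s = brD X Y (t₁ + t) (t₁ + s) := by
  unfold brD
  rw [deriv_shift, deriv_shift]

theorem Wr_shift (X Y : ℂ → ℂ) (t₁ t : ℂ) :
    Wr (fun t => X (t₁ + t)) (fun t => Y (t₁ + t)) t = Wr X Y (t₁ + t) := by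
  unfold Wr
  rw [deriv_shift, deriv_shift, deriv_shift (deriv X), deriv_shift (deriv Y)]

theorem ana_shift {X : ℂ → ℂ} {t₁ s : ℂ} (h : AnalyticAt ℂ X (t₁ + s)) :
    AnalyticAt ℂ (fun t => X (t₁ + t)) s := by
  have h1 : AnalyticAt ℂ (fun t : ℂ => t₁ + t) s := by fun_prop
  exact AnalyticAt.fun_comp (g := X) (f := fun t : ℂ => t₁ + t) (x := s) h h1

theorem tend1 (t₁ s : ℂ) : Tendsto (fun t : ℂ => t₁ + t) (𝓝 s) (𝓝 (t₁ + s)) := by
  have : Continuous (fun t : ℂ => t₁ + t) := by fun_prop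
  exact this.tendsto s

theorem tend2 (t₁ s : ℂ) : Tendsto (fun p : ℂ × ℂ => (t₁ + p.1, p.2)) (𝓝 (s, 0))
    (𝓝 (t₁ + s, 0)) := by
  have : Continuous (fun p : ℂ × ℂ => (t₁ + p.1, p.2)) := by fun_prop
  exact this.tendsto (s, 0)

theorem ana_shift2 {F : ℂ × ℂ → ℂ} {t₁ s : ℂ} (h : AnalyticAt ℂ F (t₁ + s, 0)) :
    AnalyticAt ℂ (fun p : ℂ × ℂ => F (t₁ + p.1, p.2)) (s, 0) := by
  have h1 : AnalyticAt ℂ (fun p : ℂ × ℂ => (t₁ + p.1, p.2)) (s, 0) :=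
    (analyticAt_const.add analyticAt_fst).prod analyticAt_snd
  exact AnalyticAt.fun_comp (g := F) (f := fun p : ℂ × ℂ => (t₁ + p.1, p.2)) (x := (s, 0)) h h1

theorem kick_shift {Yf : ℂ × ℂ → ℂ} {t₁ s : ℂ} (h : Kick Yf (t₁ + s)) :
    Kick (fun p => Yf (t₁ + p.1, p.2)) s where
  ana := ana_shift2 h.ana
  zero := (tend1 t₁ s).eventually h.zero
  der := (tend1 t₁ s).eventually h.der
  rev := (tend2 t₁ s).eventually h.rev

theorem goodY_shift {Yf : ℂ × ℂ → ℂ} {t₁ s : ℂ} (h : GoodY Yf (t₁ + s)) :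
    GoodY (fun p => Yf (t₁ + p.1, p.2)) s := by
  obtain ⟨hk, S, hS, h0, hd, hT⟩ := h
  refine ⟨kick_shift hk, fun p => S (t₁ + p.1, p.2), ana_shift2 hS,
    (tend1 t₁ s).eventually h0, hd, ?_⟩
  filter_upwards [(tend2 t₁ s).eventually hT] with p hp
  rw [← hp]
  unfold TY
  rw [add_sub_assoc]

end Shift

theorem goodG_shift {X Y K : ℂ → ℂ} {t₁ s : ℂ} (h : GoodG X Y K (t₁ + s)) :
    GoodG (fun t => X (t₁ + t)) (fun t => Y (t₁ + t)) (fun t => K (t₁ + t)) s := by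
  obtain ⟨⟨hX, hY, hK, hW⟩, Yf, ⟨hk, he⟩, hg⟩ := h
  refine ⟨⟨Shift.ana_shift hX, Shift.ana_shift hY, Shift.ana_shift hK, ?_⟩,
    fun p => Yf (t₁ + p.1, p.2), ⟨Shift.kick_shift hk, ?_⟩, Shift.goodY_shift hg⟩
  · rw [Shift.Wr_shift]
    exact hW
  · filter_upwards [(Shift.tend2 t₁ s).eventually he] with p hp
    simp only [Shift.brD_shift, Shift.brN_shift]
    rw [← add_assoc, ← add_sub_assoc]
    exact hp

end Pool.Agent.MP_ae5b4e_an_FLEX
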