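import Mathlib
import Pool.Agent.Lib.MP_ae5b4e_an_FLEX.Defs
import Pool.Agent.Lib.MP_ae5b4e_an_FLEX.GeoProp
import Pool.Agent.Lib.MP_ae5b4e_an_FLEX.GeoFlex
import Pool.Agent.Lib.MP_ae5b4e_an_FLEX.GeoCusp
import Pool.Agent.Lib.MP_ae5b4e_an_FLEX.Shift
import Pool.Agent.Lib.MP_ae5b4e_an_FLEX.RealGood
import Pool.Agent.Lib.MP_ae5b4e_an_FLEX.OneFin

/-!
# MP_ae5b4e_an: flexes and cusps of the complexified curve

Let `γ` be a smooth closed convex curve with positive curvature in the plane, foliated from outside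
by closed curves such that all the induced involutions of the tangent lines are projective.  Assume
that the foliation is real-analytic near one point of `γ`.  If the curve and the field of the
involutions are continued analytically to a complex domain of the parameter (which may reach
arbitrarily far from the real points), then the complexified curve has no ordinary flex and no
ordinary cusp in this domain.

Idea of the proof.  In a neighbourhood of the real point the foliation gives an analytic first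
integral of the map of consecutive tangency parameters `(x, x + y) ↦ (x - y', x)`.  Its existence
near the axis `y = 0` is continued along all paths in the set of the regular points (a Hartogs
argument), and the slopes of its level curves are differential polynomials of the curve and of the
field.  At a flex or a cusp `x = 0` these coefficients, multiplied by the right powers of `x`, are
bounded by the maximum principle, and their values at `x = 0` give a convergent solution of a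
functional equation for the homogeneous curves `w = x ^ 3` and `(t ^ 2, t ^ 3)`.  The solution has
two symmetries; they extend the logarithmic derivative of the first integral to the whole plane of a
coordinate `U` of the tangent line, with one simple pole at `U = 0`, and a residue count gives a
contradiction.
-/

noncomputable section

namespace Pool.Agent.MP_ae5b4e_an_FLEX.Final

open Set Filter Topology
open Pool.Agent.MP_ae5b4e_an_hopf Pool.Agent.MP_ae5b4e_an_FLEX

/-- The complexification of the curve has no ordinary flexes and no ordinary cusps. -/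
theorem result (γ : ConvexCurve) (U : ℝ → ℝ → ℝ) (κ : ℝ → ℝ) (t₀ : ℝ)
    (hsmooth : ContDiffOn ℝ 1 (fun q : ℝ × ℝ => U q.1 q.2) (Ioo 0 1 ×ˢ univ))
    (_hper : ∀ c ∈ Ioo (0:ℝ) 1, ∀ t, U c (t + γ.T) = U c t)
    (hsimple : ∀ c ∈ Ioo (0:ℝ) 1, ∀ t t', γ.pt t (U c t) = γ.pt t' (U c t') →
      ∃ n : ℤ, t' = t + n * γ.T)
    (hmono : ∀ c ∈ Ioo (0:ℝ) 1, ∀ t, deriv (fun r => U r t) c < 0)
    (hlim : ∀ t, Tendsto (fun c => U c t) (𝓝[>] 0) atTop)
    (hproj : ∀ c ∈ Ioo (0:ℝ) 1, ∀ t u v, u ≠ v → γ.pt t u ∈ γ.leaf U c →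
      γ.pt t v ∈ γ.leaf U c → u + v = κ t)
    (hana : ∃ (F : ℝ × ℝ → ℝ) (f : ℝ → ℝ), AnalyticAt ℝ F (γ.x t₀, γ.y t₀) ∧
      fderiv ℝ F (γ.x t₀, γ.y t₀) ≠ 0 ∧ ∀ᶠ q in 𝓝 ((0, t₀) : ℝ × ℝ), 0 < q.1 →
        F (γ.x q.2 + deriv γ.x q.2 / U q.1 q.2, γ.y q.2 + deriv γ.y q.2 / U q.1 q.2) = f q.1)
    {D : Set ℂ} (hD : IsOpen D) (hDc : IsPreconnected D) (ht₀ : (t₀ : ℂ) ∈ D) {X Y K : ℂ → ℂ}
    (hX : DifferentiableOn ℂ X D) (hY : DifferentiableOn ℂ Y D) (hK : DifferentiableOn ℂ K D)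
    (hXr : ∀ᶠ t : ℝ in 𝓝 t₀, X t = γ.x t) (hYr : ∀ᶠ t : ℝ in 𝓝 t₀, Y t = γ.y t)
    (hKr : ∀ᶠ t : ℝ in 𝓝 t₀, K t = κ t) {t₁ : ℂ} (ht₁ : t₁ ∈ D) :
    ¬ (Wr X Y t₁ = 0 ∧ deriv (Wr X Y) t₁ ≠ 0) ∧
    ¬ (deriv X t₁ = 0 ∧ deriv Y t₁ = 0 ∧ Wr2 X Y t₁ ≠ 0) := by
  obtain ⟨F, f, hF, hF', hFl⟩ := hana
  have hcont := hsmooth.continuousOn
  have hmono' : ∀ c ∈ Ioo (0:ℝ) 1, ∀ c' ∈ Ioo (0:ℝ) 1, c < c' → ∀ t, U c' t < U c t := by
    intro c hc c' hc' hcc t
    have h1 : ContinuousOn (fun r => U r t) (Ioo 0 1) :=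
      hcont.comp (f := fun r : ℝ => ((r, t) : ℝ × ℝ)) (by fun_prop) (fun r hr => ⟨hr, mem_univ t⟩)
    have h2 : StrictAntiOn (fun r => U r t) (Ioo 0 1) := by
      apply strictAntiOn_of_deriv_neg (convex_Ioo 0 1) h1
      intro r hr
      rw [interior_Ioo] at hr
      exact hmono r hr t
    exact h2 hc hc' hcc
  have hXa := fun {t : ℂ} (ht : t ∈ D) => hX.analyticAt (hD.mem_nhds ht)
  have hYa := fun {t : ℂ} (ht : t ∈ D) => hY.analyticAt (hD.mem_nhds ht)
  have hKa := fun {t : ℂ} (ht : t ∈ D) => hK.analyticAt (hD.mem_nhds ht)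
  have hgood := real_good γ U κ t₀ hcont hsimple hmono' hlim hproj hF hF' hFl
    (hXa ht₀) (hYa ht₀) (hKa ht₀) hXr hYr hKr
  have hall := goodG_all hD hDc hX hY hK ht₀ hgood t₁ ht₁
  have htend : Tendsto (fun s : ℂ => t₁ + s) (𝓝[≠] (0:ℂ)) (𝓝[≠] t₁) := by
    apply tendsto_nhdsWithin_iff.2
    refine ⟨?_, ?_⟩
    · have : Continuous (fun s : ℂ => t₁ + s) := by fun_prop
      exact (this.tendsto' 0 t₁ (add_zero t₁)).mono_left nhdsWithin_le_nhds
    · filter_upwards [self_mem_nhdsWithin] with s hs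
      intro h
      apply hs
      have h1 : t₁ + s = t₁ := h
      exact add_eq_left.1 h1
  have hg : ∀ᶠ s in 𝓝[≠] (0:ℂ), GoodG (fun t => X (t₁ + t)) (fun t => Y (t₁ + t))
      (fun t => K (t₁ + t)) s :=
    (htend.eventually hall).mono fun s h => goodG_shift h
  have e0 : ∀ {f : ℂ → ℂ}, AnalyticAt ℂ f t₁ → AnalyticAt ℂ (fun t => f (t₁ + t)) 0 := by
    intro f hf
    exact Shift.ana_shift (t₁ := t₁) (s := 0) (by rwa [add_zero])
  have e1 : Wr (fun t => X (t₁ + t)) (fun t => Y (t₁ + t)) = fun t => Wr X Y (t₁ + t) :=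
    funext fun t => Shift.Wr_shift X Y t₁ t
  constructor
  · rintro ⟨hW, hW'⟩
    have e2 : deriv (Wr (fun t => X (t₁ + t)) (fun t => Y (t₁ + t))) 0 = deriv (Wr X Y) t₁ := by
      rw [e1, Shift.deriv_shift (Wr X Y) t₁]
      simp only [add_zero]
    obtain ⟨Yf, A, δ, hp, hA⟩ := place_flex (e0 (hXa ht₁)) (e0 (hYa ht₁)) (e0 (hKa ht₁))
      (by rw [e1]; simpa using hW) (by rw [e2]; exact hW') hg
    exact no_flex_place hp hA
  · rintro ⟨hX', hY', hW2⟩
    have d1 : ∀ (f : ℂ → ℂ), deriv (fun t => f (t₁ + t)) = fun t => deriv f (t₁ + t) :=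
      fun f => Shift.deriv_shift f t₁
    have e2 : Wr2 (fun t => X (t₁ + t)) (fun t => Y (t₁ + t)) 0 = Wr2 X Y t₁ := by
      unfold Wr2
      rw [d1 X, d1 Y, d1 (deriv X), d1 (deriv Y), d1 (deriv (deriv X)), d1 (deriv (deriv Y))]
      simp only [add_zero]
    obtain ⟨Yf, A, δ, hp, hA⟩ := place_cusp (e0 (hXa ht₁)) (e0 (hYa ht₁)) (e0 (hKa ht₁))
      (by rw [d1 X]; simpa using hX') (by rw [d1 Y]; simpa using hY') (by rw [e2]; exact hW2) hg
    exact no_cusp_place hp hA

end Pool.Agent.MP_ae5b4e_an_FLEX.Final
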