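import Mathlib
import Pool.Agent.Lib.MP_ae5b4e_an_FLEX.Defs

/-!
# MP_ae5b4e_an, FLEX, module FA: abstract orbits near the axis
-/

noncomputable section

namespace Pool.Agent.MP_ae5b4e_an_FLEX

open Filter Topology Set Metric
open Pool.Agent.MP_ae5b4e_an_ND (cc cf co Dx Dy Filt)

namespace Orb

variable {R1 M rg : ℝ}

/-- iterates of a map `F (x, y) ≈ (x + s y, y)`, `‖s‖ = 1` -/
theorem iter {F : ℂ × ℂ → ℂ × ℂ} {s : ℂ} (hs : ‖s‖ = 1) (hM : 1 ≤ M)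
    (hF : ∀ p : ℂ × ℂ, ‖p.1‖ < R1 → ‖p.2‖ < rg → AnalyticAt ℂ F p ∧
      ‖(F p).2 - p.2‖ ≤ M * ‖p.2‖ ^ 2 ∧ ‖(F p).1 - (p.1 + s * p.2)‖ ≤ M * ‖p.2‖ ^ 2)
    (p : ℂ × ℂ) (k : ℕ) (h1 : (k : ℝ) * M * ‖p.2‖ ≤ 1 / 100)
    (h3 : 2 * ‖p.2‖ < rg) (h4 : ‖p.1‖ + 2 * (k : ℝ) * ‖p.2‖ < R1) :
    ‖(F^[k] p).2 - p.2‖ ≤ 2 * (k : ℝ) * M * ‖p.2‖ ^ 2 ∧
    ‖(F^[k] p).1 - (p.1 + s * (k * p.2))‖ ≤ 4 * (k : ℝ) ^ 2 * M * ‖p.2‖ ^ 2 ∧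
    AnalyticAt ℂ (F^[k]) p ∧ ‖(F^[k] p).1‖ < R1 ∧ ‖(F^[k] p).2‖ ≤ 51 / 50 * ‖p.2‖ := by
  have hy := norm_nonneg p.2
  have hstep : ∀ k : ℕ, (k : ℝ) * M * ‖p.2‖ ≤ 1 / 100 → ‖p.1‖ + 2 * (k : ℝ) * ‖p.2‖ < R1 →
      ‖(F^[k] p).2 - p.2‖ ≤ 2 * (k : ℝ) * M * ‖p.2‖ ^ 2 →
      ‖(F^[k] p).1 - (p.1 + s * (k * p.2))‖ ≤ 4 * (k : ℝ) ^ 2 * M * ‖p.2‖ ^ 2 →
      ‖(F^[k] p).1‖ < R1 ∧ ‖(F^[k] p).2‖ ≤ 51 / 50 * ‖p.2‖ := by
    intro k h1 h4 i1 i2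
    have hk : (0 : ℝ) ≤ k := Nat.cast_nonneg k
    set q := F^[k] p with hq
    constructor
    · have h5 : ‖q.1‖ ≤ ‖q.1 - (p.1 + s * (k * p.2))‖ + (‖p.1‖ + k * ‖p.2‖) := by
        have e1 := norm_add_le (q.1 - (p.1 + s * (k * p.2))) (p.1 + s * (k * p.2))
        have e2 := norm_add_le p.1 (s * ((k : ℂ) * p.2))
        rw [norm_mul, hs, one_mul, norm_mul, Complex.norm_natCast] at e2
        simp only [sub_add_cancel] at e1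
        linarith
      nlinarith [mul_nonneg hk hy]
    · have h5 : ‖q.2‖ ≤ ‖q.2 - p.2‖ + ‖p.2‖ := by
        have := norm_add_le (q.2 - p.2) p.2
        simpa using this
      nlinarith
  induction k with
  | zero =>
    simp only [Function.iterate_zero, id_eq, sub_self, norm_zero, CharP.cast_eq_zero, zero_mul,
      mul_zero, add_zero, le_refl, true_and]
    refine ⟨by simp, analyticAt_id, ?_, ?_⟩
    · simpa using h4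
    · linarith
  | succ k ih =>
    have hk : (0 : ℝ) ≤ k := Nat.cast_nonneg k
    have h1s := h1
    have h4s := h4
    push_cast at h1 h4
    have hMy : 0 ≤ M * ‖p.2‖ := by positivity
    have h1' : (k : ℝ) * M * ‖p.2‖ ≤ 1 / 100 := by nlinarith
    have h4' : ‖p.1‖ + 2 * (k : ℝ) * ‖p.2‖ < R1 := by nlinarith
    obtain ⟨i1, i2, i3, i4, i5⟩ := ih h1' h4'
    have hpos : 0 ≤ M * ‖p.2‖ ^ 2 := by positivity
    set q := F^[k] p with hq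
    obtain ⟨a1, a2, a3⟩ := hF q i4 (by linarith)
    have hiter : F^[k + 1] p = F q := by rw [Function.iterate_succ_apply']
    have hq2 : M * ‖q.2‖ ^ 2 ≤ 21 / 20 * (M * ‖p.2‖ ^ 2) := by
      have : ‖q.2‖ ^ 2 ≤ (51 / 50 * ‖p.2‖) ^ 2 := pow_le_pow_left₀ (norm_nonneg _) i5 2
      nlinarith
    have b1 : ‖(F^[k + 1] p).2 - p.2‖ ≤ 2 * ((k + 1 : ℕ) : ℝ) * M * ‖p.2‖ ^ 2 := by
      rw [hiter]
      have e1 := norm_add_le ((F q).2 - q.2) (q.2 - p.2)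
      simp only [sub_add_sub_cancel] at e1
      push_cast
      nlinarith
    have b2 : ‖(F^[k + 1] p).1 - (p.1 + s * (((k + 1 : ℕ) : ℂ) * p.2))‖ ≤
        4 * ((k + 1 : ℕ) : ℝ) ^ 2 * M * ‖p.2‖ ^ 2 := by
      rw [hiter]
      have e0 : (F q).1 - (p.1 + s * (((k + 1 : ℕ) : ℂ) * p.2)) =
          ((F q).1 - (q.1 + s * q.2)) + ((q.1 - (p.1 + s * (k * p.2))) + s * (q.2 - p.2)) := by
        push_cast
        ring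
      rw [e0]
      have e1 := norm_add_le ((F q).1 - (q.1 + s * q.2))
        ((q.1 - (p.1 + s * (k * p.2))) + s * (q.2 - p.2))
      have e2 := norm_add_le (q.1 - (p.1 + s * (k * p.2))) (s * (q.2 - p.2))
      rw [norm_mul s, hs, one_mul] at e2
      push_cast
      nlinarith [mul_nonneg hk hpos]
    obtain ⟨c1, c2⟩ := hstep (k + 1) h1s h4s b1 b2
    refine ⟨b1, b2, ?_, c1, c2⟩
    rw [Function.iterate_succ']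
    exact AnalyticAt.comp (g := F) (f := F^[k]) a1 i3

end Orb

section FA
variable {T J : ℂ × ℂ → ℂ × ℂ} {R1 M rg : ℝ}

theorem TZ_zero (T J : ℂ × ℂ → ℂ × ℂ) (p : ℂ × ℂ) : TZ T J 0 p = p := by
  simp [TZ]

namespace Orb

theorem fwd (hB : BdT T J R1 M rg) (p : ℂ × ℂ) (k : ℕ) (h1 : (k : ℝ) * M * ‖p.2‖ ≤ 1 / 100)
    (h3 : 2 * ‖p.2‖ < rg) (h4 : ‖p.1‖ + 2 * (k : ℝ) * ‖p.2‖ < R1) :
    ‖(T^[k] p).2 - p.2‖ ≤ 2 * (k : ℝ) * M * ‖p.2‖ ^ 2 ∧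
    ‖(T^[k] p).1 - (p.1 - k * p.2)‖ ≤ 4 * (k : ℝ) ^ 2 * M * ‖p.2‖ ^ 2 ∧
    AnalyticAt ℂ (T^[k]) p := by
  obtain ⟨a1, a2, a3, -, -⟩ := iter (s := -1) (by simp) hB.hM (fun p h h' => by
    obtain ⟨b1, b2, b3⟩ := hB.hT p h h'
    refine ⟨b1, b2, ?_⟩
    have e : p.1 + -1 * p.2 = p.1 - p.2 := by ring
    rw [e]
    exact b3) p k h1 h3 h4
  refine ⟨a1, ?_, a3⟩
  have e : p.1 - (k : ℂ) * p.2 = p.1 + -1 * ((k : ℂ) * p.2) := by ring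
  rw [e]
  exact a2

theorem bwd (hB : BdT T J R1 M rg) (p : ℂ × ℂ) (k : ℕ) (h1 : (k : ℝ) * M * ‖p.2‖ ≤ 1 / 100)
    (h3 : 2 * ‖p.2‖ < rg) (h4 : ‖p.1‖ + 2 * (k : ℝ) * ‖p.2‖ < R1) :
    ‖(J^[k] p).2 - p.2‖ ≤ 2 * (k : ℝ) * M * ‖p.2‖ ^ 2 ∧
    ‖(J^[k] p).1 - (p.1 + k * p.2)‖ ≤ 4 * (k : ℝ) ^ 2 * M * ‖p.2‖ ^ 2 ∧
    AnalyticAt ℂ (J^[k]) p ∧ ‖(J^[k] p).1‖ < R1 ∧ ‖(J^[k] p).2‖ ≤ 51 / 50 * ‖p.2‖ := by
  obtain ⟨a1, a2, a3, a4, a5⟩ := iter (s := 1) (by simp) hB.hM (fun p h h' => by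
    obtain ⟨b1, b2, b3, -⟩ := hB.hJ p h h'
    refine ⟨b1, b2, ?_⟩
    rw [one_mul]
    exact b3) p k h1 h3 h4
  refine ⟨a1, ?_, a3, a4, a5⟩
  have e : p.1 + (k : ℂ) * p.2 = p.1 + 1 * ((k : ℂ) * p.2) := by ring
  rw [e]
  exact a2

theorem T_bwd (hB : BdT T J R1 M rg) (p : ℂ × ℂ) (k : ℕ)
    (h1 : ((k + 1 : ℕ) : ℝ) * M * ‖p.2‖ ≤ 1 / 100)
    (h3 : 2 * ‖p.2‖ < rg) (h4 : ‖p.1‖ + 2 * ((k + 1 : ℕ) : ℝ) * ‖p.2‖ < R1) :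
    T (J^[k + 1] p) = J^[k] p := by
  have hM := hB.hM
  have hy := norm_nonneg p.2
  have hk : (0 : ℝ) ≤ k := Nat.cast_nonneg k
  push_cast at h1 h4
  have hMy : 0 ≤ M * ‖p.2‖ := by positivity
  obtain ⟨-, -, -, a4, a5⟩ := bwd hB p k (by nlinarith) h3 (by nlinarith)
  rw [Function.iterate_succ_apply']
  exact (hB.hJ _ a4 (by linarith)).2.2.2

end Orb

theorem TZ_bound (hB : BdT T J R1 M rg) (p : ℂ × ℂ) (k : ℤ) (h1 : |(k : ℝ)| * M * ‖p.2‖ ≤ 1 / 100)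
    (h2 : M * ‖p.2‖ ≤ 1 / 100) (h3 : 2 * ‖p.2‖ < rg) (h4 : ‖p.1‖ + 2 * |(k : ℝ)| * ‖p.2‖ < R1) :
    ‖(TZ T J k p).2 - p.2‖ ≤ 2 * |(k : ℝ)| * M * ‖p.2‖ ^ 2 ∧
    ‖(TZ T J k p).1 - (p.1 - k * p.2)‖ ≤ 4 * |(k : ℝ)| ^ 2 * M * ‖p.2‖ ^ 2 ∧
    AnalyticAt ℂ (TZ T J k) p := by
  by_cases hk : 0 ≤ k
  · have hc : ((k.toNat : ℕ) : ℝ) = |(k : ℝ)| := by
      rw [abs_of_nonneg (by exact_mod_cast hk)]
      exact_mod_cast Int.toNat_of_nonneg hk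
    have hc2 : ((k.toNat : ℕ) : ℂ) = (k : ℂ) := by
      exact_mod_cast Int.toNat_of_nonneg hk
    have hf : TZ T J k = T^[k.toNat] := by
      funext q
      simp [TZ, hk]
    obtain ⟨a1, a2, a3⟩ := Orb.fwd hB p k.toNat (by rw [hc]; exact h1) h3 (by rw [hc]; exact h4)
    rw [hc] at a1 a2
    rw [hc2] at a2
    rw [hf]
    exact ⟨a1, a2, a3⟩
  · have hk' : 0 ≤ -k := by omega
    have hkr : (k : ℝ) ≤ 0 := by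
      exact_mod_cast (by omega : k ≤ 0)
    have hc : (((-k).toNat : ℕ) : ℝ) = |(k : ℝ)| := by
      rw [abs_of_nonpos hkr]
      exact_mod_cast Int.toNat_of_nonneg hk'
    have hc2 : (((-k).toNat : ℕ) : ℂ) = -(k : ℂ) := by
      exact_mod_cast Int.toNat_of_nonneg hk'
    have hf : TZ T J k = J^[(-k).toNat] := by
      funext q
      simp [TZ, hk]
    obtain ⟨a1, a2, a3, -, -⟩ := Orb.bwd hB p (-k).toNat (by rw [hc]; exact h1) h3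
      (by rw [hc]; exact h4)
    rw [hc] at a1 a2
    rw [hc2] at a2
    rw [hf]
    refine ⟨a1, ?_, a3⟩
    have e : p.1 + -(k : ℂ) * p.2 = p.1 - k * p.2 := by ring
    rw [e] at a2
    exact a2

theorem T_TZ (hB : BdT T J R1 M rg) (p : ℂ × ℂ) (k : ℤ) (h1 : |(k : ℝ)| * M * ‖p.2‖ ≤ 1 / 100)
    (h2 : M * ‖p.2‖ ≤ 1 / 100) (h3 : 2 * ‖p.2‖ < rg) (h4 : ‖p.1‖ + 2 * |(k : ℝ)| * ‖p.2‖ < R1) :
    T (TZ T J k p) = TZ T J (k + 1) p := by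
  by_cases hk : 0 ≤ k
  · have hk' : 0 ≤ k + 1 := by omega
    have e : (k + 1).toNat = k.toNat + 1 := by omega
    simp only [TZ, hk, hk', if_true, e, Function.iterate_succ_apply']
  · have hk' : 0 ≤ -k := by omega
    have hkr : (k : ℝ) ≤ 0 := by
      exact_mod_cast (by omega : k ≤ 0)
    have hc : (((-k).toNat : ℕ) : ℝ) = |(k : ℝ)| := by
      rw [abs_of_nonpos hkr]
      exact_mod_cast Int.toNat_of_nonneg hk'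
    have e : (-k).toNat = (-(k + 1)).toNat + 1 := by omega
    have h5 := Orb.T_bwd hB p (-(k + 1)).toNat (by rw [← e, hc]; exact h1) h3
      (by rw [← e, hc]; exact h4)
    rw [← e] at h5
    have h6 : TZ T J k p = J^[(-k).toNat] p := by simp [TZ, hk]
    rw [h6, h5]
    by_cases hk1 : 0 ≤ k + 1
    · have hk2 : k + 1 = 0 := by omega
      simp [TZ, hk2]
    · simp only [TZ, hk1, if_false]

end FA

end Pool.Agent.MP_ae5b4e_an_FLEX
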