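import Pool.Agent.Lib.MP_ae5b4e_an_FLEX.SlopeY
import Pool.Agent.Lib.MP_ae5b4e_an_LAT.NDTaylor

/-!
# MP_ae5b4e_an, flexes: Taylor expansion along the level curves
-/

set_option autoImplicit false

noncomputable section

namespace Pool.Agent.MP_ae5b4e_an_FLEX

open Filter Topology Set Metric
open Pool.Agent.MP_ae5b4e_an_ND (cc cf co Dx Dy Filt)

/-- The data on a ball of `(x₀, 0)`: `R` is the inverse of `S` in the second variable. -/
structure BrY (Yf : ℂ × ℂ → ℂ) (x₀ : ℂ) (S R : ℂ × ℂ → ℂ) (ρ : ℝ) : Prop where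
  ρ_pos : 0 < ρ
  hY : ∀ p ∈ ball ((x₀, 0) : ℂ × ℂ) ρ, AnalyticAt ℂ Yf p
  hY0 : ∀ x, ‖x - x₀‖ < ρ → Yf (x, 0) = 0
  hY1 : ∀ x, ‖x - x₀‖ < ρ → deriv (fun y => Yf (x, y)) 0 = 1
  hS : ∀ p ∈ ball ((x₀, 0) : ℂ × ℂ) ρ, AnalyticAt ℂ S p
  hS0 : ∀ x, ‖x - x₀‖ < ρ → S (x, 0) = 0
  hSy : ∀ p ∈ ball ((x₀, 0) : ℂ × ℂ) ρ, Dy S p ≠ 0
  hR : ∀ p ∈ ball ((x₀, 0) : ℂ × ℂ) ρ, AnalyticAt ℂ R (p.1, S p)
  hRS : ∀ p ∈ ball ((x₀, 0) : ℂ × ℂ) ρ, R (p.1, S p) = p.2
  hRT : ∀ p ∈ ball ((x₀, 0) : ℂ × ℂ) ρ, R (p.1 - Yf p, S p) = Yf p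

namespace TayY

open Pool.Agent.MP_ae5b4e_an_ND

/-- the coefficients of a power of a function vanishing at `0` -/
theorem cf_pow_zero {f : ℂ → ℂ} (hf : AnalyticAt ℂ f 0) (h0 : f 0 = 0) (m i : ℕ) (hi : i < m) :
    cf (fun y => f y ^ m) i = 0 := by
  refine cf_of_isBigO (hf.pow m) (k := m) ?_ hi
  obtain ⟨c, hc⟩ := hf.differentiableAt.isBigO_sub.bound
  refine ⟨|c| ^ m, ?_⟩
  filter_upwards [hc] with y hy
  simp only [h0, sub_zero] at hy
  show ‖f y ^ m‖ ≤ _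
  rw [norm_pow, ← mul_pow]
  have h1 : ‖f y‖ ≤ |c| * ‖y‖ := hy.trans (by gcongr; exact le_abs_self c)
  gcongr

variable {Yf : ℂ × ℂ → ℂ} {x₀ : ℂ} {S R : ℂ × ℂ → ℂ} {ρ : ℝ}

theorem mem (h : BrY Yf x₀ S R ρ) {x : ℂ} (hx : ‖x - x₀‖ < ρ) :
    ((x, 0) : ℂ × ℂ) ∈ Metric.ball ((x₀, 0) : ℂ × ℂ) ρ := by
  rw [← ball_prod_same]
  exact ⟨by rw [Metric.mem_ball, dist_eq_norm]; exact hx, Metric.mem_ball_self h.ρ_pos⟩

theorem PS_analytic (h : BrY Yf x₀ S R ρ) (m : ℕ) :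
    AnalyticOnNhd ℂ (PS S R m) (Metric.ball ((x₀, 0) : ℂ × ℂ) ρ) := by
  intro p hp
  have h1 : AnalyticAt ℂ (fun p : ℂ × ℂ => ((p.1, S p) : ℂ × ℂ)) p :=
    analyticAt_fst.prod (h.hS p hp)
  exact (Dxi_analyticAt (h.hR p hp) m).comp_of_eq h1 rfl

theorem qS_analytic (h : BrY Yf x₀ S R ρ) :
    AnalyticOnNhd ℂ (qS S) (Metric.ball ((x₀, 0) : ℂ × ℂ) ρ) := by
  intro p hp
  exact (Dx_analyticAt (h.hS p hp)).neg.div (Dy_analyticAt (h.hS p hp)) (h.hSy p hp)

theorem PS_succ (h : BrY Yf x₀ S R ρ) (m : ℕ) {p : ℂ × ℂ}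
    (hp : p ∈ Metric.ball ((x₀, 0) : ℂ × ℂ) ρ) :
    PS S R (m + 1) p = Dx (PS S R m) p + Dy (PS S R m) p * qS S p := by
  have h1 := chain_T (T := Dx^[m] R) (S := S) (p := p)
    (Dxi_analyticAt (h.hR p hp) m).differentiableAt (h.hS p hp).differentiableAt
  have e : PS S R m = fun p => (Dx^[m] R) (p.1, S p) := rfl
  rw [e, h1.1, h1.2]
  have h2 := h.hSy p hp
  unfold PS qS
  rw [Function.iterate_succ_apply']
  field_simp
  ring

theorem qS_zero (h : BrY Yf x₀ S R ρ) {x : ℂ} (hx : ‖x - x₀‖ < ρ) : qS S (x, 0) = 0 := by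
  unfold qS
  rw [Dx_eq_deriv (h.hS _ (mem h hx)).differentiableAt]
  have e : (fun t => S (t, 0)) =ᶠ[𝓝 x] fun _ => 0 := by
    have : IsOpen {t : ℂ | ‖t - x₀‖ < ρ} := isOpen_lt (by fun_prop) (by fun_prop)
    filter_upwards [this.mem_nhds hx] with t ht
    exact h.hS0 t ht
  rw [e.deriv_eq]
  simp

theorem cc_eq (h : BrY Yf x₀ S R ρ) (m i : ℕ) {x : ℂ} (hx : ‖x - x₀‖ < ρ) :
    cc (fun _ => 1) (co (qS S)) m i x = co (PS S R m) i x := by
  have hball : IsOpen (Metric.ball ((x₀, 0) : ℂ × ℂ) ρ) := Metric.isOpen_ball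
  have hc : Tendsto (fun y : ℂ => ((x, y) : ℂ × ℂ)) (𝓝 0) (𝓝 (x, 0)) := by
    have : Continuous (fun y : ℂ => ((x, y) : ℂ × ℂ)) := by fun_prop
    exact this.tendsto 0
  have hev := hc.eventually (hball.mem_nhds (mem h hx))
  induction m generalizing i x with
  | zero =>
    rw [cc_zero]
    unfold co
    have e : (fun y => PS S R 0 (x, y)) =ᶠ[𝓝 0] fun y => y := by
      filter_upwards [hev] with y hy
      exact h.hRS _ hy
    rw [cf_congr e, cf_id]
  | succ m ih =>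
    rw [cc_succ]
    beta_reduce
    have hB : IsOpen {t : ℂ | ‖t - x₀‖ < ρ} := isOpen_lt (by fun_prop) (by fun_prop)
    have e0 : ∀ (j : ℕ) (t : ℂ), ‖t - x₀‖ < ρ →
        cc (fun _ => 1) (co (qS S)) m j t = co (PS S R m) j t := by
      intro j t ht
      have hc' : Tendsto (fun y : ℂ => ((t, y) : ℂ × ℂ)) (𝓝 0) (𝓝 (t, 0)) := by
        have : Continuous (fun y : ℂ => ((t, y) : ℂ × ℂ)) := by fun_prop
        exact this.tendsto 0
      exact ih j ht hc' (hc'.eventually (hball.mem_nhds (mem h ht)))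
    have e1 : deriv (cc (fun _ => 1) (co (qS S)) m i) x = deriv (co (PS S R m) i) x := by
      apply Filter.EventuallyEq.deriv_eq
      filter_upwards [hB.mem_nhds hx] with t ht
      exact e0 i t ht
    have e2 : co (PS S R (m + 1)) i x
        = co (fun p => Dx (PS S R m) p + Dy (PS S R m) p * qS S p) i x := by
      unfold co
      apply cf_congr
      filter_upwards [hev] with y hy
      exact PS_succ h m hy
    have hPx := Dx_analyticOn (PS_analytic h m) _ (mem h hx)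
    have hPy := Dy_analyticOn (PS_analytic h m) _ (mem h hx)
    have hq := qS_analytic h _ (mem h hx)
    have hmul : AnalyticAt ℂ (fun p => Dy (PS S R m) p * qS S p) (x, 0) := hPy.mul hq
    rw [e2, co_add hPx hmul, co_mul hPy hq, Finset.sum_range_succ, Nat.sub_self]
    have e3 : co (qS S) 0 x = 0 := by
      unfold co
      rw [cf_zero]
      exact qS_zero h hx
    rw [e3, mul_zero, add_zero, co_Dx hball (PS_analytic h m) i x (mem h hx), e1, one_mul]
    congr 1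
    apply Finset.sum_congr rfl
    intro a _
    rw [co_Dy hball (PS_analytic h m) a x (mem h hx), e0 (a + 1) x hx]
    ring

/-- The remainder of the expansion along the level curve is `O(y ^ (n + 2))`. -/
theorem rem_bound (h : BrY Yf x₀ S R ρ) (n : ℕ) {x : ℂ} (hx : ‖x - x₀‖ < ρ) :
    ∃ C : ℝ, ∀ᶠ y in 𝓝 (0 : ℂ), ‖Yf (x, y) - ∑ m ∈ Finset.range (n + 1),
      (-Yf (x, y)) ^ m / m.factorial * PS S R m (x, y)‖ ≤ C * ‖y‖ ^ (n + 2) := by
  have hball : IsOpen (Metric.ball ((x₀, 0) : ℂ × ℂ) ρ) := Metric.isOpen_ball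
  have hc : Tendsto (fun y : ℂ => ((x, y) : ℂ × ℂ)) (𝓝 0) (𝓝 (x, 0)) := by
    have : Continuous (fun y : ℂ => ((x, y) : ℂ × ℂ)) := by fun_prop
    exact this.tendsto 0
  have hev := hc.eventually (hball.mem_nhds (mem h hx))
  -- `R` is analytic near `(x, 0)`
  have hRx : AnalyticAt ℂ R (x, 0) := by
    have := h.hR _ (mem h hx)
    rwa [h.hS0 x hx] at this
  have hR0 : ∀ᶠ t in 𝓝 x, R (t, 0) = 0 := by
    have hB : IsOpen {t : ℂ | ‖t - x₀‖ < ρ} := isOpen_lt (by fun_prop) (by fun_prop)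
    filter_upwards [hB.mem_nhds hx] with t ht
    have := h.hRS _ (mem h ht)
    rwa [h.hS0 t ht] at this
  have hcd : ContDiffAt ℂ 1 R (x, 0) := hRx.contDiffAt
  obtain ⟨K, t, ht, hK⟩ := hcd.exists_lipschitzOnWith
  obtain ⟨a₁, ha₁, hta⟩ := Metric.mem_nhds_iff.1 ht
  obtain ⟨a₂, ha₂, hRa⟩ := Metric.eventually_nhds_iff_ball.1 hRx.eventually_analyticAt
  obtain ⟨a₃, ha₃, hRz⟩ := Metric.eventually_nhds_iff_ball.1 hR0
  obtain ⟨a, ha, haa₁, haa₂, haa₃⟩ : ∃ a > 0, 2 * a ≤ a₁ ∧ 2 * a ≤ a₂ ∧ 2 * a ≤ a₃ := by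
    refine ⟨min (min a₁ a₂) a₃ / 2, by positivity, ?_, ?_, ?_⟩
    · have := min_le_left (min a₁ a₂) a₃
      have := min_le_left a₁ a₂
      linarith
    · have := min_le_left (min a₁ a₂) a₃
      have := min_le_right a₁ a₂
      linarith
    · have := min_le_right (min a₁ a₂) a₃
      linarith
  -- bound of `R`
  have hRb : ∀ ξ s : ℂ, ‖ξ - x‖ < 2 * a → ‖s‖ < 2 * a → ‖R (ξ, s)‖ ≤ K * ‖s‖ := by
    intro ξ s h1 h2
    have m1 : ((ξ, s) : ℂ × ℂ) ∈ t := hta (by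
      rw [← ball_prod_same]
      exact ⟨by rw [Metric.mem_ball, dist_eq_norm]; linarith,
        by rw [Metric.mem_ball, dist_eq_norm, sub_zero]; linarith⟩)
    have m2 : ((ξ, 0) : ℂ × ℂ) ∈ t := hta (by
      rw [← ball_prod_same]
      exact ⟨by rw [Metric.mem_ball, dist_eq_norm]; linarith,
        by rw [Metric.mem_ball, dist_self]; linarith⟩)
    have h3 := hK.dist_le_mul _ m1 _ m2
    rw [hRz ξ (by rw [Metric.mem_ball, dist_eq_norm]; linarith), dist_zero_right] at h3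
    have h4 : dist ((ξ, s) : ℂ × ℂ) (ξ, 0) = ‖s‖ := by
      rw [Prod.dist_eq]
      simp
    rwa [h4] at h3
  have hRan : AnalyticOnNhd ℂ R (Metric.ball ((x, 0) : ℂ × ℂ) (2 * a)) := fun p hp =>
    hRa p (Metric.ball_subset_ball haa₂ hp)
  -- size of `S (x, y)`
  have hSx : AnalyticAt ℂ (fun y => S (x, y)) 0 := slice_analytic (h.hS _ (mem h hx))
  obtain ⟨K', hK'⟩ : ∃ K' : ℝ, ∀ᶠ y in 𝓝 (0 : ℂ), ‖S (x, y)‖ ≤ K' * ‖y‖ := by
    have h1 := hSx.differentiableAt.isBigO_sub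
    have h2 : S (x, 0) = 0 := h.hS0 x hx
    obtain ⟨c, hc⟩ := h1.bound
    refine ⟨c, ?_⟩
    filter_upwards [hc] with y hy
    simpa [h2] using hy
  have hSsmall : ∀ᶠ y in 𝓝 (0 : ℂ), ‖S (x, y)‖ < 2 * a := by
    have h1 : Tendsto (fun y => ‖S (x, y)‖) (𝓝 0) (𝓝 ‖S (x, 0)‖) :=
      hSx.continuousAt.norm.tendsto
    rw [h.hS0 x hx, norm_zero] at h1
    exact h1.eventually (gt_mem_nhds (by linarith))
  -- size of `Y`
  have hYx : AnalyticAt ℂ (fun y => Yf (x, y)) 0 := slice_analytic (h.hY _ (mem h hx))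
  have hYb : ∀ᶠ y in 𝓝 (0 : ℂ), ‖Yf (x, y)‖ ≤ 2 * ‖y‖ := by
    have h1 : HasDerivAt (fun y => Yf (x, y)) 1 0 := by
      have := hYx.differentiableAt.hasDerivAt
      rwa [h.hY1 x hx] at this
    have h2 := (hasDerivAt_iff_isLittleO.1 h1).bound (show (0:ℝ) < 1 by norm_num)
    filter_upwards [h2] with y hy
    rw [h.hY0 x hx] at hy
    simp only [sub_zero, smul_eq_mul, mul_one, one_mul] at hy
    calc ‖Yf (x, y)‖ = ‖(Yf (x, y) - y) + y‖ := by rw [sub_add_cancel]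
      _ ≤ ‖Yf (x, y) - y‖ + ‖y‖ := norm_add_le _ _
      _ ≤ 2 * ‖y‖ := by linarith
  have hysmall : ∀ᶠ y in 𝓝 (0 : ℂ), ‖y‖ < a / 4 := by
    have h1 : Tendsto (fun y : ℂ => ‖y‖) (𝓝 0) (𝓝 0) := by
      have := (continuous_norm (E := ℂ)).tendsto 0
      simpa using this
    exact h1.eventually (gt_mem_nhds (by linarith))
  refine ⟨2 * (K * K') * (2 / a) ^ (n + 1), ?_⟩
  filter_upwards [hev, hK', hSsmall, hYb, hysmall] with y hy1 hy2 hy3 hy' hy5
  set y' := Yf (x, y) with hy'def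
  have hR1 : R (x + -y', S (x, y)) = y' := by
    have := h.hRT _ hy1
    rw [← sub_eq_add_neg]
    exact this
  have hder : ∀ m, PS S R m (x, y) = iteratedDeriv m (fun t => R (t, S (x, y))) x := by
    intro m
    unfold PS
    exact Dxi_eq Metric.isOpen_ball hRan m x (S (x, y)) (by
      rw [← ball_prod_same]
      exact ⟨Metric.mem_ball_self (by linarith), by rw [Metric.mem_ball, dist_eq_norm, sub_zero]; exact hy3⟩)
  have hfd : DifferentiableOn ℂ (fun t => R (t, S (x, y))) (Metric.ball x (2 * a)) := by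
    intro t ht
    have : AnalyticAt ℂ R (t, S (x, y)) := hRan _ (by
      rw [← ball_prod_same]
      exact ⟨ht, by rw [Metric.mem_ball, dist_eq_norm, sub_zero]; exact hy3⟩)
    exact (slice_analytic' this).differentiableAt.differentiableWithinAt
  have hM : 0 ≤ K * ‖S (x, y)‖ := by positivity
  have key := taylor_rem (f := fun t => R (t, S (x, y))) (c := x) ha (by linarith : a < 2 * a) hM hfd
    (by
      intro z hz
      rw [Metric.mem_sphere, dist_eq_norm] at hz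
      exact hRb z _ (by linarith) hy3) (n + 1) (t := -y') (by
      rw [norm_neg]
      linarith)
  beta_reduce at key
  rw [hR1] at key
  simp only [← hder] at key
  refine key.trans ?_
  rw [norm_neg]
  have hK'0 : 0 ≤ K' * ‖y‖ := (norm_nonneg _).trans hy2
  calc 2 * (K * ‖S (x, y)‖) * (‖y'‖ / a) ^ (n + 1)
      ≤ 2 * (K * (K' * ‖y‖)) * (2 * ‖y‖ / a) ^ (n + 1) := by gcongr
    _ = 2 * (K * K') * (2 / a) ^ (n + 1) * ‖y‖ ^ (n + 2) := by
        rw [div_pow, div_pow, mul_pow]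
        ring

/-- **The recursion.** -/
theorem rec_eq (h : BrY Yf x₀ S R ρ) (n : ℕ) (hn : 1 ≤ n) {x : ℂ} (hx : ‖x - x₀‖ < ρ) :
    co (qS S) n x = slopeRecY (Pc Yf) (co (qS S)) n x := by
  have hdy : AnalyticAt ℂ (fun y : ℂ => Yf (x, y)) 0 := slice_analytic (h.hY _ (mem h hx))
  have hd0 : (fun y : ℂ => Yf (x, y)) 0 = 0 := h.hY0 x hx
  have hP : ∀ m, AnalyticAt ℂ (fun y => PS S R m (x, y)) 0 := fun m =>
    slice_analytic (PS_analytic h m _ (mem h hx))
  have hterm : ∀ m ∈ Finset.range (n + 1), AnalyticAt ℂ (fun y : ℂ =>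
      (-Yf (x, y)) ^ m / m.factorial * PS S R m (x, y)) 0 := by
    intro m _
    exact ((hdy.neg.pow m).div_const).mul (hP m)
  have hsum : AnalyticAt ℂ (fun y : ℂ => ∑ m ∈ Finset.range (n + 1),
      (-Yf (x, y)) ^ m / m.factorial * PS S R m (x, y)) 0 :=
    Finset.analyticAt_fun_sum _ hterm
  have h0 := cf_of_isBigO (hdy.sub hsum) (rem_bound h n hx) (n := n + 1) (by omega)
  have h0' : cf (fun y => Yf (x, y) - ∑ m ∈ Finset.range (n + 1),
      (-Yf (x, y)) ^ m / m.factorial * PS S R m (x, y)) (n + 1) = 0 := h0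
  rw [cf_sub hdy hsum, cf_sum _ hterm] at h0'
  -- the first coefficient
  have e1 : cf (fun y => Yf (x, y)) (n + 1) = Pc Yf 1 n x := by
    unfold Pc
    rw [add_comm 1 n]
    simp only [pow_one]
  -- the coefficients of the products
  have e2 : ∀ m ∈ Finset.range (n + 1), cf (fun y : ℂ =>
      (-Yf (x, y)) ^ m / m.factorial * PS S R m (x, y)) (n + 1)
      = (-1) ^ m / (m.factorial : ℂ) * ∑ j ∈ Finset.range (n + 1 - m + 1),
        Pc Yf m j x * cc (fun _ => 1) (co (qS S)) m (n + 1 - m - j) x := by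
    intro m hm
    rw [Finset.mem_range] at hm
    have : (fun y : ℂ => (-Yf (x, y)) ^ m / m.factorial * PS S R m (x, y))
        = fun y => (-1) ^ m / (m.factorial : ℂ) * (Yf (x, y) ^ m * PS S R m (x, y)) := by
      funext y
      rw [neg_pow]
      ring
    have hpow : AnalyticAt ℂ (fun y : ℂ => Yf (x, y) ^ m) 0 := hdy.pow m
    rw [this, cf_const_mul, cf_mul hpow (hP m)]
    congr 1
    have hsplit : n + 1 + 1 = m + (n + 1 - m + 1) := by omega
    rw [hsplit, Finset.sum_range_add, Finset.sum_eq_zero, zero_add]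
    · apply Finset.sum_congr rfl
      intro j hj
      rw [Finset.mem_range] at hj
      rw [cc_eq h m _ hx]
      have e3 : n + 1 - (m + j) = n + 1 - m - j := by omega
      rw [e3]
      rfl
    · intro i hi
      rw [Finset.mem_range] at hi
      rw [cf_pow_zero hdy hd0 m i hi, zero_mul]
  rw [e1, Finset.sum_congr rfl e2] at h0'
  -- split the sum over `m`
  rw [Finset.range_eq_Ico, Finset.sum_eq_sum_Ico_succ_bot (by omega : 0 < n + 1),
    Finset.sum_eq_sum_Ico_succ_bot (by omega : 0 + 1 < n + 1)] at h0'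
  have t0 : (-1) ^ 0 / ((Nat.factorial 0 : ℕ) : ℂ) * ∑ j ∈ Finset.range (n + 1 - 0 + 1),
        Pc Yf 0 j x * cc (fun _ => 1) (co (qS S)) 0 (n + 1 - 0 - j) x = 0 := by
    rw [Finset.sum_eq_zero, mul_zero]
    intro j _
    rcases Nat.eq_zero_or_pos j with rfl | hj
    · rw [cc_zero, if_neg (by omega)]
      ring
    · have : Pc Yf 0 j x = 0 := by
        unfold Pc cf
        simp only [pow_zero]
        rw [iteratedDeriv_const]
        simp [Nat.pos_iff_ne_zero.1 hj]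
      rw [this, zero_mul]
  have t1 : (-1) ^ (0 + 1) / ((Nat.factorial (0 + 1) : ℕ) : ℂ) *
      ∑ j ∈ Finset.range (n + 1 - (0 + 1) + 1),
        Pc Yf (0 + 1) j x * cc (fun _ => 1) (co (qS S)) (0 + 1) (n + 1 - (0 + 1) - j) x
      = - (co (qS S) n x + ∑ j ∈ Finset.Ico 1 n, Pc Yf 1 j x * co (qS S) (n - j) x) := by
    have hn1 : n + 1 - (0 + 1) + 1 = n + 1 := by omega
    rw [hn1, Finset.range_eq_Ico, Finset.sum_eq_sum_Ico_succ_bot (by omega : 0 < n + 1),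
      Finset.sum_Ico_succ_top (by omega : 0 + 1 ≤ n)]
    have a0 : cc (fun _ => 1) (co (qS S)) (0 + 1) (n + 1 - (0 + 1) - 0) x = co (qS S) n x := by
      have : n + 1 - (0 + 1) - 0 = n := by omega
      rw [this]
      exact cc_one _ _ n hn x
    have a1 : cc (fun _ => 1) (co (qS S)) (0 + 1) (n + 1 - (0 + 1) - n) x = 0 := by
      have : n + 1 - (0 + 1) - n = 0 := by omega
      rw [this, cc_zero_right]
    have a3 : Pc Yf (0 + 1) 0 x = 1 := by
      unfold Pc cf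
      simp only [zero_add, pow_one, add_zero]
      rw [iteratedDeriv_one, h.hY1 x hx]
      simp
    have a2 : ∑ j ∈ Finset.Ico (0 + 1) n, Pc Yf (0 + 1) j x *
          cc (fun _ => 1) (co (qS S)) (0 + 1) (n + 1 - (0 + 1) - j) x
        = ∑ j ∈ Finset.Ico 1 n, Pc Yf 1 j x * co (qS S) (n - j) x := by
      apply Finset.sum_congr rfl
      intro j hj
      rw [Finset.mem_Ico] at hj
      have b1 : n + 1 - (0 + 1) - j = n - j := by omega
      rw [b1]
      have := cc_one (fun _ => 1) (co (qS S)) (n - j) (by omega) x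
      rw [zero_add, this]
    rw [a0, a1, a2, a3]
    simp
  have t2 : ∑ m ∈ Finset.Ico (0 + 1 + 1) (n + 1), (-1) ^ m / (m.factorial : ℂ) *
      ∑ j ∈ Finset.range (n + 1 - m + 1), Pc Yf m j x *
          cc (fun _ => 1) (co (qS S)) m (n + 1 - m - j) x
      = ∑ m ∈ Finset.Icc 2 n, (-1) ^ m / (m.factorial : ℂ) *
      ∑ j ∈ Finset.range (n + 1 - m), Pc Yf m j x *
          cc (fun _ => 1) (co (qS S)) m (n + 1 - m - j) x := by
    have hI : Finset.Ico (0 + 1 + 1) (n + 1) = Finset.Icc 2 n := by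
      ext m
      simp only [Finset.mem_Ico, Finset.mem_Icc]
      omega
    rw [hI]
    apply Finset.sum_congr rfl
    intro m _
    rw [Finset.sum_range_succ, Nat.sub_self, cc_zero_right]
    simp
  rw [t0, t1, t2] at h0'
  unfold slopeRecY
  linear_combination h0'

end TayY

/-- On the ball the Taylor coefficients of the slope are `slopeY (Pc Yf) n`. -/
theorem BrY.co_eq_slopeY {Yf : ℂ × ℂ → ℂ} {x₀ : ℂ} {S R : ℂ × ℂ → ℂ} {ρ : ℝ}
    (h : BrY Yf x₀ S R ρ) (n : ℕ) {x : ℂ} (hx : ‖x - x₀‖ < ρ) :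
    co (fun p => -Dx S p / Dy S p) n x = slopeY (Pc Yf) n x := by
  rcases Nat.eq_zero_or_pos n with rfl | hn
  · rw [slopeY_zero]
    unfold co
    rw [Pool.Agent.MP_ae5b4e_an_ND.cf_zero]
    exact TayY.qS_zero h hx
  · have hB : IsOpen {t : ℂ | ‖t - x₀‖ < ρ} := isOpen_lt (by fun_prop) (by fun_prop)
    exact slopeY_unique_on hB (fun m hm y hy => TayY.rec_eq h m hm hy) n hn hx

end Pool.Agent.MP_ae5b4e_an_FLEX
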